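import Mathlib
import Pool.Agent.H13R3.TaskPZN

/-!
# An almost orthogonal system

`ec k y = y cos (τ_k log y)` and `es k y = y sin (τ_k log y)` with `τ_k = 16 π (k + 1)`.
-/

set_option autoImplicit false

open Finset MeasureTheory

namespace Pool.Agent.Q127.EZ

/-- the nodes -/
noncomputable def tau (k : ℕ) : ℝ := 16 * Real.pi * ((k : ℝ) + 1)

lemma tau_pos (k : ℕ) : 0 < tau k := by unfold tau; positivity

lemma one_add_le_tau (k : ℕ) : 1 + (k : ℝ) ≤ tau k := by
  unfold tau
  have := Real.pi_gt_three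
  have hk : (0 : ℝ) ≤ k := Nat.cast_nonneg k
  nlinarith

lemma tau_le (k : ℕ) : tau k ≤ 64 * (1 + (k : ℝ)) := by
  unfold tau
  have := Real.pi_lt_four
  have hk : (0 : ℝ) ≤ k := Nat.cast_nonneg k
  nlinarith

/-- general orthogonal expansion on an interval -/
lemma sq_int_ab {a b w : ℝ} {e : ℕ → ℝ → ℝ} (he : ∀ j, Continuous (e j))
    (ho : ∀ i j, ∫ t in a..b, e i t * e j t = if i = j then w else 0) (J : Finset ℕ) (A : ℕ → ℝ) :
    ∫ t in a..b, (∑ j ∈ J, A j * e j t) ^ 2 = w * ∑ j ∈ J, A j ^ 2 := by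
  have h1 : ∀ t, (∑ j ∈ J, A j * e j t) ^ 2 = ∑ i ∈ J, ∑ j ∈ J, (A i * A j) * (e i t * e j t) := by
    intro t
    rw [sq, sum_mul_sum]
    refine sum_congr rfl fun i _ => sum_congr rfl fun j _ => by ring
  simp_rw [h1]
  rw [intervalIntegral.integral_finsetSum, mul_sum]
  · apply sum_congr rfl
    intro i hi
    rw [intervalIntegral.integral_finsetSum]
    · simp_rw [intervalIntegral.integral_const_mul, ho]
      rw [sum_eq_single i]
      · rw [if_pos rfl]; ring
      · intro j _ hj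
        simp [hj.symm]
      · intro h; exact absurd hi h
    · intro j _
      exact Continuous.intervalIntegrable (by have := he i; have := he j; fun_prop) _ _
  · intro i _
    exact Continuous.intervalIntegrable (by
      refine continuous_finsetSum _ fun j _ => ?_
      have := he i; have := he j; fun_prop) _ _

lemma int_cos_z (n : ℤ) : ∫ v in (-(1 / 8) : ℝ)..0, Real.cos (16 * Real.pi * n * v) = if n = 0 then 1 / 8 else 0 := by
  split_ifs with h
  · subst h; simp
  · have hk : (16 * Real.pi * n : ℝ) ≠ 0 := by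
      have := Real.pi_pos
      have h2 : (n : ℝ) ≠ 0 := by exact_mod_cast h
      positivity
    rw [intervalIntegral.integral_comp_mul_left (fun t => Real.cos t) hk, integral_cos]
    have : (16 * Real.pi * (n : ℝ) * -(1 / 8)) = ((-2 * n : ℤ) : ℝ) * Real.pi := by push_cast; ring
    rw [this, Real.sin_int_mul_pi]
    simp

lemma orth_cos (i j : ℕ) : ∫ v in (-(1 / 8) : ℝ)..0, Real.cos (tau i * v) * Real.cos (tau j * v) =
    if i = j then 1 / 16 else 0 := by
  have e : ∀ v : ℝ, Real.cos (tau i * v) * Real.cos (tau j * v) =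
      1 / 2 * Real.cos (16 * Real.pi * ((i - j : ℤ)) * v) + 1 / 2 * Real.cos (16 * Real.pi * ((i + j + 2 : ℤ)) * v) := by
    intro v
    have h1 : 16 * Real.pi * (((i:ℤ) - j : ℤ) : ℝ) * v = tau i * v - tau j * v := by
      unfold tau; push_cast; ring
    have h2 : 16 * Real.pi * (((i:ℤ) + j + 2 : ℤ) : ℝ) * v = tau i * v + tau j * v := by
      unfold tau; push_cast; ring
    rw [h1, h2, Real.cos_sub, Real.cos_add]; ring
  simp_rw [e]
  rw [intervalIntegral.integral_add (Continuous.intervalIntegrable (by fun_prop) _ _)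
    (Continuous.intervalIntegrable (by fun_prop) _ _), intervalIntegral.integral_const_mul,
    intervalIntegral.integral_const_mul, int_cos_z, int_cos_z]
  have h1 : ¬ ((i:ℤ) + j + 2 = 0) := by omega
  rw [if_neg h1]
  by_cases hij : i = j
  · subst hij
    rw [if_pos (sub_self _), if_pos rfl]; norm_num
  · have h2 : ¬ ((i:ℤ) - j = 0) := by omega
    rw [if_neg h2, if_neg hij]; ring

lemma orth_sin (i j : ℕ) : ∫ v in (-(1 / 8) : ℝ)..0, Real.sin (tau i * v) * Real.sin (tau j * v) =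
    if i = j then 1 / 16 else 0 := by
  have e : ∀ v : ℝ, Real.sin (tau i * v) * Real.sin (tau j * v) =
      1 / 2 * Real.cos (16 * Real.pi * ((i - j : ℤ)) * v) - 1 / 2 * Real.cos (16 * Real.pi * ((i + j + 2 : ℤ)) * v) := by
    intro v
    have h1 : 16 * Real.pi * (((i:ℤ) - j : ℤ) : ℝ) * v = tau i * v - tau j * v := by
      unfold tau; push_cast; ring
    have h2 : 16 * Real.pi * (((i:ℤ) + j + 2 : ℤ) : ℝ) * v = tau i * v + tau j * v := by
      unfold tau; push_cast; ring
    rw [h1, h2, Real.cos_sub, Real.cos_add]; ring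
  simp_rw [e]
  rw [intervalIntegral.integral_sub (Continuous.intervalIntegrable (by fun_prop) _ _)
    (Continuous.intervalIntegrable (by fun_prop) _ _), intervalIntegral.integral_const_mul,
    intervalIntegral.integral_const_mul, int_cos_z, int_cos_z]
  have h1 : ¬ ((i:ℤ) + j + 2 = 0) := by omega
  rw [if_neg h1]
  by_cases hij : i = j
  · subst hij
    rw [if_pos (sub_self _), if_pos rfl]; norm_num
  · have h2 : ¬ ((i:ℤ) - j = 0) := by omega
    rw [if_neg h2, if_neg hij]; ring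

/-- `y cos (τ_k log y)` -/
noncomputable def ec (k : ℕ) (y : ℝ) : ℝ := y * Real.cos (tau k * Real.log y)

/-- `y sin (τ_k log y)` -/
noncomputable def es (k : ℕ) (y : ℝ) : ℝ := y * Real.sin (tau k * Real.log y)

/-- `y h(log y)` -/
lemma ylog_cont {h : ℝ → ℝ} (hc : Continuous h) {M : ℝ} (hM : ∀ y, |h y| ≤ M) :
    Continuous fun y : ℝ => y * h (Real.log y) := by
  have := Pool.Agent.H13R3.PZN.cont_log hc hM (k := 1) le_rfl
  simpa using this

lemma ec_cont (k : ℕ) : Continuous (ec k) :=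
  ylog_cont (h := fun v => Real.cos (tau k * v)) (by fun_prop) (M := 1) fun _ => Real.abs_cos_le_one _

lemma es_cont (k : ℕ) : Continuous (es k) :=
  ylog_cont (h := fun v => Real.sin (tau k * v)) (by fun_prop) (M := 1) fun _ => Real.abs_sin_le_one _

/-- the mean of a square, for a function of `log y` of period `1/8` -/
lemma per_int {P : ℝ → ℝ} (hP : Continuous P) {M : ℝ} (hM : ∀ v, |P v| ≤ M) (hper : ∀ v, P (v - 1 / 8) = P v) :
    ∫ y in (0:ℝ)..1, (y * P (Real.log y)) ^ 2 ≤ 4 * ∫ v in (-(1 / 8) : ℝ)..0, P v ^ 2 := by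
  set q : ℝ := Real.exp (-(1 / 8)) with hq
  have hq0 : 0 < q := Real.exp_pos _
  have hq1 : q < 1 := by rw [hq, Real.exp_lt_one_iff]; norm_num
  have hlq : Real.log q = -(1 / 8) := Real.log_exp _
  set F : ℝ → ℝ := fun y => (y * P (Real.log y)) ^ 2 with hF
  have hFc : Continuous F := (ylog_cont hP hM).pow 2
  have hscale : ∀ y, 0 < y → F (q * y) = q ^ 2 * F y := by
    intro y hy
    simp only [hF]
    rw [Real.log_mul hq0.ne' hy.ne', hlq, show -(1 / 8) + Real.log y = Real.log y - 1 / 8 by ring, hper]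
    ring
  have h1 : ∫ y in (0:ℝ)..q, F y = q ^ 3 * ∫ y in (0:ℝ)..1, F y := by
    have h2 := intervalIntegral.integral_comp_mul_left (a := 0) (b := 1) F hq0.ne'
    rw [mul_zero, mul_one, smul_eq_mul] at h2
    have h3 : ∫ y in (0:ℝ)..1, F (q * y) = ∫ y in (0:ℝ)..1, q ^ 2 * F y := by
      apply intervalIntegral.integral_congr_ae
      filter_upwards with y hy
      rw [Set.uIoc_of_le zero_le_one] at hy
      exact hscale y hy.1
    rw [h3, intervalIntegral.integral_const_mul] at h2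
    field_simp at h2
    linarith
  have h4 : (∫ y in (0:ℝ)..1, F y) = (∫ y in (0:ℝ)..q, F y) + ∫ y in q..1, F y :=
    (intervalIntegral.integral_add_adjacent_intervals (hFc.intervalIntegrable _ _) (hFc.intervalIntegrable _ _)).symm
  have h5 : ∫ y in q..1, F y ≤ ∫ v in (-(1 / 8) : ℝ)..0, P v ^ 2 := by
    have h6 : ∫ y in q..1, ((fun v => P v ^ 2) ∘ Real.log) y * y⁻¹ = ∫ v in Real.log q..Real.log 1, P v ^ 2 := by
      apply intervalIntegral.integral_comp_mul_deriv (f := Real.log)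
      · intro y hy
        rw [Set.uIcc_of_le hq1.le] at hy
        exact Real.hasDerivAt_log (lt_of_lt_of_le hq0 hy.1).ne'
      · apply ContinuousOn.inv₀ continuousOn_id
        intro y hy
        rw [Set.uIcc_of_le hq1.le] at hy
        exact (lt_of_lt_of_le hq0 hy.1).ne'
      · exact hP.pow 2
    rw [hlq, Real.log_one] at h6
    rw [← h6]
    apply intervalIntegral.integral_mono_on hq1.le (hFc.intervalIntegrable _ _)
    · apply ContinuousOn.intervalIntegrable
      rw [Set.uIcc_of_le hq1.le]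
      intro y hy
      have hy0 : y ≠ 0 := (lt_of_lt_of_le hq0 hy.1).ne'
      have hPy : ContinuousAt (fun y => P (Real.log y)) y := hP.continuousAt.comp (Real.continuousAt_log hy0)
      exact (ContinuousAt.mul (hPy.pow 2) (continuousAt_inv₀ hy0)).continuousWithinAt
    · intro y hy
      have hy0 : 0 < y := lt_of_lt_of_le hq0 hy.1
      simp only [hF, Function.comp_apply]
      rw [mul_pow, mul_comm]
      apply mul_le_mul_of_nonneg_left _ (sq_nonneg _)
      have hy1 : y ≤ 1 := hy.2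
      have h7 : y ^ 2 ≤ 1 := pow_le_one₀ hy0.le hy1
      have h8 : 1 ≤ y⁻¹ := (one_le_inv₀ hy0).2 hy1
      linarith
  have h9 : q ^ 3 ≤ 3 / 4 := by
    have : q ^ 3 = Real.exp (-(3 / 8)) := by
      rw [hq, ← Real.exp_nat_mul]; congr 1; norm_num
    rw [this]
    have h10 := Real.one_sub_inv_le_log_of_pos (show (0:ℝ) < 4 / 3 by norm_num)
    have h11 := Real.log_le_sub_one_of_pos (show (0:ℝ) < 4 / 3 by norm_num)
    have h12 : Real.log (4 / 3) ≤ 3 / 8 := by linarith
    rw [show (3:ℝ) / 4 = Real.exp (-(Real.log (4 / 3))) by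
      rw [Real.exp_neg, Real.exp_log (by norm_num)]; norm_num]
    exact Real.exp_le_exp.2 (by linarith)
  have hF0 : 0 ≤ ∫ y in (0:ℝ)..1, F y := intervalIntegral.integral_nonneg zero_le_one fun y _ => sq_nonneg _
  rw [h1] at h4
  nlinarith

lemma tau_per (k : ℕ) (v : ℝ) : tau k * (v - 1 / 8) = tau k * v - ((k + 1 : ℕ) : ℤ) * (2 * Real.pi) := by
  unfold tau; push_cast; ring

lemma osc_cos (S : Finset ℕ) (A : ℕ → ℝ) : ∫ y in (0:ℝ)..1, (∑ k ∈ S, A k * ec k y) ^ 2 ≤ ∑ k ∈ S, A k ^ 2 := by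
  set P : ℝ → ℝ := fun v => ∑ k ∈ S, A k * Real.cos (tau k * v) with hP
  have hPc : Continuous P := continuous_finsetSum _ fun j _ => by fun_prop
  have e : ∀ y, ∑ k ∈ S, A k * ec k y = y * P (Real.log y) := by
    intro y
    rw [hP, mul_sum]
    exact sum_congr rfl fun k _ => by unfold ec; ring
  simp_rw [e]
  refine (per_int hPc (M := ∑ k ∈ S, |A k|) (fun v => ?_) (fun v => ?_)).trans ?_
  · rw [hP]
    refine (abs_sum_le_sum_abs _ _).trans (sum_le_sum fun i _ => ?_)
    rw [abs_mul]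
    exact mul_le_of_le_one_right (abs_nonneg _) (Real.abs_cos_le_one _)
  · rw [hP]
    refine sum_congr rfl fun k _ => ?_
    rw [tau_per, Real.cos_sub_int_mul_two_pi]
  · rw [hP]
    simp only
    rw [sq_int_ab (e := fun k v => Real.cos (tau k * v)) (fun j => by fun_prop) orth_cos]
    have : 0 ≤ ∑ k ∈ S, A k ^ 2 := sum_nonneg fun _ _ => sq_nonneg _
    linarith

lemma osc_sin (S : Finset ℕ) (A : ℕ → ℝ) : ∫ y in (0:ℝ)..1, (∑ k ∈ S, A k * es k y) ^ 2 ≤ ∑ k ∈ S, A k ^ 2 := by
  set P : ℝ → ℝ := fun v => ∑ k ∈ S, A k * Real.sin (tau k * v) with hP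
  have hPc : Continuous P := continuous_finsetSum _ fun j _ => by fun_prop
  have e : ∀ y, ∑ k ∈ S, A k * es k y = y * P (Real.log y) := by
    intro y
    rw [hP, mul_sum]
    exact sum_congr rfl fun k _ => by unfold es; ring
  simp_rw [e]
  refine (per_int hPc (M := ∑ k ∈ S, |A k|) (fun v => ?_) (fun v => ?_)).trans ?_
  · rw [hP]
    refine (abs_sum_le_sum_abs _ _).trans (sum_le_sum fun i _ => ?_)
    rw [abs_mul]
    exact mul_le_of_le_one_right (abs_nonneg _) (Real.abs_sin_le_one _)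
  · rw [hP]
    refine sum_congr rfl fun k _ => ?_
    rw [tau_per, Real.sin_sub_int_mul_two_pi]
  · rw [hP]
    simp only
    rw [sq_int_ab (e := fun k v => Real.sin (tau k * v)) (fun j => by fun_prop) orth_sin]
    have : 0 ≤ ∑ k ∈ S, A k ^ 2 := sum_nonneg fun _ _ => sq_nonneg _
    linarith

/-- Bessel's inequality from an upper bound of the Gram form -/
lemma bessel_osc {e : ℕ → ℝ → ℝ} (he : ∀ j, Continuous (e j))
    (hC : ∀ (S : Finset ℕ) (A : ℕ → ℝ), ∫ y in (0:ℝ)..1, (∑ k ∈ S, A k * e k y) ^ 2 ≤ ∑ k ∈ S, A k ^ 2)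
    {w : ℝ → ℝ} (hw : Continuous w) {b : ℝ} (hb0 : 0 ≤ b) (hb1 : b ≤ 1) (S : Finset ℕ) :
    ∑ k ∈ S, (∫ y in (0:ℝ)..b, w y * e k y) ^ 2 ≤ ∫ y in (0:ℝ)..b, w y ^ 2 := by
  set A : ℕ → ℝ := fun k => ∫ y in (0:ℝ)..b, w y * e k y with hA
  set E : ℝ → ℝ := fun y => ∑ k ∈ S, A k * e k y with hE
  have hEc : Continuous E := continuous_finsetSum _ fun j _ => by have := he j; fun_prop
  have h0 : 0 ≤ ∫ y in (0:ℝ)..b, (w y - E y) ^ 2 :=
    intervalIntegral.integral_nonneg hb0 fun y _ => sq_nonneg _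
  have h1 : ∀ y, (w y - E y) ^ 2 = w y ^ 2 - 2 * (w y * E y) + E y ^ 2 := fun y => by ring
  simp_rw [h1] at h0
  rw [intervalIntegral.integral_add (Continuous.intervalIntegrable (by fun_prop) _ _)
    (Continuous.intervalIntegrable (by fun_prop) _ _), intervalIntegral.integral_sub
    (Continuous.intervalIntegrable (by fun_prop) _ _)
    (Continuous.intervalIntegrable (by fun_prop) _ _), intervalIntegral.integral_const_mul] at h0
  have h2 : ∫ y in (0:ℝ)..b, w y * E y = ∑ k ∈ S, A k ^ 2 := by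
    simp_rw [hE, mul_sum]
    rw [intervalIntegral.integral_finsetSum]
    · apply sum_congr rfl
      intro k hk
      have : ∀ t, w t * (A k * e k t) = A k * (w t * e k t) := fun t => by ring
      simp_rw [this]
      rw [intervalIntegral.integral_const_mul, sq]
    · intro j _
      exact Continuous.intervalIntegrable (by have := he j; fun_prop) _ _
  have h3 : ∫ y in (0:ℝ)..b, E y ^ 2 ≤ ∑ k ∈ S, A k ^ 2 := by
    refine le_trans ?_ (hC S A)
    apply intervalIntegral.integral_mono_interval le_rfl hb0 hb1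
    · filter_upwards with y
      exact sq_nonneg _
    · exact (hEc.pow 2).intervalIntegrable _ _
  rw [h2] at h0
  linarith

/-- on `[0, 2]` -/
lemma osc_two {P : ℝ → ℝ} (hP : Continuous P) {M : ℝ} (hM : ∀ v, |P v| ≤ M) (hper : ∀ v, P (v - 1 / 8) = P v) :
    ∫ y in (0:ℝ)..2, (y * P (Real.log y)) ^ 2 ≤ 16 * ∫ y in (0:ℝ)..1, (y * P (Real.log y)) ^ 2 := by
  set F : ℝ → ℝ := fun y => (y * P (Real.log y)) ^ 2 with hF
  have hFc : Continuous F := (ylog_cont hP hM).pow 2
  set Q : ℝ := Real.exp (3 / 4) with hQ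
  have hQ0 : 0 < Q := Real.exp_pos _
  have hQ2 : 2 ≤ Q := by
    rw [hQ, ← Real.log_le_iff_le_exp (by norm_num)]
    have := Real.log_two_lt_d9
    linarith
  have hlQ : Real.log Q = 3 / 4 := Real.log_exp _
  have hper6 : ∀ v, P (3 / 4 + v) = P v := by
    intro v
    have h1 := hper (v + 3 / 4)
    have h2 := hper (v + 5 / 8)
    have h3 := hper (v + 1 / 2)
    have h4 := hper (v + 3 / 8)
    have h5 := hper (v + 1 / 4)
    have h6 := hper (v + 1 / 8)
    rw [show v + 3 / 4 - 1 / 8 = v + 5 / 8 by ring] at h1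
    rw [show v + 5 / 8 - 1 / 8 = v + 1 / 2 by ring] at h2
    rw [show v + 1 / 2 - 1 / 8 = v + 3 / 8 by ring] at h3
    rw [show v + 3 / 8 - 1 / 8 = v + 1 / 4 by ring] at h4
    rw [show v + 1 / 4 - 1 / 8 = v + 1 / 8 by ring] at h5
    rw [show v + 1 / 8 - 1 / 8 = v by ring] at h6
    rw [add_comm, ← h1, ← h2, ← h3, ← h4, ← h5, ← h6]
  have h2 := intervalIntegral.integral_comp_mul_left (a := 0) (b := 1) F hQ0.ne'
  rw [mul_zero, mul_one, smul_eq_mul] at h2
  have h3 : ∫ y in (0:ℝ)..1, F (Q * y) = ∫ y in (0:ℝ)..1, Q ^ 2 * F y := by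
    apply intervalIntegral.integral_congr_ae
    filter_upwards with y hy
    rw [Set.uIoc_of_le zero_le_one] at hy
    simp only [hF]
    rw [Real.log_mul hQ0.ne' hy.1.ne', hlQ, hper6]
    ring
  rw [h3, intervalIntegral.integral_const_mul] at h2
  have h4 : ∫ y in (0:ℝ)..Q, F y = Q ^ 3 * ∫ y in (0:ℝ)..1, F y := by
    field_simp at h2
    linarith
  have h5 : ∫ y in (0:ℝ)..2, F y ≤ ∫ y in (0:ℝ)..Q, F y := by
    apply intervalIntegral.integral_mono_interval le_rfl (by norm_num) hQ2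
    · filter_upwards with y
      exact sq_nonneg _
    · exact hFc.intervalIntegrable _ _
  have h6 : Q ^ 3 ≤ 16 := by
    have e1 : Q ^ 3 = Real.exp (9 / 4) := by
      rw [hQ, ← Real.exp_nat_mul]; congr 1; norm_num
    rw [e1]
    have h7 := Real.exp_one_lt_d9
    have h8 : Real.exp (9 / 4) ≤ Real.exp 1 * Real.exp 1 * Real.exp (1 / 4) := by
      rw [← Real.exp_add, ← Real.exp_add]
      exact Real.exp_le_exp.2 (by norm_num)
    have h9 : Real.exp (1 / 4) ≤ 2 := by
      rw [← Real.le_log_iff_exp_le (by norm_num)]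
      have := Real.log_two_gt_d9
      linarith
    have h10 : 0 < Real.exp 1 := Real.exp_pos _
    have h11 : Real.exp 1 * Real.exp 1 ≤ 2.7182818286 * 2.7182818286 := by nlinarith
    nlinarith [Real.exp_pos (1 / 4)]
  have h7 : 0 ≤ ∫ y in (0:ℝ)..1, F y := intervalIntegral.integral_nonneg zero_le_one fun y _ => sq_nonneg _
  rw [h4] at h5
  refine h5.trans ?_
  exact mul_le_mul_of_nonneg_right h6 h7

end Pool.Agent.Q127.EZ
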