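import Mathlib
import Pool.Agent.Q127.EZ.Osc
import Pool.Agent.H469R10.HO.N3

/-!
# The free data
-/

set_option autoImplicit false

open Finset MeasureTheory

namespace Pool.Agent.Q127.EZ

open Pool.Agent.H469R10.HO

/-- raised cosine -/
noncomputable def rc (v : ℝ) : ℝ := if |v| ≤ 1 / 8 then (1 + Real.cos (8 * Real.pi * v)) / 2 else 0

/-- its derivative -/
noncomputable def rc' (v : ℝ) : ℝ := if |v| ≤ 1 / 8 then -(4 * Real.pi * Real.sin (8 * Real.pi * v)) else 0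

lemma cos_end {v : ℝ} (h : |v| = 1 / 8) : Real.cos (8 * Real.pi * v) = -1 := by
  rcases abs_eq (by norm_num : (0:ℝ) ≤ 1 / 8) |>.1 h with h1 | h1
  · rw [h1, show 8 * Real.pi * (1 / 8) = Real.pi by ring, Real.cos_pi]
  · rw [h1, show 8 * Real.pi * (-(1 / 8)) = -Real.pi by ring, Real.cos_neg, Real.cos_pi]

lemma sin_end {v : ℝ} (h : |v| = 1 / 8) : Real.sin (8 * Real.pi * v) = 0 := by
  rcases abs_eq (by norm_num : (0:ℝ) ≤ 1 / 8) |>.1 h with h1 | h1
  · rw [h1, show 8 * Real.pi * (1 / 8) = Real.pi by ring, Real.sin_pi]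
  · rw [h1, show 8 * Real.pi * (-(1 / 8)) = -Real.pi by ring, Real.sin_neg, Real.sin_pi, neg_zero]

lemma rc_cont : Continuous rc := by
  unfold rc
  refine Continuous.if_le (by fun_prop) (by fun_prop) (by fun_prop) (by fun_prop) ?_
  intro x hx
  rw [cos_end hx]; norm_num

lemma rc'_cont : Continuous rc' := by
  unfold rc'
  refine Continuous.if_le (by fun_prop) (by fun_prop) (by fun_prop) (by fun_prop) ?_
  intro x hx
  rw [sin_end hx]; norm_num

lemma rc_zero {v : ℝ} (h : 1 / 8 ≤ |v|) : rc v = 0 := by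
  unfold rc
  split_ifs with h1
  · rw [cos_end (le_antisymm h1 h)]; norm_num
  · rfl

lemma rc'_zero {v : ℝ} (h : 1 / 8 ≤ |v|) : rc' v = 0 := by
  unfold rc'
  split_ifs with h1
  · rw [sin_end (le_antisymm h1 h)]; norm_num
  · rfl

lemma rc_nonneg (v : ℝ) : 0 ≤ rc v := by
  unfold rc
  split_ifs
  · have := Real.neg_one_le_cos (8 * Real.pi * v); linarith
  · exact le_rfl

lemma rc_le_one (v : ℝ) : rc v ≤ 1 := by
  unfold rc
  split_ifs
  · have := Real.cos_le_one (8 * Real.pi * v); linarith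
  · norm_num

lemma rc_abs (v : ℝ) : |rc v| ≤ 1 := by rw [abs_of_nonneg (rc_nonneg v)]; exact rc_le_one v

lemma rc_neg (v : ℝ) : rc (-v) = rc v := by
  unfold rc
  rw [abs_neg, mul_neg, Real.cos_neg]

lemma rc'_abs (v : ℝ) : |rc' v| ≤ 4 * Real.pi := by
  unfold rc'
  have hp := Real.pi_pos
  split_ifs
  · rw [abs_neg, abs_mul, abs_of_pos (by positivity)]
    exact mul_le_of_le_one_right (by positivity) (Real.abs_sin_le_one _)
  · rw [abs_zero]; positivity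

lemma cosf_deriv (v : ℝ) : HasDerivAt (fun v : ℝ => (1 + Real.cos (8 * Real.pi * v)) / 2)
    (-(4 * Real.pi * Real.sin (8 * Real.pi * v))) v := by
  have h1 := (((hasDerivAt_id v).const_mul (8 * Real.pi)).cos.const_add 1).div_const 2
  simp only [id, mul_one] at h1
  refine h1.congr_deriv ?_
  ring

lemma rc_deriv (v : ℝ) : HasDerivAt rc (rc' v) v := by
  rcases lt_trichotomy |v| (1 / 8) with h | h | h
  · have e : rc' v = -(4 * Real.pi * Real.sin (8 * Real.pi * v)) := by unfold rc'; rw [if_pos h.le]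
    rw [e]
    refine (cosf_deriv v).congr_of_eventuallyEq ?_
    have : ∀ᶠ w in nhds v, |w| < 1 / 8 := continuous_abs.continuousAt.eventually (gt_mem_nhds h)
    filter_upwards [this] with w hw
    unfold rc
    rw [if_pos hw.le]
  · have e : rc' v = 0 := rc'_zero h.ge
    have e0 : rc v = 0 := rc_zero h.ge
    rw [e]
    have hd := cosf_deriv v
    rw [sin_end h, mul_zero, neg_zero] at hd
    have hv0 : (1 + Real.cos (8 * Real.pi * v)) / 2 = 0 := by rw [cos_end h]; norm_num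
    rw [hasDerivAt_iff_isLittleO] at hd ⊢
    rw [Asymptotics.isLittleO_iff] at hd ⊢
    intro c hc
    filter_upwards [hd hc] with w hw
    rw [e0]
    rw [hv0] at hw
    simp only [sub_zero, smul_zero] at hw ⊢
    refine le_trans ?_ hw
    unfold rc
    split_ifs
    · exact le_rfl
    · rw [norm_zero]; exact norm_nonneg _
  · have e : rc' v = 0 := rc'_zero h.le
    rw [e]
    refine (hasDerivAt_const v (0:ℝ)).congr_of_eventuallyEq ?_
    have : ∀ᶠ w in nhds v, 1 / 8 < |w| := continuous_abs.continuousAt.eventually (lt_mem_nhds h)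
    filter_upwards [this] with w hw
    exact rc_zero hw.le

/-- the `k`-th source function -/
noncomputable def sk (m k : ℕ) (x : ℝ) : ℝ := x ^ m * (rc (Real.log x) * Real.cos (tau k * Real.log x))

section fin

variable (S : Finset ℕ) (β : ℕ → ℝ)

/-- cosine sum -/
noncomputable def Pc (v : ℝ) : ℝ := ∑ k ∈ S, β k * Real.cos (tau k * v)

/-- sine sum -/
noncomputable def Ps (v : ℝ) : ℝ := ∑ k ∈ S, β k * Real.sin (tau k * v)

lemma Pc_cont : Continuous (Pc S β) := continuous_finsetSum _ fun j _ => by fun_prop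

lemma Ps_cont : Continuous (Ps S β) := continuous_finsetSum _ fun j _ => by fun_prop

lemma Pc_bd (v : ℝ) : |Pc S β v| ≤ ∑ k ∈ S, |β k| := by
  refine (abs_sum_le_sum_abs _ _).trans (sum_le_sum fun i _ => ?_)
  rw [abs_mul]
  exact mul_le_of_le_one_right (abs_nonneg _) (Real.abs_cos_le_one _)

lemma Ps_bd (v : ℝ) : |Ps S β v| ≤ ∑ k ∈ S, |β k| := by
  refine (abs_sum_le_sum_abs _ _).trans (sum_le_sum fun i _ => ?_)
  rw [abs_mul]
  exact mul_le_of_le_one_right (abs_nonneg _) (Real.abs_sin_le_one _)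

lemma Pc_per (v : ℝ) : Pc S β (v - 1 / 8) = Pc S β v := by
  unfold Pc
  refine sum_congr rfl fun k _ => ?_
  rw [tau_per, Real.cos_sub_int_mul_two_pi]

lemma Ps_per (v : ℝ) : Ps S β (v - 1 / 8) = Ps S β v := by
  unfold Ps
  refine sum_congr rfl fun k _ => ?_
  rw [tau_per, Real.sin_sub_int_mul_two_pi]

lemma Pc_int : ∫ y in (0:ℝ)..2, (y * Pc S β (Real.log y)) ^ 2 ≤ 16 * ∑ k ∈ S, β k ^ 2 := by
  refine (osc_two (Pc_cont S β) (Pc_bd S β) (Pc_per S β)).trans ?_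
  refine mul_le_mul_of_nonneg_left (le_trans (le_of_eq ?_) (osc_cos S β)) (by norm_num)
  congr 1
  funext y
  congr 1
  unfold Pc
  rw [mul_sum]
  exact sum_congr rfl fun k _ => by unfold ec; ring

lemma Ps_int : ∫ y in (0:ℝ)..2, (y * Ps S β (Real.log y)) ^ 2 ≤ 16 * ∑ k ∈ S, β k ^ 2 := by
  refine (osc_two (Ps_cont S β) (Ps_bd S β) (Ps_per S β)).trans ?_
  refine mul_le_mul_of_nonneg_left (le_trans (le_of_eq ?_) (osc_sin S β)) (by norm_num)
  congr 1
  funext y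
  congr 1
  unfold Ps
  rw [mul_sum]
  exact sum_congr rfl fun k _ => by unfold es; ring

lemma Pc_deriv (v : ℝ) : HasDerivAt (Pc S β) (-(Ps S (fun k => β k * tau k) v)) v := by
  unfold Pc Ps
  rw [← sum_neg_distrib]
  refine HasDerivAt.fun_sum fun k _ => ?_
  have h := (((hasDerivAt_id v).const_mul (tau k)).cos).const_mul (β k)
  simp only [id, mul_one] at h
  refine h.congr_deriv ?_
  ring

/-- profile of the finite source in the variable `log x` -/
noncomputable def gS (v : ℝ) : ℝ := rc v * Pc S β v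

noncomputable def gS' (v : ℝ) : ℝ := rc' v * Pc S β v + rc v * -(Ps S (fun k => β k * tau k) v)

lemma gS_deriv (v : ℝ) : HasDerivAt (gS S β) (gS' S β v) v := (rc_deriv v).mul (Pc_deriv S β v)

lemma gS_cont : Continuous (gS S β) := rc_cont.mul (Pc_cont S β)

lemma gS'_cont : Continuous (gS' S β) :=
  (rc'_cont.mul (Pc_cont S β)).add (rc_cont.mul (Ps_cont S _).neg)

lemma gS_bd (v : ℝ) : |gS S β v| ≤ ∑ k ∈ S, |β k| := by
  unfold gS
  rw [abs_mul]
  calc |rc v| * |Pc S β v| ≤ 1 * ∑ k ∈ S, |β k| :=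
        mul_le_mul (rc_abs v) (Pc_bd S β v) (abs_nonneg _) zero_le_one
    _ = _ := one_mul _

lemma gS'_bd (v : ℝ) : |gS' S β v| ≤ 4 * Real.pi * ∑ k ∈ S, |β k| + ∑ k ∈ S, |β k * tau k| := by
  unfold gS'
  refine (abs_add_le _ _).trans (add_le_add ?_ ?_)
  · rw [abs_mul]
    exact mul_le_mul (rc'_abs v) (Pc_bd S β v) (abs_nonneg _) (by positivity)
  · rw [abs_mul, abs_neg]
    calc |rc v| * |Ps S (fun k => β k * tau k) v| ≤ 1 * ∑ k ∈ S, |β k * tau k| :=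
          mul_le_mul (rc_abs v) (Ps_bd S _ v) (abs_nonneg _) zero_le_one
      _ = _ := one_mul _

variable {S β}

lemma sum_sk (m : ℕ) (x : ℝ) : ∑ k ∈ S, β k * sk m k x = x ^ m * gS S β (Real.log x) := by
  unfold sk gS Pc
  rw [mul_sum, mul_sum]
  exact sum_congr rfl fun k _ => by ring

lemma sk_cont {m : ℕ} (hm : 1 ≤ m) (k : ℕ) : Continuous (sk m k) :=
  Pool.Agent.H13R3.PZN.cont_log (h := fun v => rc v * Real.cos (tau k * v)) (rc_cont.mul (by fun_prop))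
    (M := 1) (fun v => by
      rw [abs_mul]
      exact mul_le_one₀ (rc_abs v) (abs_nonneg _) (Real.abs_cos_le_one _)) hm

lemma pow_le_aux {x : ℝ} (hx : 0 < x) (hlx : |Real.log x| ≤ 1 / 8) (n : ℕ) :
    x ^ (2 * n) ≤ Real.exp (n / 4) := by
  have h1 : x ≤ Real.exp (1 / 8) := by
    rw [← Real.log_le_iff_le_exp hx]
    exact (le_abs_self _).trans hlx
  calc x ^ (2 * n) ≤ Real.exp (1 / 8) ^ (2 * n) := pow_le_pow_left₀ hx.le h1 _
    _ = Real.exp (n / 4) := by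
        rw [← Real.exp_nat_mul]; congr 1; push_cast; ring

/-- `x ^ (2 m) ρ(log x)^2 ≤ e^{(m-1)/4} x^2` for `ρ` supported in `[-1/8, 1/8]` and bounded by `1` -/
lemma sup_aux {ρ : ℝ → ℝ} {C : ℝ} (hρ : ∀ v, |ρ v| ≤ C) (hz : ∀ v, 1 / 8 ≤ |v| → ρ v = 0) (n : ℕ) {x : ℝ}
    (hx : 0 ≤ x) : (x ^ (n + 1) * ρ (Real.log x)) ^ 2 ≤ Real.exp (n / 4) * (C ^ 2 * x ^ 2) := by
  rcases hx.eq_or_lt with h | h
  · subst h
    have : (0:ℝ) ^ (n + 1) = 0 := zero_pow (by omega)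
    rw [this]; simp
  · rcases le_total |Real.log x| (1 / 8) with h1 | h1
    · have h2 := pow_le_aux h h1 n
      have h3 : ρ (Real.log x) ^ 2 ≤ C ^ 2 := by
        rw [← sq_abs]; exact pow_le_pow_left₀ (abs_nonneg _) (hρ _) 2
      calc (x ^ (n + 1) * ρ (Real.log x)) ^ 2 = x ^ (2 * n) * (ρ (Real.log x) ^ 2 * x ^ 2) := by ring
        _ ≤ Real.exp (n / 4) * (C ^ 2 * x ^ 2) := by gcongr
    · rw [hz _ h1]
      simp only [mul_zero, ne_eq, OfNat.ofNat_ne_zero, not_false_eq_true, zero_pow]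
      positivity

lemma src_int {m : ℕ} (hm : 1 ≤ m) : ∫ x in (0:ℝ)..2, (x ^ m * gS S β (Real.log x)) ^ 2 ≤
    16 * Real.exp (m / 4) * ∑ k ∈ S, β k ^ 2 := by
  have hc : Continuous fun x : ℝ => x ^ m * gS S β (Real.log x) :=
    Pool.Agent.H13R3.PZN.cont_log (gS_cont S β) (gS_bd S β) hm
  have hc2 := ylog_cont (Pc_cont S β) (Pc_bd S β)
  have h1 : ∫ x in (0:ℝ)..2, (x ^ m * gS S β (Real.log x)) ^ 2 ≤
      ∫ x in (0:ℝ)..2, Real.exp (m / 4) * (x * Pc S β (Real.log x)) ^ 2 := by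
    apply intervalIntegral.integral_mono_on (by norm_num) ((hc.pow 2).intervalIntegrable _ _)
      (((hc2.pow 2).const_mul _).intervalIntegrable _ _)
    intro x hx
    obtain ⟨n, rfl⟩ : ∃ n, m = n + 1 := ⟨m - 1, by omega⟩
    have h2 := sup_aux (ρ := rc) (C := 1) rc_abs (fun v hv => rc_zero hv) n hx.1
    have h3 : Real.exp (n / 4) ≤ Real.exp (((n + 1 : ℕ) : ℝ) / 4) := Real.exp_le_exp.2 (by push_cast; linarith)
    unfold gS
    calc ((fun x : ℝ => x ^ (n + 1) * (rc (Real.log x) * Pc S β (Real.log x))) ^ 2) x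
        = (x ^ (n + 1) * rc (Real.log x)) ^ 2 * Pc S β (Real.log x) ^ 2 := by
          simp only [Pi.pow_apply]; ring
      _ ≤ (Real.exp (((n + 1 : ℕ) : ℝ) / 4) * (1 ^ 2 * x ^ 2)) * Pc S β (Real.log x) ^ 2 := by
          apply mul_le_mul_of_nonneg_right _ (sq_nonneg _)
          exact h2.trans (mul_le_mul_of_nonneg_right h3 (by positivity))
      _ = _ := by simp only [Pi.pow_apply]; ring
  refine h1.trans ?_
  rw [intervalIntegral.integral_const_mul]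
  have := Pc_int S β
  calc Real.exp (m / 4) * ∫ x in (0:ℝ)..2, (x * Pc S β (Real.log x)) ^ 2 ≤
      Real.exp (m / 4) * (16 * ∑ k ∈ S, β k ^ 2) := mul_le_mul_of_nonneg_left this (Real.exp_pos _).le
    _ = _ := by ring

lemma src_int' {m : ℕ} (hm : 2 ≤ m) :
    ∫ x in (0:ℝ)..2, (m * (x ^ (m - 1) * gS S β (Real.log x)) + x ^ (m - 1) * gS' S β (Real.log x)) ^ 2 ≤
    48 * Real.exp (m / 4) * (m ^ 2 + 4300) * ∑ k ∈ S, (1 + (k : ℝ)) ^ 2 * β k ^ 2 := by
  have hc1 : Continuous fun x : ℝ => x ^ (m - 1) * gS S β (Real.log x) :=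
    Pool.Agent.H13R3.PZN.cont_log (gS_cont S β) (gS_bd S β) (by omega)
  have hc2 : Continuous fun x : ℝ => x ^ (m - 1) * gS' S β (Real.log x) :=
    Pool.Agent.H13R3.PZN.cont_log (gS'_cont S β) (gS'_bd S β) (by omega)
  have hp1 := ylog_cont (Pc_cont S β) (Pc_bd S β)
  have hp2 := ylog_cont (Ps_cont S (fun k => β k * tau k)) (Ps_bd S (fun k => β k * tau k))
  have hp1' : Continuous fun y : ℝ => (y * Pc S β (Real.log y)) ^ 2 := hp1.pow 2
  have hp2' : Continuous fun y : ℝ => (y * Ps S (fun k => β k * tau k) (Real.log y)) ^ 2 := hp2.pow 2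
  obtain ⟨n, rfl⟩ : ∃ n, m = n + 2 := ⟨m - 2, by omega⟩
  have e0 : n + 2 - 1 = n + 1 := by omega
  rw [e0] at hc1 hc2 ⊢
  have hpi : Real.pi < 3.1416 := Real.pi_lt_d4
  have hpi0 := Real.pi_pos
  have hpi2 : (4 * Real.pi) ^ 2 ≤ 160 := by nlinarith
  set E : ℝ := Real.exp (((n + 2 : ℕ) : ℝ) / 4) with hE
  have hE0 : 0 < E := Real.exp_pos _
  have h3 : Real.exp (n / 4) ≤ E := Real.exp_le_exp.2 (by push_cast; linarith)
  have h1 : ∫ x in (0:ℝ)..2, (((n + 2 : ℕ) : ℝ) * (x ^ (n + 1) * gS S β (Real.log x)) + x ^ (n + 1) * gS' S β (Real.log x)) ^ 2 ≤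
      ∫ x in (0:ℝ)..2, ((3 * E * (((n + 2 : ℕ) : ℝ) ^ 2 + 160)) * (x * Pc S β (Real.log x)) ^ 2 +
        (3 * E) * (x * Ps S (fun k => β k * tau k) (Real.log x)) ^ 2) := by
    apply intervalIntegral.integral_mono_on (by norm_num) ((((hc1.const_mul _).add hc2).pow 2).intervalIntegrable _ _)
      (((hp1'.const_mul _).add (hp2'.const_mul _)).intervalIntegrable _ _)
    intro x hx
    have h2 := sup_aux (ρ := rc) (C := 1) rc_abs (fun v hv => rc_zero hv) n hx.1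
    have h2' := sup_aux (ρ := rc') (C := 4 * Real.pi) rc'_abs (fun v hv => rc'_zero hv) n hx.1
    set a := x ^ (n + 1) * rc (Real.log x) with ha
    set b := x ^ (n + 1) * rc' (Real.log x) with hb
    set P := Pc S β (Real.log x) with hP
    set R := Ps S (fun k => β k * tau k) (Real.log x) with hR
    have ea : a ^ 2 ≤ E * x ^ 2 := by
      refine h2.trans ?_
      rw [one_pow, one_mul]
      exact mul_le_mul_of_nonneg_right h3 (by positivity)
    have eb : b ^ 2 ≤ 160 * (E * x ^ 2) := by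
      refine h2'.trans ?_
      calc Real.exp (n / 4) * ((4 * Real.pi) ^ 2 * x ^ 2) ≤ E * (160 * x ^ 2) := by gcongr
        _ = _ := by ring
    have ex : ((n + 2 : ℕ) : ℝ) * (x ^ (n + 1) * gS S β (Real.log x)) + x ^ (n + 1) * gS' S β (Real.log x) =
        ((n + 2 : ℕ) : ℝ) * (a * P) + b * P - a * R := by
      rw [ha, hb, hP, hR]; unfold gS gS'; ring
    have hsq : (((n + 2 : ℕ) : ℝ) * (a * P) + b * P - a * R) ^ 2 ≤
        3 * (((n + 2 : ℕ) : ℝ) ^ 2 * (a ^ 2 * P ^ 2)) + 3 * (b ^ 2 * P ^ 2) + 3 * (a ^ 2 * R ^ 2) := by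
      nlinarith [sq_nonneg (((n + 2 : ℕ) : ℝ) * (a * P) - b * P), sq_nonneg (((n + 2 : ℕ) : ℝ) * (a * P) + a * R),
        sq_nonneg (b * P + a * R)]
    simp only [Pi.pow_apply, Pi.add_apply]
    rw [ex]
    refine hsq.trans ?_
    have g1 : a ^ 2 * P ^ 2 ≤ (E * x ^ 2) * P ^ 2 := mul_le_mul_of_nonneg_right ea (sq_nonneg _)
    have g2 : b ^ 2 * P ^ 2 ≤ (160 * (E * x ^ 2)) * P ^ 2 := mul_le_mul_of_nonneg_right eb (sq_nonneg _)
    have g3 : a ^ 2 * R ^ 2 ≤ (E * x ^ 2) * R ^ 2 := mul_le_mul_of_nonneg_right ea (sq_nonneg _)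
    have g4 : ((n + 2 : ℕ) : ℝ) ^ 2 * (a ^ 2 * P ^ 2) ≤ ((n + 2 : ℕ) : ℝ) ^ 2 * ((E * x ^ 2) * P ^ 2) :=
      mul_le_mul_of_nonneg_left g1 (sq_nonneg _)
    nlinarith
  refine h1.trans ?_
  rw [intervalIntegral.integral_add (((hp1'.const_mul _)).intervalIntegrable _ _)
    ((hp2'.const_mul _).intervalIntegrable _ _), intervalIntegral.integral_const_mul,
    intervalIntegral.integral_const_mul]
  have i1 := Pc_int S β
  have i2 := Ps_int S (fun k => β k * tau k)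
  have s1 : ∑ k ∈ S, β k ^ 2 ≤ ∑ k ∈ S, (1 + (k : ℝ)) ^ 2 * β k ^ 2 := by
    apply sum_le_sum
    intro k _
    have hk : (0:ℝ) ≤ k := Nat.cast_nonneg k
    nlinarith [sq_nonneg (β k), mul_nonneg hk (sq_nonneg (β k)), mul_nonneg (mul_nonneg hk hk) (sq_nonneg (β k))]
  have s2 : ∑ k ∈ S, (β k * tau k) ^ 2 ≤ 4096 * ∑ k ∈ S, (1 + (k : ℝ)) ^ 2 * β k ^ 2 := by
    rw [mul_sum]
    apply sum_le_sum
    intro k _
    have h4 := tau_le k
    have h5 := (tau_pos k).le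
    have h6 : tau k ^ 2 ≤ (64 * (1 + (k:ℝ))) ^ 2 := pow_le_pow_left₀ h5 h4 2
    calc (β k * tau k) ^ 2 = tau k ^ 2 * β k ^ 2 := by ring
      _ ≤ (64 * (1 + (k:ℝ))) ^ 2 * β k ^ 2 := mul_le_mul_of_nonneg_right h6 (sq_nonneg _)
      _ = _ := by ring
  set Z2 := ∑ k ∈ S, (1 + (k : ℝ)) ^ 2 * β k ^ 2 with hZ
  have hZ0 : 0 ≤ Z2 := sum_nonneg fun k _ => by positivity
  have j1 : ∫ y in (0:ℝ)..2, (y * Pc S β (Real.log y)) ^ 2 ≤ 16 * Z2 := i1.trans (by linarith)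
  have j2 : ∫ y in (0:ℝ)..2, (y * Ps S (fun k => β k * tau k) (Real.log y)) ^ 2 ≤ 16 * (4096 * Z2) := i2.trans (by linarith)
  calc (3 * E * (((n + 2 : ℕ) : ℝ) ^ 2 + 160)) * (∫ y in (0:ℝ)..2, (y * Pc S β (Real.log y)) ^ 2) +
      (3 * E) * (∫ y in (0:ℝ)..2, (y * Ps S (fun k => β k * tau k) (Real.log y)) ^ 2)
      ≤ (3 * E * (((n + 2 : ℕ) : ℝ) ^ 2 + 160)) * (16 * Z2) + (3 * E) * (16 * (4096 * Z2)) := by
        gcongr
    _ ≤ _ := by
        have : 0 ≤ E * Z2 := mul_nonneg hE0.le hZ0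
        nlinarith

/-- constant of the source operator -/
noncomputable def CU (m : ℕ) : ℝ := 48 * Real.exp (m / 4) * (m ^ 2 + 4302)

lemma U_one {m : ℕ} (hm : 1 ≤ m) (J : Finset ℕ) :
    ∑ j ∈ J, (∑ k ∈ S, β k * PP (sk m k) j) ^ 2 ≤ CU m * ∑ k ∈ S, β k ^ 2 := by
  have h1 : ∀ j, (∑ k ∈ S, β k * PP (sk m k) j) = PP (fun x : ℝ => x ^ m * gS S β (Real.log x)) j := by
    intro j
    rw [← PP_sum S β (sk m) (fun k _ => sk_cont hm k) j]
    congr 1
    funext x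
    exact sum_sk m x
  simp_rw [h1]
  refine (bessel (Pool.Agent.H13R3.PZN.cont_log (gS_cont S β) (gS_bd S β) hm) J).trans ((src_int hm).trans ?_)
  apply mul_le_mul_of_nonneg_right _ (sum_nonneg fun _ _ => sq_nonneg _)
  unfold CU
  have : 0 < Real.exp ((m : ℝ) / 4) := Real.exp_pos _
  have hm0 : (0:ℝ) ≤ (m : ℝ) ^ 2 := sq_nonneg _
  nlinarith

lemma U_two {m : ℕ} (hm : 2 ≤ m) (J : Finset ℕ) :
    ∑ j ∈ J, (1 + (j : ℝ)) ^ 2 * (∑ k ∈ S, β k * PP (sk m k) j) ^ 2 ≤ CU m * ∑ k ∈ S, (1 + (k : ℝ)) ^ 2 * β k ^ 2 := by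
  have h1 : ∀ j, (∑ k ∈ S, β k * PP (sk m k) j) = PP (fun x : ℝ => x ^ m * gS S β (Real.log x)) j := by
    intro j
    rw [← PP_sum S β (sk m) (fun k _ => sk_cont (by omega) k) j]
    congr 1
    funext x
    exact sum_sk m x
  simp_rw [h1]
  have hc1 : Continuous fun x : ℝ => x ^ (m - 1) * gS S β (Real.log x) :=
    Pool.Agent.H13R3.PZN.cont_log (gS_cont S β) (gS_bd S β) (by omega)
  have hc2 : Continuous fun x : ℝ => x ^ (m - 1) * gS' S β (Real.log x) :=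
    Pool.Agent.H13R3.PZN.cont_log (gS'_cont S β) (gS'_bd S β) (by omega)
  refine (weighted_bessel (fun x => Pool.Agent.H13R3.PZN.hasDeriv_log (gS_deriv S β) (gS_bd S β) hm x)
    ((hc1.const_mul _).add hc2) J).trans ?_
  have i1 := src_int (S := S) (β := β) (m := m) (by omega)
  have i2 := src_int' (S := S) (β := β) hm
  have s1 : ∑ k ∈ S, β k ^ 2 ≤ ∑ k ∈ S, (1 + (k : ℝ)) ^ 2 * β k ^ 2 := by
    apply sum_le_sum
    intro k _
    have hk : (0:ℝ) ≤ k := Nat.cast_nonneg k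
    nlinarith [sq_nonneg (β k), mul_nonneg hk (sq_nonneg (β k)), mul_nonneg (mul_nonneg hk hk) (sq_nonneg (β k))]
  set Z2 := ∑ k ∈ S, (1 + (k : ℝ)) ^ 2 * β k ^ 2 with hZ
  have hZ0 : 0 ≤ Z2 := sum_nonneg fun k _ => by positivity
  have hE0 : 0 < Real.exp ((m : ℝ) / 4) := Real.exp_pos _
  have i3 : 16 * Real.exp ((m : ℝ) / 4) * ∑ k ∈ S, β k ^ 2 ≤ 16 * Real.exp ((m : ℝ) / 4) * Z2 :=
    mul_le_mul_of_nonneg_left s1 (by positivity)
  unfold CU
  have hp : 0 ≤ Real.exp ((m : ℝ) / 4) * Z2 := mul_nonneg hE0.le hZ0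
  nlinarith

end fin

lemma CU_pos (m : ℕ) : 0 < CU m := by unfold CU; positivity

end Pool.Agent.Q127.EZ
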