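import Mathlib
import Pool.Agent.Q127.EZ.Osc
import Pool.Agent.H99R3.Task469M

/-!
# The tail functional
-/

set_option autoImplicit false

open Finset MeasureTheory

namespace Pool.Agent.Q127.EZ

open Pool.Agent.H469R10.HO Pool.Agent.H99R3.M469

/-- the contribution of `(0, 3/4)` to the Mellin transform at the `k`-th node -/
noncomputable def EE (m : ℕ) (G : ℝ → ℝ) (k : ℕ) : ℝ :=
  ∫ y in (0:ℝ)..(3/4), (chi y * (y ^ (m - 2) * G y⁻¹)) * ec k y

lemma w_cont {G : ℝ → ℝ} (hG : Continuous G) {M : ℝ} (hM : ∀ y, |G y| ≤ M) {m : ℕ} (hm : 3 ≤ m) :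
    Continuous fun y : ℝ => chi y * (y ^ (m - 2) * G y⁻¹) :=
  chi_c.mul (contX hG hM (by omega))

lemma EE_add {m : ℕ} (hm : 3 ≤ m) {G H : ℝ → ℝ} (hG : Continuous G) {M : ℝ} (hM : ∀ y, |G y| ≤ M)
    (hH : Continuous H) {M' : ℝ} (hM' : ∀ y, |H y| ≤ M') (k : ℕ) :
    EE m (fun y => G y + H y) k = EE m G k + EE m H k := by
  unfold EE
  have h1 := w_cont hG hM hm
  have h2 := w_cont hH hM' hm
  have h3 := ec_cont k
  rw [← intervalIntegral.integral_add (Continuous.intervalIntegrable (by fun_prop) _ _)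
    (Continuous.intervalIntegrable (by fun_prop) _ _)]
  congr 1
  funext y
  ring

lemma EE_sum {ι : Type*} {m : ℕ} (hm : 3 ≤ m) (S : Finset ι) (β : ι → ℝ) (G : ι → ℝ → ℝ) (hG : ∀ i ∈ S, Continuous (G i))
    {M : ι → ℝ} (hM : ∀ i ∈ S, ∀ y, |G i y| ≤ M i) (k : ℕ) :
    EE m (fun y => ∑ i ∈ S, β i * G i y) k = ∑ i ∈ S, β i * EE m (G i) k := by
  unfold EE
  have h3 := ec_cont k
  have e : ∀ y : ℝ, (chi y * (y ^ (m - 2) * ∑ i ∈ S, β i * G i y⁻¹)) * ec k y =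
      ∑ i ∈ S, β i * ((chi y * (y ^ (m - 2) * G i y⁻¹)) * ec k y) := by
    intro y
    simp_rw [mul_sum, sum_mul]
    exact sum_congr rfl fun i _ => by ring
  simp_rw [e]
  rw [intervalIntegral.integral_finsetSum]
  · exact sum_congr rfl fun i _ => intervalIntegral.integral_const_mul _ _
  · intro i hi
    have := w_cont (hG i hi) (hM i hi) hm
    exact Continuous.intervalIntegrable (by fun_prop) _ _

lemma abs_ec_le {k : ℕ} {y : ℝ} (h0 : 0 ≤ y) : |ec k y| ≤ y := by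
  unfold ec
  rw [abs_mul, abs_of_nonneg h0]
  exact mul_le_of_le_one_right h0 (Real.abs_cos_le_one _)

/-- trivial bound -/
lemma EE_le {m : ℕ} (hm : 3 ≤ m) {G : ℝ → ℝ} (hG : Continuous G) {M : ℝ} (hM : ∀ y, |G y| ≤ M) (k : ℕ) :
    |EE m G k| ≤ M := by
  have hM0 : 0 ≤ M := (abs_nonneg _).trans (hM 0)
  unfold EE
  have h1 := w_cont hG hM hm
  have h3 := ec_cont k
  have h4 : ‖∫ y in (0:ℝ)..(3/4), (chi y * (y ^ (m - 2) * G y⁻¹)) * ec k y‖ ≤ M * |3 / 4 - 0| := by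
    apply intervalIntegral.norm_integral_le_of_norm_le_const
    intro y hy
    rw [Set.uIoc_of_le (by norm_num)] at hy
    rw [Real.norm_eq_abs, abs_mul, abs_mul, abs_mul, abs_of_nonneg (chi_nn y), abs_pow]
    have e1 := chi_le y
    have e2 := chi_nn y
    have e3 : |y| ^ (m - 2) ≤ 1 := pow_le_one₀ (abs_nonneg _) (by rw [abs_of_pos hy.1]; linarith [hy.2])
    have e4 := hM y⁻¹
    have e5 : |ec k y| ≤ 1 := (abs_ec_le hy.1.le).trans (by linarith [hy.2])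
    calc chi y * (|y| ^ (m - 2) * |G y⁻¹|) * |ec k y| ≤ 1 * (1 * M) * 1 := by
          gcongr
      _ = M := by ring
  rw [Real.norm_eq_abs] at h4
  refine h4.trans ?_
  rw [sub_zero, abs_of_pos (by norm_num)]
  linarith

section dual

variable {S : Finset ℕ} {cl : ℕ → ℕ} {β ω : ℕ → ℝ} {m : ℕ}

lemma sq_int_le {f : ℝ → ℝ} {φ : ℕ → ℝ} {n : ℕ} (hn : n ≠ 0)
    (hω : ∀ i ∈ S, |ω i - xx (cl i)| ≤ 1) (hf : Continuous f) {C : ℝ}
    (hle : ∀ y, 0 ≤ y → y ≤ 3 / 4 → f y ^ 2 ≤ C * (y ^ n * tr S β ω φ y⁻¹ ^ 2)) (hC : 0 ≤ C) :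
    ∫ y in (0:ℝ)..(3/4), f y ^ 2 ≤ C * (90 * (3/4) ^ n * QQ (fun _ => 1) S cl β) := by
  have b1 := contX (h := fun y => tr S β ω φ y ^ 2) ((tr_cont S β ω φ).pow 2)
    (M := (∑ i ∈ S, |β i|) ^ 2) (fun y => by
    rw [abs_pow]
    exact pow_le_pow_left₀ (abs_nonneg _) (tr_bd S β ω φ y) 2) (n := n) hn
  refine le_trans ?_ (mul_le_mul_of_nonneg_left (core (φ := φ) (β := β) hω n hn) hC)
  rw [← intervalIntegral.integral_const_mul]
  exact intervalIntegral.integral_mono_on (by norm_num) ((hf.pow 2).intervalIntegrable _ _)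
    ((b1.const_mul C).intervalIntegrable _ _) fun y hy => hle y hy.1 hy.2

lemma EE_one (hω : ∀ i ∈ S, |ω i - xx (cl i)| ≤ 1) (hm : 3 ≤ m) (K : Finset ℕ) :
    ∑ k ∈ K, (EE m (f0 S β ω) k) ^ 2 ≤ 90 * (3/4) ^ (2 * m - 4) * QQ (fun _ => 1) S cl β := by
  have hc := w_cont (tr_cont S β ω (fun _ => 0)) (tr_bd S β ω (fun _ => 0)) hm
  refine (bessel_osc ec_cont osc_cos hc (b := 3/4) (by norm_num) (by norm_num) K).trans ?_
  have h1 := sq_int_le (φ := fun _ => 0) (β := β) (n := 2 * m - 4) (by omega) hω hc (C := 1) (fun y h0 h1 => by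
    have e1 : y ^ (2 * m - 4) = (y ^ (m - 2)) ^ 2 := by
      rw [← pow_mul]; congr 1; omega
    rw [e1, one_mul, mul_pow, mul_pow]
    apply mul_le_of_le_one_left (by positivity)
    exact pow_le_one₀ (chi_nn y) (chi_le y)) zero_le_one
  rwa [one_mul] at h1

/-- the function of the integration by parts -/
noncomputable def Wf (S : Finset ℕ) (β ω : ℕ → ℝ) (m : ℕ) (y : ℝ) : ℝ :=
  deriv chi y * (y ^ (m - 1) * f0 S β ω y⁻¹) +
    chi y * (m * (y ^ (m - 2) * f0 S β ω y⁻¹) - y ^ (m - 3) * f1 S β ω y⁻¹)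

lemma Wf_cont (hm : 4 ≤ m) : Continuous (Wf S β ω m) := by
  have a1 := contX (tr_cont S β ω (fun _ => 0)) (tr_bd S β ω (fun _ => 0)) (n := m - 1) (by omega)
  have a2 := contX (tr_cont S β ω (fun _ => 0)) (tr_bd S β ω (fun _ => 0)) (n := m - 2) (by omega)
  have a3 := contX (tr_cont S (fun i => β i * ω i) ω (fun _ => Real.pi / 2))
    (tr_bd S (fun i => β i * ω i) ω (fun _ => Real.pi / 2)) (n := m - 3) (by omega)
  have c1 := chi_c
  have c2 := chi_dc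
  unfold Wf
  exact (c2.mul a1).add (c1.mul ((a2.const_mul _).sub a3))

/-- integration by parts -/
lemma EE_parts (hm : 4 ≤ m) (k : ℕ) :
    tau k * EE m (f0 S β ω) k = - ∫ y in (0:ℝ)..(3/4), Wf S β ω m y * es k y := by
  have hWc := Wf_cont (S := S) (β := β) (ω := ω) hm
  have hec := ec_cont k
  have hes := es_cont k
  have hw := w_cont (tr_cont S β ω (fun _ => 0)) (tr_bd S β ω (fun _ => 0)) (m := m) (by omega)
  set H : ℝ → ℝ := fun y => chi y * (y ^ m * f0 S β ω y⁻¹) with hH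
  set P : ℝ → ℝ := fun y => chi y * (y ^ (m - 1) * f0 S β ω y⁻¹) * es k y with hP
  have hPc : Continuous P := by
    have a1 := contX (tr_cont S β ω (fun _ => 0)) (tr_bd S β ω (fun _ => 0)) (n := m - 1) (by omega)
    exact (chi_c.mul a1).mul hes
  have hd : ∀ y ∈ Set.Ioo (0:ℝ) (3/4), HasDerivAt P
      (Wf S β ω m y * es k y + tau k * ((chi y * (y ^ (m - 2) * f0 S β ω y⁻¹)) * ec k y)) y := by
    intro y hy
    have hy0 : y ≠ 0 := hy.1.ne'
    have h1 : HasDerivAt (fun y : ℝ => f0 S β ω y⁻¹) (f1 S β ω y⁻¹ * (-(y ^ 2)⁻¹)) y :=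
      (f0_hd S β ω y⁻¹).comp y (hasDerivAt_inv hy0)
    have h2 := (hasDerivAt_pow m y).mul h1
    have h3 := (chi_hd y).mul h2
    have h4 : HasDerivAt (fun y : ℝ => Real.sin (tau k * Real.log y)) (Real.cos (tau k * Real.log y) * (tau k * y⁻¹)) y :=
      ((Real.hasDerivAt_log hy0).const_mul (tau k)).sin
    have h5 := h3.mul h4
    have hev : P =ᶠ[nhds y] (fun y => (chi y * (y ^ m * f0 S β ω y⁻¹)) * Real.sin (tau k * Real.log y)) := by
      refine Filter.Eventually.of_forall fun z => ?_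
      simp only [hP]
      unfold es
      obtain ⟨j, rfl⟩ : ∃ j, m = j + 1 := ⟨m - 1, by omega⟩
      simp only [Nat.add_sub_cancel]
      rw [pow_succ]
      ring
    refine (h5.congr_of_eventuallyEq hev).congr_deriv ?_
    unfold Wf es ec
    obtain ⟨j, rfl⟩ : ∃ j, m = j + 3 := ⟨m - 3, by omega⟩
    have e1 : j + 3 - 1 = j + 2 := by omega
    have e2 : j + 3 - 2 = j + 1 := by omega
    have e3 : j + 3 - 3 = j := by omega
    rw [e1, e2, e3, pow_succ y (j + 2), pow_succ y (j + 1), pow_succ y j]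
    push_cast
    simp only [Pi.mul_apply]
    field_simp
    ring
  have hint : Continuous fun y => Wf S β ω m y * es k y +
      tau k * ((chi y * (y ^ (m - 2) * f0 S β ω y⁻¹)) * ec k y) := by
    have hw' : Continuous fun y : ℝ => chi y * (y ^ (m - 2) * f0 S β ω y⁻¹) := hw
    fun_prop
  have hftc := intervalIntegral.integral_eq_sub_of_hasDerivAt_of_le (by norm_num : (0:ℝ) ≤ 3/4) hPc.continuousOn hd
    (hint.intervalIntegrable _ _)
  have hP1 : P (3/4) = 0 := by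
    simp only [hP]; rw [chi_z le_rfl]; ring
  have hP0 : P 0 = 0 := by
    simp only [hP]; unfold es; ring
  rw [hP1, hP0, sub_zero, intervalIntegral.integral_add
    (Continuous.intervalIntegrable (by fun_prop) _ _) (Continuous.intervalIntegrable (by
      have hw' : Continuous fun y : ℝ => chi y * (y ^ (m - 2) * f0 S β ω y⁻¹) := hw
      fun_prop) _ _), intervalIntegral.integral_const_mul] at hftc
  unfold EE
  linarith

lemma EE_two (hω : ∀ i ∈ S, |ω i - xx (cl i)| ≤ 1) (hm : 4 ≤ m) {K0 : ℝ} (hK0 : 0 ≤ K0)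
    (hK : ∀ x ∈ Set.Icc (0:ℝ) 2, |deriv chi x| ≤ K0) (K : Finset ℕ) :
    ∑ k ∈ K, (1 + (k : ℝ)) ^ 2 * (EE m (f0 S β ω) k) ^ 2 ≤
      270 * (3/4) ^ (2 * m - 6) * (K0 ^ 2 + m ^ 2 + 4) * QQ (fun y => (1 + (y : ℝ)) ^ 2) S cl β := by
  have hWc := Wf_cont (S := S) (β := β) (ω := ω) hm
  have h1 : ∑ k ∈ K, (1 + (k : ℝ)) ^ 2 * (EE m (f0 S β ω) k) ^ 2 ≤ ∑ k ∈ K, (∫ y in (0:ℝ)..(3/4), Wf S β ω m y * es k y) ^ 2 := by
    apply sum_le_sum
    intro k _
    have e1 : (∫ y in (0:ℝ)..(3/4), Wf S β ω m y * es k y) ^ 2 = (tau k * EE m (f0 S β ω) k) ^ 2 := by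
      rw [EE_parts hm k]; ring
    rw [e1, mul_pow]
    apply mul_le_mul_of_nonneg_right _ (sq_nonneg _)
    exact pow_le_pow_left₀ (by positivity) (one_add_le_tau k) 2
  refine h1.trans ((bessel_osc es_cont osc_sin hWc (b := 3/4) (by norm_num) (by norm_num) K).trans ?_)
  -- three pieces
  set p1 : ℝ → ℝ := fun y => deriv chi y * (y ^ (m - 1) * f0 S β ω y⁻¹) with hp1
  set p2 : ℝ → ℝ := fun y => chi y * (m * (y ^ (m - 2) * f0 S β ω y⁻¹)) with hp2
  set p3 : ℝ → ℝ := fun y => chi y * (y ^ (m - 3) * f1 S β ω y⁻¹) with hp3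
  have a1 : Continuous fun y : ℝ => y ^ (m - 1) * f0 S β ω y⁻¹ :=
    contX (tr_cont S β ω (fun _ => 0)) (tr_bd S β ω (fun _ => 0)) (n := m - 1) (by omega)
  have a2 : Continuous fun y : ℝ => y ^ (m - 2) * f0 S β ω y⁻¹ :=
    contX (tr_cont S β ω (fun _ => 0)) (tr_bd S β ω (fun _ => 0)) (n := m - 2) (by omega)
  have a3 : Continuous fun y : ℝ => y ^ (m - 3) * f1 S β ω y⁻¹ :=
    contX (tr_cont S (fun i => β i * ω i) ω (fun _ => Real.pi / 2))
    (tr_bd S (fun i => β i * ω i) ω (fun _ => Real.pi / 2)) (n := m - 3) (by omega)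
  have c1 : Continuous p1 := chi_dc.mul a1
  have c2 : Continuous p2 := chi_c.mul (a2.const_mul _)
  have c3 : Continuous p3 := chi_c.mul a3
  set Q := QQ (fun _ => 1) S cl β with hQ
  set Q2 := QQ (fun y => (1 + (y : ℝ)) ^ 2) S cl β with hQ2
  have hQ0 : 0 ≤ Q := QQ_nonneg (fun _ => zero_le_one) S cl β
  have hQQ : Q ≤ Q2 := QQ_1w
  have q1 : ∫ y in (0:ℝ)..(3/4), p1 y ^ 2 ≤ K0 ^ 2 * (90 * (3/4) ^ (2 * m - 2) * Q) := by
    refine sq_int_le (φ := fun _ => 0) (n := 2 * m - 2) (by omega) hω c1 (fun y h0 h1 => ?_) (sq_nonneg _)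
    have e1 : y ^ (2 * m - 2) = (y ^ (m - 1)) ^ 2 := by
      rw [← pow_mul]; congr 1; omega
    have e2 := hK y ⟨h0, by linarith⟩
    have e3 : deriv chi y ^ 2 ≤ K0 ^ 2 := by
      rw [← sq_abs]; exact pow_le_pow_left₀ (abs_nonneg _) e2 2
    simp only [hp1]
    rw [e1, mul_pow, mul_pow]
    exact mul_le_mul_of_nonneg_right e3 (by positivity)
  have q2 : ∫ y in (0:ℝ)..(3/4), p2 y ^ 2 ≤ (m : ℝ) ^ 2 * (90 * (3/4) ^ (2 * m - 4) * Q) := by
    refine sq_int_le (φ := fun _ => 0) (n := 2 * m - 4) (by omega) hω c2 (fun y h0 h1 => ?_) (sq_nonneg _)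
    have e1 : y ^ (2 * m - 4) = (y ^ (m - 2)) ^ 2 := by
      rw [← pow_mul]; congr 1; omega
    simp only [hp2]
    rw [e1, mul_pow, mul_pow, mul_pow]
    apply mul_le_of_le_one_left (by positivity)
    exact pow_le_one₀ (chi_nn y) (chi_le y)
  have q3 : ∫ y in (0:ℝ)..(3/4), p3 y ^ 2 ≤ 1 * (90 * (3/4) ^ (2 * m - 6) * QQ (fun _ => 1) S cl (fun i => β i * ω i)) := by
    refine sq_int_le (φ := fun _ => Real.pi / 2) (n := 2 * m - 6) (by omega) hω c3 (fun y h0 h1 => ?_) zero_le_one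
    have e1 : y ^ (2 * m - 6) = (y ^ (m - 3)) ^ 2 := by
      rw [← pow_mul]; congr 1; omega
    simp only [hp3]
    rw [e1, one_mul, mul_pow, mul_pow]
    apply mul_le_of_le_one_left (by positivity)
    exact pow_le_one₀ (chi_nn y) (chi_le y)
  have q4 := QQ_w (β := β) hω
  have hsum : ∫ y in (0:ℝ)..(3/4), Wf S β ω m y ^ 2 ≤ ∫ y in (0:ℝ)..(3/4), (3 * p1 y ^ 2 + 3 * p2 y ^ 2 + 3 * p3 y ^ 2) := by
    apply intervalIntegral.integral_mono_on (by norm_num) ((hWc.pow 2).intervalIntegrable _ _)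
      (Continuous.intervalIntegrable (by fun_prop) _ _)
    intro y _
    have e : Wf S β ω m y = p1 y + p2 y - p3 y := by
      simp only [hp1, hp2, hp3]; unfold Wf; ring
    rw [Pi.pow_apply, e]
    nlinarith [sq_nonneg (p1 y - p2 y), sq_nonneg (p1 y + p3 y), sq_nonneg (p2 y + p3 y)]
  refine hsum.trans ?_
  rw [intervalIntegral.integral_add (Continuous.intervalIntegrable (by fun_prop) _ _)
    (Continuous.intervalIntegrable (by fun_prop) _ _), intervalIntegral.integral_add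
    (Continuous.intervalIntegrable (by fun_prop) _ _)
    (Continuous.intervalIntegrable (by fun_prop) _ _), intervalIntegral.integral_const_mul,
    intervalIntegral.integral_const_mul, intervalIntegral.integral_const_mul]
  have r1 : ((3:ℝ)/4) ^ (2 * m - 2) ≤ (3/4) ^ (2 * m - 6) :=
    pow_le_pow_of_le_one (by norm_num) (by norm_num) (by omega)
  have r2 : ((3:ℝ)/4) ^ (2 * m - 4) ≤ (3/4) ^ (2 * m - 6) :=
    pow_le_pow_of_le_one (by norm_num) (by norm_num) (by omega)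
  set t : ℝ := (3/4) ^ (2 * m - 6) with ht
  have ht0 : 0 < t := by positivity
  have s1 : K0 ^ 2 * (90 * (3/4) ^ (2 * m - 2) * Q) ≤ K0 ^ 2 * (90 * t * Q2) := by gcongr
  have s2 : (m : ℝ) ^ 2 * (90 * (3/4) ^ (2 * m - 4) * Q) ≤ (m : ℝ) ^ 2 * (90 * t * Q2) := by gcongr
  have s3 : 1 * (90 * t * QQ (fun _ => 1) S cl (fun i => β i * ω i)) ≤ 90 * t * (4 * Q2) := by
    rw [one_mul]; gcongr
  calc 3 * (∫ y in (0:ℝ)..(3/4), p1 y ^ 2) + 3 * (∫ y in (0:ℝ)..(3/4), p2 y ^ 2) + 3 * (∫ y in (0:ℝ)..(3/4), p3 y ^ 2)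
      ≤ 3 * (K0 ^ 2 * (90 * t * Q2)) + 3 * ((m : ℝ) ^ 2 * (90 * t * Q2)) + 3 * (90 * t * (4 * Q2)) := by
        linarith
    _ = _ := by ring

end dual

end Pool.Agent.Q127.EZ
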