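import Mathlib
import Pool.Agent.Q127.EZ.Tail
import Pool.Agent.Q127.EZ.Src
import Pool.Agent.H469R10.HO.N7

/-!
# The contraction with free data and interpolation conditions
-/

set_option autoImplicit false

open Finset MeasureTheory

namespace Pool.Agent.Q127.EZ

open Pool.Agent.H469R10.HO Pool.Agent.H99R3.M469

/-- the columns of the tail functional -/
noncomputable def TE (c lam : ℝ) (m n k : ℕ) : ℝ :=
  if n = 1 then 0 else EE m (fun y => Real.cos (uu c lam n * y)) k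

/-- bounds of the tail functional -/
def EBound (m : ℕ) (κ : ℝ) : Prop := ∀ (S : Finset ℕ) (cl : ℕ → ℕ) (ω β : ℕ → ℝ),
  (∀ i ∈ S, |ω i - xx (cl i)| ≤ 1) → ∀ K : Finset ℕ,
  (∑ k ∈ K, (EE m (f0 S β ω) k) ^ 2 ≤ κ * QQ (fun _ => 1) S cl β) ∧
  (∑ k ∈ K, (1 + (k : ℝ)) ^ 2 * (EE m (f0 S β ω) k) ^ 2 ≤ κ * QQ (fun y => (1 + (y : ℝ)) ^ 2) S cl β)

lemma eBound {m : ℕ} (hm : 4 ≤ m) {K0 : ℝ} (hK0 : 0 ≤ K0) (hK : ∀ x ∈ Set.Icc (0:ℝ) 2, |deriv chi x| ≤ K0) :
    EBound m (270 * (3/4) ^ (2 * m - 6) * (K0 ^ 2 + m ^ 2 + 4)) := by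
  intro S cl ω β hω K
  refine ⟨(EE_one hω (by omega) K).trans ?_, EE_two hω hm hK0 hK K⟩
  apply mul_le_mul_of_nonneg_right _ (QQ_nonneg (fun _ => zero_le_one) S cl β)
  have r2 : ((3:ℝ)/4) ^ (2 * m - 4) ≤ (3/4) ^ (2 * m - 6) :=
    pow_le_pow_of_le_one (by norm_num) (by norm_num) (by omega)
  set t : ℝ := (3/4) ^ (2 * m - 6) with ht
  have ht0 : 0 < t := by positivity
  have h4 : 0 ≤ t * (K0 ^ 2 + (m:ℝ) ^ 2) := by positivity
  nlinarith

lemma EE_tr {m : ℕ} (hm : 3 ≤ m) (S : Finset ℕ) (β ω : ℕ → ℝ) (k : ℕ) :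
    EE m (f0 S β ω) k = ∑ i ∈ S, β i * EE m (fun y => Real.cos (ω i * y)) k := by
  rw [f0_eq]
  exact EE_sum hm S β (fun i y => Real.cos (ω i * y)) (fun i _ => by fun_prop) (M := fun _ => 1)
    (fun i _ y => Real.abs_cos_le_one _) k

lemma summable_of_W {W d : ℕ → ℝ} {D R : ℝ} (hW : ∀ j, 0 < W j) (hR : ∀ F : Finset ℕ, ∑ y ∈ F, 1 / W y ≤ R)
    (hR0 : 0 ≤ R) (hd : ∀ J : ℕ, ∑ j ∈ range J, W j * d j ^ 2 ≤ D ^ 2) : Summable fun j => |d j| := by
  apply summable_of_sum_le (c := Real.sqrt (R * D ^ 2)) (fun j => abs_nonneg _)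
  intro S
  have h1 := sum_sq_le_sum_mul_sum_of_sq_le_mul S (r := fun y => |d y|) (f := fun y => 1 / W y)
    (g := fun y => W y * d y ^ 2) (fun y _ => (one_div_pos.2 (hW y)).le)
    (fun y _ => mul_nonneg (hW y).le (sq_nonneg _))
    (fun y _ => by have := (hW y).ne'; rw [sq_abs]; apply le_of_eq; field_simp)
  apply Real.le_sqrt_of_sq_le
  refine h1.trans ?_
  refine mul_le_mul (hR S) ?_ (sum_nonneg fun y _ => mul_nonneg (hW y).le (sq_nonneg _)) hR0
  refine le_trans ?_ (hd (S.sup id + 1))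
  apply sum_le_sum_of_subset_of_nonneg
  · intro y hy
    rw [mem_range]
    have : id y ≤ S.sup id := le_sup hy
    simp only [id] at this
    omega
  · intro y _ _
    exact mul_nonneg (hW y).le (sq_nonneg _)

lemma PP_le {f : ℝ → ℝ} (hf : Continuous f) {M : ℝ} (hM : ∀ x, 0 ≤ x → x ≤ 2 → |f x| ≤ M) (j : ℕ) :
    |PP f j| ≤ 2 * M := by
  have hM0 : 0 ≤ M := (abs_nonneg _).trans (hM 0 le_rfl (by norm_num))
  unfold PP
  have hw := ww_ge j
  rw [abs_div, abs_of_pos (show 0 < ww j by linarith)]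
  have h4 : ‖∫ x in (0:ℝ)..2, f x * Real.cos (xx j * x)‖ ≤ M * |2 - 0| := by
    apply intervalIntegral.norm_integral_le_of_norm_le_const
    intro y hy
    rw [Set.uIoc_of_le (by norm_num)] at hy
    rw [Real.norm_eq_abs, abs_mul]
    calc |f y| * |Real.cos (xx j * y)| ≤ M * 1 :=
          mul_le_mul (hM y hy.1.le hy.2) (Real.abs_cos_le_one _) (abs_nonneg _) hM0
      _ = M := mul_one _
  rw [Real.norm_eq_abs] at h4
  rw [div_le_iff₀ (by linarith)]
  have h5 : |(2:ℝ) - 0| = 2 := by norm_num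
  rw [h5] at h4
  nlinarith

lemma sk_abs (m k : ℕ) {x : ℝ} (h0 : 0 ≤ x) (h2 : x ≤ 2) : |sk m k x| ≤ 2 ^ m := by
  unfold sk
  rw [abs_mul, abs_mul, abs_pow, abs_of_nonneg h0]
  calc x ^ m * (|rc (Real.log x)| * |Real.cos (tau k * Real.log x)|) ≤ 2 ^ m * (1 * 1) := by
        gcongr
        · exact rc_abs _
        · exact Real.abs_cos_le_one _
    _ = _ := by ring

variable {c lam e κ CJ CH : ℝ} {B : ℕ → Finset ℕ} {m : ℕ}

section

variable (h : Hyp c lam e κ CJ CH B m)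
include h

/-- all differences of coefficients -/
lemma alp_diff (b b' : ℕ → ℝ) (n : ℕ) :
    alp c lam B b n - alp c lam B b' n = Hyp.gg c lam B b b' n + Hyp.hh c lam B b b' n := by
  unfold Hyp.gg Hyp.hh
  by_cases hg : n = 0 ∨ n ∈ B (jj c lam n)
  · have h1 : n = 0 ∨ n.Prime := by
      rcases hg with h0 | h0
      · exact Or.inl h0
      · exact Or.inr (h.hB _ n h0).2.1
    rw [if_pos hg, if_neg (by tauto), add_zero]
  · rw [if_neg hg, zero_add]
    split_ifs with hc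
    · rfl
    · rw [sub_eq_zero]
      by_cases hp : n.Prime
      · rw [Hyp.alp_prime b hp, Hyp.alp_prime b' hp]
        unfold bet
        rw [if_neg (by tauto), if_neg (by tauto)]
      · have hn0 : n ≠ 0 := by tauto
        unfold alp
        rw [if_neg hn0, if_neg hn0]
        by_cases hs : Squarefree n
        · rw [if_pos hs, if_pos hs]
          have hcard : n.primeFactors.card ≤ 1 := by
            by_contra h2
            exact hc ⟨by tauto, hs, by omega⟩
          have h3 : ∏ p ∈ n.primeFactors, p = n := Nat.prod_primeFactors_of_squarefree hs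
          rcases Nat.eq_zero_or_pos n.primeFactors.card with h4 | h4
          · rw [card_eq_zero] at h4
            rw [h4, prod_empty, prod_empty]
          · exfalso
            have h5 : n.primeFactors.card = 1 := by omega
            obtain ⟨p, hp2⟩ := card_eq_one.1 h5
            rw [hp2, prod_singleton] at h3
            have : p ∈ n.primeFactors := by rw [hp2]; exact mem_singleton_self p
            rw [h3] at this
            exact hp (Nat.prime_of_mem_primeFactors this)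
        · rw [if_neg hs, if_neg hs]

lemma TE_abs (hm : 3 ≤ m) (n k : ℕ) : |TE c lam m n k| ≤ 1 := by
  unfold TE
  split_ifs
  · rw [abs_zero]; exact zero_le_one
  · exact EE_le hm (by fun_prop) (fun y => Real.abs_cos_le_one _) k

lemma W_E {κE : ℝ} (hκE : 0 ≤ κE) (hE : EBound m κE) (hm : 4 ≤ m) (S : Finset ℕ) (β : ℕ → ℝ) (J : ℕ) :
    ∑ k ∈ range J, WW c k * (∑ n ∈ S, β n * TE c lam m n k) ^ 2 ≤ CJ * κE * QQ (WW c) S (jj c lam) β := by
  have key : ∀ (S : Finset ℕ) (β : ℕ → ℝ) (k : ℕ), ∑ n ∈ S, β n * TE c lam m n k =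
      EE m (f0 (S.filter (fun n => n ≠ 1)) β (uu c lam)) k := by
    intro S β k
    rw [EE_tr (by omega), sum_filter]
    refine sum_congr rfl fun n _ => ?_
    unfold TE
    by_cases h1 : n = 1
    · rw [if_pos h1, if_neg (by tauto)]; ring
    · rw [if_neg h1, if_pos h1]
  have hnear : ∀ (S : Finset ℕ), ∀ i ∈ S.filter (fun n => n ≠ 1), |uu c lam i - xx (jj c lam i)| ≤ 1 :=
    fun S i _ => cell_near (uu_nonneg h.hc.le i)
  refine h.hJ (jj c lam) (TE c lam m) κE hκE ?_ ?_ S β J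
  · intro S β J
    simp_rw [key]
    refine ((hE _ (jj c lam) (uu c lam) β (hnear S) (range J)).1).trans ?_
    have := QQ_subset (w := fun _ => 1) (fun _ => zero_le_one) (filter_subset (fun n => n ≠ 1) S) (jj c lam) β
    have h2 := mul_le_mul_of_nonneg_left this hκE
    refine h2.trans (le_of_eq ?_)
    unfold QQ
    simp
  · intro S β J
    simp_rw [key]
    refine ((hE _ (jj c lam) (uu c lam) β (hnear S) (range J)).2).trans ?_
    have := QQ_subset (w := fun y => (1 + (y : ℝ)) ^ 2) (fun y => by positivity) (filter_subset (fun n => n ≠ 1) S) (jj c lam) β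
    have h2 := mul_le_mul_of_nonneg_left this hκE
    refine h2.trans (le_of_eq ?_)
    unfold QQ
    rfl

lemma W_U (hm : 2 ≤ m) (S : Finset ℕ) (β : ℕ → ℝ) (J : ℕ) :
    ∑ j ∈ range J, WW c j * (∑ k ∈ S, β k * PP (sk m k) j) ^ 2 ≤ CJ * CU m * ∑ k ∈ S, WW c k * β k ^ 2 := by
  have hid : ∀ (w : ℕ → ℝ) (S : Finset ℕ) (β : ℕ → ℝ),
      ∑ y ∈ S.image (id : ℕ → ℕ), w y * (∑ n ∈ S.filter (fun n => (id n : ℕ) = y), |β n|) ^ 2 = ∑ k ∈ S, w k * β k ^ 2 := by
    intro w S β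
    rw [image_id]
    refine sum_congr rfl fun y hy => ?_
    have : S.filter (fun n => (id n : ℕ) = y) = {y} := by
      ext n
      simp only [id, mem_filter, mem_singleton]
      constructor
      · exact fun h => h.2
      · rintro rfl; exact ⟨hy, rfl⟩
    rw [this, sum_singleton, sq_abs]
  have h1 := h.hJ id (fun k j => PP (sk m k) j) (CU m) (CU_pos m).le ?_ ?_ S β J
  · refine h1.trans (le_of_eq ?_)
    rw [hid]
  · intro S β J
    have h2 := hid (fun _ => 1) S β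
    simp only [one_mul] at h2
    rw [h2]
    exact U_one (by omega) (range J)
  · intro S β J
    rw [hid]
    exact U_two hm (range J)

/-- Lipschitz bound of the tail part -/
lemma lip_E {κE : ℝ} (hκE : 0 ≤ κE) (hE : EBound m κE) (hm : 4 ≤ m) {b b' : ℕ → ℝ} {ρ D : ℝ} (hρ0 : 0 < ρ) (hD0 : 0 ≤ D)
    (hρ : 9 * ρ ^ 2 ≤ 1)
    (hb : ∀ J : ℕ, ∑ j ∈ range J, WW c j * b j ^ 2 ≤ ρ ^ 2) (hb' : ∀ J : ℕ, ∑ j ∈ range J, WW c j * b' j ^ 2 ≤ ρ ^ 2)
    (hD : ∀ J : ℕ, ∑ j ∈ range J, WW c j * (b j - b' j) ^ 2 ≤ D ^ 2) (J : ℕ) :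
    ∑ k ∈ range J, WW c k * (∑' n, alp c lam B b n * TE c lam m n k - ∑' n, alp c lam B b' n * TE c lam m n k) ^ 2 ≤
      2 * (CJ * κE) * (1 + CH * 81 * ρ ^ 2) * D ^ 2 := by
  have hW := WW_pos h.hc h.hc1
  have hCJ := h.hCJ
  have hCH := h.hCH
  have hs := h.summable_alp hρ0 hρ hb
  have hs' := h.summable_alp hρ0 hρ hb'
  have hst : ∀ k, Summable fun n => alp c lam B b n * TE c lam m n k := fun k =>
    Summable.of_norm_bounded hs fun n => by
      rw [Real.norm_eq_abs, abs_mul]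
      exact mul_le_of_le_one_right (abs_nonneg _) (TE_abs h (by omega) n k)
  have hst' : ∀ k, Summable fun n => alp c lam B b' n * TE c lam m n k := fun k =>
    Summable.of_norm_bounded hs' fun n => by
      rw [Real.norm_eq_abs, abs_mul]
      exact mul_le_of_le_one_right (abs_nonneg _) (TE_abs h (by omega) n k)
  have e1 : ∀ k, ∑' n, alp c lam B b n * TE c lam m n k - ∑' n, alp c lam B b' n * TE c lam m n k =
      ∑' n, (alp c lam B b n - alp c lam B b' n) * TE c lam m n k := by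
    intro k
    rw [← (hst k).tsum_sub (hst' k)]
    exact tsum_congr fun n => by ring
  simp_rw [e1]
  have hsum : ∀ k, HasSum (fun n => (alp c lam B b n - alp c lam B b' n) * TE c lam m n k)
      (∑' n, (alp c lam B b n - alp c lam B b' n) * TE c lam m n k) := by
    intro k
    apply Summable.hasSum
    have := (hst k).sub (hst' k)
    refine this.congr fun n => by ring
  have ht : Filter.Tendsto (fun S : Finset ℕ => ∑ k ∈ range J, WW c k * (∑ n ∈ S, (alp c lam B b n - alp c lam B b' n) * TE c lam m n k) ^ 2)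
      Filter.atTop (nhds (∑ k ∈ range J, WW c k * (∑' n, (alp c lam B b n - alp c lam B b' n) * TE c lam m n k) ^ 2)) :=
    tendsto_finsetSum _ fun j _ => ((hsum j).pow 2).const_mul _
  refine le_of_tendsto' ht fun S => ?_
  rcases hD0.eq_or_lt with hD00 | hDpos
  · have hbb : b = b' := by
      funext j
      have h1 := hD (j + 1)
      rw [← hD00] at h1
      have h2 : WW c j * (b j - b' j) ^ 2 ≤ ∑ i ∈ range (j + 1), WW c i * (b i - b' i) ^ 2 :=
        single_le_sum (f := fun i => WW c i * (b i - b' i) ^ 2) (fun i _ => mul_nonneg (hW i).le (sq_nonneg _))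
          (mem_range.2 (Nat.lt_succ_self j))
      have h3 : (b j - b' j) ^ 2 ≤ 0 := by
        have := hW j
        nlinarith
      have h4 : b j - b' j = 0 := by nlinarith
      linarith
    subst hbb
    simp
    positivity
  · set τ := ρ / D with hτ
    have hτ0 : 0 < τ := by positivity
    have hτD : τ * D = ρ := by rw [hτ]; field_simp
    have hh1 := h.QQ_hh hτ0 hD0 hτD.le hρ hb hb' hD S
    have hh2 : QQ (WW c) S (jj c lam) (Hyp.hh c lam B b b') ≤ CH * 81 * ρ ^ 2 * D ^ 2 := by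
      have e1 : CH * (9 * ρ ^ 2) ^ 2 = τ ^ 2 * (CH * 81 * ρ ^ 2 * D ^ 2) := by
        rw [← hτD]; ring
      rw [e1] at hh1
      exact le_of_mul_le_mul_left hh1 (by positivity)
    have g1 := h.QQ_gg hD S
    have w1 := W_E h hκE hE hm S (Hyp.gg c lam B b b') J
    have w2 := W_E h hκE hE hm S (Hyp.hh c lam B b b') J
    have e2 : ∀ k, ∑ n ∈ S, (alp c lam B b n - alp c lam B b' n) * TE c lam m n k =
        ∑ n ∈ S, Hyp.gg c lam B b b' n * TE c lam m n k + ∑ n ∈ S, Hyp.hh c lam B b b' n * TE c lam m n k := by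
      intro k
      rw [← sum_add_distrib]
      exact sum_congr rfl fun n _ => by rw [alp_diff h]; ring
    simp_rw [e2]
    calc ∑ k ∈ range J, WW c k * (∑ n ∈ S, Hyp.gg c lam B b b' n * TE c lam m n k + ∑ n ∈ S, Hyp.hh c lam B b b' n * TE c lam m n k) ^ 2
        ≤ ∑ k ∈ range J, (2 * (WW c k * (∑ n ∈ S, Hyp.gg c lam B b b' n * TE c lam m n k) ^ 2) +
          2 * (WW c k * (∑ n ∈ S, Hyp.hh c lam B b b' n * TE c lam m n k) ^ 2)) := by
          apply sum_le_sum
          intro j _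
          have := mul_nonneg (hW j).le (sq_nonneg ((∑ n ∈ S, Hyp.gg c lam B b b' n * TE c lam m n j) - ∑ n ∈ S, Hyp.hh c lam B b b' n * TE c lam m n j))
          nlinarith
      _ = 2 * ∑ k ∈ range J, WW c k * (∑ n ∈ S, Hyp.gg c lam B b b' n * TE c lam m n k) ^ 2 +
          2 * ∑ k ∈ range J, WW c k * (∑ n ∈ S, Hyp.hh c lam B b b' n * TE c lam m n k) ^ 2 := by
          rw [sum_add_distrib, mul_sum, mul_sum]
      _ ≤ 2 * (CJ * κE * D ^ 2) + 2 * (CJ * κE * (CH * 81 * ρ ^ 2 * D ^ 2)) := by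
          have a1 : CJ * κE * QQ (WW c) S (jj c lam) (Hyp.gg c lam B b b') ≤ CJ * κE * D ^ 2 :=
            mul_le_mul_of_nonneg_left g1 (by positivity)
          have a2 : CJ * κE * QQ (WW c) S (jj c lam) (Hyp.hh c lam B b b') ≤ CJ * κE * (CH * 81 * ρ ^ 2 * D ^ 2) :=
            mul_le_mul_of_nonneg_left hh2 (by positivity)
          linarith
      _ = _ := by ring

lemma summable_g {g : ℕ → ℝ} {D : ℝ} (hg : ∀ J : ℕ, ∑ j ∈ range J, WW c j * g j ^ 2 ≤ D ^ 2) :
    Summable fun k => |g k| :=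
  summable_of_W (WW_pos h.hc h.hc1) h.hR (by norm_num) hg

lemma summable_gP (hm : 1 ≤ m) {g : ℕ → ℝ} (hg : Summable fun k => |g k|) (j : ℕ) :
    Summable fun k => g k * PP (sk m k) j := by
  refine Summable.of_norm_bounded (hg.mul_right (2 * 2 ^ m)) fun k => ?_
  rw [Real.norm_eq_abs, abs_mul]
  exact mul_le_mul_of_nonneg_left (PP_le (sk_cont hm k) (fun x h0 h2 => sk_abs m k h0 h2) j) (abs_nonneg _)

lemma lip_U (hm : 2 ≤ m) {g : ℕ → ℝ} {D : ℝ} (hg : ∀ J : ℕ, ∑ j ∈ range J, WW c j * g j ^ 2 ≤ D ^ 2) (J : ℕ) :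
    ∑ j ∈ range J, WW c j * (∑' k, g k * PP (sk m k) j) ^ 2 ≤ CJ * CU m * D ^ 2 := by
  have hW := WW_pos h.hc h.hc1
  have hs := summable_g h hg
  have ht : Filter.Tendsto (fun S : Finset ℕ => ∑ j ∈ range J, WW c j * (∑ k ∈ S, g k * PP (sk m k) j) ^ 2)
      Filter.atTop (nhds (∑ j ∈ range J, WW c j * (∑' k, g k * PP (sk m k) j) ^ 2)) :=
    tendsto_finsetSum _ fun j _ => ((summable_gP h (by omega) hs j).hasSum.pow 2).const_mul _
  refine le_of_tendsto' ht fun S => ?_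
  refine (W_U h hm S g J).trans ?_
  apply mul_le_mul_of_nonneg_left _ (mul_nonneg h.hCJ (CU_pos m).le)
  refine le_trans ?_ (hg (S.sup id + 1))
  apply sum_le_sum_of_subset_of_nonneg
  · intro y hy
    rw [mem_range]
    have : id y ≤ S.sup id := le_sup hy
    simp only [id] at this
    omega
  · intro y _ _
    exact mul_nonneg (hW y).le (sq_nonneg _)

/-- Lipschitz bound of the inner part -/
lemma lip_b {b b' : ℕ → ℝ} {ρ D : ℝ} (hρ0 : 0 < ρ) (hD0 : 0 ≤ D) (hρ : 9 * ρ ^ 2 ≤ 1)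
    (hK : 2 * (CJ * (800 * e ^ 2 + 2 * κ)) + 2 * (CJ * (720 + 2 * κ)) * (CH * 81 * ρ ^ 2) ≤ 1 / 4)
    (hb : ∀ J : ℕ, ∑ j ∈ range J, WW c j * b j ^ 2 ≤ ρ ^ 2) (hb' : ∀ J : ℕ, ∑ j ∈ range J, WW c j * b' j ^ 2 ≤ ρ ^ 2)
    (hD : ∀ J : ℕ, ∑ j ∈ range J, WW c j * (b j - b' j) ^ 2 ≤ D ^ 2) (J : ℕ) :
    ∑ j ∈ range J, WW c j * (∑' n, alp c lam B b n * TT c lam m n j - ∑' n, alp c lam B b' n * TT c lam m n j) ^ 2 ≤
      1 / 4 * D ^ 2 := by
  have hsb := h.summable_alp hρ0 hρ hb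
  have hsb' := h.summable_alp hρ0 hρ hb'
  have e1 : ∀ j, ∑' n, alp c lam B b n * TT c lam m n j - ∑' n, alp c lam B b' n * TT c lam m n j =
      ∑' n, (alp c lam B b n - alp c lam B b' n) * TT c lam m n j := by
    intro j
    rw [← (h.summable_term hsb j).tsum_sub (h.summable_term hsb' j)]
    exact tsum_congr fun n => by ring
  simp_rw [e1]
  have hsum : ∀ j, HasSum (fun n => (alp c lam B b n - alp c lam B b' n) * TT c lam m n j)
      (∑' n, (alp c lam B b n - alp c lam B b' n) * TT c lam m n j) := by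
    intro j
    apply Summable.hasSum
    have := (h.summable_term hsb j).sub (h.summable_term hsb' j)
    refine this.congr fun n => by ring
  have ht : Filter.Tendsto (fun S : Finset ℕ => ∑ j ∈ range J, WW c j * (∑ n ∈ S, (alp c lam B b n - alp c lam B b' n) * TT c lam m n j) ^ 2)
      Filter.atTop (nhds (∑ j ∈ range J, WW c j * (∑' n, (alp c lam B b n - alp c lam B b' n) * TT c lam m n j) ^ 2)) :=
    tendsto_finsetSum _ fun j _ => ((hsum j).pow 2).const_mul _
  refine le_of_tendsto' ht fun S => ?_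
  exact (h.fin_lip hρ0 hD0 hρ hb hb' hD S J).trans (mul_le_mul_of_nonneg_right hK (sq_nonneg _))

end

/-- interleaved weights -/
noncomputable def WX (c K0 : ℝ) (i : ℕ) : ℝ := if i % 2 = 0 then WW c (i / 2) else K0 ^ 2 * WW c (i / 2)

lemma sum_WX (c K0 : ℝ) (y : ℕ → ℝ) (J : ℕ) : ∑ i ∈ range (2 * J), WX c K0 i * y i ^ 2 =
    ∑ j ∈ range J, WW c j * y (2 * j) ^ 2 + K0 ^ 2 * ∑ j ∈ range J, WW c j * y (2 * j + 1) ^ 2 := by
  induction J with
  | zero => simp
  | succ J ih =>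
    rw [show 2 * (J + 1) = 2 * J + 1 + 1 by ring, sum_range_succ, sum_range_succ, ih, sum_range_succ, sum_range_succ]
    have e1 : WX c K0 (2 * J) = WW c J := by
      unfold WX
      rw [if_pos (by omega)]; congr 1; omega
    have e2 : WX c K0 (2 * J + 1) = K0 ^ 2 * WW c J := by
      unfold WX
      rw [if_neg (by omega)]; congr 2; omega
    rw [e1, e2]
    ring

/-- **the fixed point with interpolation conditions** -/
theorem fixed_interp (h : Hyp c lam e κ CJ CH B m) (hQ : TaskQ) (hm : 4 ≤ m) {κE K0 : ℝ} (hκE : 0 ≤ κE) (hE : EBound m κE)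
    (hK0 : 0 < K0) (hK1 : 2 * (CJ * CU m) ≤ 1 / 8 * K0 ^ 2)
    {ρ : ℝ} (hρ0 : 0 < ρ) (hρ : 9 * ρ ^ 2 ≤ 1)
    (hK : 2 * (CJ * (800 * e ^ 2 + 2 * κ)) + 2 * (CJ * (720 + 2 * κ)) * (CH * 81 * ρ ^ 2) ≤ 1 / 4)
    (hK2 : K0 ^ 2 * 1024 * (2 * (CJ * κE) * (1 + CH * 81 * ρ ^ 2)) ≤ 1 / 8)
    (s t : ℕ → ℝ) (hs : ∀ J : ℕ, ∑ j ∈ range J, WW c j * s j ^ 2 ≤ (ρ / 16) ^ 2)
    (ht : ∀ J : ℕ, K0 ^ 2 * ∑ j ∈ range J, WW c j * t j ^ 2 ≤ (ρ / 16) ^ 2) :
    ∃ b g : ℕ → ℝ, (∀ J : ℕ, ∑ j ∈ range J, WW c j * b j ^ 2 ≤ ρ ^ 2) ∧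
      (∀ J : ℕ, K0 ^ 2 * ∑ j ∈ range J, WW c j * g j ^ 2 ≤ ρ ^ 2) ∧
      (Summable fun n => |alp c lam B b n|) ∧ (Summable fun k => |g k|) ∧
      (∀ j, b j = (s j + ∑' k, g k * PP (sk m k) j) + ∑' n, alp c lam B b n * TT c lam m n j) ∧
      (∀ k, g k = t k - 32 * ∑' n, alp c lam B b n * TE c lam m n k) := by
  have hW := WW_pos h.hc h.hc1
  have hWX : ∀ i, 0 < WX c K0 i := by
    intro i
    unfold WX
    split_ifs
    · exact hW _
    · exact mul_pos (by positivity) (hW _)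
  -- from combined sums to the two parts
  have hpart : ∀ (y : ℕ → ℝ) (D : ℝ), (∀ J : ℕ, ∑ i ∈ range J, WX c K0 i * y i ^ 2 ≤ D ^ 2) →
      (∀ J : ℕ, ∑ j ∈ range J, WW c j * y (2 * j) ^ 2 ≤ D ^ 2) ∧
      (∀ J : ℕ, K0 ^ 2 * ∑ j ∈ range J, WW c j * y (2 * j + 1) ^ 2 ≤ D ^ 2) := by
    intro y D hy
    have h0 : ∀ J, 0 ≤ ∑ j ∈ range J, WW c j * y (2 * j) ^ 2 := fun J =>
      sum_nonneg fun j _ => mul_nonneg (hW j).le (sq_nonneg _)
    have h1 : ∀ J, 0 ≤ K0 ^ 2 * ∑ j ∈ range J, WW c j * y (2 * j + 1) ^ 2 := fun J =>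
      mul_nonneg (sq_nonneg _) (sum_nonneg fun j _ => mul_nonneg (hW j).le (sq_nonneg _))
    constructor
    · intro J
      have := hy (2 * J)
      rw [sum_WX] at this
      linarith [h1 J]
    · intro J
      have := hy (2 * J)
      rw [sum_WX] at this
      linarith [h0 J]
  have hback : ∀ (y : ℕ → ℝ) (D1 D2 : ℝ), (∀ J : ℕ, ∑ j ∈ range J, WW c j * y (2 * j) ^ 2 ≤ D1) →
      (∀ J : ℕ, K0 ^ 2 * ∑ j ∈ range J, WW c j * y (2 * j + 1) ^ 2 ≤ D2) →
      ∀ J : ℕ, ∑ i ∈ range J, WX c K0 i * y i ^ 2 ≤ D1 + D2 := by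
    intro y D1 D2 h1 h2 J
    have h3 : ∑ i ∈ range J, WX c K0 i * y i ^ 2 ≤ ∑ i ∈ range (2 * J), WX c K0 i * y i ^ 2 := by
      apply sum_le_sum_of_subset_of_nonneg (range_mono (by omega))
      intro i _ _
      exact mul_nonneg (hWX i).le (sq_nonneg _)
    refine h3.trans ?_
    rw [sum_WX]
    exact add_le_add (h1 J) (h2 J)
  have hm3 : 3 ≤ m := by omega
  obtain ⟨Φ, hΦ⟩ : ∃ Φ : (ℕ → ℝ) → ℕ → ℝ, Φ = fun x i => if i % 2 = 0 then
      (s (i / 2) + ∑' k, x (2 * k + 1) * PP (sk m k) (i / 2)) +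
        ∑' n, alp c lam B (fun j => x (2 * j)) n * TT c lam m n (i / 2)
      else t (i / 2) - 32 * ∑' n, alp c lam B (fun j => x (2 * j)) n * TE c lam m n (i / 2) := ⟨_, rfl⟩
  have hΦ0 : ∀ x j, Φ x (2 * j) = (s j + ∑' k, x (2 * k + 1) * PP (sk m k) j) +
      ∑' n, alp c lam B (fun j => x (2 * j)) n * TT c lam m n j := by
    intro x j
    rw [hΦ]
    simp only
    rw [if_pos (by omega), show 2 * j / 2 = j by omega]
  have hΦ1 : ∀ x j, Φ x (2 * j + 1) = t j - 32 * ∑' n, alp c lam B (fun j => x (2 * j)) n * TE c lam m n j := by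
    intro x j
    rw [hΦ]
    simp only
    rw [if_neg (by omega), show (2 * j + 1) / 2 = j by omega]
  have hzT : ∀ j, ∑' n, alp c lam B (fun _ => 0) n * TT c lam m n j = 0 := by
    intro j
    have : ∀ n, alp c lam B (fun _ => 0) n * TT c lam m n j = 0 := by
      intro n
      rw [Hyp.alp_zero]
      split_ifs with h1
      · subst h1
        unfold TT
        simp
        intro hp1
        exact absurd hp1 Nat.not_prime_one
      · simp
    simp_rw [this]
    exact tsum_zero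
  have hzE : ∀ j, ∑' n, alp c lam B (fun _ => 0) n * TE c lam m n j = 0 := by
    intro j
    have : ∀ n, alp c lam B (fun _ => 0) n * TE c lam m n j = 0 := by
      intro n
      rw [Hyp.alp_zero]
      split_ifs with h1
      · subst h1
        unfold TE
        simp
      · simp
    simp_rw [this]
    exact tsum_zero
  obtain ⟨x, hx1, hx2⟩ := hQ (WX c K0) hWX Φ ρ (7 / 8) hρ0 (by norm_num) (by norm_num) (by
    have h1 := hback (Φ fun _ => 0) ((ρ / 16) ^ 2) ((ρ / 16) ^ 2) (fun J => by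
      have : ∀ j, Φ (fun _ => 0) (2 * j) = s j := by
        intro j
        rw [hΦ0, hzT]
        simp
      simp_rw [this]
      exact hs J) (fun J => by
      have : ∀ j, Φ (fun _ => 0) (2 * j + 1) = t j := by
        intro j
        rw [hΦ1, hzE]
        simp
      simp_rw [this]
      exact ht J)
    intro J
    refine (h1 J).trans ?_
    nlinarith [sq_nonneg ρ]) (by
    intro x x' hx hx' D hD0 hD J
    obtain ⟨hb, hg⟩ := hpart x ρ hx
    obtain ⟨hb', hg'⟩ := hpart x' ρ hx'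
    obtain ⟨hDb, hDg⟩ := hpart (fun i => x i - x' i) D hD
    have hK02 : 0 < K0 ^ 2 := by positivity
    have hgD : ∀ (g : ℕ → ℝ) (D : ℝ), (∀ J : ℕ, K0 ^ 2 * ∑ j ∈ range J, WW c j * g j ^ 2 ≤ D ^ 2) →
        ∀ J : ℕ, ∑ j ∈ range J, WW c j * g j ^ 2 ≤ (D / K0) ^ 2 := by
      intro g D hg J
      rw [div_pow, le_div_iff₀ hK02, mul_comm]
      exact hg J
    have hsg := summable_g h (hgD _ _ hg)
    have hsg' := summable_g h (hgD _ _ hg')
    have hU := lip_U h (by omega) (hgD _ _ hDg)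
    have hI := lip_b h hρ0 hD0 hρ hK hb hb' hDb
    have hT := lip_E h hκE hE hm hρ0 hD0 hρ hb hb' hDb
    have e1 : ∀ j, ∑' k, (x (2 * k + 1) - x' (2 * k + 1)) * PP (sk m k) j =
        ∑' k, x (2 * k + 1) * PP (sk m k) j - ∑' k, x' (2 * k + 1) * PP (sk m k) j := by
      intro j
      rw [← (summable_gP h (by omega) hsg j).tsum_sub (summable_gP h (by omega) hsg' j)]
      exact tsum_congr fun k => by ring
    refine (hback (fun i => Φ x i - Φ x' i) (5 / 8 * D ^ 2) (1 / 8 * D ^ 2) ?_ ?_ J).trans ?_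
    · intro J
      have e2 : ∀ j, Φ x (2 * j) - Φ x' (2 * j) = (∑' k, (x (2 * k + 1) - x' (2 * k + 1)) * PP (sk m k) j) +
          (∑' n, alp c lam B (fun j => x (2 * j)) n * TT c lam m n j -
            ∑' n, alp c lam B (fun j => x' (2 * j)) n * TT c lam m n j) := by
        intro j
        rw [hΦ0, hΦ0, e1]
        ring
      simp_rw [e2]
      calc ∑ j ∈ range J, WW c j * ((∑' k, (x (2 * k + 1) - x' (2 * k + 1)) * PP (sk m k) j) +
          (∑' n, alp c lam B (fun j => x (2 * j)) n * TT c lam m n j -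
            ∑' n, alp c lam B (fun j => x' (2 * j)) n * TT c lam m n j)) ^ 2
          ≤ ∑ j ∈ range J, (2 * (WW c j * (∑' k, (x (2 * k + 1) - x' (2 * k + 1)) * PP (sk m k) j) ^ 2) +
            2 * (WW c j * (∑' n, alp c lam B (fun j => x (2 * j)) n * TT c lam m n j -
            ∑' n, alp c lam B (fun j => x' (2 * j)) n * TT c lam m n j) ^ 2)) := by
            apply sum_le_sum
            intro j _
            have := mul_nonneg (hW j).le (sq_nonneg ((∑' k, (x (2 * k + 1) - x' (2 * k + 1)) * PP (sk m k) j) -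
              (∑' n, alp c lam B (fun j => x (2 * j)) n * TT c lam m n j -
            ∑' n, alp c lam B (fun j => x' (2 * j)) n * TT c lam m n j)))
            nlinarith
        _ = 2 * ∑ j ∈ range J, WW c j * (∑' k, (x (2 * k + 1) - x' (2 * k + 1)) * PP (sk m k) j) ^ 2 +
            2 * ∑ j ∈ range J, WW c j * (∑' n, alp c lam B (fun j => x (2 * j)) n * TT c lam m n j -
            ∑' n, alp c lam B (fun j => x' (2 * j)) n * TT c lam m n j) ^ 2 := by
            rw [sum_add_distrib, mul_sum, mul_sum]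
        _ ≤ 2 * (CJ * CU m * (D / K0) ^ 2) + 2 * (1 / 4 * D ^ 2) := by
            have a1 := hU J
            have a2 := hI J
            linarith
        _ ≤ 1 / 8 * D ^ 2 + 2 * (1 / 4 * D ^ 2) := by
            have a3 : 2 * (CJ * CU m) * (D / K0) ^ 2 ≤ 1 / 8 * K0 ^ 2 * (D / K0) ^ 2 :=
              mul_le_mul_of_nonneg_right hK1 (sq_nonneg _)
            have a4 : 1 / 8 * K0 ^ 2 * (D / K0) ^ 2 = 1 / 8 * D ^ 2 := by
              rw [div_pow]; field_simp
            linarith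
        _ = 5 / 8 * D ^ 2 := by ring
    · intro J
      have e2 : ∀ j, Φ x (2 * j + 1) - Φ x' (2 * j + 1) = -32 *
          (∑' n, alp c lam B (fun j => x (2 * j)) n * TE c lam m n j -
            ∑' n, alp c lam B (fun j => x' (2 * j)) n * TE c lam m n j) := by
        intro j
        rw [hΦ1, hΦ1]
        ring
      simp_rw [e2]
      have e3 : ∑ j ∈ range J, WW c j * (-32 *
          (∑' n, alp c lam B (fun j => x (2 * j)) n * TE c lam m n j -
            ∑' n, alp c lam B (fun j => x' (2 * j)) n * TE c lam m n j)) ^ 2 =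
          1024 * ∑ j ∈ range J, WW c j * (∑' n, alp c lam B (fun j => x (2 * j)) n * TE c lam m n j -
            ∑' n, alp c lam B (fun j => x' (2 * j)) n * TE c lam m n j) ^ 2 := by
        rw [mul_sum]
        exact sum_congr rfl fun j _ => by ring
      rw [e3]
      have a1 := hT J
      calc K0 ^ 2 * (1024 * ∑ j ∈ range J, WW c j * (∑' n, alp c lam B (fun j => x (2 * j)) n * TE c lam m n j -
            ∑' n, alp c lam B (fun j => x' (2 * j)) n * TE c lam m n j) ^ 2)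
          ≤ K0 ^ 2 * (1024 * (2 * (CJ * κE) * (1 + CH * 81 * ρ ^ 2) * D ^ 2)) := by gcongr
        _ = K0 ^ 2 * 1024 * (2 * (CJ * κE) * (1 + CH * 81 * ρ ^ 2)) * D ^ 2 := by ring
        _ ≤ 1 / 8 * D ^ 2 := mul_le_mul_of_nonneg_right hK2 (sq_nonneg _)
    · nlinarith [sq_nonneg D])
  obtain ⟨hb, hg⟩ := hpart x ρ hx1
  have hK02 : 0 < K0 ^ 2 := by positivity
  refine ⟨fun j => x (2 * j), fun k => x (2 * k + 1), hb, hg, h.summable_alp hρ0 hρ hb, ?_, fun j => ?_, fun k => ?_⟩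
  · refine summable_g h (D := ρ / K0) fun J => ?_
    rw [div_pow, le_div_iff₀ hK02, mul_comm]
    exact hg J
  · have := hx2 (2 * j)
    rw [hΦ0] at this
    exact this
  · have := hx2 (2 * k + 1)
    rw [hΦ1] at this
    exact this

end Pool.Agent.Q127.EZ
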