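import Mathlib
import Pool.Agent.H13R3.EM.Rel

set_option autoImplicit false

/-!
A fixed point with a symmetric extra source gives the boundary relation and prescribes the boundary
function on `[3/4, 2]`. Copy of `Pool.Agent.H13R3.EM.rel_of_fixed` with more output.
-/

open Finset MeasureTheory

namespace Pool.Agent.Q127.EZ

open Pool.Agent.H469R10.HO Pool.Agent.H54R3.T469O Pool.Agent.H13R3.EM

theorem rel_of_fixed2 (c lam : ℝ) (m : ℕ) (B : ℕ → Finset ℕ) (b : ℕ → ℝ) (r : ℝ → ℝ) (hc : 0 < c) (hlam : 1 ≤ lam)
    (hm : 2 ≤ m) (hrc : Continuous r) (hr0 : ∀ x, 0 ≤ x → x ≤ 3 / 4 → r x = 0) (hr1 : ∀ x, 4 / 3 ≤ x → r x = 0)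
    (hrs : ∀ x, 0 < x → r x = x ^ (2 * m) * r x⁻¹)
    (hB : ∀ j, ∀ p ∈ B j, 1 ≤ j ∧ p.Prime ∧ |uu c lam p - xx j| ≤ 1 / 2) (hne : ∀ j, 1 ≤ j → (B j).Nonempty)
    (hsum : Summable (fun n => |alp c lam B b n|))
    (hfix : ∀ j, b j = (ss c m j + PP r j) + ∑' n, alp c lam B b n * TT c lam m n j)
    (α : ℕ → ℝ) (hα : ∀ n, α n = if n = 0 then b 0 - 1 else if Squarefree n then ∏ p ∈ n.primeFactors, bet c lam B b p else 0) :
    (∀ x : ℝ, 0 < x → ∑' n, α n * Real.cos (uu c lam n * x) =
      x ^ (2 * m) * ∑' n, α n * Real.cos (uu c lam n / x)) ∧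
    (∀ x : ℝ, 3 / 4 ≤ x → x ≤ 2 → hb c lam α x = r x) ∧
    (∀ x : ℝ, hb c lam α x = s0 c x + ∑' n, (if n = 1 then 0 else alp c lam B b n) * Real.cos (uu c lam n * x)) := by
  classical
  -- coefficients without `n = 1`
  let a : ℕ → ℝ := fun n => if n = 1 then 0 else alp c lam B b n
  have ha : Summable (fun n => |a n|) := by
    refine Summable.of_nonneg_of_le (fun _ => abs_nonneg _) (fun n => ?_) hsum
    simp only [a]
    split_ifs
    · rw [abs_zero]; exact abs_nonneg _
    · exact le_rfl
  let G : ℝ → ℝ := fun x => ∑' n, a n * Real.cos (uu c lam n * x)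
  have hGb : ∀ n x, ‖a n * Real.cos (uu c lam n * x)‖ ≤ |a n| := by
    intro n x
    rw [Real.norm_eq_abs, abs_mul]
    calc |a n| * |Real.cos (uu c lam n * x)| ≤ |a n| * 1 := by
          gcongr
          exact Real.abs_cos_le_one _
      _ = |a n| := mul_one _
  have hGs : ∀ x, HasSum (fun n => a n * Real.cos (uu c lam n * x)) (G x) := fun x =>
    (Summable.of_norm_bounded ha (fun n => hGb n x)).hasSum
  have hGc : Continuous G := continuous_tsum (fun n => by fun_prop) ha hGb
  have hGB : ∀ x, |G x| ≤ ∑' n, |a n| := fun x => tsum_of_norm_bounded ha.hasSum (fun n => hGb n x)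
  have hs0c : Continuous (s0 c) := by unfold s0; fun_prop
  have hs0B : ∀ x, |s0 c x| ≤ 2 := by
    intro x
    unfold s0
    rw [abs_le]
    constructor <;> linarith [Real.neg_one_le_cos (c * x), Real.cos_le_one (c * x)]
  let h : ℝ → ℝ := fun x => s0 c x + G x
  have hhc : Continuous h := hs0c.add hGc
  have hhB : ∀ x, |h x| ≤ 2 + ∑' n, |a n| := fun x =>
    (abs_add_le _ _).trans (add_le_add (hs0B x) (hGB x))
  have hm1 : 1 ≤ m := by omega
  -- the sum over `n = 0` and primes
  have hE : ∀ j, HasSum (fun n => if n = 0 ∨ n.Prime then (if jj c lam n = j then alp c lam B b n else 0) else 0)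
      (b j) := by
    intro j
    rcases Nat.eq_zero_or_pos j with rfl | hj
    · have h1 := hasSum_sum_of_ne_finset_zero (L := SummationFilter.unconditional ℕ) (f := fun n => if n = 0 ∨ n.Prime then
          (if jj c lam n = 0 then alp c lam B b n else 0) else 0) (s := {0}) (fun n hn => by
        have hn0 : n ≠ 0 := by simpa using hn
        by_cases hp : n.Prime
        · simp only [hn0, hp, false_or, if_true]
          split_ifs with hj
          · rw [alp_prime hp]
            unfold bet
            rw [hj]
            rw [if_neg]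
            intro hmem
            have := (hB 0 n hmem).1
            omega
          · rfl
        · simp [hn0, hp])
      simp only [sum_singleton, true_or, if_true, jj_zero hlam] at h1
      have h2 : alp c lam B b 0 = b 0 := by unfold alp; rw [if_pos rfl]
      rwa [h2] at h1
    · have h1 := hasSum_sum_of_ne_finset_zero (L := SummationFilter.unconditional ℕ) (f := fun n => if n = 0 ∨ n.Prime then
          (if jj c lam n = j then alp c lam B b n else 0) else 0) (s := B j) (fun n hn => by
        by_cases hn0 : n = 0
        · subst hn0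
          simp only [true_or, if_true, jj_zero hlam]
          rw [if_neg (by omega)]
        by_cases hp : n.Prime
        · simp only [hn0, hp, false_or, if_true]
          split_ifs with hj
          · rw [alp_prime hp]
            unfold bet
            rw [hj, if_neg hn]
          · rfl
        · simp [hn0, hp])
      have h2 : ∑ n ∈ B j, (if n = 0 ∨ n.Prime then
          (if jj c lam n = j then alp c lam B b n else 0) else 0) = b j := by
        have h3 : ∀ n ∈ B j, (if n = 0 ∨ n.Prime then
          (if jj c lam n = j then alp c lam B b n else 0) else 0) = b j / (B j).card := by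
          intro n hn
          obtain ⟨-, hp, hnear⟩ := hB j n hn
          have hjn := jj_of_near hnear
          rw [if_pos (Or.inr hp), if_pos hjn, alp_prime hp]
          unfold bet
          rw [hjn, if_pos hn]
        rw [sum_congr rfl h3, sum_const, nsmul_eq_mul]
        have h4 : ((B j).card : ℝ) ≠ 0 := by
          have := (hne j hj).card_pos
          positivity
        field_simp
      rwa [h2] at h1
  -- the projections
  have hP : ∀ j, PP h j = PP (DD m h) j + PP r j := by
    intro j
    have H1 : HasSum (fun n => a n * PP (fun t => Real.cos (uu c lam n * t)) j) (PP G j) := by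
      have h1 := PP_hasSum (F := fun n x => a n * Real.cos (uu c lam n * x)) (a := fun n => |a n|)
        (fun n => by fun_prop) (fun n x _ => hGb n x) ha j (f := G) (fun x _ => hGs x)
      simpa only [PP_const_mul] using h1
    have hcosB : ∀ n x, |Real.cos (uu c lam n * x)| ≤ 1 := fun n x => Real.abs_cos_le_one _
    have hDc : ∀ n, Continuous (DD m (fun y => Real.cos (uu c lam n * y))) := fun n =>
      DD_cont hm1 (by fun_prop) (hcosB n)
    have H2 : HasSum (fun n => a n * PP (DD m (fun y => Real.cos (uu c lam n * y))) j) (PP (DD m G) j) := by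
      have h1 := PP_hasSum (F := fun n x => a n * DD m (fun y => Real.cos (uu c lam n * y)) x)
        (a := fun n => |a n| * 2 ^ (2 * m))
        (fun n => continuous_const.mul (hDc n)) (fun n x hx => by
          rw [abs_mul]
          have h2 := DD_abs (m := m) (hcosB n) x
          have h3 : x ^ (2 * m) ≤ 2 ^ (2 * m) := pow_le_pow_left₀ hx.1 hx.2 _
          have h4 : |DD m (fun y => Real.cos (uu c lam n * y)) x| ≤ 2 ^ (2 * m) := by linarith
          gcongr) (ha.mul_right _) j (f := DD m G) (fun x _ => by
          have h2 := (hGs x⁻¹).mul_left (chi x * x ^ (2 * m))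
          have h3 : (fun n => a n * DD m (fun y => Real.cos (uu c lam n * y)) x) =
              fun n => chi x * x ^ (2 * m) * (a n * Real.cos (uu c lam n * x⁻¹)) := by
            funext n
            unfold DD
            ring
          rw [h3]
          exact h2)
      simpa only [PP_const_mul] using h1
    have H4 : HasSum (fun n => alp c lam B b n * TT c lam m n j) (- PP G j + PP (DD m G) j + b j) := by
      have h1 := ((H1.neg).add H2).add (hE j)
      have h2 : (fun n => alp c lam B b n * TT c lam m n j) = fun n =>
          -(a n * PP (fun t => Real.cos (uu c lam n * t)) j) +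
            a n * PP (DD m (fun y => Real.cos (uu c lam n * y))) j +
            (if n = 0 ∨ n.Prime then (if jj c lam n = j then alp c lam B b n else 0) else 0) := by
        funext n
        by_cases h0 : n = 0 ∨ n.Prime
        · have hn1 : n ≠ 1 := by
            rintro rfl
            rcases h0 with h0 | h0
            · omega
            · exact Nat.not_prime_one h0
          have han : a n = alp c lam B b n := if_neg hn1
          unfold TT
          rw [if_pos h0, if_pos h0, han, PP_sub (by fun_prop) (by fun_prop), PP_cos]
          split_ifs <;> ring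
        · by_cases h3 : Squarefree n ∧ 2 ≤ n.primeFactors.card
          · have hn1 : n ≠ 1 := by
              rintro rfl
              simp at h3
            have han : a n = alp c lam B b n := if_neg hn1
            unfold TT
            rw [if_neg h0, if_neg h0, if_pos h3, han]
            ring
          · by_cases hn1 : n = 1
            · have han : a n = 0 := if_pos hn1
              unfold TT
              rw [if_neg h0, if_neg h0, if_neg h3, han]
              ring
            · have h4 := alp_eq_zero (c := c) (lam := lam) (B := B) (b := b) h0 h3 hn1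
              have han : a n = 0 := (if_neg hn1).trans h4
              rw [if_neg h0, h4, han]
              ring
      rw [h2]
      exact h1
    have h5 := hfix j
    rw [H4.tsum_eq] at h5
    unfold ss at h5
    have h6 : PP h j = PP (s0 c) j + PP G j := PP_add hs0c hGc j
    have h7 : PP (DD m h) j = PP (DD m (s0 c)) j + PP (DD m G) j := by
      rw [← PP_add (DD_cont hm1 hs0c hs0B) (DD_cont hm1 hGc hGB)]
      congr 1
      funext x
      simp only [DD, h]
      ring
    linarith
  have hDhc : Continuous (DD m h) := DD_cont hm1 hhc hhB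
  have hL := Pool.Agent.H82R3.T469L.taskL (fun x => (h x - DD m h x) - r x) ((hhc.sub hDhc).sub hrc) (fun j => by
    have h1 : PP (fun x => (h x - DD m h x) - r x) j = 0 := by
      have e1 := PP_sub (f := fun x => h x - DD m h x) (g := r) (hhc.sub hDhc) hrc j
      have e2 := PP_sub hhc hDhc j
      rw [e1, e2, hP j]
      ring
    unfold PP at h1
    have h2 : ww j ≠ 0 := by have := ww_ge j; positivity
    exact (div_eq_zero_iff.mp h1).resolve_right h2)
  have hL' : ∀ x ∈ Set.Icc (0:ℝ) 2, h x = chi x * x ^ (2 * m) * h x⁻¹ + r x := fun x hx => by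
    have := hL x hx
    simp only [DD] at this
    linarith
  have hz1 : ∀ x ∈ Set.Icc (3 / 4 : ℝ) 2, h x = r x := by
    intro x hx
    rw [hL' x ⟨by linarith [hx.1], hx.2⟩, chi_zero hx.1]
    ring
  have hz2 : ∀ x ∈ Set.Icc (4 / 3 : ℝ) 2, h x = 0 := by
    intro x hx
    rw [hz1 x ⟨by linarith [hx.1], hx.2⟩, hr1 x hx.1]
  have hlow : ∀ x : ℝ, 0 < x → x ≤ 4 / 3 → h x = x ^ (2 * m) * h x⁻¹ := by
    intro x hx0 hx1
    rcases le_total x (1 / 2) with h1 | h1
    · rw [hL' x ⟨hx0.le, by linarith⟩, chi_one h1, one_mul, hr0 x hx0.le (by linarith), add_zero]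
    rcases le_total x (3 / 4) with h2 | h2
    · have hi : h x⁻¹ = 0 := by
        apply hz2
        constructor
        · rw [le_inv_comm₀ (by norm_num) hx0]; norm_num; linarith
        · rw [inv_le_comm₀ hx0 (by norm_num)]; linarith
      rw [hL' x ⟨hx0.le, by linarith⟩, hi, hr0 x hx0.le h2]
      ring
    · have hi : h x⁻¹ = r x⁻¹ := by
        apply hz1
        constructor
        · rw [le_inv_comm₀ (by norm_num) hx0]; norm_num; linarith
        · rw [inv_le_comm₀ hx0 (by norm_num)]; linarith
      rw [hz1 x ⟨h2, by linarith⟩, hi]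
      exact hrs x hx0
  have hfinal : ∀ x : ℝ, 0 < x → h x = x ^ (2 * m) * h x⁻¹ := by
    intro x hx
    rcases le_total x (4 / 3) with h1 | h1
    · exact hlow x hx h1
    · have h3 := hlow x⁻¹ (inv_pos.mpr hx) (by
        rw [inv_le_comm₀ hx (by norm_num)]
        norm_num
        linarith)
      rw [inv_inv] at h3
      rw [h3, ← mul_assoc, ← mul_pow, mul_inv_cancel₀ hx.ne', one_pow, one_mul]
  have hser : ∀ x, ∑' n, α n * Real.cos (uu c lam n * x) = h x := by
    intro x
    have h1 : HasSum (fun n => a n * Real.cos (uu c lam n * x) +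
        ((if n = 0 then -1 else 0) + (if n = 1 then Real.cos (c * x) else 0)))
        (G x + (-1 + Real.cos (c * x))) :=
      (hGs x).add ((hasSum_ite_eq 0 (-1)).add (hasSum_ite_eq 1 (Real.cos (c * x))))
    have h2 : (fun n => α n * Real.cos (uu c lam n * x)) = fun n => a n * Real.cos (uu c lam n * x) +
        ((if n = 0 then -1 else 0) + (if n = 1 then Real.cos (c * x) else 0)) := by
      funext n
      rw [hα n]
      by_cases hn0 : n = 0
      · subst hn0
        have h3 : a 0 = b 0 := by
          simp only [a]
          rw [if_neg (by norm_num)]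
          unfold alp
          rw [if_pos rfl]
        rw [if_pos rfl, if_pos rfl, if_neg (by norm_num), h3, uu_zero hlam, zero_mul, Real.cos_zero]
        ring
      by_cases hn1 : n = 1
      · subst hn1
        have h3 : a 1 = 0 := if_pos rfl
        rw [if_neg (by norm_num), if_pos squarefree_one, if_neg (by norm_num), if_pos rfl, h3, uu_one,
          Nat.primeFactors_one, prod_empty]
        ring
      · have h3 : a n = alp c lam B b n := if_neg hn1
        rw [if_neg hn0, if_neg hn0, if_neg hn1, h3]
        unfold alp
        rw [if_neg hn0]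
        ring
    rw [h2, h1.tsum_eq]
    simp only [h, s0]
    ring
  refine ⟨fun x hx => ?_, fun x hx1 hx2 => ?_, fun x => ?_⟩
  · rw [hser x]
    have h8 : ∀ n, uu c lam n / x = uu c lam n * x⁻¹ := fun n => div_eq_mul_inv _ _
    simp_rw [h8]
    rw [hser x⁻¹]
    exact hfinal x hx
  · unfold hb
    rw [hser x]
    exact hz1 x ⟨hx1, by linarith⟩
  · unfold hb
    rw [hser x]

end Pool.Agent.Q127.EZ
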