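import Mathlib
import Pool.Agent.Q127.EZ.Fix
import Pool.Agent.Q127.EZ.Rel2
import Pool.Agent.Q284.S.Wn

/-!
# The Mellin transform at the nodes
-/

set_option autoImplicit false

open Finset MeasureTheory

namespace Pool.Agent.Q127.EZ

open Pool.Agent.H469R10.HO Pool.Agent.H99R3.M469 Pool.Agent.H13R3.EM Pool.Agent.Q284.S

lemma hs_congr {f f' : ℕ → ℝ} {a a' : ℝ} (h : HasSum f a) (hf : ∀ n, f' n = f n) (ha : a' = a) : HasSum f' a' := by
  rw [ha, show f' = f from funext hf]; exact h

section src

variable {g : ℕ → ℝ} (hg : Summable fun k => |g k|)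

/-- the sum of the cosines -/
noncomputable def Th (g : ℕ → ℝ) (v : ℝ) : ℝ := ∑' k, g k * Real.cos (tau k * v)

/-- the source -/
noncomputable def rg (m : ℕ) (g : ℕ → ℝ) (x : ℝ) : ℝ := x ^ m * (rc (Real.log x) * Th g (Real.log x))

lemma Th_term (k : ℕ) (v : ℝ) : ‖g k * Real.cos (tau k * v)‖ ≤ |g k| := by
  rw [Real.norm_eq_abs, abs_mul]
  exact mul_le_of_le_one_right (abs_nonneg _) (Real.abs_cos_le_one _)

include hg

lemma Th_sum (v : ℝ) : HasSum (fun k => g k * Real.cos (tau k * v)) (Th g v) :=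
  (Summable.of_norm_bounded hg fun k => Th_term k v).hasSum

lemma Th_cont : Continuous (Th g) := continuous_tsum (fun k => by fun_prop) hg fun k v => Th_term k v

lemma Th_bd (v : ℝ) : |Th g v| ≤ ∑' k, |g k| := tsum_of_norm_bounded hg.hasSum fun k => Th_term k v

lemma rcTh_cont : Continuous fun v => rc v * Th g v := rc_cont.mul (Th_cont hg)

lemma rcTh_bd (v : ℝ) : |rc v * Th g v| ≤ ∑' k, |g k| := by
  rw [abs_mul]
  calc |rc v| * |Th g v| ≤ 1 * ∑' k, |g k| := mul_le_mul (rc_abs v) (Th_bd hg v) (abs_nonneg _) zero_le_one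
    _ = _ := one_mul _

lemma rg_cont {m : ℕ} (hm : 1 ≤ m) : Continuous (rg m g) :=
  Pool.Agent.H13R3.PZN.cont_log (rcTh_cont hg) (rcTh_bd hg) hm

lemma rg_sum (m : ℕ) (x : ℝ) : HasSum (fun k => g k * sk m k x) (rg m g x) := by
  have h1 := (Th_sum hg (Real.log x)).mul_left (x ^ m * rc (Real.log x))
  refine hs_congr h1 (fun k => ?_) ?_
  · unfold sk
    ring
  · unfold rg
    ring

lemma PP_rg {m : ℕ} (hm : 1 ≤ m) (j : ℕ) : PP (rg m g) j = ∑' k, g k * PP (sk m k) j := by
  have h1 := Pool.Agent.H54R3.T469O.PP_hasSum (F := fun k x => g k * sk m k x) (a := fun k => |g k| * 2 ^ m)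
    (fun k => continuous_const.mul (sk_cont hm k)) (fun k x hx => by
      rw [abs_mul]
      exact mul_le_mul_of_nonneg_left (sk_abs m k hx.1 hx.2) (abs_nonneg _)) (hg.mul_right _) j
    (f := rg m g) (fun x _ => rg_sum hg m x)
  have h2 : ∀ k, PP (fun x => g k * sk m k x) j = g k * PP (sk m k) j := by
    intro k
    unfold PP
    have : ∀ x, g k * sk m k x * Real.cos (xx j * x) = g k * (sk m k x * Real.cos (xx j * x)) := fun x => by ring
    simp_rw [this]
    rw [intervalIntegral.integral_const_mul, mul_div_assoc]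
  simp_rw [h2] at h1
  exact h1.tsum_eq.symm

omit hg in
lemma rg_low {m : ℕ} (hm : 1 ≤ m) (x : ℝ) (hx0 : 0 ≤ x) (hx : x ≤ 3 / 4) : rg m g x = 0 := by
  rcases hx0.eq_or_lt with h | h
  · subst h
    unfold rg
    rw [zero_pow (by omega)]; ring
  · unfold rg
    rw [rc_zero, zero_mul, mul_zero]
    have h1 : Real.log x ≤ - Real.log (4 / 3) := by
      rw [← Real.log_inv]
      apply Real.log_le_log h
      norm_num; linarith
    have := log43
    rw [abs_of_nonpos (by linarith)]
    linarith

omit hg in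
lemma rg_high {m : ℕ} (x : ℝ) (hx : 4 / 3 ≤ x) : rg m g x = 0 := by
  unfold rg
  rw [rc_zero, zero_mul, mul_zero]
  have h1 : Real.log (4 / 3) ≤ Real.log x := Real.log_le_log (by norm_num) hx
  have := log43
  rw [abs_of_nonneg (by linarith)]
  linarith

omit hg in
lemma Th_neg (v : ℝ) : Th g (-v) = Th g v := by
  unfold Th
  refine tsum_congr fun k => ?_
  rw [mul_neg, Real.cos_neg]

omit hg in
lemma rg_symm {m : ℕ} (x : ℝ) (hx : 0 < x) : rg m g x = x ^ (2 * m) * rg m g x⁻¹ := by
  unfold rg
  rw [Real.log_inv, rc_neg, Th_neg]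
  have : x ^ (2 * m) * x⁻¹ ^ m = x ^ m := by
    rw [two_mul, pow_add, mul_assoc, ← mul_pow, mul_inv_cancel₀ hx.ne', one_pow, mul_one]
  linear_combination (-(rc (Real.log x) * Th g (Real.log x))) * this

omit hg in
lemma int_cos_8 (n : ℤ) : ∫ v in (0:ℝ)..(1 / 8), Real.cos (8 * Real.pi * n * v) = if n = 0 then 1 / 8 else 0 := by
  split_ifs with h
  · subst h; simp
  · have hk : (8 * Real.pi * n : ℝ) ≠ 0 := by
      have := Real.pi_pos
      have h2 : (n : ℝ) ≠ 0 := by exact_mod_cast h
      positivity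
    rw [intervalIntegral.integral_comp_mul_left (fun t => Real.cos t) hk, integral_cos]
    have : (8 * Real.pi * (n : ℝ) * (1 / 8)) = (n : ℝ) * Real.pi := by ring
    rw [this, Real.sin_int_mul_pi]
    simp

omit hg in
/-- the Gram matrix is diagonal -/
lemma gram (k l : ℕ) : ∫ v in (0:ℝ)..(1 / 8), rc v * Real.cos (tau l * v) * Real.cos (tau k * v) =
    if l = k then 1 / 32 else 0 := by
  have e : ∀ v ∈ Set.uIcc (0:ℝ) (1 / 8), rc v * Real.cos (tau l * v) * Real.cos (tau k * v) =
      1 / 4 * Real.cos (8 * Real.pi * ((2 * (l - k) : ℤ)) * v) + 1 / 4 * Real.cos (8 * Real.pi * ((2 * (l + k + 2) : ℤ)) * v) +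
      (1 / 8 * Real.cos (8 * Real.pi * ((2 * (l - k) - 1 : ℤ)) * v) + 1 / 8 * Real.cos (8 * Real.pi * ((2 * (l - k) + 1 : ℤ)) * v)) +
      (1 / 8 * Real.cos (8 * Real.pi * ((2 * (l + k + 2) - 1 : ℤ)) * v) +
        1 / 8 * Real.cos (8 * Real.pi * ((2 * (l + k + 2) + 1 : ℤ)) * v)) := by
    intro v hv
    rw [Set.uIcc_of_le (by norm_num)] at hv
    unfold rc
    rw [if_pos (by rw [abs_of_nonneg hv.1]; exact hv.2)]
    have h1 : 8 * Real.pi * ((2 * ((l:ℤ) - k) : ℤ) : ℝ) * v = tau l * v - tau k * v := by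
      unfold tau; push_cast; ring
    have h2 : 8 * Real.pi * ((2 * ((l:ℤ) + k + 2) : ℤ) : ℝ) * v = tau l * v + tau k * v := by
      unfold tau; push_cast; ring
    have h3 : 8 * Real.pi * ((2 * ((l:ℤ) - k) - 1 : ℤ) : ℝ) * v = (tau l * v - tau k * v) - 8 * Real.pi * v := by
      unfold tau; push_cast; ring
    have h4 : 8 * Real.pi * ((2 * ((l:ℤ) - k) + 1 : ℤ) : ℝ) * v = (tau l * v - tau k * v) + 8 * Real.pi * v := by
      unfold tau; push_cast; ring
    have h5 : 8 * Real.pi * ((2 * ((l:ℤ) + k + 2) - 1 : ℤ) : ℝ) * v = (tau l * v + tau k * v) - 8 * Real.pi * v := by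
      unfold tau; push_cast; ring
    have h6 : 8 * Real.pi * ((2 * ((l:ℤ) + k + 2) + 1 : ℤ) : ℝ) * v = (tau l * v + tau k * v) + 8 * Real.pi * v := by
      unfold tau; push_cast; ring
    rw [h1, h2, h3, h4, h5, h6, Real.cos_sub (tau l * v - tau k * v), Real.cos_add (tau l * v - tau k * v),
      Real.cos_sub (tau l * v + tau k * v), Real.cos_add (tau l * v + tau k * v), Real.cos_sub (tau l * v),
      Real.cos_add (tau l * v)]
    ring
  rw [intervalIntegral.integral_congr e]
  have c : ∀ (a : ℝ) (n : ℤ), IntervalIntegrable (fun v : ℝ => a * Real.cos (8 * Real.pi * n * v)) volume 0 (1 / 8) :=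
    fun a n => Continuous.intervalIntegrable (by fun_prop) _ _
  have c2 : ∀ (a b : ℝ) (n p : ℤ), IntervalIntegrable (fun v : ℝ => a * Real.cos (8 * Real.pi * n * v) +
      b * Real.cos (8 * Real.pi * p * v)) volume 0 (1 / 8) :=
    fun a b n p => Continuous.intervalIntegrable (by fun_prop) _ _
  rw [intervalIntegral.integral_add (Continuous.intervalIntegrable (by fun_prop) _ _) (c2 _ _ _ _),
    intervalIntegral.integral_add (c2 _ _ _ _) (c2 _ _ _ _),
    intervalIntegral.integral_add (c _ _) (c _ _), intervalIntegral.integral_add (c _ _) (c _ _),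
    intervalIntegral.integral_add (c _ _) (c _ _)]
  simp_rw [intervalIntegral.integral_const_mul, int_cos_8]
  have n2 : ¬ (2 * ((l:ℤ) + k + 2) = 0) := by omega
  have n3 : ¬ (2 * ((l:ℤ) - k) - 1 = 0) := by omega
  have n4 : ¬ (2 * ((l:ℤ) - k) + 1 = 0) := by omega
  have n5 : ¬ (2 * ((l:ℤ) + k + 2) - 1 = 0) := by omega
  have n6 : ¬ (2 * ((l:ℤ) + k + 2) + 1 = 0) := by omega
  rw [if_neg n2, if_neg n3, if_neg n4, if_neg n5, if_neg n6]
  by_cases hlk : l = k
  · subst hlk
    rw [if_pos (by omega), if_pos rfl]; norm_num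
  · rw [if_neg (by omega), if_neg hlk]; norm_num

lemma mid_int (k : ℕ) : ∫ v in (0:ℝ)..(1 / 8), rc v * Th g v * Real.cos (tau k * v) = g k / 32 := by
  have h1 : HasSum (fun l => ∫ v in (0:ℝ)..(1 / 8), g l * (rc v * Real.cos (tau l * v) * Real.cos (tau k * v)))
      (∫ v in (0:ℝ)..(1 / 8), rc v * Th g v * Real.cos (tau k * v)) := by
    refine intervalIntegral.hasSum_integral_of_dominated_convergence (fun l _ => |g l|) ?_ ?_ ?_ ?_ ?_
    · intro l
      have := rc_cont
      exact (Continuous.aestronglyMeasurable (by fun_prop))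
    · intro l
      refine Filter.Eventually.of_forall fun v _ => ?_
      rw [Real.norm_eq_abs, abs_mul, abs_mul, abs_mul]
      calc |g l| * (|rc v| * |Real.cos (tau l * v)| * |Real.cos (tau k * v)|) ≤ |g l| * (1 * 1 * 1) := by
            gcongr
            · exact rc_abs v
            · exact Real.abs_cos_le_one _
            · exact Real.abs_cos_le_one _
        _ = |g l| := by ring
    · exact Filter.Eventually.of_forall fun v _ => hg
    · exact Continuous.intervalIntegrable (by fun_prop) _ _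
    · refine Filter.Eventually.of_forall fun v _ => ?_
      have h2 := (Th_sum hg v).mul_left (rc v * Real.cos (tau k * v))
      exact hs_congr h2 (fun l => by ring) (by ring)
  have h2 : ∀ l, ∫ v in (0:ℝ)..(1 / 8), g l * (rc v * Real.cos (tau l * v) * Real.cos (tau k * v)) =
      if l = k then g k / 32 else 0 := by
    intro l
    rw [intervalIntegral.integral_const_mul, gram]
    split_ifs with h
    · subst h; ring
    · ring
  simp_rw [h2] at h1
  exact h1.unique (hasSum_ite_eq k _)

end src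

/-- the tail functional of an absolutely convergent cosine series -/
lemma EE_tsum {m : ℕ} (hm : 3 ≤ m) {a ω : ℕ → ℝ} (ha : Summable fun n => |a n|) (k : ℕ) :
    EE m (fun x => ∑' n, a n * Real.cos (ω n * x)) k = ∑' n, a n * EE m (fun x => Real.cos (ω n * x)) k := by
  have h1 : HasSum (fun n => ∫ y in (0:ℝ)..(3/4), a n * ((chi y * (y ^ (m - 2) * Real.cos (ω n * y⁻¹))) * ec k y))
      (∫ y in (0:ℝ)..(3/4), (chi y * (y ^ (m - 2) * ∑' n, a n * Real.cos (ω n * y⁻¹))) * ec k y) := by
    refine intervalIntegral.hasSum_integral_of_dominated_convergence (fun n _ => |a n|) ?_ ?_ ?_ ?_ ?_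
    · intro n
      have h3 := w_cont (G := fun y => Real.cos (ω n * y)) (by fun_prop) (M := 1) (fun y => Real.abs_cos_le_one _) hm
      have h4 := ec_cont k
      exact (continuous_const.mul (h3.mul h4)).aestronglyMeasurable
    · intro n
      refine Filter.Eventually.of_forall fun y hy => ?_
      rw [Set.uIoc_of_le (by norm_num)] at hy
      rw [Real.norm_eq_abs, abs_mul, abs_mul, abs_mul, abs_mul, abs_of_nonneg (chi_nn y), abs_pow]
      have e3 : |y| ^ (m - 2) ≤ 1 := pow_le_one₀ (abs_nonneg _) (by rw [abs_of_pos hy.1]; linarith [hy.2])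
      have e5 : |ec k y| ≤ 1 := (abs_ec_le hy.1.le).trans (by linarith [hy.2])
      calc |a n| * (chi y * (|y| ^ (m - 2) * |Real.cos (ω n * y⁻¹)|) * |ec k y|) ≤ |a n| * (1 * (1 * 1) * 1) := by
            gcongr
            · exact chi_le y
            · exact Real.abs_cos_le_one _
        _ = |a n| := by ring
    · exact Filter.Eventually.of_forall fun v _ => ha
    · exact Continuous.intervalIntegrable (by fun_prop) _ _
    · refine Filter.Eventually.of_forall fun y _ => ?_
      have h2 : HasSum (fun n => a n * Real.cos (ω n * y⁻¹)) (∑' n, a n * Real.cos (ω n * y⁻¹)) :=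
        (Summable.of_norm_bounded ha fun n => by
          rw [Real.norm_eq_abs, abs_mul]
          exact mul_le_of_le_one_right (abs_nonneg _) (Real.abs_cos_le_one _)).hasSum
      have h3 := h2.mul_left (chi y * y ^ (m - 2) * ec k y)
      exact hs_congr h3 (fun n => by ring) (by ring)
  unfold EE
  rw [← h1.tsum_eq]
  refine tsum_congr fun n => ?_
  rw [intervalIntegral.integral_const_mul]

section node

variable {c lam : ℝ} {m : ℕ} {α : ℕ → ℝ}

lemma gg_even (h : Bd c lam m α) (u : ℝ) : Pool.Agent.Q284.S.gg c lam m α (-u) = Pool.Agent.Q284.S.gg c lam m α u := by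
  unfold Pool.Agent.Q284.S.gg
  have h1 := h.hrel (Real.exp u) (Real.exp_pos u)
  rw [← Real.exp_neg] at h1
  rw [neg_neg, h1, ← mul_assoc]
  congr 1
  rw [← Real.exp_nat_mul, ← Real.exp_add]
  congr 1
  push_cast
  ring

lemma Mm_even (h : Bd c lam m α) (y : ℝ) : Mm c lam m α 0 y =
    ((∫ u : ℝ, Pool.Agent.Q284.S.gg c lam m α u * Real.cos (y * u) : ℝ) : ℂ) := by
  have hm : (0:ℝ) < m := by have := h.hm; exact_mod_cast this
  have hint : Integrable fun u : ℝ => Pool.Agent.Q284.S.gg c lam m α u := by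
    have := gg_int h (η := 0) (by rw [abs_zero]; exact hm)
    simpa using this
  rw [mel_line]
  have e1 : ∀ u : ℝ, ((Pool.Agent.Q284.S.gg c lam m α u * Real.exp (-(0 * u)) : ℝ) : ℂ) * Complex.exp (-(y * u) * Complex.I) =
      ((Pool.Agent.Q284.S.gg c lam m α u * Real.cos (y * u) : ℝ) : ℂ) +
        ((-(Pool.Agent.Q284.S.gg c lam m α u * Real.sin (y * u)) : ℝ) : ℂ) * Complex.I := by
    intro u
    have e2 : Complex.exp (-(y * u) * Complex.I) = ((Real.cos (y * u) : ℝ) : ℂ) - ((Real.sin (y * u) : ℝ) : ℂ) * Complex.I := by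
      rw [Complex.exp_mul_I, Complex.cos_neg, Complex.sin_neg]
      push_cast
      ring
    rw [e2, zero_mul, neg_zero, Real.exp_zero, mul_one]
    push_cast
    ring
  simp_rw [e1]
  have i1 : Integrable fun u : ℝ => Pool.Agent.Q284.S.gg c lam m α u * Real.cos (y * u) := by
    refine hint.mul_bdd (c := 1) (by fun_prop) (Filter.Eventually.of_forall fun u => ?_)
    rw [Real.norm_eq_abs]; exact Real.abs_cos_le_one _
  have i2 : Integrable fun u : ℝ => -(Pool.Agent.Q284.S.gg c lam m α u * Real.sin (y * u)) := by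
    refine (hint.mul_bdd (c := 1) (by fun_prop) (Filter.Eventually.of_forall fun u => ?_)).neg
    rw [Real.norm_eq_abs]; exact Real.abs_sin_le_one _
  rw [integral_add i1.ofReal (i2.ofReal.mul_const _), integral_mul_const, integral_complex_ofReal, integral_complex_ofReal]
  have hz : ∫ u : ℝ, -(Pool.Agent.Q284.S.gg c lam m α u * Real.sin (y * u)) = 0 := by
    have h1 := integral_neg_eq_self (fun u : ℝ => -(Pool.Agent.Q284.S.gg c lam m α u * Real.sin (y * u))) volume
    have h2 : ∀ u : ℝ, -(Pool.Agent.Q284.S.gg c lam m α (-u) * Real.sin (y * (-u))) =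
        -(-(Pool.Agent.Q284.S.gg c lam m α u * Real.sin (y * u))) := by
      intro u
      rw [gg_even h, mul_neg, Real.sin_neg]
      ring
    simp_rw [h2] at h1
    rw [integral_neg] at h1
    linarith
  rw [hz]
  simp

/-- the value at a node -/
theorem node (h : Bd c lam m α) (hm : 3 ≤ m) {g : ℕ → ℝ} (hg : Summable fun k => |g k|)
    (hr : ∀ x : ℝ, 3 / 4 ≤ x → x ≤ 2 → hb c lam α x = rg m g x) (k : ℕ) :
    Mm c lam m α 0 (tau k) = ((g k / 16 + 2 * EE m (hb c lam α) k : ℝ) : ℂ) := by
  rw [Mm_even h]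
  congr 1
  have hm0 : (0:ℝ) < m := by have := h.hm; exact_mod_cast this
  have hint : Integrable fun u : ℝ => Pool.Agent.Q284.S.gg c lam m α u := by
    have := gg_int h (η := 0) (by rw [abs_zero]; exact hm0)
    simpa using this
  set F : ℝ → ℝ := fun u => Pool.Agent.Q284.S.gg c lam m α u * Real.cos (tau k * u) with hF
  have hFi : Integrable F := by
    refine hint.mul_bdd (c := 1) (by fun_prop) (Filter.Eventually.of_forall fun u => ?_)
    rw [Real.norm_eq_abs]; exact Real.abs_cos_le_one _
  have hFc : Continuous F := (gg_cont h).mul (by fun_prop)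
  have hF2 : ∀ u, F |u| = F u := by
    intro u
    rcases abs_choice u with h1 | h1
    · rw [h1]
    · rw [h1]
      simp only [hF]
      rw [gg_even h, mul_neg, Real.cos_neg]
  have h1 : ∫ u : ℝ, F u = 2 * ∫ u in Set.Ioi (0:ℝ), F u := by
    rw [← integral_comp_abs (f := F)]
    simp_rw [hF2]
  rw [h1]
  set a : ℝ := Real.log (4 / 3) with ha
  have ha14 : 1 / 4 ≤ a := log43
  have hea : Real.exp a = 4 / 3 := Real.exp_log (by norm_num)
  have h2 : ∫ u in Set.Ioi (0:ℝ), F u = (∫ u in (0:ℝ)..a, F u) + ∫ u in Set.Ioi a, F u := by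
    rw [intervalIntegral.integral_of_le (by linarith), ← setIntegral_union (Set.Ioc_disjoint_Ioi le_rfl) measurableSet_Ioi
      hFi.integrableOn hFi.integrableOn, Set.Ioc_union_Ioi_eq_Ioi (by linarith)]
  rw [h2]
  -- the middle part
  have h3 : ∫ u in (0:ℝ)..a, F u = g k / 32 := by
    rw [← intervalIntegral.integral_add_adjacent_intervals (b := 1 / 8) (hFc.intervalIntegrable _ _)
      (hFc.intervalIntegrable _ _)]
    have e0 : ∀ u : ℝ, 0 ≤ u → u ≤ a → F u = rc u * Th g u * Real.cos (tau k * u) := by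
      intro u hu0 hu1
      simp only [hF]
      congr 1
      unfold Pool.Agent.Q284.S.gg
      have e1 : 3 / 4 ≤ Real.exp (-u) := by
        have : Real.exp (-a) ≤ Real.exp (-u) := Real.exp_le_exp.2 (by linarith)
        rw [Real.exp_neg, hea] at this
        norm_num at this
        exact this
      have e2 : Real.exp (-u) ≤ 2 := by
        have : Real.exp (-u) ≤ 1 := Real.exp_le_one_iff.2 (by linarith)
        linarith
      rw [hr _ e1 e2]
      unfold rg
      rw [Real.log_exp, rc_neg, Th_neg, ← mul_assoc, ← Real.exp_nat_mul, ← Real.exp_add]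
      have : (m : ℝ) * u + (m : ℝ) * -u = 0 := by ring
      rw [this, Real.exp_zero, one_mul]
    have e1 : ∫ u in (0:ℝ)..(1 / 8), F u = g k / 32 := by
      rw [← mid_int hg k]
      apply intervalIntegral.integral_congr
      intro u hu
      rw [Set.uIcc_of_le (by norm_num)] at hu
      exact e0 u hu.1 (by linarith [hu.2])
    have e2 : ∫ u in (1 / 8 : ℝ)..a, F u = 0 := by
      have : ∫ u in (1 / 8 : ℝ)..a, F u = ∫ u in (1 / 8 : ℝ)..a, (0:ℝ) := by
        apply intervalIntegral.integral_congr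
        intro u hu
        rw [Set.uIcc_of_le (by linarith)] at hu
        have h4 := e0 u (by linarith [hu.1]) hu.2
        simp only
        rw [h4, rc_zero (by rw [abs_of_nonneg (by linarith [hu.1])]; exact hu.1)]
        ring
      rw [this]; simp
    rw [e1, e2, add_zero]
  -- the tail
  have h4 : ∫ u in Set.Ioi a, F u = EE m (hb c lam α) k := by
    set K : ℝ → ℝ := fun x => (chi x * (x ^ (m - 2) * hb c lam α x⁻¹)) * ec k x with hK
    have i1 := integral_image_eq_integral_abs_deriv_smul (s := Set.Ioi a) (f := fun u : ℝ => Real.exp (-u))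
      (f' := fun u => -Real.exp (-u)) measurableSet_Ioi (fun u _ => by
        have := (hasDerivAt_neg u).exp
        simp only [mul_neg, mul_one] at this
        exact this.hasDerivWithinAt) (fun x _ y _ hxy => by
        have := Real.exp_injective hxy
        linarith) K
    have himg : (fun u : ℝ => Real.exp (-u)) '' Set.Ioi a = Set.Ioo 0 (3 / 4) := by
      ext x
      simp only [Set.mem_image, Set.mem_Ioi, Set.mem_Ioo]
      constructor
      · rintro ⟨u, hu, rfl⟩
        refine ⟨Real.exp_pos _, ?_⟩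
        have : Real.exp (-u) < Real.exp (-a) := Real.exp_lt_exp.2 (by linarith)
        rw [Real.exp_neg a, hea] at this
        norm_num at this
        exact this
      · rintro ⟨hx0, hx1⟩
        refine ⟨-Real.log x, ?_, by rw [neg_neg, Real.exp_log hx0]⟩
        rw [ha, ← Real.log_inv]
        apply Real.log_lt_log (by norm_num)
        rw [lt_inv_comm₀ (by norm_num) hx0]
        norm_num; exact hx1
    rw [himg] at i1
    unfold EE
    rw [intervalIntegral.integral_of_le (by norm_num), integral_Ioc_eq_integral_Ioo, i1]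
    apply setIntegral_congr_fun measurableSet_Ioi
    intro u hu
    have hu' : a < u := hu
    have hu0 : 0 < u := by linarith
    simp only [hK, hF, smul_eq_mul]
    rw [abs_neg, abs_of_pos (Real.exp_pos _)]
    unfold ec
    rw [Real.log_exp, mul_neg, Real.cos_neg]
    have e1 : Pool.Agent.Q284.S.gg c lam m α u = Real.exp (-u) ^ m * (chi (Real.exp (-u)) * hb c lam α (Real.exp (-u))⁻¹) := by
      rw [← gg_even h]
      unfold Pool.Agent.Q284.S.gg
      rw [neg_neg, ← Real.exp_neg, neg_neg, mul_neg, ← mul_neg, ← Real.exp_nat_mul]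
      congr 1
      rcases le_total (Real.exp (-u)) (1 / 2) with h5 | h5
      · have : chi (Real.exp (-u)) = 1 := by
          unfold chi
          exact Real.smoothTransition.one_of_one_le (by linarith)
        rw [this, one_mul]
      · have h6 : Real.exp u ≤ 2 := by
          rw [show u = -(-u) by ring, Real.exp_neg, inv_le_comm₀ (Real.exp_pos _) (by norm_num)]
          norm_num; linarith
        have h7 : 4 / 3 ≤ Real.exp u := by
          rw [← hea]; exact Real.exp_le_exp.2 hu'.le
        have h8 : hb c lam α (Real.exp u) = 0 := by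
          rw [hr _ (by linarith) h6, rg_high _ h7]
        rw [h8]; ring
    rw [e1]
    obtain ⟨j, rfl⟩ : ∃ j, m = j + 2 := ⟨m - 2, by omega⟩
    simp only [Nat.add_sub_cancel]
    rw [pow_succ, pow_succ]
    ring
  rw [h3, h4]
  ring

end node

end Pool.Agent.Q127.EZ
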