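import Mathlib
import Pool.Agent.Q127.EZ.Node
import Pool.Agent.H13R3.EM.Core

/-!
# The core: boundary functions with prescribed Mellin transform at the nodes
-/

set_option autoImplicit false

open Finset MeasureTheory Filter Topology

namespace Pool.Agent.Q127.EZ

open Pool.Agent.H469R10.HO Pool.Agent.H99R3.M469 Pool.Agent.H13R3.EM Pool.Agent.Q284.S

/-- constants of the fixed point theorem, the interpolation constant being absolute -/
theorem exists_hyp2 (hHo : Hoheisel) : ∃ CJ : ℝ, 0 < CJ ∧ ∃ (m₀ : ℕ) (lam₀ : ℝ), 8 ≤ lam₀ ∧ ∀ m : ℕ, m₀ ≤ m → ∀ lam : ℝ, lam₀ ≤ lam →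
    ∃ e κ CH η ρ c₀ : ℝ, 0 < e ∧ e ≤ 1 / 2 ∧ 0 < η ∧ 0 < ρ ∧ 9 * ρ ^ 2 ≤ 1 ∧ 0 ≤ κ ∧
      2 * (CJ * (800 * e ^ 2 + 2 * κ)) + 2 * (CJ * (720 + 2 * κ)) * (CH * 81 * ρ ^ 2) ≤ 1 / 4 ∧ 0 < c₀ ∧
      ∀ c : ℝ, 0 < c → c ≤ c₀ → ∃ B : ℕ → Finset ℕ, Hyp c lam e κ CJ CH B m ∧
        (∀ j, 1 ≤ j → (B j).Nonempty ∧ ∀ p ∈ B j, η * p ≤ (B j).card * xx j * Real.log p) := by
  obtain ⟨lamK, hK⟩ := Pool.Agent.H154R3.Blocks.taskK hHo
  obtain ⟨CJ, cJ, hCJ, hcJ, hJ⟩ := Pool.Agent.H82R3.T469J.taskJ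
  refine ⟨CJ, hCJ, ?_⟩
  set κ : ℝ := 1 / (64 * (CJ + 1)) with hκdef
  have hCJ1 : 0 < CJ + 1 := by linarith
  have hκ : 0 < κ := by positivity
  have hκCJ : CJ * κ ≤ 1 / 64 := by
    rw [hκdef, mul_one_div, div_le_div_iff₀ (by positivity) (by norm_num)]
    linarith
  set e : ℝ := min (1 / 2) (1 / (1600 * (CJ + 1))) with hedef
  have he0 : 0 < e := lt_min (by norm_num) (by positivity)
  have he : e ≤ 1 / 2 := min_le_left _ _
  have heCJ : CJ * e ≤ 1 / 1600 := by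
    have h1 : e ≤ 1 / (1600 * (CJ + 1)) := min_le_right _ _
    have h2 : CJ * e ≤ CJ * (1 / (1600 * (CJ + 1))) := mul_le_mul_of_nonneg_left h1 hCJ.le
    refine h2.trans ?_
    rw [mul_one_div, div_le_div_iff₀ (by positivity) (by norm_num)]
    linarith
  obtain ⟨m₀, hm₀⟩ := Pool.Agent.H99R3.M469.taskM κ hκ
  refine ⟨max m₀ 2, max lamK 8, le_max_right _ _, fun m hm lam hlam => ?_⟩
  have hm2 : 2 ≤ m := (le_max_right _ _).trans hm
  have hm0 : m₀ ≤ m := (le_max_left _ _).trans hm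
  have hlam8 : 8 ≤ lam := (le_max_right _ _).trans hlam
  have hlamK : lamK ≤ lam := (le_max_left _ _).trans hlam
  obtain ⟨η, cK, hη, hcK, hKB⟩ := hK lam hlamK e he0 he
  obtain ⟨CH, cH, hCH, hcH, hH⟩ := Pool.Agent.H853R3.NL.taskH lam η hlam8 hη
  set G : ℝ := 2 * (CJ * (720 + 2 * κ)) * (CH * 81) with hG
  have hG0 : 0 < G := by positivity
  set ρ : ℝ := min (1 / 3) (1 / (16 * (G + 1))) with hρdef
  have hρ0 : 0 < ρ := lt_min (by norm_num) (by positivity)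
  have hρ3 : ρ ≤ 1 / 3 := min_le_left _ _
  have hρ9 : 9 * ρ ^ 2 ≤ 1 := by nlinarith
  have hGρ : G * ρ ≤ 1 / 16 := by
    have h1 : ρ ≤ 1 / (16 * (G + 1)) := min_le_right _ _
    have h2 : G * ρ ≤ G * (1 / (16 * (G + 1))) := mul_le_mul_of_nonneg_left h1 hG0.le
    refine h2.trans ?_
    rw [mul_one_div, div_le_div_iff₀ (by positivity) (by norm_num)]
    linarith
  have hGρ2 : 2 * (CJ * (720 + 2 * κ)) * (CH * 81 * ρ ^ 2) ≤ 1 / 16 := by
    have : 2 * (CJ * (720 + 2 * κ)) * (CH * 81 * ρ ^ 2) = (G * ρ) * ρ := by rw [hG]; ring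
    rw [this]
    have h3 : 0 ≤ G * ρ := by positivity
    nlinarith
  have hfin : 2 * (CJ * (800 * e ^ 2 + 2 * κ)) + 2 * (CJ * (720 + 2 * κ)) * (CH * 81 * ρ ^ 2) ≤ 1 / 4 := by
    have h1 : 2 * (CJ * (800 * e ^ 2 + 2 * κ)) = 2 * (CJ * (800 * e ^ 2)) + 4 * (CJ * κ) := by ring
    have h5 : CJ * (800 * e ^ 2) ≤ 1 / 32 := by
      have : CJ * (800 * e ^ 2) = 800 * (CJ * e) * e := by ring
      rw [this]
      have h2 : 0 ≤ CJ * e := by positivity
      have h6 : e ≤ 1 / 1600 := by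
        refine (min_le_right _ _).trans ?_
        rw [div_le_div_iff₀ (by positivity) (by norm_num)]
        nlinarith
      nlinarith
    rw [h1]
    linarith
  refine ⟨e, κ, CH, η, ρ, min (min cJ cK) (min cH (1 / 10)), he0, he, hη, hρ0, hρ9, hκ.le, hfin,
    lt_min (lt_min hcJ hcK) (lt_min hcH (by norm_num)), fun c hc hcc => ?_⟩
  have hc1 : c ≤ cJ := hcc.trans ((min_le_left _ _).trans (min_le_left _ _))
  have hc2 : c ≤ cK := hcc.trans ((min_le_left _ _).trans (min_le_right _ _))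
  have hc3 : c ≤ cH := hcc.trans ((min_le_right _ _).trans (min_le_left _ _))
  have hc4 : c ≤ 1 / 10 := hcc.trans ((min_le_right _ _).trans (min_le_right _ _))
  obtain ⟨B, hB1, hB2⟩ := hKB c hc hc2
  refine ⟨B, ?_, hB2⟩
  exact
    { hc := hc
      hc1 := hc4
      hlam := by linarith
      hm := by omega
      he0 := he0.le
      he := he
      hκ := hκ.le
      hCJ := hCJ.le
      hCH := hCH.le
      hB := hB1
      hBne := fun j hj => (hB2 j hj).1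
      hM := hm₀ m hm0
      hJ := hJ c hc hc1
      hH := fun b β h1 h2 h3 E hE h4 S hS Y =>
        hH c hc hc3 B (fun j p hp => ⟨(hB1 j p hp).1, (hB1 j p hp).2.1, (hB1 j p hp).2.2.trans he⟩) hB2 b β h1 h2 h3
          E hE h4 S hS Y
      hR := Pool.Agent.H853R3.RS.taskR' c hc hc4
      hS := Pool.Agent.H853R3.RS.taskS'
      hU := Pool.Agent.H853R3.U469.taskU }

/-- constant of the tail operator -/
noncomputable def kE (K : ℝ) (m : ℕ) : ℝ := 270 * (3/4) ^ (2 * m - 6) * (K ^ 2 + m ^ 2 + 4)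

lemma kE_nonneg (K : ℝ) (m : ℕ) : 0 ≤ kE K m := by unfold kE; positivity

/-- the product of the two constants is small -/
lemma CU_kE_small (C K δ : ℝ) (hδ : 0 < δ) : ∃ m₀ : ℕ, ∀ m : ℕ, m₀ ≤ m → (C * CU m + 1) * kE K m ≤ δ := by
  set q : ℝ := Real.exp (1 / 4) with hq
  have hq0 : 0 < q := Real.exp_pos _
  have hq1 : q < 4 / 3 := by
    rw [hq, ← Real.lt_log_iff_exp_lt (by norm_num)]
    have h1 := Real.one_sub_inv_le_log_of_pos (show (0:ℝ) < 4 / 3 by norm_num)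
    have h2 : Real.log (4 / 3) = 2 * Real.log 2 - Real.log 3 := by
      rw [Real.log_div (by norm_num) (by norm_num), show (4:ℝ) = 2 ^ 2 by norm_num, Real.log_pow]
      push_cast; ring
    have h3 : Real.exp (1 / 4) < 4 / 3 := by
      have h4 : Real.exp (1 / 4) ^ 4 < (4 / 3) ^ 4 := by
        rw [← Real.exp_nat_mul]
        have := Real.exp_one_lt_d9
        norm_num
        linarith
      exact lt_of_pow_lt_pow_left₀ 4 (by norm_num) h4
    exact (Real.lt_log_iff_exp_lt (by norm_num)).2 h3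
  have ht : ∀ (k : ℕ) (r : ℝ), 0 ≤ r → r < 1 → Tendsto (fun n : ℕ => (n : ℝ) ^ k * r ^ n) atTop (𝓝 0) := fun k r h0 h1 =>
    tendsto_pow_const_mul_const_pow_of_abs_lt_one k (by rw [abs_of_nonneg h0]; exact h1)
  set r : ℝ := q * (9 / 16) with hr
  have hr0 : 0 ≤ r := by positivity
  have hr1 : r < 1 := by rw [hr]; linarith
  have hlim : Tendsto (fun n : ℕ => (C * 48) * (270 * (4/3) ^ 6) * ((n : ℝ) ^ 4 * r ^ n + (K ^ 2 + 4306) * ((n : ℝ) ^ 2 * r ^ n) +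
      4302 * (K ^ 2 + 4) * ((n : ℝ) ^ 0 * r ^ n)) + (270 * (4/3) ^ 6) * ((K ^ 2 + 4) * ((n : ℝ) ^ 0 * (9/16) ^ n) +
      (n : ℝ) ^ 2 * (9/16) ^ n)) atTop (𝓝 ((C * 48) * (270 * (4/3) ^ 6) * (0 + (K ^ 2 + 4306) * 0 +
      4302 * (K ^ 2 + 4) * 0) + (270 * (4/3) ^ 6) * ((K ^ 2 + 4) * 0 + 0))) := by
    refine Tendsto.add (Tendsto.const_mul _ (Tendsto.add (Tendsto.add (ht 4 r hr0 hr1) ((ht 2 r hr0 hr1).const_mul _))
      ((ht 0 r hr0 hr1).const_mul _))) (Tendsto.const_mul _ (Tendsto.add ((ht 0 _ (by norm_num) (by norm_num)).const_mul _)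
      (ht 2 _ (by norm_num) (by norm_num))))
  have e0 : ((C * 48) * (270 * (4/3) ^ 6) * (0 + (K ^ 2 + 4306) * 0 +
      4302 * (K ^ 2 + 4) * 0) + (270 * (4/3) ^ 6) * ((K ^ 2 + 4) * 0 + 0) : ℝ) = 0 := by ring
  rw [e0] at hlim
  obtain ⟨m₀, hm₀⟩ := eventually_atTop.1 ((hlim.eventually (gt_mem_nhds hδ)).and (eventually_ge_atTop 3))
  refine ⟨m₀, fun m hm => ?_⟩
  obtain ⟨h1, h3⟩ := hm₀ m hm
  refine le_trans (le_of_eq ?_) h1.le
  unfold CU kE
  have e1 : ((3:ℝ)/4) ^ (2 * m - 6) = (4/3) ^ 6 * (9/16) ^ m := by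
    have e2 : ((3:ℝ)/4) ^ (2 * m) = (3/4) ^ (2 * m - 6) * (3/4) ^ 6 := by
      rw [← pow_add]; congr 1; omega
    have e3 : ((9:ℝ)/16) ^ m = (3/4) ^ (2 * m) := by
      rw [pow_mul]; norm_num
    rw [e3, e2]
    have : ((4:ℝ)/3) ^ 6 * (3/4) ^ 6 = 1 := by norm_num
    linear_combination (-(3/4 : ℝ) ^ (2 * m - 6)) * this
  have e2 : Real.exp ((m : ℝ) / 4) = q ^ m := by
    rw [hq, ← Real.exp_nat_mul]; congr 1; ring
  rw [e1, e2]
  have e3 : r ^ m = q ^ m * (9/16) ^ m := by rw [hr, mul_pow]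
  rw [e3]
  ring

/-- the source `cos (c x) - 1` as a trigonometric sum -/
lemma s0_tr (c : ℝ) : f0 {0, 1} (fun i => if i = 0 then 1 else -1) (fun i => if i = 0 then c else 0) = s0 c := by
  rw [f0_eq]
  funext y
  rw [sum_pair (by norm_num)]
  unfold s0
  simp
  ring

lemma EE_s0 {m : ℕ} (hm : 4 ≤ m) {K : ℝ} (hK0 : 0 ≤ K) (hK : ∀ x ∈ Set.Icc (0:ℝ) 2, |deriv chi x| ≤ K) {c : ℝ} (hc : 0 ≤ c)
    (F : Finset ℕ) : ∑ k ∈ F, (1 + (k : ℝ)) ^ 2 * (EE m (s0 c) k) ^ 2 ≤ (c ^ 2 * (K + m + 1)) ^ 2 := by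
  set S : Finset ℕ := {0, 1} with hS
  set β : ℕ → ℝ := fun i => if i = 0 then 1 else -1 with hβ
  set ω : ℕ → ℝ := fun i => if i = 0 then c else 0 with hω
  have hs0 : f0 S β ω = s0 c := s0_tr c
  have hf1 : ∀ y, f1 S β ω y = -(c * Real.sin (c * y)) := by
    intro y
    unfold f1 tr
    rw [hS, sum_pair (by norm_num)]
    simp only [hβ, hω]
    rw [Real.cos_add_pi_div_two]
    simp
  have hWc := Wf_cont (S := S) (β := β) (ω := ω) hm
  have h1 : ∑ k ∈ F, (1 + (k : ℝ)) ^ 2 * (EE m (s0 c) k) ^ 2 ≤ ∑ k ∈ F, (∫ y in (0:ℝ)..(3/4), Wf S β ω m y * es k y) ^ 2 := by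
    apply sum_le_sum
    intro k _
    have e1 : (∫ y in (0:ℝ)..(3/4), Wf S β ω m y * es k y) ^ 2 = (tau k * EE m (s0 c) k) ^ 2 := by
      rw [← hs0, EE_parts hm k]; ring
    rw [e1, mul_pow]
    apply mul_le_mul_of_nonneg_right _ (sq_nonneg _)
    exact pow_le_pow_left₀ (by positivity) (one_add_le_tau k) 2
  refine h1.trans ((bessel_osc es_cont osc_sin hWc (b := 3/4) (by norm_num) (by norm_num) F).trans ?_)
  set D : ℝ := c ^ 2 * (K + m + 1) with hD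
  have hD0 : 0 ≤ D := by positivity
  have hcos : ∀ t : ℝ, |Real.cos t - 1| ≤ t ^ 2 := by
    intro t
    have h2 := Real.one_sub_sq_div_two_le_cos (x := t)
    have h3 := Real.cos_le_one t
    rw [abs_of_nonpos (by linarith)]
    nlinarith [sq_nonneg t]
  have hW : ∀ y ∈ Set.Icc (0:ℝ) (3/4), Wf S β ω m y ^ 2 ≤ D ^ 2 := by
    intro y hy
    rcases hy.1.eq_or_lt with h0 | h0
    · subst h0
      have : Wf S β ω m 0 = 0 := by
        unfold Wf
        rw [zero_pow (by omega), zero_pow (by omega), zero_pow (by omega)]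
        ring
      rw [this]
      simp only [ne_eq, OfNat.ofNat_ne_zero, not_false_eq_true, zero_pow]
      positivity
    · rw [← sq_abs]
      apply pow_le_pow_left₀ (abs_nonneg _)
      obtain ⟨j, rfl⟩ : ∃ j, m = j + 4 := ⟨m - 4, by omega⟩
      have e1 : j + 4 - 1 = j + 3 := by omega
      have e2 : j + 4 - 2 = j + 2 := by omega
      have e3 : j + 4 - 3 = j + 1 := by omega
      unfold Wf
      rw [hs0, hf1, e1, e2, e3]
      have g1 : |s0 c y⁻¹| * y ^ 2 ≤ c ^ 2 := by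
        unfold s0
        calc |Real.cos (c * y⁻¹) - 1| * y ^ 2 ≤ (c * y⁻¹) ^ 2 * y ^ 2 :=
              mul_le_mul_of_nonneg_right (hcos _) (sq_nonneg _)
          _ = c ^ 2 := by field_simp
      have g2 : |-(c * Real.sin (c * y⁻¹))| * y ≤ c ^ 2 := by
        rw [abs_neg, abs_mul, abs_of_nonneg hc]
        have h2 : |Real.sin (c * y⁻¹)| ≤ |c * y⁻¹| := Real.abs_sin_le_abs
        calc c * |Real.sin (c * y⁻¹)| * y ≤ c * |c * y⁻¹| * y := by gcongr
          _ = c ^ 2 := by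
            rw [abs_of_nonneg (by positivity)]
            field_simp
      have hy1 : y ≤ 1 := by linarith [hy.2]
      have p1 : y ^ (j + 3) * |s0 c y⁻¹| ≤ c ^ 2 := by
        calc y ^ (j + 3) * |s0 c y⁻¹| = y ^ (j + 1) * (|s0 c y⁻¹| * y ^ 2) := by ring
          _ ≤ 1 * c ^ 2 := mul_le_mul (pow_le_one₀ h0.le hy1) g1 (by positivity) zero_le_one
          _ = _ := one_mul _
      have p2 : y ^ (j + 2) * |s0 c y⁻¹| ≤ c ^ 2 := by
        calc y ^ (j + 2) * |s0 c y⁻¹| = y ^ j * (|s0 c y⁻¹| * y ^ 2) := by ring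
          _ ≤ 1 * c ^ 2 := mul_le_mul (pow_le_one₀ h0.le hy1) g1 (by positivity) zero_le_one
          _ = _ := one_mul _
      have p3 : y ^ (j + 1) * |-(c * Real.sin (c * y⁻¹))| ≤ c ^ 2 := by
        calc y ^ (j + 1) * |-(c * Real.sin (c * y⁻¹))| = y ^ j * (|-(c * Real.sin (c * y⁻¹))| * y) := by ring
          _ ≤ 1 * c ^ 2 := mul_le_mul (pow_le_one₀ h0.le hy1) g2 (by positivity) zero_le_one
          _ = _ := one_mul _
      have hKy := hK y ⟨h0.le, by linarith⟩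
      have hm0 : (0:ℝ) ≤ ((j + 4 : ℕ) : ℝ) := Nat.cast_nonneg _
      calc |deriv chi y * (y ^ (j + 3) * s0 c y⁻¹) +
          chi y * (((j + 4 : ℕ) : ℝ) * (y ^ (j + 2) * s0 c y⁻¹) - y ^ (j + 1) * -(c * Real.sin (c * y⁻¹)))|
          ≤ |deriv chi y| * (y ^ (j + 3) * |s0 c y⁻¹|) +
            |chi y| * (((j + 4 : ℕ) : ℝ) * (y ^ (j + 2) * |s0 c y⁻¹|) + y ^ (j + 1) * |-(c * Real.sin (c * y⁻¹))|) := by
            refine (abs_add_le _ _).trans (add_le_add (le_of_eq ?_) ?_)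
            · rw [abs_mul, abs_mul, abs_of_nonneg (show 0 ≤ y ^ (j + 3) by positivity)]
            · rw [abs_mul]
              apply mul_le_mul_of_nonneg_left _ (abs_nonneg _)
              refine (abs_sub _ _).trans (add_le_add (le_of_eq ?_) (le_of_eq ?_))
              · rw [abs_mul, abs_mul, abs_of_nonneg hm0, abs_of_nonneg (show 0 ≤ y ^ (j + 2) by positivity)]
              · rw [abs_mul, abs_of_nonneg (show 0 ≤ y ^ (j + 1) by positivity)]
        _ ≤ K * c ^ 2 + 1 * (((j + 4 : ℕ) : ℝ) * c ^ 2 + c ^ 2) := by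
            have hchi : |chi y| ≤ 1 := by rw [abs_of_nonneg (chi_nn y)]; exact chi_le y
            gcongr
        _ = D := by rw [hD]; ring
  calc ∫ y in (0:ℝ)..(3/4), Wf S β ω m y ^ 2 ≤ ∫ y in (0:ℝ)..(3/4), D ^ 2 :=
        intervalIntegral.integral_mono_on (by norm_num) ((hWc.pow 2).intervalIntegrable _ _) (by simp) hW
    _ = 3 / 4 * D ^ 2 := by simp
    _ ≤ D ^ 2 := by nlinarith [sq_nonneg D]

/-- the output of the machine -/
structure OutI (m : ℕ) (c : ℝ) (v : ℕ → ℝ) (β α g : ℕ → ℝ) (D : ℝ) : Prop where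
  hc : 0 < c
  hβ : ∀ p : ℕ, p.Prime → |β p| ≤ (p : ℝ) ^ (-(1 / 2 + m / lamH m))
  hα : ∀ n : ℕ, 1 ≤ n → α n = if Squarefree n then ∏ p ∈ n.primeFactors, β p else 0
  hsum : Summable (fun n => |α n|)
  hrel : ∀ x : ℝ, 0 < x → ∑' n, α n * Real.cos (uu c (lamH m) n * x) =
      x ^ (2 * m) * ∑' n, α n * Real.cos (uu c (lamH m) n / x)
  hQ : ∀ S : Finset ℕ, QQ (WW c) S (jj c (lamH m)) α ≤ D
  hgs : Summable (fun k => |g k|)
  hg : ∀ J : ℕ, ∑ k ∈ range J, WW c k * g k ^ 2 ≤ D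
  hr : ∀ x : ℝ, 3 / 4 ≤ x → x ≤ 2 → hb c (lamH m) α x = rg m g x
  hnode : ∀ k : ℕ, Mm c (lamH m) m α 0 (tau k) = ((v k : ℝ) : ℂ)

/-- the interpolation property of the weights -/
def JP (c C : ℝ) : Prop := ∀ (cl : ℕ → ℕ) (T : ℕ → ℕ → ℝ) (κ : ℝ), 0 ≤ κ →
  (∀ (S : Finset ℕ) (β : ℕ → ℝ) (J : ℕ), ∑ j ∈ range J, (∑ n ∈ S, β n * T n j) ^ 2 ≤
    κ * QQ (fun _ => 1) S cl β) →
  (∀ (S : Finset ℕ) (β : ℕ → ℝ) (J : ℕ), ∑ j ∈ range J, (1 + (j : ℝ)) ^ 2 * (∑ n ∈ S, β n * T n j) ^ 2 ≤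
    κ * QQ (fun y => (1 + (y : ℝ)) ^ 2) S cl β) →
  ∀ (S : Finset ℕ) (β : ℕ → ℝ) (J : ℕ), ∑ j ∈ range J, WW c j * (∑ n ∈ S, β n * T n j) ^ 2 ≤
    C * κ * QQ (WW c) S cl β

lemma QQ_add3 {w : ℕ → ℝ} (hw : ∀ y, 0 ≤ w y) (S : Finset ℕ) (cl : ℕ → ℕ) {γ a b d : ℕ → ℝ}
    (h : ∀ i ∈ S, |γ i| ≤ |a i| + |b i| + |d i|) :
    QQ w S cl γ ≤ 3 * (QQ w S cl a + QQ w S cl b + QQ w S cl d) := by
  unfold QQ
  rw [← sum_add_distrib, ← sum_add_distrib, mul_sum]
  apply sum_le_sum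
  intro y _
  have h1 : ∑ i ∈ S.filter (fun i => cl i = y), |γ i| ≤ ∑ i ∈ S.filter (fun i => cl i = y), |a i| +
      ∑ i ∈ S.filter (fun i => cl i = y), |b i| + ∑ i ∈ S.filter (fun i => cl i = y), |d i| := by
    rw [← sum_add_distrib, ← sum_add_distrib]
    exact sum_le_sum fun i hi => h i (mem_filter.1 hi).1
  have h0 : 0 ≤ ∑ i ∈ S.filter (fun i => cl i = y), |γ i| := sum_nonneg fun _ _ => abs_nonneg _
  set A := ∑ i ∈ S.filter (fun i => cl i = y), |a i|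
  set B := ∑ i ∈ S.filter (fun i => cl i = y), |b i|
  set D := ∑ i ∈ S.filter (fun i => cl i = y), |d i|
  have h2 : (∑ i ∈ S.filter (fun i => cl i = y), |γ i|) ^ 2 ≤ (A + B + D) ^ 2 := pow_le_pow_left₀ h0 h1 2
  have h3 : (A + B + D) ^ 2 ≤ 3 * (A ^ 2 + B ^ 2 + D ^ 2) := by
    nlinarith [sq_nonneg (A - B), sq_nonneg (A - D), sq_nonneg (B - D)]
  calc w y * (∑ i ∈ S.filter (fun i => cl i = y), |γ i|) ^ 2 ≤ w y * (3 * (A ^ 2 + B ^ 2 + D ^ 2)) :=
        mul_le_mul_of_nonneg_left (h2.trans h3) (hw y)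
    _ = 3 * (w y * A ^ 2 + w y * B ^ 2 + w y * D ^ 2) := by ring

lemma QQ_delta {w : ℕ → ℝ} (hw : ∀ y, 0 ≤ w y) (S : Finset ℕ) (cl : ℕ → ℕ) :
    QQ w S cl (fun n => if n ≤ 1 then 1 else 0) ≤ 2 * (w (cl 0) + w (cl 1)) := by
  have h1 : ∀ y, ∑ i ∈ S.filter (fun i => cl i = y), |(if i ≤ 1 then 1 else 0 : ℝ)| ≤
      (if cl 0 = y then 1 else 0) + (if cl 1 = y then 1 else 0) := by
    intro y
    have e1 : ∑ i ∈ S.filter (fun i => cl i = y), |(if i ≤ 1 then 1 else 0 : ℝ)| =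
        ∑ i ∈ (S.filter (fun i => cl i = y)).filter (fun i => i ≤ 1), (1 : ℝ) := by
      conv_rhs => rw [sum_filter]
      refine sum_congr rfl fun i _ => ?_
      split_ifs <;> simp
    rw [e1]
    have e2 : (if cl 0 = y then (1:ℝ) else 0) + (if cl 1 = y then 1 else 0) =
        ∑ i ∈ (range 2).filter (fun i => cl i = y), (1 : ℝ) := by
      rw [sum_filter, sum_range_succ, sum_range_succ, sum_range_zero, zero_add]
    rw [e2]
    apply sum_le_sum_of_subset_of_nonneg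
    · intro i hi
      simp only [mem_filter, mem_range] at hi ⊢
      exact ⟨by omega, hi.1.2⟩
    · intro i _ _; norm_num
  have h2 : ∀ y, (∑ i ∈ S.filter (fun i => cl i = y), |(if i ≤ 1 then 1 else 0 : ℝ)|) ^ 2 ≤
      2 * ((if cl 0 = y then 1 else 0) + (if cl 1 = y then 1 else 0)) := by
    intro y
    refine (pow_le_pow_left₀ (sum_nonneg fun _ _ => abs_nonneg _) (h1 y) 2).trans ?_
    split_ifs <;> norm_num
  unfold QQ
  calc ∑ y ∈ S.image cl, w y * (∑ i ∈ S.filter (fun i => cl i = y), |(if i ≤ 1 then 1 else 0 : ℝ)|) ^ 2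
      ≤ ∑ y ∈ S.image cl ∪ {cl 0, cl 1}, w y * (∑ i ∈ S.filter (fun i => cl i = y), |(if i ≤ 1 then 1 else 0 : ℝ)|) ^ 2 :=
        sum_le_sum_of_subset_of_nonneg subset_union_left fun y _ _ => mul_nonneg (hw y) (sq_nonneg _)
    _ ≤ ∑ y ∈ S.image cl ∪ {cl 0, cl 1}, w y * (2 * ((if cl 0 = y then 1 else 0) + (if cl 1 = y then 1 else 0))) :=
        sum_le_sum fun y _ => mul_le_mul_of_nonneg_left (h2 y) (hw y)
    _ = ∑ y ∈ S.image cl ∪ {cl 0, cl 1}, ((if cl 0 = y then 2 * w y else 0) + (if cl 1 = y then 2 * w y else 0)) := by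
        refine sum_congr rfl fun y _ => ?_
        split_ifs <;> ring
    _ = 2 * (w (cl 0) + w (cl 1)) := by
        rw [sum_add_distrib, sum_ite_eq, sum_ite_eq, if_pos (by simp), if_pos (by simp)]
        ring

open Pool.Agent.H469R10.HO in
/-- the blocks of the coefficients -/
lemma QQ_alp {c lam e κ CJ CH : ℝ} {B : ℕ → Finset ℕ} {m : ℕ} (h : Hyp c lam e κ CJ CH B m) {b : ℕ → ℝ} {ρ : ℝ}
    (hρ0 : 0 < ρ) (hρ : 9 * ρ ^ 2 ≤ 1) (hb : ∀ J : ℕ, ∑ j ∈ range J, WW c j * b j ^ 2 ≤ ρ ^ 2) {α : ℕ → ℝ}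
    (hα : ∀ n, n ≠ 0 → α n = alp c lam B b n) (hα0 : α 0 = b 0 - 1) (S : Finset ℕ) :
    QQ (WW c) S (jj c lam) α ≤ 3 * (ρ ^ 2 + CH * (9 * ρ ^ 2) ^ 2 + 2 * (WW c (jj c lam 0) + WW c (jj c lam 1))) := by
  have hW := fun j => (WW_pos h.hc h.hc1 j).le
  have hz : ∀ J : ℕ, ∑ j ∈ range J, WW c j * ((fun _ => (0:ℝ)) j) ^ 2 ≤ ρ ^ 2 := by
    intro J; simp; positivity
  have hD : ∀ J : ℕ, ∑ j ∈ range J, WW c j * (b j - (fun _ => (0:ℝ)) j) ^ 2 ≤ ρ ^ 2 := by
    intro J; simpa using hb J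
  have g1 := h.QQ_gg hD S
  have g2 := h.QQ_hh (τ := 1) one_pos hρ0.le (by rw [one_mul]) hρ hb hz hD S
  rw [one_pow, one_mul] at g2
  have g3 := QQ_delta hW S (jj c lam)
  have g4 := QQ_add3 (γ := α) (a := Hyp.gg c lam B b (fun _ => 0)) (b := Hyp.hh c lam B b (fun _ => 0))
    (d := fun n => if n ≤ 1 then 1 else 0) hW S (jj c lam) ?_
  · linarith
  · intro n _
    have e1 := alp_diff h b (fun _ => 0) n
    have e2 : |α n - alp c lam B b n| ≤ if n = 0 then 1 else 0 := by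
      split_ifs with h0
      · subst h0
        have : alp c lam B b 0 = b 0 := by unfold alp; rw [if_pos rfl]
        rw [hα0, this]
        norm_num
      · rw [hα n h0, sub_self, abs_zero]
    have e3 : |alp c lam B (fun _ => 0) n| ≤ if n = 1 then 1 else 0 := by
      split_ifs with h1
      · subst h1
        unfold alp
        simp
      · unfold alp
        split_ifs with h2 h3
        · simp
        · have : (n.primeFactors).Nonempty := by
            rw [Nat.nonempty_primeFactors]; omega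
          obtain ⟨p, hp⟩ := this
          rw [prod_eq_zero hp]
          · simp
          · unfold bet; split_ifs <;> simp
        · simp
    have e4 : (if n = 0 then (1:ℝ) else 0) + (if n = 1 then 1 else 0) ≤ |(if n ≤ 1 then 1 else 0 : ℝ)| := by
      rcases n with _ | _ | n
      · norm_num
      · norm_num
      · simp
    have e5 : α n = Hyp.gg c lam B b (fun _ => 0) n + Hyp.hh c lam B b (fun _ => 0) n +
        ((α n - alp c lam B b n) + alp c lam B (fun _ => 0) n) := by linarith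
    calc |α n| = |Hyp.gg c lam B b (fun _ => 0) n + Hyp.hh c lam B b (fun _ => 0) n +
        ((α n - alp c lam B b n) + alp c lam B (fun _ => 0) n)| := by rw [← e5]
      _ ≤ |Hyp.gg c lam B b (fun _ => 0) n| + |Hyp.hh c lam B b (fun _ => 0) n| +
        (|α n - alp c lam B b n| + |alp c lam B (fun _ => 0) n|) := by
          refine (abs_add_le _ _).trans (add_le_add (abs_add_le _ _) (abs_add_le _ _))
      _ ≤ _ := by linarith

lemma sum_inv_sq_le (J : ℕ) : ∑ k ∈ range J, 1 / (1 + (k : ℝ)) ^ 2 ≤ 2 := by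
  have key : ∀ J : ℕ, ∑ k ∈ range (J + 1), 1 / (1 + (k : ℝ)) ^ 2 ≤ 2 - 1 / (J + 1 : ℝ) := by
    intro J
    induction J with
    | zero => norm_num
    | succ J ih =>
      rw [sum_range_succ]
      have hJ : (0:ℝ) ≤ J := Nat.cast_nonneg J
      have e1 : 1 / (1 + ((J + 1 : ℕ) : ℝ)) ^ 2 ≤ 1 / (J + 1 : ℝ) - 1 / (((J + 1 : ℕ) : ℝ) + 1) := by
        push_cast
        rw [div_sub_div _ _ (by positivity) (by positivity), div_le_div_iff₀ (by positivity) (by positivity)]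
        nlinarith
      linarith
  rcases J with _ | J
  · norm_num
  · have := key J
    have h0 : (0:ℝ) ≤ 1 / (J + 1 : ℝ) := by positivity
    linarith

/-- boundary functions with prescribed values of the Mellin transform at the nodes -/
theorem core_interp : ∃ m₀ : ℕ, 4 ≤ m₀ ∧ ∀ m : ℕ, m₀ ≤ m → ∃ c ν C D : ℝ, 0 < c ∧ c ≤ 1 / 10 ∧ 0 < ν ∧ 0 ≤ C ∧ 0 ≤ D ∧
    JP c C ∧ ∀ v : ℕ → ℝ, (∀ J : ℕ, ∑ k ∈ range J, WW c k * v k ^ 2 ≤ ν ^ 2) → ∃ β α g : ℕ → ℝ, OutI m c v β α g D := by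
  obtain ⟨CJ, hCJ0, m₁, lam₀, hlam8, hH⟩ := exists_hyp2 Pool.Agent.H469R10.HO.hoheisel
  obtain ⟨K, hKn, hKb⟩ := chi_bd
  obtain ⟨m₂, hm₂⟩ := CU_kE_small (16 * CJ) K (1 / (16384 * (CJ + 1))) (by positivity)
  refine ⟨max (max m₁ m₂) (max 4 ⌈lam₀⌉₊), (le_max_left _ _).trans (le_max_right _ _), fun m hm => ?_⟩
  have hm1 : m₁ ≤ m := ((le_max_left _ _).trans (le_max_left _ _)).trans hm
  have hm2' : m₂ ≤ m := ((le_max_right _ _).trans (le_max_left _ _)).trans hm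
  have hm4 : 4 ≤ m := ((le_max_left _ _).trans (le_max_right _ _)).trans hm
  have hm3 : lam₀ ≤ m := Nat.ceil_le.mp (((le_max_right _ _).trans (le_max_right _ _)).trans hm)
  have hm2 : 2 ≤ m := by omega
  have hmR : (4:ℝ) ≤ m := by exact_mod_cast hm4
  have hlam : lam₀ ≤ lamH m := by unfold lamH; linarith
  obtain ⟨e, κ, CH, η, ρ, c₁, he0, he, hη, hρ0, hρ9, hκ, hfin, hc₁, hyp⟩ := hH m hm1 (lamH m) hlam
  obtain ⟨B1, h1, -⟩ := hyp c₁ hc₁ le_rfl
  have hCH := h1.hCH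
  set κE : ℝ := kE K m with hκE
  have hκE0 : 0 ≤ κE := kE_nonneg K m
  have hsm := hm₂ m hm2'
  rw [← hκE] at hsm
  have hCU := CU_pos m
  set K0 : ℝ := Real.sqrt (16 * CJ * CU m + 1) with hK0def
  have hK0sq : K0 ^ 2 = 16 * CJ * CU m + 1 := Real.sq_sqrt (by positivity)
  have hK0 : 0 < K0 := Real.sqrt_pos.2 (by positivity)
  have hK1 : 2 * (CJ * CU m) ≤ 1 / 8 * K0 ^ 2 := by rw [hK0sq]; linarith
  have hCH81 : CJ * (CH * 81 * ρ ^ 2) ≤ 1 := by
    have g1 : 0 ≤ 2 * (CJ * (800 * e ^ 2 + 2 * κ)) := by positivity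
    have g2 : 2 * (CJ * (720 + 2 * κ)) * (CH * 81 * ρ ^ 2) = 1440 * (CJ * (CH * 81 * ρ ^ 2)) + 4 * κ * (CJ * (CH * 81 * ρ ^ 2)) := by
      ring
    have g3 : 0 ≤ 4 * κ * (CJ * (CH * 81 * ρ ^ 2)) := by positivity
    linarith
  have hK2 : K0 ^ 2 * 1024 * (2 * (CJ * κE) * (1 + CH * 81 * ρ ^ 2)) ≤ 1 / 8 := by
    rw [hK0sq]
    have g1 : 2 * (CJ * κE) * (1 + CH * 81 * ρ ^ 2) = 2 * κE * (CJ + CJ * (CH * 81 * ρ ^ 2)) := by ring
    rw [g1]
    have g2 : 2 * κE * (CJ + CJ * (CH * 81 * ρ ^ 2)) ≤ 2 * κE * (CJ + 1) := by gcongr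
    calc (16 * CJ * CU m + 1) * 1024 * (2 * κE * (CJ + CJ * (CH * 81 * ρ ^ 2)))
        ≤ (16 * CJ * CU m + 1) * 1024 * (2 * κE * (CJ + 1)) := by gcongr
      _ = ((16 * CJ * CU m + 1) * κE) * (2048 * (CJ + 1)) := by ring
      _ ≤ (1 / (16384 * (CJ + 1))) * (2048 * (CJ + 1)) := by gcongr
      _ = 1 / 8 := by field_simp; norm_num
  obtain ⟨cN, hcN, hN⟩ := Pool.Agent.H5R3.T469N.taskN m hm2 (ρ ^ 2 / 256) (by positivity)
  obtain ⟨cP, hcP, hP⟩ := primeH m (by omega) η hη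
  set KT : ℝ := K0 ^ 2 * 256 * 2048 * (K + m + 1) ^ 2 with hKT
  have hKT0 : 0 < KT := by positivity
  set c : ℝ := min (min c₁ 1) (min (min cN cP) (ρ ^ 2 / (512 * KT))) with hcdef
  have hc : 0 < c := lt_min (lt_min hc₁ one_pos) (lt_min (lt_min hcN hcP) (by positivity))
  have hcc₁ : c ≤ c₁ := (min_le_left _ _).trans (min_le_left _ _)
  have hcc1 : c ≤ 1 := (min_le_left _ _).trans (min_le_right _ _)
  have hccN : c ≤ cN := (min_le_right _ _).trans ((min_le_left _ _).trans (min_le_left _ _))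
  have hccP : c ≤ cP := (min_le_right _ _).trans ((min_le_left _ _).trans (min_le_right _ _))
  have hccK : c * KT ≤ ρ ^ 2 / 512 := by
    have : c ≤ ρ ^ 2 / (512 * KT) := (min_le_right _ _).trans (min_le_right _ _)
    rw [le_div_iff₀ (by positivity)] at this
    linarith
  obtain ⟨B, h, hB2⟩ := hyp c hc hcc₁
  set ν : ℝ := Real.sqrt (ρ ^ 2 / (512 * (512 * K0 ^ 2))) with hν
  have hν0 : 0 < ν := Real.sqrt_pos.2 (by positivity)
  have hνsq : ν ^ 2 = ρ ^ 2 / (512 * (512 * K0 ^ 2)) := Real.sq_sqrt (by positivity)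
  have hWp := fun j => (WW_pos h.hc h.hc1 j)
  have hW := fun j => (hWp j).le
  set D : ℝ := 3 * (ρ ^ 2 + CH * (9 * ρ ^ 2) ^ 2 + 2 * (WW c (jj c (lamH m) 0) + WW c (jj c (lamH m) 1))) + ρ ^ 2 / K0 ^ 2 with hD
  have hD0 : 0 ≤ D := by
    have := hW (jj c (lamH m) 0)
    have := hW (jj c (lamH m) 1)
    positivity
  refine ⟨c, ν, CJ, D, hc, h.hc1, hν0, hCJ0.le, hD0, ?_, fun v hv => ?_⟩
  · intro cl T κ' hκ' h1 h2 S β J
    refine h.hJ cl T κ' hκ' (fun S β J => ?_) (fun S β J => ?_) S β J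
    · have := h1 S β J
      simpa [QQ] using this
    · have := h2 S β J
      simpa [QQ] using this
  have hs : ∀ J : ℕ, ∑ j ∈ range J, WW c j * ss c m j ^ 2 ≤ (ρ / 16) ^ 2 := by
    intro J
    refine (hN c hc hccN J).trans (le_of_eq ?_)
    ring
  set t : ℕ → ℝ := fun k => 16 * v k - 32 * EE m (s0 c) k with ht
  have htb : ∀ J : ℕ, K0 ^ 2 * ∑ j ∈ range J, WW c j * t j ^ 2 ≤ (ρ / 16) ^ 2 := by
    intro J
    have e0 : ∀ j, WW c j * t j ^ 2 ≤ 512 * (WW c j * v j ^ 2) +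
        256 / c * (2048 * ((1 + (j:ℝ)) ^ 2 * (EE m (s0 c) j) ^ 2)) := by
      intro j
      have g1 := Pool.Agent.H5R3.T469N.WW_le hc hcc1 j
      have g2 : t j ^ 2 ≤ 512 * v j ^ 2 + 2048 * (EE m (s0 c) j) ^ 2 := by
        simp only [ht]
        nlinarith [sq_nonneg (16 * v j + 32 * EE m (s0 c) j)]
      have g3 : WW c j * (2048 * (EE m (s0 c) j) ^ 2) ≤ (256 / c * (1 + (j:ℝ)) ^ 2) * (2048 * (EE m (s0 c) j) ^ 2) :=
        mul_le_mul_of_nonneg_right g1 (by positivity)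
      have g4 := mul_le_mul_of_nonneg_left g2 (hW j)
      linarith
    have e1 := hv J
    have e2 := EE_s0 hm4 hKn hKb hc.le (range J)
    have e3 : ∑ j ∈ range J, WW c j * t j ^ 2 ≤ 512 * ν ^ 2 +
        256 / c * (2048 * (c ^ 2 * (K + m + 1)) ^ 2) := by
      refine (sum_le_sum fun j _ => e0 j).trans ?_
      rw [sum_add_distrib, ← mul_sum, ← mul_sum, ← mul_sum]
      have : 0 ≤ 256 / c := by positivity
      gcongr
    have e4 : K0 ^ 2 * (512 * ν ^ 2) = ρ ^ 2 / 512 := by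
      rw [hνsq]
      field_simp
    have e5 : K0 ^ 2 * (256 / c * (2048 * (c ^ 2 * (K + m + 1)) ^ 2)) ≤ ρ ^ 2 / 512 := by
      have g1 : K0 ^ 2 * (256 / c * (2048 * (c ^ 2 * (K + m + 1)) ^ 2)) = (c * KT) * c ^ 2 := by
        rw [hKT]
        field_simp
      rw [g1]
      have g2 : c ^ 2 ≤ 1 := pow_le_one₀ hc.le hcc1
      have g3 : 0 ≤ c * KT := by positivity
      nlinarith
    calc K0 ^ 2 * ∑ j ∈ range J, WW c j * t j ^ 2 ≤ K0 ^ 2 * (512 * ν ^ 2 +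
        256 / c * (2048 * (c ^ 2 * (K + m + 1)) ^ 2)) := by gcongr
      _ = K0 ^ 2 * (512 * ν ^ 2) + K0 ^ 2 * (256 / c * (2048 * (c ^ 2 * (K + m + 1)) ^ 2)) := by ring
      _ ≤ ρ ^ 2 / 512 + ρ ^ 2 / 512 := by linarith
      _ = (ρ / 16) ^ 2 := by ring
  obtain ⟨b, g, hb1, hg1, hb2, hg2, hb3, hg3⟩ := fixed_interp h Pool.Agent.H180R3.Q469.taskQ hm4 hκE0 (eBound hm4 hKn hKb)
    hK0 hK1 hρ0 hρ9 hfin hK2 (ss c m) t hs htb
  have hBh : ∀ j, ∀ p ∈ B j, 1 ≤ j ∧ p.Prime ∧ |uu c (lamH m) p - xx j| ≤ 1 / 2 :=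
    fun j p hp => ⟨(h.hB j p hp).1, (h.hB j p hp).2.1, (h.hB j p hp).2.2.trans he⟩
  set α : ℕ → ℝ := fun n => if n = 0 then b 0 - 1 else
    if Squarefree n then ∏ p ∈ n.primeFactors, bet c (lamH m) B b p else 0 with hαdef
  have hb3' : ∀ j, b j = (ss c m j + PP (rg m g) j) + ∑' n, alp c (lamH m) B b n * TT c (lamH m) m n j := by
    intro j
    rw [PP_rg hg2 (by omega)]
    exact hb3 j
  obtain ⟨hrel, hr, hhb⟩ := rel_of_fixed2 c (lamH m) m B b (rg m g) hc h.hlam hm2 (rg_cont hg2 (by omega))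
    (fun x h0 h1 => rg_low (by omega) x h0 h1) (fun x h1 => rg_high x h1) (fun x hx => rg_symm x hx)
    hBh h.hBne hb2 hb3' α (fun n => rfl)
  have hαalp : ∀ n, n ≠ 0 → α n = alp c (lamH m) B b n := by
    intro n hn
    simp only [hαdef, alp, if_neg hn]
  have hsum : Summable fun n => |α n| := by
    refine hb2.congr_cofinite ?_
    rw [Filter.EventuallyEq, Filter.eventually_cofinite]
    refine (Set.finite_singleton 0).subset ?_
    intro n hn
    by_contra h0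
    apply hn
    have h0' : n ≠ 0 := h0
    simp only [hαalp n h0']
  have hBd : Bd c (lamH m) m α :=
    { hc := hc
      hlam := h.hlam
      hm := by omega
      hα := hsum
      hrel := fun x hx => by
        have := hrel x hx
        simpa [hb, div_eq_mul_inv] using this }
  have hQ := QQ_alp h hρ0 hρ9 hb1 (α := α) hαalp (by simp only [hαdef, if_pos])
  refine ⟨bet c (lamH m) B b, α, g, ⟨hc, ?_, ?_, hsum, hrel, ?_, hg2, ?_, hr, ?_⟩⟩
  · intro p hp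
    refine hP c hc hccP B hBh hB2 b (fun j => ?_) p hp
    have h1 := hb1 (j + 1)
    rw [Finset.sum_range_succ] at h1
    have h2 : 0 ≤ ∑ i ∈ range j, WW c i * b i ^ 2 :=
      Finset.sum_nonneg fun i _ => mul_nonneg (hW i) (sq_nonneg _)
    have h3 : ρ ^ 2 ≤ 1 := by nlinarith [sq_nonneg ρ]
    linarith
  · intro n hn
    simp only [hαdef, if_neg (show n ≠ 0 by omega)]
  · intro S
    have g1 : 0 ≤ ρ ^ 2 / K0 ^ 2 := by positivity
    exact (hQ S).trans (by rw [hD]; linarith)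
  · intro J
    have g1 := hg1 J
    have g2 : ∑ k ∈ range J, WW c k * g k ^ 2 ≤ ρ ^ 2 / K0 ^ 2 := by
      rw [le_div_iff₀ (by positivity), mul_comm]
      exact g1
    refine g2.trans ?_
    rw [hD]
    have := hW (jj c (lamH m) 0)
    have := hW (jj c (lamH m) 1)
    have : 0 ≤ 3 * (ρ ^ 2 + CH * (9 * ρ ^ 2) ^ 2 + 2 * (WW c (jj c (lamH m) 0) + WW c (jj c (lamH m) 1))) := by positivity
    linarith
  · intro k
    rw [node hBd (by omega) hg2 hr k]
    congr 1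
    have ha : Summable (fun n => |if n = 1 then 0 else alp c (lamH m) B b n|) := by
      refine Summable.of_nonneg_of_le (fun _ => abs_nonneg _) (fun n => ?_) hb2
      split_ifs
      · rw [abs_zero]; exact abs_nonneg _
      · exact le_rfl
    have e1 : EE m (hb c (lamH m) α) k = EE m (s0 c) k + ∑' n, alp c (lamH m) B b n * TE c (lamH m) m n k := by
      have g0 : hb c (lamH m) α = fun x => s0 c x + ∑' n, (if n = 1 then 0 else alp c (lamH m) B b n) *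
          Real.cos (uu c (lamH m) n * x) := funext hhb
      rw [g0, EE_add (by omega) (M := 2) (M' := ∑' n, |if n = 1 then 0 else alp c (lamH m) B b n|)]
      · congr 1
        rw [EE_tsum (by omega) ha]
        refine tsum_congr fun n => ?_
        unfold TE
        split_ifs with h1
        · simp
        · rfl
      · unfold s0; fun_prop
      · intro y
        unfold s0
        rw [abs_le]
        constructor <;> linarith [Real.neg_one_le_cos (c * y), Real.cos_le_one (c * y)]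
      · refine continuous_tsum (fun n => by fun_prop) ha fun n x => ?_
        rw [Real.norm_eq_abs, abs_mul]
        exact mul_le_of_le_one_right (abs_nonneg _) (Real.abs_cos_le_one _)
      · intro y
        rw [← Real.norm_eq_abs]
        refine tsum_of_norm_bounded ha.hasSum fun n => ?_
        rw [Real.norm_eq_abs, abs_mul]
        exact mul_le_of_le_one_right (abs_nonneg _) (Real.abs_cos_le_one _)
    rw [e1, hg3 k]
    simp only [ht]
    ring

end Pool.Agent.Q127.EZ
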