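import Mathlib

/-!
# Counting zeros by Jensen's formula, with mean squares on the circle
-/

set_option autoImplicit false

open Finset MeasureTheory Metric

namespace Pool.Agent.Q127.EZ

lemma untop_map (o : ℕ∞) : ((o.map (fun n : ℕ => (n : ℤ)) : WithTop ℤ)).untop₀ = (o.toNat : ℤ) := by
  cases o using ENat.recTopCoe with
  | top => simp
  | coe n => simp

/-- Jensen: number of zeros in a smaller disc -/
theorem jensen_count {f : ℂ → ℂ} {c : ℂ} {R1 R : ℝ} (h0 : 0 < R1) (hR : R1 < R) (hf : AnalyticOnNhd ℂ f (closedBall c R))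
    (hc : f c ≠ 0) (Z : Finset ℂ) (hZ : ∀ ρ ∈ Z, dist ρ c ≤ R1) :
    (∑ ρ ∈ Z, (analyticOrderNatAt f ρ : ℝ)) * Real.log (R / R1) ≤
      Real.circleAverage (fun z => Real.log ‖f z‖) c R - Real.log ‖f c‖ := by
  classical
  have hR0 : 0 < R := h0.trans hR
  have hRa : |R| = R := abs_of_pos hR0
  have hf' : AnalyticOnNhd ℂ f (closedBall c |R|) := by rwa [hRa]
  have hJ := hf'.circleAverage_log_norm hR0.ne' hc
  rw [hRa] at hJ
  set D := MeromorphicOn.divisor f (closedBall c R) with hD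
  have hdiv : ∀ u ∈ closedBall c R, (D u : ℝ) = (analyticOrderNatAt f u : ℝ) := by
    intro u hu
    rw [hD, MeromorphicOn.AnalyticOnNhd.divisor_apply hf hu]
    have := untop_map (analyticOrderAt f u)
    rw [this]
    simp [analyticOrderNatAt]
  have hout : ∀ u, u ∉ closedBall c R → D u = 0 := by
    intro u hu
    by_contra h
    exact hu (D.supportWithinDomain h)
  have hnn : ∀ u, 0 ≤ (D u : ℝ) * Real.log (R * ‖c - u‖⁻¹) := by
    intro u
    by_cases hu : u ∈ closedBall c R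
    · rw [hdiv u hu]
      apply mul_nonneg (Nat.cast_nonneg _)
      rcases eq_or_ne c u with h1 | h1
      · rw [h1, sub_self, norm_zero, inv_zero, mul_zero, Real.log_zero]
      · apply Real.log_nonneg
        have h2 : 0 < ‖c - u‖ := norm_pos_iff.2 (sub_ne_zero.2 h1)
        rw [← div_eq_mul_inv, le_div_iff₀ h2, one_mul]
        rw [mem_closedBall, dist_comm, dist_eq_norm] at hu
        exact hu
    · rw [hout u hu]; simp
  have hfin := D.finiteSupport (isCompact_closedBall c R)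
  have hsup : (Function.support fun u => (D u : ℝ) * Real.log (R * ‖c - u‖⁻¹)) ⊆ ↑(hfin.toFinset ∪ Z) := by
    intro u hu
    rw [Function.mem_support] at hu
    have : D u ≠ 0 := by
      intro h; rw [h] at hu; simp at hu
    simp [this]
  rw [finsum_eq_sum_of_support_subset _ hsup] at hJ
  have hmain : (∑ ρ ∈ Z, (analyticOrderNatAt f ρ : ℝ)) * Real.log (R / R1) ≤
      ∑ u ∈ hfin.toFinset ∪ Z, (D u : ℝ) * Real.log (R * ‖c - u‖⁻¹) := by
    rw [sum_mul]
    refine le_trans ?_ (sum_le_sum_of_subset_of_nonneg subset_union_right fun u _ _ => hnn u)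
    apply sum_le_sum
    intro ρ hρ
    have h1 := hZ ρ hρ
    have h2 : ρ ∈ closedBall c R := by rw [mem_closedBall]; linarith
    rw [hdiv ρ h2]
    rcases eq_or_ne c ρ with h3 | h3
    · have : analyticOrderNatAt f ρ = 0 := by
        rw [← h3]
        unfold analyticOrderNatAt
        rw [(hf c (mem_closedBall_self hR0.le)).analyticOrderAt_eq_zero.2 hc]
        rfl
      rw [this]; simp
    · apply mul_le_mul_of_nonneg_left _ (Nat.cast_nonneg _)
      have h4 : 0 < ‖c - ρ‖ := norm_pos_iff.2 (sub_ne_zero.2 h3)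
      apply Real.log_le_log (by positivity)
      rw [div_eq_mul_inv]
      apply mul_le_mul_of_nonneg_left _ hR0.le
      apply inv_anti₀ h4
      rwa [dist_comm, dist_eq_norm] at h1
  have hJ' : Real.circleAverage (fun z => Real.log ‖f z‖) c R = Real.circleAverage (Real.log ‖f ·‖) c R := rfl
  rw [hJ']
  linarith

/-- mean squares on the circle -/
theorem jensen_sq {f : ℂ → ℂ} {c : ℂ} {R1 R a : ℝ} (h0 : 0 < R1) (hR : R1 < R) (ha : 0 < a)
    (hf : AnalyticOnNhd ℂ f (closedBall c R))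
    (hc : f c ≠ 0) (Z : Finset ℂ) (hZ : ∀ ρ ∈ Z, dist ρ c ≤ R1) :
    (∑ ρ ∈ Z, (analyticOrderNatAt f ρ : ℝ)) * Real.log (R / R1) ≤
      1 / (2 * a) * Real.circleAverage (fun z => ‖f z‖ ^ 2) c R - Real.log ‖f c‖ + 1 / 2 * Real.log a := by
  have hR0 : 0 < R := h0.trans hR
  have hRa : |R| = R := abs_of_pos hR0
  set s : ℝ := Real.sqrt a with hs
  have hs0 : 0 < s := Real.sqrt_pos.2 ha
  have hss : s ^ 2 = a := Real.sq_sqrt ha.le
  have hsc : (s : ℂ) ≠ 0 := by exact_mod_cast hs0.ne'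
  obtain ⟨F, hF⟩ : ∃ F : ℂ → ℂ, F = fun z => ((s : ℂ))⁻¹ * f z := ⟨_, rfl⟩
  have hFa : AnalyticOnNhd ℂ F (closedBall c R) := by
    rw [hF]
    exact analyticOnNhd_const.mul hf
  have hFc : F c ≠ 0 := by
    rw [hF]
    exact mul_ne_zero (inv_ne_zero hsc) hc
  have hord : ∀ ρ ∈ Z, analyticOrderNatAt F ρ = analyticOrderNatAt f ρ := by
    intro ρ hρ
    have h1 : AnalyticAt ℂ f ρ := hf ρ (by rw [mem_closedBall]; linarith [hZ ρ hρ])
    have h2 : AnalyticAt ℂ (fun _ : ℂ => ((s : ℂ))⁻¹) ρ := analyticAt_const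
    unfold analyticOrderNatAt
    rw [hF]
    have h3 := analyticOrderAt_mul h2 h1
    have h4 : analyticOrderAt (fun _ : ℂ => ((s : ℂ))⁻¹) ρ = 0 := h2.analyticOrderAt_eq_zero.2 (inv_ne_zero hsc)
    rw [h4, zero_add] at h3
    have h5 : (fun z => ((s : ℂ))⁻¹ * f z) = (fun _ : ℂ => ((s : ℂ))⁻¹) * f := rfl
    rw [h5, h3]
  have h1 := jensen_count h0 hR hFa hFc Z hZ
  have h2 : ∑ ρ ∈ Z, (analyticOrderNatAt F ρ : ℝ) = ∑ ρ ∈ Z, (analyticOrderNatAt f ρ : ℝ) :=
    sum_congr rfl fun ρ hρ => by rw [hord ρ hρ]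
  rw [h2] at h1
  have hn : ∀ z, ‖F z‖ = s⁻¹ * ‖f z‖ := by
    intro z
    rw [hF]
    simp only
    rw [norm_mul, norm_inv, Complex.norm_real, Real.norm_of_nonneg hs0.le]
  have h3 : Real.circleAverage (fun z => Real.log ‖F z‖) c R ≤ Real.circleAverage (fun z => 1 / (2 * a) * ‖f z‖ ^ 2) c R := by
    apply Real.circleAverage_mono
    · exact ((hFa.mono (by rw [hRa]; exact sphere_subset_closedBall)).meromorphicOn.circleIntegrable_log_norm : _)
    · apply ContinuousOn.circleIntegrable'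
      rw [hRa]
      have h4 : ContinuousOn f (sphere c R) := (hf.mono sphere_subset_closedBall).continuousOn
      fun_prop
    · intro z _
      rw [hn]
      have e1 : s⁻¹ * ‖f z‖ ≤ 1 / 2 * (s⁻¹ * ‖f z‖) ^ 2 + 1 / 2 := by nlinarith [sq_nonneg (s⁻¹ * ‖f z‖ - 1)]
      have e2 : 1 / (2 * a) * ‖f z‖ ^ 2 = 1 / 2 * (s⁻¹ * ‖f z‖) ^ 2 := by
        rw [← hss]
        field_simp
      rw [e2]
      rcases (norm_nonneg (f z)).eq_or_lt with h5 | h5
      · rw [← h5]; simp
      · have h6 := Real.log_le_sub_one_of_pos (show 0 < s⁻¹ * ‖f z‖ by positivity)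
        linarith
  have h4 : Real.circleAverage (fun z => 1 / (2 * a) * ‖f z‖ ^ 2) c R = 1 / (2 * a) * Real.circleAverage (fun z => ‖f z‖ ^ 2) c R := by
    have := Real.circleAverage_fun_smul (a := 1 / (2 * a)) (f := fun z => ‖f z‖ ^ 2) (c := c) (R := R)
    simpa [smul_eq_mul] using this
  rw [h4] at h3
  have h5 : Real.log ‖F c‖ = Real.log ‖f c‖ - 1 / 2 * Real.log a := by
    rw [hn, Real.log_mul (inv_ne_zero hs0.ne') (norm_ne_zero_iff.2 hc), Real.log_inv, hs, Real.log_sqrt ha.le]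
    ring
  rw [h5] at h1
  linarith

end Pool.Agent.Q127.EZ
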