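import Mathlib
import Pool.Agent.Q127.EZ.Core

/-!
# The tail functional with a complex exponent
-/

set_option autoImplicit false

open Finset MeasureTheory

namespace Pool.Agent.Q127.EZ

open Pool.Agent.H469R10.HO Pool.Agent.H99R3.M469

/-- complex Bessel inequality -/
lemma bessel_c {e : ℕ → ℝ → ℝ} (he : ∀ j, Continuous (e j))
    (hC : ∀ (S : Finset ℕ) (A : ℕ → ℝ), ∫ y in (0:ℝ)..1, (∑ k ∈ S, A k * e k y) ^ 2 ≤ ∑ k ∈ S, A k ^ 2)
    {w : ℝ → ℂ} (hw : Continuous w) {b : ℝ} (hb0 : 0 ≤ b) (hb1 : b ≤ 1) (S : Finset ℕ) :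
    ∑ k ∈ S, ‖∫ y in (0:ℝ)..b, w y * (e k y : ℂ)‖ ^ 2 ≤ ∫ y in (0:ℝ)..b, ‖w y‖ ^ 2 := by
  have c1 : Continuous fun y => (w y).re := Complex.continuous_re.comp hw
  have c2 : Continuous fun y => (w y).im := Complex.continuous_im.comp hw
  have h1 := bessel_osc he hC c1 hb0 hb1 S
  have h2 := bessel_osc he hC c2 hb0 hb1 S
  have e1 : ∀ k, ‖∫ y in (0:ℝ)..b, w y * (e k y : ℂ)‖ ^ 2 =
      (∫ y in (0:ℝ)..b, (w y).re * e k y) ^ 2 + (∫ y in (0:ℝ)..b, (w y).im * e k y) ^ 2 := by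
    intro k
    have hek := he k
    have hi : IntervalIntegrable (fun y => w y * (e k y : ℂ)) volume 0 b :=
      Continuous.intervalIntegrable (by fun_prop) _ _
    have g1 : (∫ y in (0:ℝ)..b, w y * (e k y : ℂ)).re = ∫ y in (0:ℝ)..b, (w y).re * e k y := by
      have := Complex.reCLM.intervalIntegral_comp_comm hi
      rw [← Complex.reCLM_apply, ← this]
      congr 1
      funext y
      simp
    have g2 : (∫ y in (0:ℝ)..b, w y * (e k y : ℂ)).im = ∫ y in (0:ℝ)..b, (w y).im * e k y := by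
      have := Complex.imCLM.intervalIntegral_comp_comm hi
      rw [← Complex.imCLM_apply, ← this]
      congr 1
      funext y
      simp
    rw [← Complex.normSq_eq_norm_sq, Complex.normSq_apply, g1, g2]
    ring
  simp_rw [e1]
  rw [sum_add_distrib]
  have e2 : ∫ y in (0:ℝ)..b, ‖w y‖ ^ 2 = (∫ y in (0:ℝ)..b, (w y).re ^ 2) + ∫ y in (0:ℝ)..b, (w y).im ^ 2 := by
    have c3 : Continuous fun y => (w y).re ^ 2 := by fun_prop
    have c4 : Continuous fun y => (w y).im ^ 2 := by fun_prop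
    rw [← intervalIntegral.integral_add (c3.intervalIntegrable _ _) (c4.intervalIntegrable _ _)]
    congr 1
    funext y
    rw [← Complex.normSq_eq_norm_sq, Complex.normSq_apply]
    ring
  rw [e2]
  exact add_le_add h1 h2

/-- the weight of the tail functional -/
noncomputable def wJ (ξ : ℂ) (G : ℝ → ℝ) (y : ℝ) : ℂ := ((chi y * (y ^ 3 * G y⁻¹) : ℝ) : ℂ) * (y : ℂ) ^ ξ

/-- the tail functional -/
noncomputable def JJ (ξ : ℂ) (e : ℕ → ℝ → ℝ) (G : ℝ → ℝ) (k : ℕ) : ℂ :=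
  ∫ y in (0:ℝ)..(3/4), wJ ξ G y * (e k y : ℂ)

lemma wJ_cont {ξ : ℂ} (hξ : 0 < ξ.re) {G : ℝ → ℝ} (hG : Continuous G) {M : ℝ} (hM : ∀ y, |G y| ≤ M) :
    Continuous (wJ ξ G) := by
  have h1 : Continuous fun y : ℝ => chi y * (y ^ 3 * G y⁻¹) := chi_c.mul (contX hG hM (by norm_num))
  have h2 := Complex.continuous_ofReal_cpow_const hξ
  exact (Complex.continuous_ofReal.comp h1).mul h2

lemma pow_norm_le {ξ : ℂ} (hξ : 0 < ξ.re) {y : ℝ} (h0 : 0 ≤ y) (h1 : y ≤ 1) : ‖(y : ℂ) ^ ξ‖ ≤ 1 := by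
  rcases h0.eq_or_lt with h | h
  · rw [← h, Complex.ofReal_zero, Complex.zero_cpow (by intro h2; rw [h2] at hξ; simp at hξ)]
    simp
  · rw [Complex.norm_cpow_eq_rpow_re_of_pos h]
    exact Real.rpow_le_one h0 h1 hξ.le

lemma JJ_le {ξ : ℂ} (hξ : 0 < ξ.re) {e : ℕ → ℝ → ℝ} (he1 : ∀ k y, 0 ≤ y → |e k y| ≤ y)
    {G : ℝ → ℝ} {M : ℝ} (hM : ∀ y, |G y| ≤ M) (k : ℕ) : ‖JJ ξ e G k‖ ≤ M := by
  have hM0 : 0 ≤ M := (abs_nonneg _).trans (hM 0)
  unfold JJ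
  have h4 : ‖∫ y in (0:ℝ)..(3/4), wJ ξ G y * (e k y : ℂ)‖ ≤ M * |3 / 4 - 0| := by
    apply intervalIntegral.norm_integral_le_of_norm_le_const
    intro y hy
    rw [Set.uIoc_of_le (by norm_num)] at hy
    unfold wJ
    rw [norm_mul, norm_mul, Complex.norm_real, Complex.norm_real, Real.norm_eq_abs, Real.norm_eq_abs, abs_mul, abs_mul,
      abs_of_nonneg (chi_nn y), abs_pow, abs_of_pos hy.1]
    have e1 := chi_le y
    have e2 := chi_nn y
    have e3 : y ^ 3 ≤ 1 := pow_le_one₀ hy.1.le (by linarith [hy.2])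
    have e4 := hM y⁻¹
    have e5 : |e k y| ≤ 1 := (he1 k y hy.1.le).trans (by linarith [hy.2])
    have e6 := pow_norm_le hξ hy.1.le (by linarith [hy.2])
    have e7 : 0 ≤ y ^ 3 := pow_nonneg hy.1.le _
    calc chi y * (y ^ 3 * |G y⁻¹|) * ‖(y : ℂ) ^ ξ‖ * |e k y| ≤ 1 * (1 * M) * 1 * 1 := by
          gcongr
      _ = M := by ring
  refine h4.trans ?_
  rw [sub_zero, abs_of_pos (by norm_num)]
  linarith

lemma JJ_add {ξ : ℂ} (hξ : 0 < ξ.re) {e : ℕ → ℝ → ℝ} (he : ∀ j, Continuous (e j)) {G H : ℝ → ℝ} (hG : Continuous G)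
    {M : ℝ} (hM : ∀ y, |G y| ≤ M) (hH : Continuous H) {M' : ℝ} (hM' : ∀ y, |H y| ≤ M') (k : ℕ) :
    JJ ξ e (fun y => G y + H y) k = JJ ξ e G k + JJ ξ e H k := by
  unfold JJ
  have h1 := wJ_cont hξ hG hM
  have h2 := wJ_cont hξ hH hM'
  have h3 := he k
  rw [← intervalIntegral.integral_add (Continuous.intervalIntegrable (by fun_prop) _ _)
    (Continuous.intervalIntegrable (by fun_prop) _ _)]
  congr 1
  funext y
  unfold wJ
  push_cast
  ring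

lemma JJ_sum {ξ : ℂ} (hξ : 0 < ξ.re) {e : ℕ → ℝ → ℝ} (he : ∀ j, Continuous (e j)) (S : Finset ℕ) (β ω : ℕ → ℝ) (k : ℕ) :
    JJ ξ e (f0 S β ω) k = ∑ i ∈ S, (β i : ℂ) * JJ ξ e (fun y => Real.cos (ω i * y)) k := by
  unfold JJ
  have h3 := he k
  have e1 : ∀ y : ℝ, wJ ξ (f0 S β ω) y * (e k y : ℂ) =
      ∑ i ∈ S, (β i : ℂ) * (wJ ξ (fun y => Real.cos (ω i * y)) y * (e k y : ℂ)) := by
    intro y
    unfold wJ
    rw [f0_eq]
    push_cast
    simp_rw [mul_sum, sum_mul]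
    exact sum_congr rfl fun i _ => by ring
  simp_rw [e1]
  rw [intervalIntegral.integral_finsetSum]
  · exact sum_congr rfl fun i _ => intervalIntegral.integral_const_mul _ _
  · intro i hi
    have := wJ_cont hξ (G := fun y => Real.cos (ω i * y)) (by fun_prop) (M := 1) (fun y => Real.abs_cos_le_one _)
    exact Continuous.intervalIntegrable (by fun_prop) _ _

section dual

variable {S : Finset ℕ} {cl : ℕ → ℕ} {β ω : ℕ → ℝ} {ξ : ℂ}

lemma JJ_one {e : ℕ → ℝ → ℝ} (he : ∀ j, Continuous (e j))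
    (hC : ∀ (S : Finset ℕ) (A : ℕ → ℝ), ∫ y in (0:ℝ)..1, (∑ k ∈ S, A k * e k y) ^ 2 ≤ ∑ k ∈ S, A k ^ 2)
    (hω : ∀ i ∈ S, |ω i - xx (cl i)| ≤ 1) (hξ : 0 < ξ.re) (K : Finset ℕ) :
    ∑ k ∈ K, ‖JJ ξ e (f0 S β ω) k‖ ^ 2 ≤ 90 * QQ (fun _ => 1) S cl β := by
  have hc := wJ_cont hξ (tr_cont S β ω (fun _ => 0)) (tr_bd S β ω (fun _ => 0))
  refine (bessel_c he hC hc (b := 3/4) (by norm_num) (by norm_num) K).trans ?_
  have hQ0 : 0 ≤ QQ (fun _ => 1) S cl β := QQ_nonneg (fun _ => zero_le_one) S cl β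
  have h1 := sq_int_le (φ := fun _ => 0) (β := β) (n := 6) (by omega) hω hc.norm (C := 1) (fun y h0 h1 => by
    unfold wJ
    rw [norm_mul, Complex.norm_real, Real.norm_eq_abs, mul_pow, sq_abs, mul_pow, mul_pow]
    have e1 : chi y ^ 2 ≤ 1 := pow_le_one₀ (chi_nn y) (chi_le y)
    have e2 : ‖(y : ℂ) ^ ξ‖ ^ 2 ≤ 1 := pow_le_one₀ (norm_nonneg _) (pow_norm_le hξ h0 (by linarith))
    have e3 : 0 ≤ (y ^ 3) ^ 2 * tr S β ω (fun _ => 0) y⁻¹ ^ 2 := by positivity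
    calc chi y ^ 2 * ((y ^ 3) ^ 2 * tr S β ω (fun _ => 0) y⁻¹ ^ 2) * ‖(y : ℂ) ^ ξ‖ ^ 2 ≤
        1 * ((y ^ 3) ^ 2 * tr S β ω (fun _ => 0) y⁻¹ ^ 2) * 1 := by
          gcongr
      _ = _ := by ring) zero_le_one
  rw [one_mul] at h1
  refine h1.trans ?_
  have : ((3:ℝ)/4) ^ 6 ≤ 1 := by norm_num
  nlinarith

/-- the function of the integration by parts -/
noncomputable def WJ (S : Finset ℕ) (β ω : ℕ → ℝ) (ξ : ℂ) (y : ℝ) : ℂ :=
  (((deriv chi y * (y ^ 4 * f0 S β ω y⁻¹) : ℝ) : ℂ) +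
    (((chi y * (y ^ 3 * f0 S β ω y⁻¹) : ℝ) : ℂ) * (ξ + 5) - ((chi y * (y ^ 2 * f1 S β ω y⁻¹) : ℝ) : ℂ))) * (y : ℂ) ^ ξ

lemma WJ_cont (hξ : 0 < ξ.re) : Continuous (WJ S β ω ξ) := by
  have a1 := contX (tr_cont S β ω (fun _ => 0)) (tr_bd S β ω (fun _ => 0)) (n := 4) (by omega)
  have a2 := contX (tr_cont S β ω (fun _ => 0)) (tr_bd S β ω (fun _ => 0)) (n := 3) (by omega)
  have a3 := contX (tr_cont S (fun i => β i * ω i) ω (fun _ => Real.pi / 2))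
    (tr_bd S (fun i => β i * ω i) ω (fun _ => Real.pi / 2)) (n := 2) (by omega)
  have c1 := chi_c
  have c2 := chi_dc
  have h2 := Complex.continuous_ofReal_cpow_const hξ
  have b1 : Continuous fun y : ℝ => ((deriv chi y * (y ^ 4 * f0 S β ω y⁻¹) : ℝ) : ℂ) :=
    Complex.continuous_ofReal.comp (c2.mul a1)
  have b2 : Continuous fun y : ℝ => ((chi y * (y ^ 3 * f0 S β ω y⁻¹) : ℝ) : ℂ) :=
    Complex.continuous_ofReal.comp (c1.mul a2)
  have b3 : Continuous fun y : ℝ => ((chi y * (y ^ 2 * f1 S β ω y⁻¹) : ℝ) : ℂ) :=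
    Complex.continuous_ofReal.comp (c1.mul a3)
  unfold WJ
  exact (b1.add ((b2.mul continuous_const).sub b3)).mul h2

/-- integration by parts -/
lemma JJ_parts (hξ : 0 < ξ.re) {φ ψ : ℝ → ℝ} (hφ : ∀ t, HasDerivAt φ (ψ t) t) (hφb : ∀ t, |φ t| ≤ 1)
    (hψb : ∀ t, |ψ t| ≤ 1) (hψc : Continuous ψ) (k : ℕ) :
    (tau k : ℂ) * (∫ y in (0:ℝ)..(3/4), wJ ξ (f0 S β ω) y * ((y * ψ (tau k * Real.log y) : ℝ) : ℂ)) =
      - ∫ y in (0:ℝ)..(3/4), WJ S β ω ξ y * ((y * φ (tau k * Real.log y) : ℝ) : ℂ) := by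
  have hφc : Continuous φ := continuous_iff_continuousAt.2 fun t => (hφ t).continuousAt
  have hWc := WJ_cont (S := S) (β := β) (ω := ω) hξ
  have hq1 : Continuous fun y : ℝ => y * φ (tau k * Real.log y) :=
    ylog_cont (h := fun v => φ (tau k * v)) (by fun_prop) (M := 1) fun _ => hφb _
  have hq2 : Continuous fun y : ℝ => y * ψ (tau k * Real.log y) :=
    ylog_cont (h := fun v => ψ (tau k * v)) (by fun_prop) (M := 1) fun _ => hψb _
  have hw := wJ_cont hξ (tr_cont S β ω (fun _ => 0)) (tr_bd S β ω (fun _ => 0))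
  have hpc := Complex.continuous_ofReal_cpow_const hξ
  set P : ℝ → ℂ := fun y => (((chi y * (y ^ 4 * f0 S β ω y⁻¹)) * (y * φ (tau k * Real.log y)) : ℝ) : ℂ) * (y : ℂ) ^ ξ with hP
  have hPc : Continuous P := by
    have a1 := contX (tr_cont S β ω (fun _ => 0)) (tr_bd S β ω (fun _ => 0)) (n := 4) (by omega)
    exact (Complex.continuous_ofReal.comp ((chi_c.mul a1).mul hq1)).mul hpc
  have hξ0 : ξ ≠ 0 := by intro h; rw [h] at hξ; simp at hξ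
  have hd : ∀ y ∈ Set.Ioo (0:ℝ) (3/4), HasDerivAt P
      (WJ S β ω ξ y * ((y * φ (tau k * Real.log y) : ℝ) : ℂ) + (tau k : ℂ) * (wJ ξ (f0 S β ω) y *
        ((y * ψ (tau k * Real.log y) : ℝ) : ℂ))) y := by
    intro y hy
    have hy0 : y ≠ 0 := hy.1.ne'
    have h1 : HasDerivAt (fun y : ℝ => f0 S β ω y⁻¹) (f1 S β ω y⁻¹ * (-(y ^ 2)⁻¹)) y :=
      (f0_hd S β ω y⁻¹).comp y (hasDerivAt_inv hy0)
    have h2 := (hasDerivAt_pow 5 y).mul h1
    have h3 := (chi_hd y).mul h2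
    have h4 : HasDerivAt (fun y : ℝ => φ (tau k * Real.log y)) (ψ (tau k * Real.log y) * (tau k * y⁻¹)) y :=
      (hφ _).comp y ((Real.hasDerivAt_log hy0).const_mul (tau k))
    have h5 := (h3.mul h4).ofReal_comp
    have h6 := h5.mul (hasDerivAt_ofReal_cpow_const hy0 hξ0)
    have hev : P =ᶠ[nhds y] (fun y => ((((chi y * (y ^ 5 * f0 S β ω y⁻¹)) * φ (tau k * Real.log y)) : ℝ) : ℂ) * (y : ℂ) ^ ξ) := by
      refine Filter.Eventually.of_forall fun z => ?_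
      simp only [hP]
      congr 2
      ring
    refine (h6.congr_of_eventuallyEq hev).congr_deriv ?_
    have e0 : (y : ℂ) ^ (ξ - 1) = (y : ℂ) ^ ξ * (y : ℂ)⁻¹ := by
      have hyc : (y : ℂ) ≠ 0 := by exact_mod_cast hy0
      rw [Complex.cpow_sub _ _ hyc, Complex.cpow_one, div_eq_mul_inv]
    have hyc : (y : ℂ) ≠ 0 := by exact_mod_cast hy0
    rw [e0]
    unfold WJ wJ
    simp only [Pi.mul_apply]
    push_cast
    field_simp
    ring
  have hint : Continuous fun y => WJ S β ω ξ y * ((y * φ (tau k * Real.log y) : ℝ) : ℂ) +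
      (tau k : ℂ) * (wJ ξ (f0 S β ω) y * ((y * ψ (tau k * Real.log y) : ℝ) : ℂ)) := by
    have hw' : Continuous (wJ ξ (f0 S β ω)) := hw
    exact (hWc.mul (Complex.continuous_ofReal.comp hq1)).add
      (continuous_const.mul (hw'.mul (Complex.continuous_ofReal.comp hq2)))
  have hftc := intervalIntegral.integral_eq_sub_of_hasDerivAt_of_le (by norm_num : (0:ℝ) ≤ 3/4) hPc.continuousOn hd
    (hint.intervalIntegrable _ _)
  have hP1 : P (3/4) = 0 := by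
    simp only [hP]; rw [chi_z le_rfl]; simp
  have hP0 : P 0 = 0 := by
    simp only [hP]; simp
  have hw' : Continuous (wJ ξ (f0 S β ω)) := hw
  have i1 : IntervalIntegrable (fun y => WJ S β ω ξ y * ((y * φ (tau k * Real.log y) : ℝ) : ℂ)) volume 0 (3/4) :=
    (hWc.mul (Complex.continuous_ofReal.comp hq1)).intervalIntegrable _ _
  have i2 : IntervalIntegrable (fun y => (tau k : ℂ) * (wJ ξ (f0 S β ω) y * ((y * ψ (tau k * Real.log y) : ℝ) : ℂ))) volume 0 (3/4) :=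
    (continuous_const.mul (hw'.mul (Complex.continuous_ofReal.comp hq2))).intervalIntegrable _ _
  rw [hP1, hP0, sub_zero, intervalIntegral.integral_add i1 i2,
    intervalIntegral.integral_const_mul] at hftc
  linear_combination hftc

/-- the square integral of the function of the integration by parts -/
lemma WJ_int (hω : ∀ i ∈ S, |ω i - xx (cl i)| ≤ 1) (hξ : 0 < ξ.re) {K0 : ℝ}
    (hK : ∀ x ∈ Set.Icc (0:ℝ) 2, |deriv chi x| ≤ K0) :
    ∫ y in (0:ℝ)..(3/4), ‖WJ S β ω ξ y‖ ^ 2 ≤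
      270 * (K0 ^ 2 + ‖ξ + 5‖ ^ 2 + 4) * QQ (fun y => (1 + (y : ℝ)) ^ 2) S cl β := by
  have hWc := WJ_cont (S := S) (β := β) (ω := ω) hξ
  set p1 : ℝ → ℝ := fun y => deriv chi y * (y ^ 4 * f0 S β ω y⁻¹) with hp1
  set p2 : ℝ → ℝ := fun y => chi y * (y ^ 3 * f0 S β ω y⁻¹) with hp2
  set p3 : ℝ → ℝ := fun y => chi y * (y ^ 2 * f1 S β ω y⁻¹) with hp3
  have a1 : Continuous fun y : ℝ => y ^ 4 * f0 S β ω y⁻¹ :=
    contX (tr_cont S β ω (fun _ => 0)) (tr_bd S β ω (fun _ => 0)) (n := 4) (by omega)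
  have a2 : Continuous fun y : ℝ => y ^ 3 * f0 S β ω y⁻¹ :=
    contX (tr_cont S β ω (fun _ => 0)) (tr_bd S β ω (fun _ => 0)) (n := 3) (by omega)
  have a3 : Continuous fun y : ℝ => y ^ 2 * f1 S β ω y⁻¹ :=
    contX (tr_cont S (fun i => β i * ω i) ω (fun _ => Real.pi / 2))
    (tr_bd S (fun i => β i * ω i) ω (fun _ => Real.pi / 2)) (n := 2) (by omega)
  have c1 : Continuous p1 := chi_dc.mul a1
  have c2 : Continuous p2 := chi_c.mul a2
  have c3 : Continuous p3 := chi_c.mul a3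
  set Q := QQ (fun _ => 1) S cl β with hQ
  set Q2 := QQ (fun y => (1 + (y : ℝ)) ^ 2) S cl β with hQ2
  have hQ0 : 0 ≤ Q := QQ_nonneg (fun _ => zero_le_one) S cl β
  have hQQ : Q ≤ Q2 := QQ_1w
  have q1 : ∫ y in (0:ℝ)..(3/4), p1 y ^ 2 ≤ K0 ^ 2 * (90 * (3/4) ^ 8 * Q) := by
    refine sq_int_le (φ := fun _ => 0) (n := 8) (by omega) hω c1 (fun y h0 h1 => ?_) (sq_nonneg _)
    have e2 := hK y ⟨h0, by linarith⟩
    have e3 : deriv chi y ^ 2 ≤ K0 ^ 2 := by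
      rw [← sq_abs]; exact pow_le_pow_left₀ (abs_nonneg _) e2 2
    simp only [hp1]
    rw [show y ^ 8 = (y ^ 4) ^ 2 by ring, mul_pow, mul_pow]
    exact mul_le_mul_of_nonneg_right e3 (by positivity)
  have q2 : ∫ y in (0:ℝ)..(3/4), p2 y ^ 2 ≤ 1 * (90 * (3/4) ^ 6 * Q) := by
    refine sq_int_le (φ := fun _ => 0) (n := 6) (by omega) hω c2 (fun y h0 h1 => ?_) zero_le_one
    simp only [hp2]
    rw [show y ^ 6 = (y ^ 3) ^ 2 by ring, mul_pow, mul_pow, one_mul]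
    apply mul_le_of_le_one_left (by positivity)
    exact pow_le_one₀ (chi_nn y) (chi_le y)
  have q3 : ∫ y in (0:ℝ)..(3/4), p3 y ^ 2 ≤ 1 * (90 * (3/4) ^ 4 * QQ (fun _ => 1) S cl (fun i => β i * ω i)) := by
    refine sq_int_le (φ := fun _ => Real.pi / 2) (n := 4) (by omega) hω c3 (fun y h0 h1 => ?_) zero_le_one
    simp only [hp3]
    rw [show y ^ 4 = (y ^ 2) ^ 2 by ring, one_mul, mul_pow, mul_pow]
    apply mul_le_of_le_one_left (by positivity)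
    exact pow_le_one₀ (chi_nn y) (chi_le y)
  have q4 := QQ_w (β := β) hω
  set N : ℝ := ‖ξ + 5‖ with hN
  have hN0 : 0 ≤ N := norm_nonneg _
  have hsum : ∫ y in (0:ℝ)..(3/4), ‖WJ S β ω ξ y‖ ^ 2 ≤
      ∫ y in (0:ℝ)..(3/4), (3 * p1 y ^ 2 + 3 * (N ^ 2 * p2 y ^ 2) + 3 * p3 y ^ 2) := by
    apply intervalIntegral.integral_mono_on (by norm_num) ((hWc.norm.pow 2).intervalIntegrable _ _)
      (Continuous.intervalIntegrable (by fun_prop) _ _)
    intro y hy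
    have e6 := pow_norm_le hξ hy.1 (by linarith [hy.2])
    have e : WJ S β ω ξ y = (((p1 y : ℝ) : ℂ) + (((p2 y : ℝ) : ℂ) * (ξ + 5) - ((p3 y : ℝ) : ℂ))) * (y : ℂ) ^ ξ := rfl
    have e7 : ‖WJ S β ω ξ y‖ ≤ |p1 y| + |p2 y| * N + |p3 y| := by
      rw [e, norm_mul]
      have e8 : ‖((p1 y : ℝ) : ℂ) + (((p2 y : ℝ) : ℂ) * (ξ + 5) - ((p3 y : ℝ) : ℂ))‖ ≤ |p1 y| + |p2 y| * N + |p3 y| := by
        refine (norm_add_le _ _).trans ?_
        have := norm_sub_le (((p2 y : ℝ) : ℂ) * (ξ + 5)) ((p3 y : ℝ) : ℂ)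
        rw [norm_mul, Complex.norm_real, Complex.norm_real, Real.norm_eq_abs, Real.norm_eq_abs] at this
        rw [Complex.norm_real, Real.norm_eq_abs]
        linarith
      calc ‖((p1 y : ℝ) : ℂ) + (((p2 y : ℝ) : ℂ) * (ξ + 5) - ((p3 y : ℝ) : ℂ))‖ * ‖(y : ℂ) ^ ξ‖ ≤
          (|p1 y| + |p2 y| * N + |p3 y|) * 1 := mul_le_mul e8 e6 (norm_nonneg _) (by positivity)
        _ = _ := mul_one _
    have e9 : ‖WJ S β ω ξ y‖ ^ 2 ≤ (|p1 y| + |p2 y| * N + |p3 y|) ^ 2 := pow_le_pow_left₀ (norm_nonneg _) e7 2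
    refine e9.trans ?_
    rw [← sq_abs (p1 y), ← sq_abs (p2 y), ← sq_abs (p3 y)]
    nlinarith [sq_nonneg (|p1 y| - |p2 y| * N), sq_nonneg (|p1 y| - |p3 y|), sq_nonneg (|p2 y| * N - |p3 y|)]
  refine hsum.trans ?_
  rw [intervalIntegral.integral_add (Continuous.intervalIntegrable (by fun_prop) _ _)
    (Continuous.intervalIntegrable (by fun_prop) _ _), intervalIntegral.integral_add
    (Continuous.intervalIntegrable (by fun_prop) _ _)
    (Continuous.intervalIntegrable (by fun_prop) _ _), intervalIntegral.integral_const_mul,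
    intervalIntegral.integral_const_mul, intervalIntegral.integral_const_mul, intervalIntegral.integral_const_mul]
  have s1 : K0 ^ 2 * (90 * (3/4) ^ 8 * Q) ≤ K0 ^ 2 * (90 * Q2) := by
    apply mul_le_mul_of_nonneg_left _ (sq_nonneg _)
    have : ((3:ℝ)/4) ^ 8 ≤ 1 := by norm_num
    nlinarith
  have s2 : 1 * (90 * (3/4) ^ 6 * Q) ≤ 90 * Q2 := by
    have : ((3:ℝ)/4) ^ 6 ≤ 1 := by norm_num
    nlinarith
  have s3 : 1 * (90 * (3/4) ^ 4 * QQ (fun _ => 1) S cl (fun i => β i * ω i)) ≤ 90 * (4 * Q2) := by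
    have h1 : ((3:ℝ)/4) ^ 4 ≤ 1 := by norm_num
    have h2 : 0 ≤ QQ (fun _ => 1) S cl (fun i => β i * ω i) := QQ_nonneg (fun _ => zero_le_one) S cl _
    nlinarith
  have s4 : N ^ 2 * (∫ y in (0:ℝ)..(3/4), p2 y ^ 2) ≤ N ^ 2 * (90 * Q2) :=
    mul_le_mul_of_nonneg_left (q2.trans s2) (sq_nonneg _)
  calc 3 * (∫ y in (0:ℝ)..(3/4), p1 y ^ 2) + 3 * (N ^ 2 * ∫ y in (0:ℝ)..(3/4), p2 y ^ 2) + 3 * (∫ y in (0:ℝ)..(3/4), p3 y ^ 2)
      ≤ 3 * (K0 ^ 2 * (90 * Q2)) + 3 * (N ^ 2 * (90 * Q2)) + 3 * (90 * (4 * Q2)) := by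
        linarith
    _ = _ := by ring

lemma JJ_two (hω : ∀ i ∈ S, |ω i - xx (cl i)| ≤ 1) (hξ : 0 < ξ.re) {K0 : ℝ}
    (hK : ∀ x ∈ Set.Icc (0:ℝ) 2, |deriv chi x| ≤ K0) (K : Finset ℕ) :
    ∑ k ∈ K, (1 + (k : ℝ)) ^ 2 * ‖JJ ξ ec (f0 S β ω) k‖ ^ 2 ≤
      270 * (K0 ^ 2 + ‖ξ + 5‖ ^ 2 + 4) * QQ (fun y => (1 + (y : ℝ)) ^ 2) S cl β ∧
    ∑ k ∈ K, (1 + (k : ℝ)) ^ 2 * ‖JJ ξ es (f0 S β ω) k‖ ^ 2 ≤
      270 * (K0 ^ 2 + ‖ξ + 5‖ ^ 2 + 4) * QQ (fun y => (1 + (y : ℝ)) ^ 2) S cl β := by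
  have hWc := WJ_cont (S := S) (β := β) (ω := ω) hξ
  have hW := WJ_int (β := β) hω hξ hK
  have hgen : ∀ (a b : ℕ → ℂ), (∀ k, (tau k : ℂ) * a k = - b k) → ∑ k ∈ K, ‖b k‖ ^ 2 ≤ ∫ y in (0:ℝ)..(3/4), ‖WJ S β ω ξ y‖ ^ 2 →
      ∑ k ∈ K, (1 + (k : ℝ)) ^ 2 * ‖a k‖ ^ 2 ≤
      270 * (K0 ^ 2 + ‖ξ + 5‖ ^ 2 + 4) * QQ (fun y => (1 + (y : ℝ)) ^ 2) S cl β := by
    intro a b hab hb
    refine le_trans ?_ (hb.trans hW)
    apply sum_le_sum
    intro k _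
    have e1 : ‖b k‖ = tau k * ‖a k‖ := by
      have := congrArg norm (hab k)
      rw [norm_neg, norm_mul, Complex.norm_real, Real.norm_eq_abs, abs_of_pos (tau_pos k)] at this
      exact this.symm
    rw [e1, mul_pow]
    apply mul_le_mul_of_nonneg_right _ (sq_nonneg _)
    exact pow_le_pow_left₀ (by positivity) (one_add_le_tau k) 2
  constructor
  · refine hgen _ (fun k => ∫ y in (0:ℝ)..(3/4), WJ S β ω ξ y * (es k y : ℂ)) (fun k => ?_)
      (bessel_c es_cont osc_sin hWc (b := 3/4) (by norm_num) (by norm_num) K)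
    exact JJ_parts (S := S) (β := β) (ω := ω) hξ (φ := Real.sin) (ψ := Real.cos) Real.hasDerivAt_sin Real.abs_sin_le_one
      Real.abs_cos_le_one Real.continuous_cos k
  · refine hgen _ (fun k => -∫ y in (0:ℝ)..(3/4), WJ S β ω ξ y * (ec k y : ℂ)) (fun k => ?_) ?_
    · have := JJ_parts (S := S) (β := β) (ω := ω) hξ (φ := Real.cos) (ψ := fun t => -Real.sin t) Real.hasDerivAt_cos
        Real.abs_cos_le_one (fun t => by rw [abs_neg]; exact Real.abs_sin_le_one _) Real.continuous_sin.neg k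
      have e1 : (∫ y in (0:ℝ)..(3/4), wJ ξ (f0 S β ω) y * ((y * -Real.sin (tau k * Real.log y) : ℝ) : ℂ)) =
          - JJ ξ es (f0 S β ω) k := by
        unfold JJ
        rw [← intervalIntegral.integral_neg]
        congr 1
        funext y
        unfold es
        push_cast
        ring
      rw [e1] at this
      have e2 : (∫ y in (0:ℝ)..(3/4), WJ S β ω ξ y * ((y * Real.cos (tau k * Real.log y) : ℝ) : ℂ)) =
          ∫ y in (0:ℝ)..(3/4), WJ S β ω ξ y * (ec k y : ℂ) := rfl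
      rw [e2] at this
      linear_combination -this
    · simp only [norm_neg]
      exact bessel_c ec_cont osc_cos hWc (b := 3/4) (by norm_num) (by norm_num) K

end dual

end Pool.Agent.Q127.EZ
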