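import Mathlib
import Pool.Agent.Q127.EZ.Tl2

/-!
# The middle functional with a complex exponent
-/

set_option autoImplicit false

open Finset MeasureTheory

namespace Pool.Agent.Q127.EZ

open Pool.Agent.H469R10.HO Pool.Agent.H99R3.M469

/-- from real to complex Bessel inequalities -/
lemma cplx_of_real {a b C : ℝ} {e : ℕ → ℝ → ℝ} (he : ∀ j, Continuous (e j))
    (h : ∀ w : ℝ → ℝ, Continuous w → ∀ S : Finset ℕ, ∑ k ∈ S, (∫ y in a..b, w y * e k y) ^ 2 ≤ C * ∫ y in a..b, w y ^ 2)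
    {w : ℝ → ℂ} (hw : Continuous w) (S : Finset ℕ) :
    ∑ k ∈ S, ‖∫ y in a..b, w y * (e k y : ℂ)‖ ^ 2 ≤ C * ∫ y in a..b, ‖w y‖ ^ 2 := by
  have c1 : Continuous fun y => (w y).re := Complex.continuous_re.comp hw
  have c2 : Continuous fun y => (w y).im := Complex.continuous_im.comp hw
  have h1 := h _ c1 S
  have h2 := h _ c2 S
  have e1 : ∀ k, ‖∫ y in a..b, w y * (e k y : ℂ)‖ ^ 2 =
      (∫ y in a..b, (w y).re * e k y) ^ 2 + (∫ y in a..b, (w y).im * e k y) ^ 2 := by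
    intro k
    have hek := he k
    have hi : IntervalIntegrable (fun y => w y * (e k y : ℂ)) volume a b :=
      Continuous.intervalIntegrable (by fun_prop) _ _
    have g1 : (∫ y in a..b, w y * (e k y : ℂ)).re = ∫ y in a..b, (w y).re * e k y := by
      have := Complex.reCLM.intervalIntegral_comp_comm hi
      rw [← Complex.reCLM_apply, ← this]
      congr 1
      funext y
      simp
    have g2 : (∫ y in a..b, w y * (e k y : ℂ)).im = ∫ y in a..b, (w y).im * e k y := by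
      have := Complex.imCLM.intervalIntegral_comp_comm hi
      rw [← Complex.imCLM_apply, ← this]
      congr 1
      funext y
      simp
    rw [← Complex.normSq_eq_norm_sq, Complex.normSq_apply, g1, g2]
    ring
  simp_rw [e1]
  rw [sum_add_distrib]
  have e2 : ∫ y in a..b, ‖w y‖ ^ 2 = (∫ y in a..b, (w y).re ^ 2) + ∫ y in a..b, (w y).im ^ 2 := by
    have c3 : Continuous fun y => (w y).re ^ 2 := by fun_prop
    have c4 : Continuous fun y => (w y).im ^ 2 := by fun_prop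
    rw [← intervalIntegral.integral_add (c3.intervalIntegrable _ _) (c4.intervalIntegrable _ _)]
    congr 1
    funext y
    rw [← Complex.normSq_eq_norm_sq, Complex.normSq_apply]
    ring
  rw [e2, mul_add]
  exact add_le_add h1 h2

/-- Bessel from orthogonality -/
lemma bessel_ab {a b W : ℝ} (hab : a ≤ b) (hW : 0 < W) {e : ℕ → ℝ → ℝ} (he : ∀ j, Continuous (e j))
    (ho : ∀ i j, ∫ t in a..b, e i t * e j t = if i = j then W else 0)
    (w : ℝ → ℝ) (hw : Continuous w) (S : Finset ℕ) :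
    ∑ k ∈ S, (∫ y in a..b, w y * e k y) ^ 2 ≤ W * ∫ y in a..b, w y ^ 2 := by
  set A : ℕ → ℝ := fun k => ∫ y in a..b, w y * e k y with hA
  set E : ℝ → ℝ := fun y => ∑ k ∈ S, A k * e k y with hE
  have hEc : Continuous E := continuous_finsetSum _ fun j _ => by have := he j; fun_prop
  have h1 : ∫ y in a..b, E y ^ 2 = W * ∑ j ∈ S, A j ^ 2 := sq_int_ab he ho S A
  have h2 : ∫ y in a..b, w y * E y = ∑ j ∈ S, A j ^ 2 := by
    have e1 : ∀ y, w y * E y = ∑ j ∈ S, A j * (w y * e j y) := by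
      intro y
      simp only [hE]
      rw [mul_sum]
      exact sum_congr rfl fun j _ => by ring
    simp_rw [e1]
    rw [intervalIntegral.integral_finsetSum]
    · refine sum_congr rfl fun j _ => ?_
      rw [intervalIntegral.integral_const_mul]
      simp only [hA]
      ring
    · intro j _
      have := he j
      exact Continuous.intervalIntegrable (by fun_prop) _ _
  have h3 : 0 ≤ ∫ y in a..b, (W * w y - E y) ^ 2 :=
    intervalIntegral.integral_nonneg hab fun y _ => sq_nonneg _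
  have h4 : ∫ y in a..b, (W * w y - E y) ^ 2 = W ^ 2 * (∫ y in a..b, w y ^ 2) - 2 * W * (∫ y in a..b, w y * E y) +
      ∫ y in a..b, E y ^ 2 := by
    have e1 : ∀ y, (W * w y - E y) ^ 2 = W ^ 2 * w y ^ 2 - 2 * W * (w y * E y) + E y ^ 2 := fun y => by ring
    simp_rw [e1]
    rw [intervalIntegral.integral_add (Continuous.intervalIntegrable (by fun_prop) _ _)
      (Continuous.intervalIntegrable (by fun_prop) _ _), intervalIntegral.integral_sub
      (Continuous.intervalIntegrable (by fun_prop) _ _)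
      (Continuous.intervalIntegrable (by fun_prop) _ _), intervalIntegral.integral_const_mul,
      intervalIntegral.integral_const_mul]
  rw [h4, h1, h2] at h3
  have h5 : W * (∑ j ∈ S, A j ^ 2) ≤ W * (W * ∫ y in a..b, w y ^ 2) := by linarith
  exact le_of_mul_le_mul_left h5 hW

lemma sym_int {f : ℝ → ℝ} (hf : Continuous f) (he : ∀ v, f (-v) = f v) :
    ∫ v in (-(1 / 8) : ℝ)..(1 / 8), f v = 2 * ∫ v in (-(1 / 8) : ℝ)..0, f v := by
  rw [← intervalIntegral.integral_add_adjacent_intervals (b := 0) (hf.intervalIntegrable _ _) (hf.intervalIntegrable _ _)]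
  have h1 := intervalIntegral.integral_comp_neg (a := -(1/8)) (b := 0) f
  simp only [neg_zero, neg_neg] at h1
  rw [← h1]
  simp_rw [he]
  ring

lemma orth_cos2 (i j : ℕ) : ∫ v in (-(1 / 8) : ℝ)..(1 / 8), Real.cos (tau i * v) * Real.cos (tau j * v) =
    if i = j then 1 / 8 else 0 := by
  rw [sym_int (by fun_prop) (fun v => by rw [mul_neg, mul_neg, Real.cos_neg, Real.cos_neg]), orth_cos]
  split_ifs <;> norm_num

lemma orth_sin2 (i j : ℕ) : ∫ v in (-(1 / 8) : ℝ)..(1 / 8), Real.sin (tau i * v) * Real.sin (tau j * v) =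
    if i = j then 1 / 8 else 0 := by
  rw [sym_int (by fun_prop) (fun v => by rw [mul_neg, mul_neg, Real.sin_neg, Real.sin_neg]; ring), orth_sin]
  split_ifs <;> norm_num

/-- the finite trigonometric sum and its derivative -/
noncomputable def t0 (S : Finset ℕ) (g : ℕ → ℝ) (v : ℝ) : ℝ := ∑ l ∈ S, g l * Real.cos (tau l * v)
noncomputable def t1 (S : Finset ℕ) (g : ℕ → ℝ) (v : ℝ) : ℝ := ∑ l ∈ S, (-(g l * tau l)) * Real.sin (tau l * v)

lemma t0_cont (S : Finset ℕ) (g : ℕ → ℝ) : Continuous (t0 S g) := by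
  unfold t0; exact continuous_finsetSum _ fun j _ => by fun_prop

lemma t1_cont (S : Finset ℕ) (g : ℕ → ℝ) : Continuous (t1 S g) := by
  unfold t1; exact continuous_finsetSum _ fun j _ => by fun_prop

lemma t0_hd (S : Finset ℕ) (g : ℕ → ℝ) (v : ℝ) : HasDerivAt (t0 S g) (t1 S g v) v := by
  unfold t0 t1
  apply HasDerivAt.fun_sum
  intro i _
  have h := (((hasDerivAt_id v).const_mul (tau i)).cos).const_mul (g i)
  simp only [id, mul_one] at h
  refine h.congr_deriv ?_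
  ring

lemma t0_int (S : Finset ℕ) (g : ℕ → ℝ) : ∫ v in (-(1 / 8) : ℝ)..(1 / 8), t0 S g v ^ 2 = 1 / 8 * ∑ l ∈ S, g l ^ 2 :=
  sq_int_ab (e := fun k v => Real.cos (tau k * v)) (fun j => by fun_prop) orth_cos2 S g

lemma t1_int (S : Finset ℕ) (g : ℕ → ℝ) : ∫ v in (-(1 / 8) : ℝ)..(1 / 8), t1 S g v ^ 2 ≤
    512 * ∑ l ∈ S, (1 + (l : ℝ)) ^ 2 * g l ^ 2 := by
  have h1 : ∫ v in (-(1 / 8) : ℝ)..(1 / 8), t1 S g v ^ 2 = 1 / 8 * ∑ l ∈ S, (-(g l * tau l)) ^ 2 :=
    sq_int_ab (e := fun k v => Real.sin (tau k * v)) (fun j => by fun_prop) orth_sin2 S _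
  rw [h1, mul_sum, mul_sum]
  apply sum_le_sum
  intro l _
  have h2 := tau_le l
  have h3 : tau l ^ 2 ≤ (64 * (1 + (l : ℝ))) ^ 2 := pow_le_pow_left₀ (tau_pos l).le h2 2
  have h4 : (-(g l * tau l)) ^ 2 = g l ^ 2 * tau l ^ 2 := by ring
  rw [h4]
  have h5 := mul_le_mul_of_nonneg_left h3 (sq_nonneg (g l))
  nlinarith

/-- the weight on `[-1/8, 1/8]` -/
noncomputable def Rw (v : ℝ) : ℝ := (1 + Real.cos (8 * Real.pi * v)) / 2

lemma Rw_abs (v : ℝ) : |Rw v| ≤ 1 := by
  unfold Rw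
  rw [abs_le]
  constructor <;> linarith [Real.neg_one_le_cos (8 * Real.pi * v), Real.cos_le_one (8 * Real.pi * v)]

lemma rc_Rw {v : ℝ} (h : |v| ≤ 1 / 8) : rc v = Rw v := by unfold rc Rw; rw [if_pos h]

/-- the middle functional -/
noncomputable def MM (z : ℂ) (q : ℝ → ℝ) (T : ℝ → ℝ) (k : ℕ) : ℂ :=
  ∫ v in (-(1 / 8) : ℝ)..(1 / 8), (((Rw v * T v : ℝ) : ℂ) * Complex.exp (z * v)) * ((q (tau k * v) : ℝ) : ℂ)

lemma exp_norm_le (z : ℂ) {v : ℝ} (h : |v| ≤ 1 / 8) : ‖Complex.exp (z * v)‖ ≤ Real.exp (|z.re| / 8) := by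
  rw [Complex.norm_exp]
  apply Real.exp_le_exp.2
  have : (z * (v : ℂ)).re = z.re * v := by simp
  rw [this]
  calc z.re * v ≤ |z.re * v| := le_abs_self _
    _ = |z.re| * |v| := abs_mul _ _
    _ ≤ |z.re| * (1 / 8) := by gcongr
    _ = _ := by ring

lemma Rw_cont : Continuous Rw := by unfold Rw; fun_prop

lemma MMw_cont (z : ℂ) {T : ℝ → ℝ} (hT : Continuous T) :
    Continuous fun v : ℝ => ((Rw v * T v : ℝ) : ℂ) * Complex.exp (z * v) := by
  have := Rw_cont
  fun_prop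

lemma MM_le (z : ℂ) {q : ℝ → ℝ} (hq : ∀ t, |q t| ≤ 1) {T : ℝ → ℝ} {M : ℝ} (hM : ∀ v, |T v| ≤ M) (k : ℕ) :
    ‖MM z q T k‖ ≤ M * Real.exp (|z.re| / 8) := by
  have hM0 : 0 ≤ M := (abs_nonneg _).trans (hM 0)
  unfold MM
  have h4 : ‖∫ v in (-(1 / 8) : ℝ)..(1 / 8), (((Rw v * T v : ℝ) : ℂ) * Complex.exp (z * v)) * ((q (tau k * v) : ℝ) : ℂ)‖ ≤
      M * Real.exp (|z.re| / 8) * |1 / 8 - -(1 / 8)| := by
    apply intervalIntegral.norm_integral_le_of_norm_le_const
    intro v hv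
    rw [Set.uIoc_of_le (by norm_num)] at hv
    have hv1 : |v| ≤ 1 / 8 := abs_le.2 ⟨hv.1.le, hv.2⟩
    rw [norm_mul, norm_mul, Complex.norm_real, Complex.norm_real, Real.norm_eq_abs, Real.norm_eq_abs, abs_mul]
    have e1 := Rw_abs v
    have e2 := hM v
    have e3 := exp_norm_le z hv1
    have e4 := hq (tau k * v)
    calc |Rw v| * |T v| * ‖Complex.exp (z * v)‖ * |q (tau k * v)| ≤ 1 * M * Real.exp (|z.re| / 8) * 1 := by
          gcongr
      _ = _ := by ring
  refine h4.trans ?_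
  have h5 : |(1:ℝ) / 8 - -(1 / 8)| ≤ 1 := by rw [abs_of_pos (by norm_num)]; norm_num
  exact mul_le_of_le_one_right (by positivity) h5

lemma MM_one (z : ℂ) {q : ℝ → ℝ} (hq : q = Real.cos ∨ q = Real.sin) (S : Finset ℕ) (g : ℕ → ℝ) (K : Finset ℕ) :
    ∑ k ∈ K, ‖MM z q (t0 S g) k‖ ^ 2 ≤ Real.exp (|z.re| / 4) * ∑ l ∈ S, g l ^ 2 := by
  have hb : ∑ k ∈ K, ‖MM z q (t0 S g) k‖ ^ 2 ≤ 1 / 8 * ∫ v in (-(1 / 8) : ℝ)..(1 / 8),
      ‖((Rw v * t0 S g v : ℝ) : ℂ) * Complex.exp (z * v)‖ ^ 2 := by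
    rcases hq with rfl | rfl
    · exact cplx_of_real (e := fun k v => Real.cos (tau k * v)) (fun j => by fun_prop)
        (bessel_ab (by norm_num) (by norm_num) (fun j => by fun_prop) orth_cos2) (MMw_cont z (t0_cont S g)) K
    · exact cplx_of_real (e := fun k v => Real.sin (tau k * v)) (fun j => by fun_prop)
        (bessel_ab (by norm_num) (by norm_num) (fun j => by fun_prop) orth_sin2) (MMw_cont z (t0_cont S g)) K
  refine hb.trans ?_
  have hT := t0_cont S g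
  have h1 : ∫ v in (-(1 / 8) : ℝ)..(1 / 8), ‖((Rw v * t0 S g v : ℝ) : ℂ) * Complex.exp (z * v)‖ ^ 2 ≤
      ∫ v in (-(1 / 8) : ℝ)..(1 / 8), Real.exp (|z.re| / 4) * t0 S g v ^ 2 := by
    apply intervalIntegral.integral_mono_on (by norm_num) (((MMw_cont z hT).norm.pow 2).intervalIntegrable _ _)
      (Continuous.intervalIntegrable (by fun_prop) _ _)
    intro v hv
    have hv1 : |v| ≤ 1 / 8 := abs_le.2 ⟨hv.1, hv.2⟩
    rw [Pi.pow_apply, norm_mul, Complex.norm_real, Real.norm_eq_abs, abs_mul, mul_pow, mul_pow, sq_abs (t0 S g v)]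
    have e1 : |Rw v| ^ 2 ≤ 1 := pow_le_one₀ (abs_nonneg _) (Rw_abs v)
    have e3 : ‖Complex.exp (z * v)‖ ^ 2 ≤ Real.exp (|z.re| / 4) := by
      have := pow_le_pow_left₀ (norm_nonneg _) (exp_norm_le z hv1) 2
      refine this.trans (le_of_eq ?_)
      rw [← Real.exp_nat_mul]
      congr 1
      push_cast; ring
    calc |Rw v| ^ 2 * t0 S g v ^ 2 * ‖Complex.exp (z * v)‖ ^ 2 ≤ 1 * t0 S g v ^ 2 * Real.exp (|z.re| / 4) := by
          gcongr
      _ = _ := by ring
  rw [intervalIntegral.integral_const_mul, t0_int] at h1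
  have h2 : 0 ≤ ∑ l ∈ S, g l ^ 2 := sum_nonneg fun _ _ => sq_nonneg _
  have h3 := Real.exp_pos (|z.re| / 4)
  nlinarith [mul_nonneg h3.le h2]

/-- the function of the integration by parts -/
noncomputable def WM (S : Finset ℕ) (g : ℕ → ℝ) (z : ℂ) (v : ℝ) : ℂ :=
  (((-(4 * Real.pi * Real.sin (8 * Real.pi * v)) * t0 S g v + Rw v * t1 S g v : ℝ) : ℂ) +
    ((Rw v * t0 S g v : ℝ) : ℂ) * z) * Complex.exp (z * v)

lemma WM_cont (S : Finset ℕ) (g : ℕ → ℝ) (z : ℂ) : Continuous (WM S g z) := by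
  have := Rw_cont
  have := t0_cont S g
  have := t1_cont S g
  unfold WM
  fun_prop

lemma MM_parts (S : Finset ℕ) (g : ℕ → ℝ) (z : ℂ) {φ ψ : ℝ → ℝ} (hφ : ∀ t, HasDerivAt φ (ψ t) t) (hψc : Continuous ψ) (k : ℕ) :
    (tau k : ℂ) * MM z ψ (t0 S g) k = - ∫ v in (-(1 / 8) : ℝ)..(1 / 8), WM S g z v * ((φ (tau k * v) : ℝ) : ℂ) := by
  have hφc : Continuous φ := continuous_iff_continuousAt.2 fun t => (hφ t).continuousAt
  have hWc := WM_cont S g z
  have c0 := Rw_cont
  have c1 := t0_cont S g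
  set P : ℝ → ℂ := fun v => (((Rw v * t0 S g v) * φ (tau k * v) : ℝ) : ℂ) * Complex.exp (z * v) with hP
  have hd : ∀ v ∈ Set.uIcc (-(1/8):ℝ) (1/8), HasDerivAt P
      (WM S g z v * ((φ (tau k * v) : ℝ) : ℂ) + (tau k : ℂ) * ((((Rw v * t0 S g v : ℝ) : ℂ) * Complex.exp (z * v)) *
        ((ψ (tau k * v) : ℝ) : ℂ))) v := by
    intro v _
    have h0 : HasDerivAt Rw (-(4 * Real.pi * Real.sin (8 * Real.pi * v))) v := by
      unfold Rw
      have h := ((((hasDerivAt_id v).const_mul (8 * Real.pi)).cos).const_add 1).div_const 2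
      simp only [id, mul_one] at h
      refine h.congr_deriv ?_
      ring
    have h2 := h0.mul (t0_hd S g v)
    have h4 : HasDerivAt (fun v : ℝ => φ (tau k * v)) (ψ (tau k * v) * tau k) v := by
      have h9 : HasDerivAt (fun v : ℝ => tau k * v) (tau k) v := by
        have := (hasDerivAt_id v).const_mul (tau k)
        simpa using this
      exact (hφ (tau k * v)).comp v h9
    have h5 := (h2.mul h4).ofReal_comp
    have h6 : HasDerivAt (fun v : ℝ => Complex.exp (z * v)) (Complex.exp (z * v) * z) v := by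
      have h7 : HasDerivAt (fun v : ℝ => z * (v : ℂ)) z v := by
        have := (Complex.ofRealCLM.hasDerivAt (x := v)).const_mul z
        simpa using this
      exact h7.cexp
    have h8 := h5.mul h6
    refine h8.congr_deriv ?_
    unfold WM
    simp only [Pi.mul_apply]
    push_cast
    ring
  have hint : Continuous fun v => WM S g z v * ((φ (tau k * v) : ℝ) : ℂ) + (tau k : ℂ) * ((((Rw v * t0 S g v : ℝ) : ℂ) *
      Complex.exp (z * v)) * ((ψ (tau k * v) : ℝ) : ℂ)) := by fun_prop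
  have hftc := intervalIntegral.integral_eq_sub_of_hasDerivAt hd (hint.intervalIntegrable _ _)
  have hR : ∀ v : ℝ, |v| = 1 / 8 → Rw v = 0 := by
    intro v hv
    unfold Rw
    rw [cos_end hv]; norm_num
  have hP1 : P (1/8) = 0 := by
    simp only [hP]; rw [hR (1/8) (by rw [abs_of_pos (by norm_num)])]; simp
  have hP0 : P (-(1/8)) = 0 := by
    simp only [hP]; rw [hR (-(1/8)) (by rw [abs_neg, abs_of_pos (by norm_num)])]; simp
  have i1 : IntervalIntegrable (fun v => WM S g z v * ((φ (tau k * v) : ℝ) : ℂ)) volume (-(1/8)) (1/8) :=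
    Continuous.intervalIntegrable (by fun_prop) _ _
  have i2 : IntervalIntegrable (fun v => (tau k : ℂ) * ((((Rw v * t0 S g v : ℝ) : ℂ) *
      Complex.exp (z * v)) * ((ψ (tau k * v) : ℝ) : ℂ))) volume (-(1/8)) (1/8) :=
    Continuous.intervalIntegrable (by fun_prop) _ _
  rw [hP1, hP0, sub_zero, intervalIntegral.integral_add i1 i2, intervalIntegral.integral_const_mul] at hftc
  unfold MM
  linear_combination hftc

lemma WM_int (S : Finset ℕ) (g : ℕ → ℝ) (z : ℂ) : ∫ v in (-(1 / 8) : ℝ)..(1 / 8), ‖WM S g z v‖ ^ 2 ≤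
    Real.exp (|z.re| / 4) * (1800 + 3 * ‖z‖ ^ 2) * ∑ l ∈ S, (1 + (l : ℝ)) ^ 2 * g l ^ 2 := by
  have c0 := Rw_cont
  have c1 := t0_cont S g
  have c2 := t1_cont S g
  have h1 : ∫ v in (-(1 / 8) : ℝ)..(1 / 8), ‖WM S g z v‖ ^ 2 ≤
      ∫ v in (-(1 / 8) : ℝ)..(1 / 8), Real.exp (|z.re| / 4) * (3 * (512 * t0 S g v ^ 2) + 3 * t1 S g v ^ 2 +
        3 * (‖z‖ ^ 2 * t0 S g v ^ 2)) := by
    apply intervalIntegral.integral_mono_on (by norm_num) (((WM_cont S g z).norm.pow 2).intervalIntegrable _ _)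
      (Continuous.intervalIntegrable (by fun_prop) _ _)
    intro v hv
    have hv1 : |v| ≤ 1 / 8 := abs_le.2 ⟨hv.1, hv.2⟩
    have e3 : ‖Complex.exp (z * v)‖ ^ 2 ≤ Real.exp (|z.re| / 4) := by
      have := pow_le_pow_left₀ (norm_nonneg _) (exp_norm_le z hv1) 2
      refine this.trans (le_of_eq ?_)
      rw [← Real.exp_nat_mul]
      congr 1
      push_cast; ring
    have e4 : ‖((-(4 * Real.pi * Real.sin (8 * Real.pi * v)) * t0 S g v + Rw v * t1 S g v : ℝ) : ℂ) +
        ((Rw v * t0 S g v : ℝ) : ℂ) * z‖ ≤ 16 * |t0 S g v| + |t1 S g v| + |t0 S g v| * ‖z‖ := by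
      refine (norm_add_le _ _).trans ?_
      rw [norm_mul, Complex.norm_real, Complex.norm_real, Real.norm_eq_abs, Real.norm_eq_abs]
      have g1 : |-(4 * Real.pi * Real.sin (8 * Real.pi * v)) * t0 S g v + Rw v * t1 S g v| ≤ 16 * |t0 S g v| + |t1 S g v| := by
        refine (abs_add_le _ _).trans (add_le_add ?_ ?_)
        · rw [abs_mul, abs_neg, abs_mul]
          apply mul_le_mul_of_nonneg_right _ (abs_nonneg _)
          have hp : |4 * Real.pi| ≤ 16 := by
            rw [abs_of_pos (by positivity)]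
            linarith [Real.pi_lt_four]
          calc |4 * Real.pi| * |Real.sin (8 * Real.pi * v)| ≤ 16 * 1 :=
                mul_le_mul hp (Real.abs_sin_le_one _) (abs_nonneg _) (by norm_num)
            _ = 16 := by norm_num
        · rw [abs_mul]
          exact mul_le_of_le_one_left (abs_nonneg _) (Rw_abs v)
      have g2 : |Rw v * t0 S g v| * ‖z‖ ≤ |t0 S g v| * ‖z‖ := by
        apply mul_le_mul_of_nonneg_right _ (norm_nonneg _)
        rw [abs_mul]
        exact mul_le_of_le_one_left (abs_nonneg _) (Rw_abs v)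
      linarith
    have e5 : ‖((-(4 * Real.pi * Real.sin (8 * Real.pi * v)) * t0 S g v + Rw v * t1 S g v : ℝ) : ℂ) +
        ((Rw v * t0 S g v : ℝ) : ℂ) * z‖ ^ 2 ≤ 3 * (512 * t0 S g v ^ 2) + 3 * t1 S g v ^ 2 +
        3 * (‖z‖ ^ 2 * t0 S g v ^ 2) := by
      refine (pow_le_pow_left₀ (norm_nonneg _) e4 2).trans ?_
      rw [← sq_abs (t0 S g v), ← sq_abs (t1 S g v)]
      nlinarith [sq_nonneg (16 * |t0 S g v| - |t1 S g v|), sq_nonneg (16 * |t0 S g v| - |t0 S g v| * ‖z‖),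
        sq_nonneg (|t1 S g v| - |t0 S g v| * ‖z‖), sq_nonneg |t0 S g v|]
    unfold WM
    rw [Pi.pow_apply, norm_mul, mul_pow, mul_comm]
    exact mul_le_mul e3 e5 (sq_nonneg _) (Real.exp_pos _).le
  refine h1.trans ?_
  rw [intervalIntegral.integral_const_mul, mul_assoc]
  apply mul_le_mul_of_nonneg_left _ (Real.exp_pos _).le
  rw [intervalIntegral.integral_add (Continuous.intervalIntegrable (by fun_prop) _ _)
    (Continuous.intervalIntegrable (by fun_prop) _ _), intervalIntegral.integral_add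
    (Continuous.intervalIntegrable (by fun_prop) _ _)
    (Continuous.intervalIntegrable (by fun_prop) _ _), intervalIntegral.integral_const_mul,
    intervalIntegral.integral_const_mul, intervalIntegral.integral_const_mul, intervalIntegral.integral_const_mul,
    intervalIntegral.integral_const_mul, t0_int]
  have h2 := t1_int S g
  have h3 : ∑ l ∈ S, g l ^ 2 ≤ ∑ l ∈ S, (1 + (l : ℝ)) ^ 2 * g l ^ 2 := by
    apply sum_le_sum
    intro l _
    have : (1:ℝ) ≤ (1 + (l : ℝ)) ^ 2 := by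
      have : (0:ℝ) ≤ l := Nat.cast_nonneg l
      nlinarith
    nlinarith [sq_nonneg (g l)]
  set X := ∑ l ∈ S, g l ^ 2
  set Y := ∑ l ∈ S, (1 + (l : ℝ)) ^ 2 * g l ^ 2
  have hX0 : 0 ≤ X := sum_nonneg fun _ _ => sq_nonneg _
  have hz0 : 0 ≤ ‖z‖ ^ 2 := sq_nonneg _
  have h5 : ‖z‖ ^ 2 * X ≤ ‖z‖ ^ 2 * Y := mul_le_mul_of_nonneg_left h3 hz0
  have h6 : 0 ≤ ‖z‖ ^ 2 * X := mul_nonneg hz0 hX0
  nlinarith

lemma MM_two (z : ℂ) {q : ℝ → ℝ} (hq : q = Real.cos ∨ q = Real.sin) (S : Finset ℕ) (g : ℕ → ℝ) (K : Finset ℕ) :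
    ∑ k ∈ K, (1 + (k : ℝ)) ^ 2 * ‖MM z q (t0 S g) k‖ ^ 2 ≤
      Real.exp (|z.re| / 4) * (230 + ‖z‖ ^ 2) * ∑ l ∈ S, (1 + (l : ℝ)) ^ 2 * g l ^ 2 := by
  have hWc := WM_cont S g z
  have hW := WM_int S g z
  have hgen : ∀ (a b : ℕ → ℂ), (∀ k, (tau k : ℂ) * a k = - b k) → ∑ k ∈ K, ‖b k‖ ^ 2 ≤ 1 / 8 * ∫ v in (-(1 / 8) : ℝ)..(1 / 8), ‖WM S g z v‖ ^ 2 →
      ∑ k ∈ K, (1 + (k : ℝ)) ^ 2 * ‖a k‖ ^ 2 ≤
      Real.exp (|z.re| / 4) * (230 + ‖z‖ ^ 2) * ∑ l ∈ S, (1 + (l : ℝ)) ^ 2 * g l ^ 2 := by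
    intro a b hab hb
    have h1 : ∑ k ∈ K, (1 + (k : ℝ)) ^ 2 * ‖a k‖ ^ 2 ≤ ∑ k ∈ K, ‖b k‖ ^ 2 := by
      apply sum_le_sum
      intro k _
      have e1 : ‖b k‖ = tau k * ‖a k‖ := by
        have := congrArg norm (hab k)
        rw [norm_neg, norm_mul, Complex.norm_real, Real.norm_eq_abs, abs_of_pos (tau_pos k)] at this
        exact this.symm
      rw [e1, mul_pow]
      apply mul_le_mul_of_nonneg_right _ (sq_nonneg _)
      exact pow_le_pow_left₀ (by positivity) (one_add_le_tau k) 2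
    have h2 := h1.trans hb
    set E := Real.exp (|z.re| / 4) with hE
    have hE0 : 0 < E := Real.exp_pos _
    set Y := ∑ l ∈ S, (1 + (l : ℝ)) ^ 2 * g l ^ 2
    have hY0 : 0 ≤ Y := sum_nonneg fun _ _ => by positivity
    have h3 : 1 / 8 * (E * (1800 + 3 * ‖z‖ ^ 2) * Y) ≤ E * (230 + ‖z‖ ^ 2) * Y := by
      have : 0 ≤ E * ‖z‖ ^ 2 * Y := by positivity
      nlinarith
    linarith
  rcases hq with rfl | rfl
  · refine hgen _ (fun k => ∫ v in (-(1 / 8) : ℝ)..(1 / 8), WM S g z v * ((Real.sin (tau k * v) : ℝ) : ℂ)) (fun k => ?_)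
      (cplx_of_real (e := fun k v => Real.sin (tau k * v)) (fun j => by fun_prop)
        (bessel_ab (by norm_num) (by norm_num) (fun j => by fun_prop) orth_sin2) hWc K)
    exact MM_parts S g z Real.hasDerivAt_sin Real.continuous_cos k
  · refine hgen _ (fun k => -∫ v in (-(1 / 8) : ℝ)..(1 / 8), WM S g z v * ((Real.cos (tau k * v) : ℝ) : ℂ)) (fun k => ?_) ?_
    · have := MM_parts S g z (φ := Real.cos) (ψ := fun t => -Real.sin t) Real.hasDerivAt_cos Real.continuous_sin.neg k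
      have e1 : MM z (fun t => -Real.sin t) (t0 S g) k = - MM z Real.sin (t0 S g) k := by
        unfold MM
        rw [← intervalIntegral.integral_neg]
        congr 1
        funext v
        push_cast
        ring
      rw [e1] at this
      linear_combination -this
    · simp only [norm_neg]
      exact cplx_of_real (e := fun k v => Real.cos (tau k * v)) (fun j => by fun_prop)
        (bessel_ab (by norm_num) (by norm_num) (fun j => by fun_prop) orth_cos2) hWc K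

end Pool.Agent.Q127.EZ
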