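import Mathlib
import Pool.Agent.Q127.EZ.Mid

/-!
# The decomposition of the Mellin transform at shifted nodes
-/

set_option autoImplicit false

open Finset MeasureTheory

namespace Pool.Agent.Q127.EZ

open Pool.Agent.H469R10.HO Pool.Agent.H99R3.M469 Pool.Agent.H13R3.EM
open Pool.Agent.Q284.S (Bd Mm mel_line gg_int gg_cont gg_le)

section

variable {c lam : ℝ} {m : ℕ} {α g : ℕ → ℝ}

/-- the Mellin transform with the origin at the centre of the strip -/
noncomputable def HM (c lam : ℝ) (m : ℕ) (α : ℕ → ℝ) (s : ℂ) : ℂ :=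
  mellin (fun x : ℝ => (hb c lam α x : ℂ)) (-(m : ℂ) + s)

/-- the integrand -/
noncomputable def Fu (c lam : ℝ) (m : ℕ) (α : ℕ → ℝ) (s : ℂ) (u : ℝ) : ℂ :=
  ((Pool.Agent.Q284.S.gg c lam m α u : ℝ) : ℂ) * Complex.exp (-(s * u))

lemma HM_eq (s : ℂ) : HM c lam m α s = ∫ u : ℝ, Fu c lam m α s u := by
  have h1 := mel_line (c := c) (lam := lam) (m := m) (α := α) s.re s.im
  have h2 : HM c lam m α s = Mm c lam m α s.re s.im := by
    unfold HM Mm
    congr 1
    apply Complex.ext
    · simp; ring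
    · simp
  rw [h2, h1]
  congr 1
  funext u
  unfold Fu
  have h3 : Complex.exp (-(s * u)) = ((Real.exp (-(s.re * u)) : ℝ) : ℂ) * Complex.exp (-(s.im * u) * Complex.I) := by
    rw [Complex.ofReal_exp, ← Complex.exp_add]
    congr 1
    apply Complex.ext
    · simp
    · simp
  rw [h3]
  push_cast
  ring

lemma Fu_cont (h : Bd c lam m α) (s : ℂ) : Continuous (Fu c lam m α s) := by
  have := gg_cont h
  unfold Fu
  fun_prop

lemma Fu_int (h : Bd c lam m α) {s : ℂ} (hs : |s.re| < m) : Integrable (Fu c lam m α s) := by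
  have h1 := gg_int h hs
  refine h1.norm.mono' (Fu_cont h s).aestronglyMeasurable (Filter.Eventually.of_forall fun u => ?_)
  unfold Fu
  rw [norm_mul, norm_mul, Complex.norm_real, Complex.norm_exp, Real.norm_of_nonneg (Real.exp_pos _).le]
  have : (-(s * (u : ℂ))).re = -(s.re * u) := by simp
  rw [this]

lemma Fu_neg (h : Bd c lam m α) (s : ℂ) (u : ℝ) : Fu c lam m α s (-u) = Fu c lam m α (-s) u := by
  unfold Fu
  rw [gg_even h]
  congr 2
  push_cast
  ring

lemma split3 (h : Bd c lam m α) {s : ℂ} (hs : |s.re| < m) {a : ℝ} (ha : 0 ≤ a) :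
    ∫ u : ℝ, Fu c lam m α s u = (∫ u in Set.Ioi a, Fu c lam m α (-s) u) + (∫ u in (-a)..a, Fu c lam m α s u) +
      ∫ u in Set.Ioi a, Fu c lam m α s u := by
  have hi := Fu_int h hs
  have h1 : ∫ u : ℝ, Fu c lam m α s u = (∫ u in Set.Iic (-a), Fu c lam m α s u) + ∫ u in Set.Ioi (-a), Fu c lam m α s u := by
    rw [← setIntegral_union (Set.Iic_disjoint_Ioi le_rfl) measurableSet_Ioi hi.integrableOn hi.integrableOn,
      Set.Iic_union_Ioi, setIntegral_univ]
  have h2 : ∫ u in Set.Ioi (-a), Fu c lam m α s u = (∫ u in (-a)..a, Fu c lam m α s u) + ∫ u in Set.Ioi a, Fu c lam m α s u := by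
    rw [intervalIntegral.integral_of_le (by linarith), ← setIntegral_union (Set.Ioc_disjoint_Ioi le_rfl) measurableSet_Ioi
      hi.integrableOn hi.integrableOn, Set.Ioc_union_Ioi_eq_Ioi (by linarith)]
  have h3 : ∫ u in Set.Iic (-a), Fu c lam m α s u = ∫ u in Set.Ioi a, Fu c lam m α (-s) u := by
    rw [← integral_comp_neg_Ioi]
    refine setIntegral_congr_fun measurableSet_Ioi fun u _ => ?_
    exact Fu_neg h s u
  rw [h1, h2, h3]
  ring

/-- the tail in logarithmic coordinates -/
lemma tail_u (h : Bd c lam m α) (hr : ∀ x : ℝ, 3 / 4 ≤ x → x ≤ 2 → hb c lam α x = rg m g x) (ξ : ℂ)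
    {q : ℝ → ℝ} {e : ℕ → ℝ → ℝ} (he : ∀ k y, e k y = y * q (tau k * Real.log y)) (k : ℕ) :
    ∫ u in Set.Ioi (Real.log (4 / 3)), ((Pool.Agent.Q284.S.gg c lam m α u : ℝ) : ℂ) * Complex.exp (-((ξ + 5 - m) * u)) *
      ((q (tau k * -u) : ℝ) : ℂ) = JJ ξ e (hb c lam α) k := by
  set a : ℝ := Real.log (4 / 3) with ha
  have ha14 : 1 / 4 ≤ a := log43
  have hea : Real.exp a = 4 / 3 := Real.exp_log (by norm_num)
  set K : ℝ → ℂ := fun x => wJ ξ (hb c lam α) x * (e k x : ℂ) with hK
  have i1 := integral_image_eq_integral_abs_deriv_smul (s := Set.Ioi a) (f := fun u : ℝ => Real.exp (-u))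
    (f' := fun u => -Real.exp (-u)) measurableSet_Ioi (fun u _ => by
      have := (hasDerivAt_neg u).exp
      simp only [mul_neg, mul_one] at this
      exact this.hasDerivWithinAt) (fun x _ y _ hxy => by
      have := Real.exp_injective hxy
      linarith) K
  have himg : (fun u : ℝ => Real.exp (-u)) '' Set.Ioi a = Set.Ioo 0 (3 / 4) := by
    ext x
    simp only [Set.mem_image, Set.mem_Ioi, Set.mem_Ioo]
    constructor
    · rintro ⟨u, hu, rfl⟩
      refine ⟨Real.exp_pos _, ?_⟩
      have : Real.exp (-u) < Real.exp (-a) := Real.exp_lt_exp.2 (by linarith)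
      rw [Real.exp_neg a, hea] at this
      norm_num at this
      exact this
    · rintro ⟨hx0, hx1⟩
      refine ⟨-Real.log x, ?_, by rw [neg_neg, Real.exp_log hx0]⟩
      rw [ha, ← Real.log_inv]
      apply Real.log_lt_log (by norm_num)
      rw [lt_inv_comm₀ (by norm_num) hx0]
      norm_num; exact hx1
  rw [himg] at i1
  unfold JJ
  rw [intervalIntegral.integral_of_le (by norm_num), integral_Ioc_eq_integral_Ioo, i1]
  apply setIntegral_congr_fun measurableSet_Ioi
  intro u hu
  have hu' : a < u := hu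
  have hu0 : 0 < u := by linarith
  simp only [hK]
  rw [abs_neg, abs_of_pos (Real.exp_pos _), he, Real.log_exp]
  have e1 : Pool.Agent.Q284.S.gg c lam m α u = Real.exp (-u) ^ m * (chi (Real.exp (-u)) * hb c lam α (Real.exp (-u))⁻¹) := by
    rw [← gg_even h]
    unfold Pool.Agent.Q284.S.gg
    rw [neg_neg, ← Real.exp_neg, neg_neg, mul_neg, ← mul_neg, ← Real.exp_nat_mul]
    congr 1
    rcases le_total (Real.exp (-u)) (1 / 2) with h5 | h5
    · have : chi (Real.exp (-u)) = 1 := by
        unfold chi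
        exact Real.smoothTransition.one_of_one_le (by linarith)
      rw [this, one_mul]
    · have h6 : Real.exp u ≤ 2 := by
        rw [show u = -(-u) by ring, Real.exp_neg, inv_le_comm₀ (Real.exp_pos _) (by norm_num)]
        norm_num; linarith
      have h7 : 4 / 3 ≤ Real.exp u := by
        rw [← hea]; exact Real.exp_le_exp.2 hu'.le
      have h8 : hb c lam α (Real.exp u) = 0 := by
        rw [hr _ (by linarith) h6, rg_high _ h7]
      rw [h8]; ring
  unfold wJ
  rw [e1, Complex.real_smul]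
  have e2 : ((Real.exp (-u) : ℝ) : ℂ) ^ ξ = Complex.exp (-(ξ * u)) := by
    rw [Complex.cpow_def_of_ne_zero (by exact_mod_cast (Real.exp_pos _).ne'), ← Complex.ofReal_log (Real.exp_pos _).le,
      Real.log_exp]
    congr 1
    push_cast
    ring
  have e3 : Complex.exp (-((ξ + 5 - m) * u)) = Complex.exp (-(ξ * u)) * Complex.exp ((m : ℂ) * u) * Complex.exp (-(5 * u)) := by
    rw [← Complex.exp_add, ← Complex.exp_add]
    congr 1
    ring
  have e4 : ((Real.exp (-u) ^ m : ℝ) : ℂ) * Complex.exp ((m : ℂ) * u) = 1 := by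
    rw [← Real.exp_nat_mul, Complex.ofReal_exp, ← Complex.exp_add]
    push_cast
    rw [show (m : ℂ) * -(u : ℂ) + m * u = 0 by ring, Complex.exp_zero]
  have e5 : Complex.exp (-(5 * (u : ℂ))) = ((Real.exp (-u) ^ 5 : ℝ) : ℂ) := by
    rw [← Real.exp_nat_mul, Complex.ofReal_exp]
    congr 1
    push_cast
    ring
  rw [e2, e3, e5]
  have e6 : ∀ (A B C E G : ℂ), ((Real.exp (-u) ^ m : ℝ) : ℂ) * A * (B * Complex.exp ((m : ℂ) * u) * C) * E =
      (((Real.exp (-u) ^ m : ℝ) : ℂ) * Complex.exp ((m : ℂ) * u)) * (A * B * C * E) := fun A B C E G => by ring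
  push_cast at e4 ⊢
  linear_combination (Complex.exp (-(u:ℂ)) ^ 5 * (chi (Real.exp (-u)) : ℂ) * (hb c lam α (Real.exp (-u))⁻¹ : ℂ) *
    Complex.exp (-(ξ * u)) * (q (tau k * -u) : ℂ)) * e4

/-- the tail as a combination of two real oscillations -/
lemma tail_one (h : Bd c lam m α) (hr : ∀ x : ℝ, 3 / 4 ≤ x → x ≤ 2 → hb c lam α x = rg m g x) (z : ℂ) (hz : |z.re| < m) (k : ℕ)
    (σ : ℝ) (hσ : σ = 1 ∨ σ = -1) :
    ∫ u in Set.Ioi (Real.log (4 / 3)), Fu c lam m α (z + σ * (tau k * Complex.I)) u =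
      JJ (m - 5 + z) ec (hb c lam α) k + σ * (Complex.I * JJ (m - 5 + z) es (hb c lam α) k) := by
  have h1 := tail_u h hr (m - 5 + z) (q := Real.cos) (e := ec) (fun k y => rfl) k
  have h2 := tail_u h hr (m - 5 + z) (q := Real.sin) (e := es) (fun k y => rfl) k
  have e0 : (m : ℂ) - 5 + z + 5 - m = z := by ring
  rw [e0] at h1 h2
  rw [← h1, ← h2]
  have hi : ∀ q : ℝ → ℝ, Continuous q → (∀ t, |q t| ≤ 1) → IntegrableOn (fun u : ℝ => ((Pool.Agent.Q284.S.gg c lam m α u : ℝ) : ℂ) *
      Complex.exp (-(z * u)) * ((q (tau k * -u) : ℝ) : ℂ)) (Set.Ioi (Real.log (4 / 3))) := by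
    intro q hqc hq
    have h3 : Integrable (fun u : ℝ => ((Pool.Agent.Q284.S.gg c lam m α u : ℝ) : ℂ) *
      Complex.exp (-(z * u)) * ((q (tau k * -u) : ℝ) : ℂ)) := by
      refine (Fu_int h hz).mul_bdd (c := 1) (by fun_prop) (Filter.Eventually.of_forall fun u => ?_)
      rw [Complex.norm_real, Real.norm_eq_abs]
      exact hq _
    exact h3.integrableOn
  rw [← integral_const_mul, ← integral_const_mul, ← integral_add (hi Real.cos Real.continuous_cos Real.abs_cos_le_one)
    (((hi Real.sin Real.continuous_sin Real.abs_sin_le_one).const_mul _).const_mul _)]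
  apply setIntegral_congr_fun measurableSet_Ioi
  intro u _
  unfold Fu
  simp only
  have e1 : Complex.exp (-((z + σ * (tau k * Complex.I)) * u)) = Complex.exp (-(z * u)) *
      (((Real.cos (tau k * -u) : ℝ) : ℂ) + σ * (((Real.sin (tau k * -u) : ℝ) : ℂ) * Complex.I)) := by
    have e2 : -((z + σ * (tau k * Complex.I)) * u) = -(z * u) + ((σ * (tau k * -u) : ℝ) : ℂ) * Complex.I := by
      push_cast; ring
    rw [e2, Complex.exp_add, Complex.exp_mul_I, ← Complex.ofReal_cos, ← Complex.ofReal_sin]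
    congr 1
    rcases hσ with rfl | rfl
    · simp
    · rw [neg_one_mul, Real.cos_neg, Real.sin_neg]
      push_cast
      ring
  rw [e1]
  ring

/-- the middle part -/
lemma mid_one (h : Bd c lam m α) (hg : Summable fun k => |g k|)
    (hr : ∀ x : ℝ, 3 / 4 ≤ x → x ≤ 2 → hb c lam α x = rg m g x) (z : ℂ) (k : ℕ) :
    ∫ u in (-Real.log (4 / 3))..(Real.log (4 / 3)), Fu c lam m α (z + tau k * Complex.I) u =
      MM (-z) Real.cos (Th g) k - Complex.I * MM (-z) Real.sin (Th g) k := by
  set a : ℝ := Real.log (4 / 3) with ha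
  have ha14 : 1 / 4 ≤ a := log43
  have hea : Real.exp a = 4 / 3 := Real.exp_log (by norm_num)
  have hFc := Fu_cont h (z + tau k * Complex.I)
  have e0 : ∀ u : ℝ, -a ≤ u → u ≤ a → Pool.Agent.Q284.S.gg c lam m α u = rc u * Th g u := by
    intro u hu0 hu1
    unfold Pool.Agent.Q284.S.gg
    have e1 : 3 / 4 ≤ Real.exp (-u) := by
      have : Real.exp (-a) ≤ Real.exp (-u) := Real.exp_le_exp.2 (by linarith)
      rw [Real.exp_neg, hea] at this
      norm_num at this
      exact this
    have e2 : Real.exp (-u) ≤ 2 := by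
      have : Real.exp (-u) ≤ Real.exp a := Real.exp_le_exp.2 (by linarith)
      rw [hea] at this
      linarith
    rw [hr _ e1 e2]
    unfold rg
    rw [Real.log_exp, rc_neg, Th_neg, ← mul_assoc, ← Real.exp_nat_mul, ← Real.exp_add]
    have : (m : ℝ) * u + (m : ℝ) * -u = 0 := by ring
    rw [this, Real.exp_zero, one_mul]
  have hz : ∀ u : ℝ, -a ≤ u → u ≤ a → 1 / 8 ≤ |u| → Fu c lam m α (z + tau k * Complex.I) u = 0 := by
    intro u h0 h1 h2
    unfold Fu
    rw [e0 u h0 h1, rc_zero h2]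
    simp
  rw [← intervalIntegral.integral_add_adjacent_intervals (b := -(1 / 8)) (hFc.intervalIntegrable _ _)
    (hFc.intervalIntegrable _ _), ← intervalIntegral.integral_add_adjacent_intervals (a := -(1 / 8)) (b := 1 / 8)
    (hFc.intervalIntegrable _ _) (hFc.intervalIntegrable _ _)]
  have z1 : ∫ u in (-a)..(-(1 / 8)), Fu c lam m α (z + tau k * Complex.I) u = 0 := by
    have : ∫ u in (-a)..(-(1 / 8)), Fu c lam m α (z + tau k * Complex.I) u = ∫ u in (-a)..(-(1 / 8)), (0:ℂ) := by
      apply intervalIntegral.integral_congr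
      intro u hu
      rw [Set.uIcc_of_le (by linarith)] at hu
      exact hz u hu.1 (by linarith [hu.2]) (by rw [abs_of_neg (by linarith [hu.2])]; linarith [hu.2])
    rw [this]; simp
  have z2 : ∫ u in (1 / 8)..a, Fu c lam m α (z + tau k * Complex.I) u = 0 := by
    have : ∫ u in (1 / 8)..a, Fu c lam m α (z + tau k * Complex.I) u = ∫ u in (1 / 8)..a, (0:ℂ) := by
      apply intervalIntegral.integral_congr
      intro u hu
      rw [Set.uIcc_of_le (by linarith)] at hu
      exact hz u (by linarith [hu.1]) hu.2 (by rw [abs_of_nonneg (by linarith [hu.1])]; linarith [hu.1])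
    rw [this]; simp
  rw [z1, z2, zero_add, add_zero]
  have hTc := Th_cont hg
  have hw := MMw_cont (-z) hTc
  unfold MM
  rw [← intervalIntegral.integral_const_mul, ← intervalIntegral.integral_sub
    (Continuous.intervalIntegrable (by fun_prop) _ _) (Continuous.intervalIntegrable (by fun_prop) _ _)]
  apply intervalIntegral.integral_congr
  intro u hu
  rw [Set.uIcc_of_le (by norm_num)] at hu
  have hu1 : |u| ≤ 1 / 8 := abs_le.2 ⟨hu.1, hu.2⟩
  simp only
  unfold Fu
  rw [e0 u (by linarith [hu.1]) (by linarith [hu.2]), rc_Rw hu1]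
  have e1 : Complex.exp (-((z + tau k * Complex.I) * u)) = Complex.exp (-z * u) *
      (((Real.cos (tau k * u) : ℝ) : ℂ) - Complex.I * ((Real.sin (tau k * u) : ℝ) : ℂ)) := by
    have e2 : -((z + tau k * Complex.I) * u) = -z * u + ((-(tau k * u) : ℝ) : ℂ) * Complex.I := by
      push_cast; ring
    rw [e2, Complex.exp_add, Complex.exp_mul_I, ← Complex.ofReal_cos, ← Complex.ofReal_sin, Real.cos_neg, Real.sin_neg]
    push_cast
    ring
  rw [e1]
  push_cast
  ring

/-- the decomposition -/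
theorem HM_dec (h : Bd c lam m α) (hg : Summable fun k => |g k|)
    (hr : ∀ x : ℝ, 3 / 4 ≤ x → x ≤ 2 → hb c lam α x = rg m g x) (z : ℂ) (hz : |z.re| < m) (k : ℕ) :
    HM c lam m α (z + tau k * Complex.I) =
      (JJ (m - 5 + -z) ec (hb c lam α) k - Complex.I * JJ (m - 5 + -z) es (hb c lam α) k) +
      (MM (-z) Real.cos (Th g) k - Complex.I * MM (-z) Real.sin (Th g) k) +
      (JJ (m - 5 + z) ec (hb c lam α) k + Complex.I * JJ (m - 5 + z) es (hb c lam α) k) := by
  have ha : (0:ℝ) ≤ Real.log (4 / 3) := by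
    have := log43
    linarith
  rw [HM_eq, split3 h (by simpa using hz) ha, mid_one h hg hr z k]
  have t1 := tail_one h hr z hz k 1 (Or.inl rfl)
  have t2 := tail_one h hr (-z) (by simpa using hz) k (-1) (Or.inr rfl)
  have e1 : z + ((1:ℝ):ℂ) * (tau k * Complex.I) = z + tau k * Complex.I := by push_cast; ring
  have e2 : -z + ((-1:ℝ):ℂ) * (tau k * Complex.I) = -(z + tau k * Complex.I) := by push_cast; ring
  rw [e1] at t1
  rw [e2] at t2
  rw [t1, t2]
  push_cast
  ring

end

end Pool.Agent.Q127.EZ
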