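import Mathlib
import Pool.Agent.Q127.EZ.Asm

/-!
# Weighted square sums of the Mellin transform over shifted nodes
-/

set_option autoImplicit false

open Finset MeasureTheory

namespace Pool.Agent.Q127.EZ

open Pool.Agent.H469R10.HO Pool.Agent.H99R3.M469 Pool.Agent.H13R3.EM
open Pool.Agent.Q284.S (Bd hb_le hb_cont)

section

variable {c C : ℝ} {cl : ℕ → ℕ} {T : ℕ → ℕ → ℂ} {κ : ℝ}

lemma re_sum (S : Finset ℕ) (β : ℕ → ℝ) (T : ℕ → ℕ → ℂ) (j : ℕ) :
    (∑ n ∈ S, (β n : ℂ) * T n j).re = ∑ n ∈ S, β n * (T n j).re := by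
  rw [Complex.re_sum]
  exact sum_congr rfl fun n _ => by rw [Complex.re_ofReal_mul]

lemma im_sum (S : Finset ℕ) (β : ℕ → ℝ) (T : ℕ → ℕ → ℂ) (j : ℕ) :
    (∑ n ∈ S, (β n : ℂ) * T n j).im = ∑ n ∈ S, β n * (T n j).im := by
  rw [Complex.im_sum]
  exact sum_congr rfl fun n _ => by rw [Complex.im_ofReal_mul]

lemma norm_sq_c (z : ℂ) : ‖z‖ ^ 2 = z.re ^ 2 + z.im ^ 2 := by
  rw [← Complex.normSq_eq_norm_sq, Complex.normSq_apply]; ring

lemma JP_c (hJP : JP c C) (hκ : 0 ≤ κ)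
    (h1 : ∀ (S : Finset ℕ) (β : ℕ → ℝ) (J : ℕ), ∑ j ∈ range J, ‖∑ n ∈ S, (β n : ℂ) * T n j‖ ^ 2 ≤ κ * QQ (fun _ => 1) S cl β)
    (h2 : ∀ (S : Finset ℕ) (β : ℕ → ℝ) (J : ℕ), ∑ j ∈ range J, (1 + (j : ℝ)) ^ 2 * ‖∑ n ∈ S, (β n : ℂ) * T n j‖ ^ 2 ≤
      κ * QQ (fun y => (1 + (y : ℝ)) ^ 2) S cl β) (S : Finset ℕ) (β : ℕ → ℝ) (J : ℕ) :
    ∑ j ∈ range J, WW c j * ‖∑ n ∈ S, (β n : ℂ) * T n j‖ ^ 2 ≤ 2 * (C * κ) * QQ (WW c) S cl β := by
  have hr := hJP cl (fun n j => (T n j).re) κ hκ (fun S β J => by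
      refine le_trans (sum_le_sum fun j _ => ?_) (h1 S β J)
      rw [norm_sq_c, re_sum]
      linarith [sq_nonneg (∑ n ∈ S, (β n : ℂ) * T n j).im]) (fun S β J => by
      refine le_trans (sum_le_sum fun j _ => ?_) (h2 S β J)
      apply mul_le_mul_of_nonneg_left _ (sq_nonneg _)
      rw [norm_sq_c, re_sum]
      linarith [sq_nonneg (∑ n ∈ S, (β n : ℂ) * T n j).im]) S β J
  have hi := hJP cl (fun n j => (T n j).im) κ hκ (fun S β J => by
      refine le_trans (sum_le_sum fun j _ => ?_) (h1 S β J)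
      rw [norm_sq_c, im_sum]
      linarith [sq_nonneg (∑ n ∈ S, (β n : ℂ) * T n j).re]) (fun S β J => by
      refine le_trans (sum_le_sum fun j _ => ?_) (h2 S β J)
      apply mul_le_mul_of_nonneg_left _ (sq_nonneg _)
      rw [norm_sq_c, im_sum]
      linarith [sq_nonneg (∑ n ∈ S, (β n : ℂ) * T n j).re]) S β J
  have e : ∑ j ∈ range J, WW c j * ‖∑ n ∈ S, (β n : ℂ) * T n j‖ ^ 2 =
      ∑ j ∈ range J, WW c j * (∑ n ∈ S, β n * (T n j).re) ^ 2 + ∑ j ∈ range J, WW c j * (∑ n ∈ S, β n * (T n j).im) ^ 2 := by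
    rw [← sum_add_distrib]
    refine sum_congr rfl fun j _ => ?_
    rw [norm_sq_c, re_sum, im_sum]
    ring
  rw [e]
  linarith

lemma JP_lim (hJP : JP c C) (hC : 0 ≤ C) (hκ : 0 ≤ κ)
    (h1 : ∀ (S : Finset ℕ) (β : ℕ → ℝ) (J : ℕ), ∑ j ∈ range J, ‖∑ n ∈ S, (β n : ℂ) * T n j‖ ^ 2 ≤ κ * QQ (fun _ => 1) S cl β)
    (h2 : ∀ (S : Finset ℕ) (β : ℕ → ℝ) (J : ℕ), ∑ j ∈ range J, (1 + (j : ℝ)) ^ 2 * ‖∑ n ∈ S, (β n : ℂ) * T n j‖ ^ 2 ≤
      κ * QQ (fun y => (1 + (y : ℝ)) ^ 2) S cl β) {α : ℕ → ℝ} {a : ℕ → ℂ}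
    (ha : ∀ j, HasSum (fun n => (α n : ℂ) * T n j) (a j)) {D : ℝ} (hQ : ∀ S : Finset ℕ, QQ (WW c) S cl α ≤ D) (J : ℕ) :
    ∑ j ∈ range J, WW c j * ‖a j‖ ^ 2 ≤ 2 * (C * κ) * D := by
  have ht : Filter.Tendsto (fun S : Finset ℕ => ∑ j ∈ range J, WW c j * ‖∑ n ∈ S, (α n : ℂ) * T n j‖ ^ 2)
      Filter.atTop (nhds (∑ j ∈ range J, WW c j * ‖a j‖ ^ 2)) :=
    tendsto_finsetSum _ fun j _ => ((Filter.Tendsto.norm (ha j)).pow 2).const_mul _
  refine le_of_tendsto' ht fun S => ?_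
  refine (JP_c hJP hκ h1 h2 S α J).trans ?_
  exact mul_le_mul_of_nonneg_left (hQ S) (by positivity)

end

section

variable {ξ z : ℂ}

/-- the tail functional of an absolutely convergent cosine series -/
lemma JJ_tsum (hξ : 0 < ξ.re) {e : ℕ → ℝ → ℝ} (he : ∀ j, Continuous (e j)) (he1 : ∀ k y, 0 ≤ y → |e k y| ≤ y)
    {a ω : ℕ → ℝ} (ha : Summable fun n => |a n|) (k : ℕ) :
    HasSum (fun n => (a n : ℂ) * JJ ξ e (fun x => Real.cos (ω n * x)) k) (JJ ξ e (fun x => ∑' n, a n * Real.cos (ω n * x)) k) := by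
  have h1 : HasSum (fun n => ∫ y in (0:ℝ)..(3/4), (a n : ℂ) * (wJ ξ (fun x => Real.cos (ω n * x)) y * (e k y : ℂ)))
      (∫ y in (0:ℝ)..(3/4), wJ ξ (fun x => ∑' n, a n * Real.cos (ω n * x)) y * (e k y : ℂ)) := by
    refine intervalIntegral.hasSum_integral_of_dominated_convergence (fun n _ => |a n|) ?_ ?_ ?_ ?_ ?_
    · intro n
      have h3 := wJ_cont hξ (G := fun y => Real.cos (ω n * y)) (by fun_prop) (M := 1) (fun y => Real.abs_cos_le_one _)
      have h4 := he k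
      exact (continuous_const.mul (h3.mul (Complex.continuous_ofReal.comp h4))).aestronglyMeasurable
    · intro n
      refine Filter.Eventually.of_forall fun y hy => ?_
      rw [Set.uIoc_of_le (by norm_num)] at hy
      unfold wJ
      rw [norm_mul, norm_mul, norm_mul, Complex.norm_real, Complex.norm_real, Complex.norm_real, Real.norm_eq_abs,
        Real.norm_eq_abs, Real.norm_eq_abs, abs_mul, abs_mul, abs_of_nonneg (chi_nn y), abs_pow, abs_of_pos hy.1]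
      have e3 : y ^ 3 ≤ 1 := pow_le_one₀ hy.1.le (by linarith [hy.2])
      have e5 : |e k y| ≤ 1 := (he1 k y hy.1.le).trans (by linarith [hy.2])
      have e6 := pow_norm_le hξ hy.1.le (by linarith [hy.2])
      have e2 := chi_nn y
      have e7 := hy.1.le
      calc |a n| * (chi y * (y ^ 3 * |Real.cos (ω n * y⁻¹)|) * ‖(y : ℂ) ^ ξ‖ * |e k y|) ≤ |a n| * (1 * (1 * 1) * 1 * 1) := by
            gcongr
            · exact chi_le y
            · exact Real.abs_cos_le_one _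
        _ = |a n| := by ring
    · exact Filter.Eventually.of_forall fun v _ => ha
    · exact Continuous.intervalIntegrable (by fun_prop) _ _
    · refine Filter.Eventually.of_forall fun y _ => ?_
      have h2 : HasSum (fun n => a n * Real.cos (ω n * y⁻¹)) (∑' n, a n * Real.cos (ω n * y⁻¹)) :=
        (Summable.of_norm_bounded ha fun n => by
          rw [Real.norm_eq_abs, abs_mul]
          exact mul_le_of_le_one_right (abs_nonneg _) (Real.abs_cos_le_one _)).hasSum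
      have h3 := (Complex.hasSum_ofReal.2 h2).mul_left ((chi y : ℂ) * (y : ℂ) ^ 3 * (y : ℂ) ^ ξ * (e k y : ℂ))
      have e1 : (fun n => (a n : ℂ) * (wJ ξ (fun x => Real.cos (ω n * x)) y * (e k y : ℂ))) =
          fun n => (chi y : ℂ) * (y : ℂ) ^ 3 * (y : ℂ) ^ ξ * (e k y : ℂ) * ((a n * Real.cos (ω n * y⁻¹) : ℝ) : ℂ) := by
        funext n
        unfold wJ
        push_cast
        ring
      have e2 : wJ ξ (fun x => ∑' n, a n * Real.cos (ω n * x)) y * (e k y : ℂ) =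
          (chi y : ℂ) * (y : ℂ) ^ 3 * (y : ℂ) ^ ξ * (e k y : ℂ) * ((∑' n, a n * Real.cos (ω n * y⁻¹) : ℝ) : ℂ) := by
        unfold wJ
        push_cast
        ring
      rw [e1, e2]
      exact h3
  unfold JJ
  refine h1.congr_fun fun n => ?_
  rw [intervalIntegral.integral_const_mul]

lemma abs_es_le {k : ℕ} {y : ℝ} (h0 : 0 ≤ y) : |es k y| ≤ y := by
  unfold es
  rw [abs_mul, abs_of_nonneg h0]
  exact mul_le_of_le_one_right h0 (Real.abs_sin_le_one _)

lemma MM_tsum {q : ℝ → ℝ} (hq : Continuous q) (hq1 : ∀ t, |q t| ≤ 1) {g : ℕ → ℝ} (hg : Summable fun n => |g n|) (k : ℕ) :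
    HasSum (fun l => (g l : ℂ) * MM z q (fun v => Real.cos (tau l * v)) k) (MM z q (Th g) k) := by
  have h1 : HasSum (fun l => ∫ v in (-(1/8):ℝ)..(1/8), (g l : ℂ) * ((((Rw v * Real.cos (tau l * v) : ℝ) : ℂ) * Complex.exp (z * v)) *
      ((q (tau k * v) : ℝ) : ℂ)))
      (∫ v in (-(1/8):ℝ)..(1/8), (((Rw v * Th g v : ℝ) : ℂ) * Complex.exp (z * v)) * ((q (tau k * v) : ℝ) : ℂ)) := by
    refine intervalIntegral.hasSum_integral_of_dominated_convergence (fun n _ => |g n| * Real.exp (|z.re| / 8)) ?_ ?_ ?_ ?_ ?_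
    · intro n
      have := Rw_cont
      exact Continuous.aestronglyMeasurable (by fun_prop)
    · intro n
      refine Filter.Eventually.of_forall fun v hv => ?_
      rw [Set.uIoc_of_le (by norm_num)] at hv
      have hv1 : |v| ≤ 1 / 8 := abs_le.2 ⟨hv.1.le, hv.2⟩
      rw [norm_mul, norm_mul, norm_mul, Complex.norm_real, Complex.norm_real, Complex.norm_real, Real.norm_eq_abs,
        Real.norm_eq_abs, Real.norm_eq_abs, abs_mul]
      have e1 := Rw_abs v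
      have e3 := exp_norm_le z hv1
      have e4 := hq1 (tau k * v)
      calc |g n| * (|Rw v| * |Real.cos (tau n * v)| * ‖Complex.exp (z * v)‖ * |q (tau k * v)|) ≤
          |g n| * (1 * 1 * Real.exp (|z.re| / 8) * 1) := by
            gcongr
            exact Real.abs_cos_le_one _
        _ = _ := by ring
    · exact Filter.Eventually.of_forall fun v _ => hg.mul_right _
    · exact Continuous.intervalIntegrable (by fun_prop) _ _
    · refine Filter.Eventually.of_forall fun v _ => ?_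
      have h2 := Th_sum hg v
      have h3 := (Complex.hasSum_ofReal.2 h2).mul_left ((Rw v : ℂ) * Complex.exp (z * v) * ((q (tau k * v) : ℝ) : ℂ))
      have e1 : (fun n => (g n : ℂ) * ((((Rw v * Real.cos (tau n * v) : ℝ) : ℂ) * Complex.exp (z * v)) *
      ((q (tau k * v) : ℝ) : ℂ))) = fun n => (Rw v : ℂ) * Complex.exp (z * v) * ((q (tau k * v) : ℝ) : ℂ) *
          ((g n * Real.cos (tau n * v) : ℝ) : ℂ) := by
        funext n
        push_cast
        ring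
      have e2 : (((Rw v * Th g v : ℝ) : ℂ) * Complex.exp (z * v)) * ((q (tau k * v) : ℝ) : ℂ) =
          (Rw v : ℂ) * Complex.exp (z * v) * ((q (tau k * v) : ℝ) : ℂ) * ((Th g v : ℝ) : ℂ) := by
        push_cast
        ring
      rw [e1, e2]
      exact h3
  unfold MM
  refine h1.congr_fun fun n => ?_
  rw [intervalIntegral.integral_const_mul]

lemma MM_fin {q : ℝ → ℝ} (hq : Continuous q) (S : Finset ℕ) (g : ℕ → ℝ) (k : ℕ) :
    ∑ l ∈ S, (g l : ℂ) * MM z q (fun v => Real.cos (tau l * v)) k = MM z q (t0 S g) k := by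
  unfold MM
  have e1 : ∀ v : ℝ, (((Rw v * t0 S g v : ℝ) : ℂ) * Complex.exp (z * v)) * ((q (tau k * v) : ℝ) : ℂ) =
      ∑ l ∈ S, (g l : ℂ) * ((((Rw v * Real.cos (tau l * v) : ℝ) : ℂ) * Complex.exp (z * v)) * ((q (tau k * v) : ℝ) : ℂ)) := by
    intro v
    unfold t0
    push_cast
    simp_rw [mul_sum, sum_mul]
    exact sum_congr rfl fun i _ => by ring
  simp_rw [e1]
  rw [intervalIntegral.integral_finsetSum]
  · exact sum_congr rfl fun i _ => (intervalIntegral.integral_const_mul _ _).symm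
  · intro i _
    have := Rw_cont
    exact Continuous.intervalIntegrable (by fun_prop) _ _

end

lemma QQ_id (w : ℕ → ℝ) (S : Finset ℕ) (β : ℕ → ℝ) : QQ w S id β = ∑ k ∈ S, w k * β k ^ 2 := by
  unfold QQ
  rw [image_id]
  refine sum_congr rfl fun y hy => ?_
  have : S.filter (fun n => (id n : ℕ) = y) = {y} := by
    ext n
    simp only [id, mem_filter, mem_singleton]
    constructor
    · exact fun h => h.2
    · rintro rfl; exact ⟨hy, rfl⟩
  rw [this, sum_singleton, sq_abs]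

/-- **weighted square sums of the Mellin transform over shifted nodes** -/
theorem sq_nodes {m : ℕ} {c C D : ℝ} {v β α g : ℕ → ℝ} (hc1 : c ≤ 1 / 10) (hJP : JP c C) (hC : 0 ≤ C) (hD : 0 ≤ D)
    (hO : OutI m c v β α g D) (hm : 6 ≤ m) : ∃ D' : ℝ, 0 ≤ D' ∧ ∀ z : ℂ, |z.re| < m - 5 → ‖z‖ ≤ 2 * m →
      ∀ J : ℕ, ∑ k ∈ range J, WW c k * ‖HM c (lamH m) m α (z + tau k * Complex.I)‖ ^ 2 ≤ D' := by
  obtain ⟨K0, hK0, hK⟩ := chi_bd
  have hc := hO.hc
  have hW := fun j => (WW_pos hc hc1 j).le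
  have hlam : (1:ℝ) ≤ lamH m := by linarith [lam_ge m]
  have hm1 : 1 ≤ m := by omega
  have hBd : Bd c (lamH m) m α :=
    { hc := hc
      hlam := hlam
      hm := hm1
      hα := hO.hsum
      hrel := fun x hx => by
        have := hO.hrel x hx
        simpa [hb, div_eq_mul_inv] using this }
  set κJ : ℝ := 270 * (K0 ^ 2 + (3 * m) ^ 2 + 4) + 90 with hκJ
  have hκJ0 : 0 ≤ κJ := by positivity
  set κM : ℝ := Real.exp (m / 4) * (230 + (2 * m) ^ 2) with hκM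
  have hκM0 : 0 ≤ κM := by positivity
  have hmR : (6:ℝ) ≤ m := by exact_mod_cast hm
  have hnear : ∀ S : Finset ℕ, ∀ i ∈ S, |uu c (lamH m) i - xx (jj c (lamH m) i)| ≤ 1 := fun S i _ => cell_near (uu_nonneg hc.le i)
  -- tails
  have hJJ : ∀ (ξ : ℂ), 0 < ξ.re → ‖ξ + 5‖ ≤ 3 * m → ∀ e : ℕ → ℝ → ℝ, e = ec ∨ e = es → ∀ J : ℕ,
      ∑ k ∈ range J, WW c k * ‖JJ ξ e (hb c (lamH m) α) k‖ ^ 2 ≤ 2 * (C * κJ) * D := by
    intro ξ hξ hξ5 e he J
    have hec : ∀ j, Continuous (e j) := by rcases he with rfl | rfl; exacts [ec_cont, es_cont]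
    have he1 : ∀ k y, 0 ≤ y → |e k y| ≤ y := by
      rcases he with rfl | rfl
      · exact fun k y h0 => abs_ec_le h0
      · exact fun k y h0 => abs_es_le h0
    have hosc : ∀ (S : Finset ℕ) (A : ℕ → ℝ), ∫ y in (0:ℝ)..1, (∑ k ∈ S, A k * e k y) ^ 2 ≤ ∑ k ∈ S, A k ^ 2 := by
      rcases he with rfl | rfl; exacts [osc_cos, osc_sin]
    have hsq : ‖ξ + 5‖ ^ 2 ≤ (3 * m) ^ 2 := pow_le_pow_left₀ (norm_nonneg _) hξ5 2
    refine JP_lim (cl := jj c (lamH m)) (T := fun n k => JJ ξ e (fun x => Real.cos (uu c (lamH m) n * x)) k) hJP hC hκJ0 ?_ ?_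
      (fun k => JJ_tsum hξ hec he1 hO.hsum k) hO.hQ J
    · intro S β J
      simp_rw [← JJ_sum hξ hec]
      refine (JJ_one hec hosc (hnear S) hξ (range J)).trans ?_
      have hQ0 : 0 ≤ QQ (fun _ => 1) S (jj c (lamH m)) β := QQ_nonneg (fun _ => zero_le_one) S _ β
      apply mul_le_mul_of_nonneg_right _ hQ0
      rw [hκJ]
      have : 0 ≤ 270 * (K0 ^ 2 + (3 * (m:ℝ)) ^ 2 + 4) := by positivity
      linarith
    · intro S β J
      simp_rw [← JJ_sum hξ hec]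
      have hQ0 : 0 ≤ QQ (fun y => (1 + (y : ℝ)) ^ 2) S (jj c (lamH m)) β := QQ_nonneg (fun _ => by positivity) S _ β
      have h2 := JJ_two (β := β) (hnear S) hξ hK (range J)
      have h3 : ∑ k ∈ range J, (1 + (k : ℝ)) ^ 2 * ‖JJ ξ e (f0 S β (uu c (lamH m))) k‖ ^ 2 ≤
        270 * (K0 ^ 2 + ‖ξ + 5‖ ^ 2 + 4) * QQ (fun y => (1 + (y : ℝ)) ^ 2) S (jj c (lamH m)) β := by
        rcases he with rfl | rfl
        · exact h2.1
        · exact h2.2
      refine h3.trans (mul_le_mul_of_nonneg_right ?_ hQ0)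
      rw [hκJ]
      linarith
  -- the middle
  have hMM : ∀ (z : ℂ), |z.re| ≤ m → ‖z‖ ≤ 2 * m → ∀ q : ℝ → ℝ, q = Real.cos ∨ q = Real.sin → ∀ J : ℕ,
      ∑ k ∈ range J, WW c k * ‖MM z q (Th g) k‖ ^ 2 ≤ 2 * (C * κM) * D := by
    intro z hz1 hz2 q hq J
    have hqc : Continuous q := by rcases hq with rfl | rfl; exacts [Real.continuous_cos, Real.continuous_sin]
    have hq1 : ∀ t, |q t| ≤ 1 := by rcases hq with rfl | rfl; exacts [Real.abs_cos_le_one, Real.abs_sin_le_one]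
    have hE : Real.exp (|z.re| / 4) ≤ Real.exp (m / 4) := Real.exp_le_exp.2 (by linarith)
    have hsq : ‖z‖ ^ 2 ≤ (2 * m) ^ 2 := pow_le_pow_left₀ (norm_nonneg _) hz2 2
    refine JP_lim (cl := id) (T := fun n k => MM z q (fun v => Real.cos (tau n * v)) k) hJP hC hκM0 ?_ ?_
      (fun k => MM_tsum hqc hq1 hO.hgs k) ?_ J
    · intro S β J
      simp_rw [MM_fin hqc]
      rw [QQ_id]
      refine (MM_one z hq S β (range J)).trans ?_
      simp only [one_mul]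
      apply mul_le_mul_of_nonneg_right _ (sum_nonneg fun _ _ => sq_nonneg _)
      rw [hκM]
      have h2 : (1:ℝ) ≤ 230 + (2 * (m:ℝ)) ^ 2 := by nlinarith
      have h3 := Real.exp_pos ((m:ℝ) / 4)
      nlinarith
    · intro S β J
      simp_rw [MM_fin hqc]
      rw [QQ_id]
      refine (MM_two z hq S β (range J)).trans ?_
      apply mul_le_mul_of_nonneg_right _ (sum_nonneg fun _ _ => by positivity)
      rw [hκM]
      apply mul_le_mul hE (by linarith) (by positivity) (Real.exp_pos _).le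
    · intro S
      rw [QQ_id]
      refine le_trans ?_ (hO.hg (S.sup id + 1))
      apply sum_le_sum_of_subset_of_nonneg
      · intro y hy
        rw [mem_range]
        have : id y ≤ S.sup id := le_sup hy
        simp only [id] at this
        omega
      · intro y _ _
        exact mul_nonneg (hW y) (sq_nonneg _)
  refine ⟨6 * (4 * (2 * (C * κJ) * D) + 2 * (2 * (C * κM) * D)), by positivity, fun z hz1 hz2 J => ?_⟩
  rw [abs_lt] at hz1
  have hzm : |z.re| < m := abs_lt.2 ⟨by linarith, by linarith⟩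
  have x1 : 0 < ((m : ℂ) - 5 + z).re := by simp; linarith
  have x2 : 0 < ((m : ℂ) - 5 + -z).re := by simp; linarith
  have y1 : ‖(m : ℂ) - 5 + z + 5‖ ≤ 3 * m := by
    have e : (m : ℂ) - 5 + z + 5 = m + z := by ring
    rw [e]
    refine (norm_add_le _ _).trans ?_
    rw [Complex.norm_natCast]
    linarith
  have y2 : ‖(m : ℂ) - 5 + -z + 5‖ ≤ 3 * m := by
    have e : (m : ℂ) - 5 + -z + 5 = m + -z := by ring
    rw [e]
    refine (norm_add_le _ _).trans ?_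
    rw [Complex.norm_natCast, norm_neg]
    linarith
  have b1 := hJJ _ x2 y2 ec (Or.inl rfl) J
  have b2 := hJJ _ x2 y2 es (Or.inr rfl) J
  have b3 := hMM (-z) (by simpa using hzm.le) (by rwa [norm_neg]) Real.cos (Or.inl rfl) J
  have b4 := hMM (-z) (by simpa using hzm.le) (by rwa [norm_neg]) Real.sin (Or.inr rfl) J
  have b5 := hJJ _ x1 y1 ec (Or.inl rfl) J
  have b6 := hJJ _ x1 y1 es (Or.inr rfl) J
  have hsix : ∀ k, WW c k * ‖HM c (lamH m) m α (z + tau k * Complex.I)‖ ^ 2 ≤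
      6 * (WW c k * ‖JJ ((m : ℂ) - 5 + -z) ec (hb c (lamH m) α) k‖ ^ 2) +
      6 * (WW c k * ‖JJ ((m : ℂ) - 5 + -z) es (hb c (lamH m) α) k‖ ^ 2) +
      6 * (WW c k * ‖MM (-z) Real.cos (Th g) k‖ ^ 2) + 6 * (WW c k * ‖MM (-z) Real.sin (Th g) k‖ ^ 2) +
      6 * (WW c k * ‖JJ ((m : ℂ) - 5 + z) ec (hb c (lamH m) α) k‖ ^ 2) +
      6 * (WW c k * ‖JJ ((m : ℂ) - 5 + z) es (hb c (lamH m) α) k‖ ^ 2) := by
    intro k
    rw [HM_dec hBd hO.hgs hO.hr z hzm k]
    set a1 := JJ ((m : ℂ) - 5 + -z) ec (hb c (lamH m) α) k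
    set a2 := JJ ((m : ℂ) - 5 + -z) es (hb c (lamH m) α) k
    set a3 := MM (-z) Real.cos (Th g) k
    set a4 := MM (-z) Real.sin (Th g) k
    set a5 := JJ ((m : ℂ) - 5 + z) ec (hb c (lamH m) α) k
    set a6 := JJ ((m : ℂ) - 5 + z) es (hb c (lamH m) α) k
    have n1 : ‖(a1 - Complex.I * a2) + (a3 - Complex.I * a4) + (a5 + Complex.I * a6)‖ ≤
        ‖a1‖ + ‖a2‖ + ‖a3‖ + ‖a4‖ + ‖a5‖ + ‖a6‖ := by
      have t1 := norm_add_le ((a1 - Complex.I * a2) + (a3 - Complex.I * a4)) (a5 + Complex.I * a6)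
      have t2 := norm_add_le (a1 - Complex.I * a2) (a3 - Complex.I * a4)
      have t3 := norm_sub_le a1 (Complex.I * a2)
      have t4 := norm_sub_le a3 (Complex.I * a4)
      have t5 := norm_add_le a5 (Complex.I * a6)
      rw [norm_mul, Complex.norm_I, one_mul] at t3 t4 t5
      linarith
    have n2 := pow_le_pow_left₀ (norm_nonneg _) n1 2
    have n3 : (‖a1‖ + ‖a2‖ + ‖a3‖ + ‖a4‖ + ‖a5‖ + ‖a6‖) ^ 2 ≤
        6 * (‖a1‖ ^ 2 + ‖a2‖ ^ 2 + ‖a3‖ ^ 2 + ‖a4‖ ^ 2 + ‖a5‖ ^ 2 + ‖a6‖ ^ 2) := by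
      have := sq_sum_le_card_mul_sum_sq (s := (univ : Finset (Fin 6))) (f := ![‖a1‖, ‖a2‖, ‖a3‖, ‖a4‖, ‖a5‖, ‖a6‖])
      simp [Fin.sum_univ_six] at this
      linarith
    have := mul_le_mul_of_nonneg_left (n2.trans n3) (hW k)
    refine this.trans (le_of_eq ?_)
    ring
  refine (sum_le_sum fun k _ => hsix k).trans ?_
  rw [sum_add_distrib, sum_add_distrib, sum_add_distrib, sum_add_distrib, sum_add_distrib, ← mul_sum, ← mul_sum, ← mul_sum,
    ← mul_sum, ← mul_sum, ← mul_sum]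
  linarith

end Pool.Agent.Q127.EZ
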