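import Mathlib
import Pool.Agent.Q127.EZ.Wt
import Pool.Agent.Q127.EZ.Jen

/-!
# Few zeros in the middle of the strip
-/

set_option autoImplicit false

open Finset MeasureTheory Metric

namespace Pool.Agent.Q127.EZ

open Pool.Agent.H469R10.HO Pool.Agent.H99R3.M469 Pool.Agent.H13R3.EM
open Pool.Agent.Q284.S (Bd Mm mel_diff)

/-- the logarithm in the weights -/
noncomputable def LL (c : ℝ) (k : ℕ) : ℝ := Real.log ((1 + k) / c)

/-- the prescribed values -/
noncomputable def vv (c ν : ℝ) (k : ℕ) : ℝ := ν / ((1 + k) * LL c k ^ 3)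

section

variable {c : ℝ}

lemma LL_two (hc : 0 < c) (hc1 : c ≤ 1 / 10) (k : ℕ) : 2 ≤ LL c k := by
  have h1 : Real.exp 2 ≤ (1 + k) / c := by
    have h2 : Real.exp 2 ≤ 10 := by
      have h3 := Real.exp_one_lt_d9
      have h4 : Real.exp 2 = Real.exp 1 ^ 2 := by rw [← Real.exp_nat_mul]; norm_num
      rw [h4]
      have h5 := Real.exp_pos 1
      nlinarith
    have h3 : (10:ℝ) ≤ (1 + k) / c := by
      rw [le_div_iff₀ hc]
      have : (0:ℝ) ≤ k := Nat.cast_nonneg k
      linarith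
    linarith
  unfold LL
  rwa [Real.le_log_iff_exp_le (by positivity)]

lemma WW_LL (c : ℝ) (k : ℕ) : WW c k = (1 + k) * LL c k ^ 4 := rfl

lemma LL_succ (hc : 0 < c) (k : ℕ) : 1 / ((1 + (k + 1 : ℕ) : ℝ)) ≤ LL c (k + 1) - LL c k := by
  unfold LL
  have hk : (0:ℝ) ≤ k := Nat.cast_nonneg k
  rw [← Real.log_div (by positivity) (by positivity)]
  have e1 : ((1 + ((k + 1 : ℕ) : ℝ)) / c) / ((1 + (k:ℝ)) / c) = (1 + ((k + 1 : ℕ) : ℝ)) / (1 + k) := by
    field_simp
  rw [e1]
  have h1 := Real.one_sub_inv_le_log_of_pos (show 0 < (1 + ((k + 1 : ℕ) : ℝ)) / (1 + (k:ℝ)) by positivity)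
  refine le_trans (le_of_eq ?_) h1
  push_cast
  field_simp
  ring

lemma LL_mono (hc : 0 < c) {k l : ℕ} (h : k ≤ l) : LL c k ≤ LL c l := by
  unfold LL
  apply Real.log_le_log (by positivity)
  have : (k:ℝ) ≤ l := by exact_mod_cast h
  gcongr

lemma vv_pos {ν : ℝ} (hc : 0 < c) (hc1 : c ≤ 1 / 10) (hν : 0 < ν) (k : ℕ) : 0 < vv c ν k := by
  have := LL_two hc hc1 k
  unfold vv
  positivity

/-- the prescribed values are admissible -/
lemma vv_sum {ν : ℝ} (hc : 0 < c) (hc1 : c ≤ 1 / 10) (J : ℕ) :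
    ∑ k ∈ range J, WW c k * vv c ν k ^ 2 ≤ ν ^ 2 := by
  have h2 := fun k => LL_two hc hc1 k
  have e1 : ∀ k, WW c k * vv c ν k ^ 2 = ν ^ 2 * (1 / ((1 + k) * LL c k ^ 2)) := by
    intro k
    rw [WW_LL]
    unfold vv
    have := h2 k
    have h3 : LL c k ≠ 0 := by linarith
    field_simp
  simp_rw [e1, ← mul_sum]
  apply mul_le_of_le_one_right (sq_nonneg _)
  have key : ∀ J : ℕ, ∑ k ∈ range (J + 1), 1 / ((1 + (k:ℝ)) * LL c k ^ 2) ≤ 1 - 1 / LL c J := by
    intro J
    induction J with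
    | zero =>
      rw [zero_add, sum_range_one]
      have h3 := h2 0
      have h4 : 1 / ((1 + ((0:ℕ):ℝ)) * LL c 0 ^ 2) = 1 / LL c 0 ^ 2 := by simp
      have h5 : 1 / LL c 0 ≤ 1 / 2 := by
        apply one_div_le_one_div_of_le (by norm_num) h3
      have h6 : 1 / LL c 0 ^ 2 ≤ 1 / 2 ^ 2 := by
        apply one_div_le_one_div_of_le (by norm_num)
        exact pow_le_pow_left₀ (by norm_num) h3 2
      have h7 : (1:ℝ) / 2 ^ 2 = 1 / 4 := by norm_num
      rw [h7] at h6
      rw [h4]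
      linarith
    | succ J ih =>
      rw [sum_range_succ]
      have h3 := h2 J
      have h4 := h2 (J + 1)
      have h5 := LL_succ hc J
      have h6 := LL_mono hc (Nat.le_succ J)
      have h7 : 1 / ((1 + ((J + 1 : ℕ):ℝ)) * LL c (J + 1) ^ 2) ≤ 1 / LL c J - 1 / LL c (J + 1) := by
        have e2 : 1 / LL c J - 1 / LL c (J + 1) = (LL c (J + 1) - LL c J) / (LL c J * LL c (J + 1)) := by
          have : LL c J ≠ 0 := by linarith
          have : LL c (J + 1) ≠ 0 := by linarith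
          field_simp
        rw [e2]
        calc 1 / ((1 + ((J + 1 : ℕ):ℝ)) * LL c (J + 1) ^ 2) = (1 / (1 + ((J + 1 : ℕ):ℝ))) / (LL c (J + 1) * LL c (J + 1)) := by
              field_simp
          _ ≤ (LL c (J + 1) - LL c J) / (LL c (J + 1) * LL c (J + 1)) := by
              apply div_le_div_of_nonneg_right h5 (by positivity)
          _ ≤ (LL c (J + 1) - LL c J) / (LL c J * LL c (J + 1)) := by
              apply div_le_div_of_nonneg_left (by linarith) (by positivity)
              have : 0 < LL c (J + 1) := by linarith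
              exact mul_le_mul_of_nonneg_right h6 this.le
      linarith
  rcases J with _ | J
  · simp
  · have h3 := h2 J
    have h4 : 0 < 1 / LL c J := by positivity
    have := key J
    linarith

end

section

variable {m : ℕ} {c C D ν : ℝ} {β α g : ℕ → ℝ}

lemma bd_of_outI {v : ℕ → ℝ} (hm : 1 ≤ m) (hO : OutI m c v β α g D) : Bd c (lamH m) m α :=
  { hc := hO.hc
    hlam := by linarith [lam_ge m]
    hm := hm
    hα := hO.hsum
    hrel := fun x hx => by
      have := hO.hrel x hx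
      simpa [hb, div_eq_mul_inv] using this }

lemma HM_diff {v : ℕ → ℝ} (hm : 1 ≤ m) (hO : OutI m c v β α g D) {s : ℂ} (hs : |s.re| < m) :
    DifferentiableAt ℂ (HM c (lamH m) m α) s := by
  rw [abs_lt] at hs
  have h1 := mel_diff (bd_of_outI hm hO) (w := -(m : ℂ) + s) (by simp; linarith) (by simp; linarith)
  exact DifferentiableAt.comp (g := mellin (fun x : ℝ => (hb c (lamH m) α x : ℂ))) (f := fun s : ℂ => -(m : ℂ) + s) s h1
    (by fun_prop)

lemma HM_ana {v : ℕ → ℝ} (hm : 1 ≤ m) (hO : OutI m c v β α g D) : AnalyticOnNhd ℂ (HM c (lamH m) m α) {s : ℂ | |s.re| < m} := by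
  apply DifferentiableOn.analyticOnNhd
  · intro s hs
    exact (HM_diff hm hO hs).differentiableWithinAt
  · exact isOpen_lt (by fun_prop) continuous_const

lemma HM_node {v : ℕ → ℝ} (hO : OutI m c v β α g D) (k : ℕ) :
    HM c (lamH m) m α (tau k * Complex.I) = ((v k : ℝ) : ℂ) := by
  rw [← hO.hnode k]
  unfold HM Mm
  congr 1
  push_cast
  ring

/-- circle averages over the nodes -/
lemma avg_nodes {v : ℕ → ℝ} (hm : 6 ≤ m) (hO : OutI m c v β α g D) {D' : ℝ}
    (hD' : ∀ z : ℂ, |z.re| < m - 5 → ‖z‖ ≤ 2 * m →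
      ∀ J : ℕ, ∑ k ∈ range J, WW c k * ‖HM c (lamH m) m α (z + tau k * Complex.I)‖ ^ 2 ≤ D')
    {R : ℝ} (hR0 : 0 < R) (hR : R < m - 5) (J : ℕ) :
    ∑ k ∈ range J, WW c k * Real.circleAverage (fun z => ‖HM c (lamH m) m α z‖ ^ 2) (tau k * Complex.I) R ≤ D' := by
  have hcm : ∀ k θ, circleMap ((tau k : ℂ) * Complex.I) R θ = circleMap 0 R θ + tau k * Complex.I := by
    intro k θ
    unfold circleMap
    ring
  have hre : ∀ θ, |(circleMap 0 R θ).re| < m - 5 := by
    intro θ
    have h1 := Complex.abs_re_le_norm (circleMap 0 R θ)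
    have h2 : ‖circleMap 0 R θ‖ = R := by rw [norm_circleMap_zero, abs_of_pos hR0]
    linarith
  have hnm : ∀ θ, ‖circleMap 0 R θ‖ ≤ 2 * m := by
    intro θ
    rw [norm_circleMap_zero, abs_of_pos hR0]
    have : (0:ℝ) ≤ m := Nat.cast_nonneg m
    linarith
  have hcont : ∀ k, Continuous fun θ : ℝ => ‖HM c (lamH m) m α (circleMap 0 R θ + tau k * Complex.I)‖ ^ 2 := by
    intro k
    rw [continuous_iff_continuousAt]
    intro θ
    have h1 : ContinuousAt (HM c (lamH m) m α) (circleMap 0 R θ + tau k * Complex.I) := by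
      apply (HM_diff (by omega) hO _).continuousAt
      have := hre θ
      simp only [Complex.add_re, Complex.mul_re, Complex.ofReal_re, Complex.I_re, mul_zero, Complex.ofReal_im, Complex.I_im,
        zero_mul, sub_zero, add_zero]
      linarith
    have h2 : ContinuousAt (fun θ : ℝ => circleMap 0 R θ + tau k * Complex.I) θ := by fun_prop
    exact (ContinuousAt.comp (f := fun θ : ℝ => circleMap 0 R θ + tau k * Complex.I) h1 h2).norm.pow 2
  have e1 : ∀ k, Real.circleAverage (fun z => ‖HM c (lamH m) m α z‖ ^ 2) (tau k * Complex.I) R =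
      (2 * Real.pi)⁻¹ * ∫ θ in (0:ℝ)..(2 * Real.pi), ‖HM c (lamH m) m α (circleMap 0 R θ + tau k * Complex.I)‖ ^ 2 := by
    intro k
    rw [Real.circleAverage_def, smul_eq_mul]
    simp_rw [hcm]
  simp_rw [e1]
  have e2 : ∑ k ∈ range J, WW c k * ((2 * Real.pi)⁻¹ * ∫ θ in (0:ℝ)..(2 * Real.pi),
      ‖HM c (lamH m) m α (circleMap 0 R θ + tau k * Complex.I)‖ ^ 2) =
      (2 * Real.pi)⁻¹ * ∫ θ in (0:ℝ)..(2 * Real.pi), ∑ k ∈ range J, WW c k *
        ‖HM c (lamH m) m α (circleMap 0 R θ + tau k * Complex.I)‖ ^ 2 := by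
    rw [intervalIntegral.integral_finsetSum, mul_sum]
    · refine sum_congr rfl fun k _ => ?_
      rw [intervalIntegral.integral_const_mul]
      ring
    · intro k _
      exact ((hcont k).const_mul _).intervalIntegrable _ _
  rw [e2]
  have hp := Real.pi_pos
  have h3 : ∫ θ in (0:ℝ)..(2 * Real.pi), ∑ k ∈ range J, WW c k *
        ‖HM c (lamH m) m α (circleMap 0 R θ + tau k * Complex.I)‖ ^ 2 ≤ ∫ θ in (0:ℝ)..(2 * Real.pi), D' := by
    apply intervalIntegral.integral_mono_on (by positivity)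
    · exact (continuous_finsetSum _ fun k _ => (hcont k).const_mul _).intervalIntegrable _ _
    · exact continuous_const.intervalIntegrable _ _
    · intro θ _
      exact hD' _ (hre θ) (hnm θ) J
  rw [intervalIntegral.integral_const, smul_eq_mul, sub_zero] at h3
  calc (2 * Real.pi)⁻¹ * ∫ θ in (0:ℝ)..(2 * Real.pi), ∑ k ∈ range J, WW c k *
        ‖HM c (lamH m) m α (circleMap 0 R θ + tau k * Complex.I)‖ ^ 2 ≤ (2 * Real.pi)⁻¹ * (2 * Real.pi * D') := by gcongr
    _ = D' := by field_simp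

/-- **zeros in the discs around the nodes** -/
lemma disc_sum {v : ℕ → ℝ} (hm : 26100 ≤ m) (hc1 : c ≤ 1 / 10) (hν : 0 < ν) (hvv : ∀ k, |v k| = vv c ν k)
    (hO : OutI m c v β α g D) {D' : ℝ}
    (hD' : ∀ z : ℂ, |z.re| < m - 5 → ‖z‖ ≤ 2 * m →
      ∀ J : ℕ, ∑ k ∈ range J, WW c k * ‖HM c (lamH m) m α (z + tau k * Complex.I)‖ ^ 2 ≤ D')
    {K : ℕ} (hK : 1 ≤ K) (Z : ℕ → Finset ℂ) (hZ : ∀ k < K, ∀ ρ ∈ Z k, dist ρ (tau k * Complex.I) ≤ m - 26 / 5) :
    (∑ k ∈ range K, ∑ ρ ∈ Z k, (analyticOrderNatAt (HM c (lamH m) m α) ρ : ℝ)) * Real.log ((m - 51 / 10) / (m - 26 / 5)) ≤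
      K * (D' / 2 - Real.log ν + Real.log (LL c K)) := by
  have hc := hO.hc
  have hmR : (26100:ℝ) ≤ m := by exact_mod_cast hm
  have hKR : (1:ℝ) ≤ K := by exact_mod_cast hK
  have hW := fun j => WW_pos hc hc1 j
  have hL := fun k => LL_two hc hc1 k
  rw [sum_mul]
  have hone : ∀ k ∈ range K, (∑ ρ ∈ Z k, (analyticOrderNatAt (HM c (lamH m) m α) ρ : ℝ)) * Real.log ((m - 51 / 10) / (m - 26 / 5)) ≤
      K / 2 * (WW c k * Real.circleAverage (fun z => ‖HM c (lamH m) m α z‖ ^ 2) (tau k * Complex.I) (m - 51 / 10)) +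
        (Real.log (LL c K) - Real.log ν) := by
    intro k hk
    rw [mem_range] at hk
    have hv := vv_pos hc hc1 hν k
    have hnode := HM_node hO k
    have hball : closedBall ((tau k : ℂ) * Complex.I) ((m:ℝ) - 51 / 10) ⊆ {s : ℂ | |s.re| < m} := by
      intro s hs
      rw [mem_closedBall, dist_eq_norm] at hs
      have h1 := Complex.abs_re_le_norm (s - (tau k : ℂ) * Complex.I)
      have h2 : (s - (tau k : ℂ) * Complex.I).re = s.re := by simp
      rw [h2] at h1
      simp only [Set.mem_ofPred_eq]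
      linarith
    have h1 := jensen_sq (f := HM c (lamH m) m α) (c := (tau k : ℂ) * Complex.I) (R1 := m - 26 / 5) (R := m - 51 / 10)
      (a := 1 / (K * WW c k)) (by linarith) (by linarith) (by have := hW k; positivity)
      ((HM_ana (by omega) hO).mono hball) (by
        rw [hnode]
        have h0 : v k ≠ 0 := by
          rw [← abs_pos, hvv k]
          exact hv
        exact_mod_cast h0) (Z k) (hZ k hk)
    refine h1.trans ?_
    have e1 : 1 / (2 * (1 / (K * WW c k))) = K / 2 * WW c k := by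
      have := (hW k).ne'
      field_simp
    rw [e1, hnode, Complex.norm_real, Real.norm_eq_abs, hvv k]
    have hWk := hW k
    have hLk := hL k
    have hLk0 : 0 < LL c k := by linarith
    have e2 : Real.log (1 / (K * WW c k)) = -(Real.log K + (Real.log (1 + k) + 4 * Real.log (LL c k))) := by
      rw [one_div, Real.log_inv, Real.log_mul (by positivity) hWk.ne', WW_LL, Real.log_mul (by positivity) (by positivity),
        Real.log_pow]
      push_cast
      ring
    have e3 : Real.log (vv c ν k) = Real.log ν - (Real.log (1 + k) + 3 * Real.log (LL c k)) := by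
      unfold vv
      rw [Real.log_div hν.ne' (by positivity), Real.log_mul (by positivity) (by positivity), Real.log_pow]
      push_cast
      ring
    rw [e2, e3]
    have h4 : Real.log (1 + k) ≤ Real.log K := by
      apply Real.log_le_log (by positivity)
      have : ((k + 1 : ℕ) : ℝ) ≤ K := by exact_mod_cast hk
      push_cast at this
      linarith
    have h5 : Real.log (LL c k) ≤ Real.log (LL c K) := Real.log_le_log hLk0 (LL_mono hc hk.le)
    linarith
  refine (sum_le_sum hone).trans ?_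
  rw [sum_add_distrib, ← mul_sum, sum_const, card_range, nsmul_eq_mul]
  have h2 := avg_nodes (by omega) hO hD' (R := m - 51 / 10) (by linarith) (by linarith) K
  have h3 : (K:ℝ) / 2 * (∑ k ∈ range K, WW c k * Real.circleAverage (fun z => ‖HM c (lamH m) m α z‖ ^ 2) (tau k * Complex.I) (m - 51 / 10)) ≤
      K / 2 * D' := mul_le_mul_of_nonneg_left h2 (by positivity)
  linarith

lemma pi16 : 16 * Real.pi ≤ 51 ∧ 50 ≤ 16 * Real.pi := by
  constructor
  · linarith [Real.pi_lt_d2]
  · linarith [Real.pi_gt_d2]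

/-- **few zeros in the middle of the strip** -/
theorem up_count {v : ℕ → ℝ} (hm : 26100 ≤ m) (hc1 : c ≤ 1 / 10) (hν : 0 < ν) (hvv : ∀ k, |v k| = vv c ν k)
    (hJP : JP c C) (hC : 0 ≤ C) (hD : 0 ≤ D) (hO : OutI m c v β α g D) : ∃ A Y₀ : ℝ, 0 < A ∧ ∀ Y : ℝ, Y₀ ≤ Y → ∀ Z : Finset ℂ,
      (∀ ρ ∈ Z, |ρ.re| ≤ m - 21 / 4 ∧ 0 < ρ.im ∧ ρ.im ≤ Y) →
      ∑ ρ ∈ Z, (analyticOrderNatAt (HM c (lamH m) m α) ρ : ℝ) ≤ A * (Y * Real.log (Real.log Y)) := by
  obtain ⟨D', hD'0, hD'⟩ := sq_nodes hc1 hJP hC hD hO (by omega)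
  have hc := hO.hc
  have hmR : (26100:ℝ) ≤ m := by exact_mod_cast hm
  set q : ℝ := Real.log ((m - 51 / 10) / (m - 26 / 5)) with hq
  have hq0 : 0 < q := by
    apply Real.log_pos
    rw [one_lt_div (by linarith)]
    linarith
  set B : ℝ := |D' / 2 - Real.log ν| + 1 with hB
  have hB0 : 0 < B := by positivity
  refine ⟨(B + 1) / q, max (2 / c) (Real.exp (Real.exp 1)), by positivity, fun Y hY Z hZ => ?_⟩
  have hY1 : 2 / c ≤ Y := (le_max_left _ _).trans hY
  have hY2 : Real.exp (Real.exp 1) ≤ Y := (le_max_right _ _).trans hY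
  have hYc : 20 ≤ Y := by
    refine le_trans ?_ hY1
    rw [le_div_iff₀ hc]
    linarith
  have hlogY : Real.exp 1 ≤ Real.log Y := by
    rwa [Real.le_log_iff_exp_le (by linarith)]
  have hloglog : 1 ≤ Real.log (Real.log Y) := by
    rw [Real.le_log_iff_exp_le (lt_of_lt_of_le (Real.exp_pos 1) hlogY)]
    exact hlogY
  obtain ⟨p1, p2⟩ := pi16
  have hp := Real.pi_pos
  set K : ℕ := ⌊Y / (16 * Real.pi)⌋₊ + 1 with hK
  have hK1 : 1 ≤ K := by omega
  have hKY : 1 + (K : ℝ) ≤ Y := by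
    have h1 : (⌊Y / (16 * Real.pi)⌋₊ : ℝ) ≤ Y / (16 * Real.pi) := Nat.floor_le (by positivity)
    have h2 : Y / (16 * Real.pi) ≤ Y / 50 := by
      apply div_le_div_of_nonneg_left (by linarith) (by norm_num) p2
    rw [hK]
    push_cast
    linarith
  set kk : ℂ → ℕ := fun ρ => ⌊ρ.im / (16 * Real.pi)⌋₊ with hkk
  have hmaps : ∀ ρ ∈ Z, kk ρ ∈ range K := by
    intro ρ hρ
    rw [mem_range, hK, Nat.lt_succ_iff]
    apply Nat.floor_le_floor
    have := (hZ ρ hρ).2.2
    gcongr
  rw [← sum_fiberwise_of_maps_to hmaps]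
  have h1 := disc_sum hm hc1 hν hvv hO hD' hK1 (fun k => Z.filter (fun ρ => kk ρ = k)) (by
    intro k _ ρ hρ
    rw [mem_filter] at hρ
    obtain ⟨hρZ, hρk⟩ := hρ
    obtain ⟨z1, z2, z3⟩ := hZ ρ hρZ
    have g1 : (k : ℝ) ≤ ρ.im / (16 * Real.pi) := by rw [← hρk]; exact Nat.floor_le (by positivity)
    have g2 : ρ.im / (16 * Real.pi) < k + 1 := by rw [← hρk]; exact Nat.lt_floor_add_one _
    rw [le_div_iff₀ (by positivity)] at g1
    rw [div_lt_iff₀ (by positivity)] at g2
    rw [dist_eq_norm]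
    apply le_of_sq_le_sq _ (by linarith)
    rw [norm_sq_c]
    have e1 : (ρ - (tau k : ℂ) * Complex.I).re = ρ.re := by simp
    have e2 : (ρ - (tau k : ℂ) * Complex.I).im = ρ.im - tau k := by simp
    rw [e1, e2]
    have e3 : ρ.re ^ 2 ≤ (m - 21 / 4) ^ 2 := by
      rw [← sq_abs]
      exact pow_le_pow_left₀ (abs_nonneg _) z1 2
    have e4 : (ρ.im - tau k) ^ 2 ≤ 51 ^ 2 := by
      rw [← sq_abs]
      apply pow_le_pow_left₀ (abs_nonneg _)
      unfold tau
      rw [abs_le]
      constructor <;> nlinarith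
    nlinarith)
  rw [← hq] at h1
  have h2 : Real.log (LL c K) ≤ 1 + Real.log (Real.log Y) := by
    have g1 : LL c K ≤ 2 * Real.log Y := by
      unfold LL
      have g2 : (1 + (K:ℝ)) / c ≤ Y * Y := by
        rw [div_le_iff₀ hc]
        rw [div_le_iff₀ hc] at hY1
        have g3 : (1:ℝ) ≤ Y * c := by linarith
        calc (1 + (K:ℝ)) ≤ Y * 1 := by linarith
          _ ≤ Y * (Y * c) := by gcongr
          _ = _ := by ring
      calc Real.log ((1 + (K:ℝ)) / c) ≤ Real.log (Y * Y) := Real.log_le_log (by positivity) g2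
        _ = 2 * Real.log Y := by rw [Real.log_mul (by linarith) (by linarith)]; ring
    have g4 := LL_two hc hc1 K
    have g5 : 0 < Real.log Y := lt_of_lt_of_le (Real.exp_pos 1) hlogY
    calc Real.log (LL c K) ≤ Real.log (2 * Real.log Y) := Real.log_le_log (by linarith) g1
      _ = Real.log 2 + Real.log (Real.log Y) := Real.log_mul (by norm_num) g5.ne'
      _ ≤ _ := by linarith [Real.log_two_lt_d9]
  have h3 : (K:ℝ) * (D' / 2 - Real.log ν + Real.log (LL c K)) ≤ Y * ((B + 1) * Real.log (Real.log Y)) := by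
    have g1 : D' / 2 - Real.log ν + Real.log (LL c K) ≤ (B + 1) * Real.log (Real.log Y) := by
      have := le_abs_self (D' / 2 - Real.log ν)
      have : D' / 2 - Real.log ν + 1 ≤ B := by rw [hB]; linarith
      nlinarith
    calc (K:ℝ) * (D' / 2 - Real.log ν + Real.log (LL c K)) ≤ K * ((B + 1) * Real.log (Real.log Y)) := by gcongr
      _ ≤ Y * ((B + 1) * Real.log (Real.log Y)) := by
          apply mul_le_mul_of_nonneg_right (by linarith)
          positivity
  have h4 := h1.trans h3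
  rw [← le_div_iff₀ hq0] at h4
  refine h4.trans (le_of_eq ?_)
  ring

end

end Pool.Agent.Q127.EZ
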