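import Mathlib
import Pool.Agent.Q127.EZ.Up
import Pool.Agent.Q284.S.Gs2

/-!
# The member of the Selberg class
-/

set_option autoImplicit false

open Finset MeasureTheory Metric Filter

namespace Pool.Agent.Q127.EZ

open Pool.Agent.H469R10.HO Pool.Agent.H99R3.M469 Pool.Agent.H13R3.EM

theorem toSel2 {m : ℕ} {c : ℝ} {β α : ℕ → ℝ} (hm : 1 ≤ m) (hc : 0 < c)
    (hβ : ∀ p : ℕ, p.Prime → |β p| ≤ (p : ℝ) ^ (-(1 / 2 + m / lamH m)))
    (hα : ∀ n : ℕ, 1 ≤ n → α n = if Squarefree n then ∏ p ∈ n.primeFactors, β p else 0)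
    (hsum : Summable (fun n => |α n|))
    (hrel0 : ∀ x : ℝ, 0 < x → ∑' n, α n * Real.cos (uu c (lamH m) n * x) =
      x ^ (2 * m) * ∑' n, α n * Real.cos (uu c (lamH m) n / x)) :
    ∃ F : Sel, F.m0 = 0 ∧ F.deg = ((4 * m + 3 : ℕ) : ℝ) ∧ (∀ n, F.a n = ((fr m β n : ℝ) : ℂ)) ∧
      (∀ (j : Fin F.r) (n : ℕ) (s : ℂ), s.im ≠ 0 → (F.lam j : ℂ) * s + F.μ j ≠ -(n : ℂ)) ∧
      F.r = 1 ∧ F.Q = Real.exp (-(lamH m * Real.log c)) ∧ F.ω = (-1) ^ (m + 1) ∧
      ∀ j, F.lam j = lamH m ∧ F.μ j = 1 / 4 := by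
  have hF : Pool.Agent.H469R10.HO.TaskF := Pool.Agent.H144R3.T469F.taskF
  have hG : Pool.Agent.H469R10.HO.TaskG := Pool.Agent.H853R3.Bol.taskG
  have hrel : ∀ x : ℝ, 0 < x → ∑' n, α n * Real.cos (uu c (lamH m) n * x) =
      1 * x ^ (2 * m) * ∑' n, α n * Real.cos (uu c (lamH m) n / x) := fun x hx => by
    rw [one_mul]; exact hrel0 x hx
  obtain ⟨σ, hσ1⟩ : ∃ σ : ℝ, σ = 1 := ⟨1, rfl⟩
  have hσ : σ = 1 ∨ σ = -1 := Or.inl hσ1
  rw [← hσ1] at hrel
  have hl := lam_pos m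
  have hl1 := lam_ge m
  -- the theta relation
  have hrel2 := hG m hm α (uu c (lamH m)) hsum (uu_zero hl) (fun n hn => uu_pos hc hn) σ hσ hrel
  obtain ⟨ε, hε⟩ : ∃ ε : ℝ, ε = (-1) ^ (m + 1) * σ := ⟨_, rfl⟩
  have hε1 : ε = 1 ∨ ε = -1 := by
    rw [hε]
    rcases neg_one_pow_eq_or ℝ (m + 1) with h | h <;> rcases hσ with h' | h' <;> rw [h, h'] <;> norm_num
  have hεε : ε * ε = 1 := by
    rcases hε1 with h | h <;> rw [h] <;> norm_num
  obtain ⟨Λ, hΛd, hΛfe, hΛc, hΛs, C, hΛg⟩ := hF c (lamH m) (2 * m + 2) hc (by linarith)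
    (by have : (0 : ℝ) ≤ m := Nat.cast_nonneg m
        linarith)
    (fun n => α n * uu c (lamH m) n ^ (2 * m + 1))
    (by rw [uu_zero hl]; simp)
    (by
      refine Summable.of_nonneg_of_le (fun n => by
        apply mul_nonneg (abs_nonneg _)
        apply Real.rpow_nonneg
        rcases Nat.eq_zero_or_pos n with h | h
        · rw [h, uu_zero hl]
        · exact (uu_pos hc h).le) (fun n => ?_) hsum
      rcases Nat.eq_zero_or_pos n with h | h
      · subst h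
        rw [uu_zero hl]
        simp
      · have hu := uu_pos (lam := lamH m) hc h
        rw [abs_mul, abs_of_pos (pow_pos hu _), mul_assoc, ← Real.rpow_natCast,
          ← Real.rpow_add hu]
        have : ((2 * m + 1 : ℕ) : ℝ) + -((2 * (m : ℝ) + 2) - 1) = 0 := by push_cast; ring
        rw [this, Real.rpow_zero, mul_one])
    ε hε1
    (by
      intro t ht
      have h1 := hrel2 t ht
      rw [hε]
      have h2 : t ^ (2 * (m : ℝ) + 2) = t ^ (2 * m + 2) := by
        rw [← Real.rpow_natCast]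
        push_cast
        rfl
      rw [h2]
      exact h1)
  have hFser : ∀ s : ℂ, 2 < s.re → FF m c Λ s = LSeries (ff m β) s := by
    intro s hs
    apply FF_series hc hα
    apply hΛs
    have hm0 : (0 : ℝ) ≤ m := Nat.cast_nonneg m
    have h1 : (((lamH m : ℝ) : ℂ) * s + 1 / 4).re = lamH m * s.re + 1 / 4 := by
      simp
    rw [h1]
    have h2 : lamH m * 2 ≤ lamH m * s.re := by
      apply mul_le_mul_of_nonneg_left hs.le hl.le
    have h3 : lamH m = 2 * m + 3 / 2 := rfl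
    nlinarith
  obtain ⟨ρ, C', hgr⟩ := FF_growth (m := m) (c := c) hΛg

  refine ⟨Sel.mk (ff m β) 0 (FF m c Λ) 1 (Real.exp (-(lamH m * Real.log c))) (fun _ => lamH m)
    (fun _ => 1 / 4) (ε : ℂ) (bt m β) ?_ ?_ (FF_diff hΛd) ⟨ρ, C', hgr⟩ ?_ (Real.exp_pos _) (fun _ => hl)
    (fun _ => by norm_num) ?_ ?_ (fun n hn => bt_zero hn) ⟨0, by norm_num, 1, ?_⟩ ?_, rfl, ?_, fun n => rfl, ?_, rfl, rfl, ?_,
    fun _ => ⟨rfl, rfl⟩⟩
  · unfold ff
    rw [fr_one]
    simp
  · intro e he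
    refine ⟨1, fun n hn => ?_⟩
    have h1 : ‖ff m β n‖ ≤ 1 := by
      unfold ff
      rw [Complex.norm_real, Real.norm_eq_abs]
      exact abs_fr_le hβ n
    have h2 : (1 : ℝ) ≤ (n : ℝ) ^ e := Real.one_le_rpow (by exact_mod_cast hn) he.le
    linarith
  · intro s hs
    rw [pow_zero, one_mul]
    exact FF_eq hΛd hβ hFser hs
  · rcases hε1 with h | h <;> rw [h] <;> simp
  · intro s _ _ hs1 hs2
    have g1 := FF_completed (m := m) (c := c) (Λ := Λ) (s := s) (hs1 0)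
    have g2 := FF_completed (m := m) (c := c) (Λ := Λ) (s := 1 - starRingEnd ℂ s) (hs2 0)
    simp only [pow_zero, div_one, Finset.univ_unique, Finset.prod_singleton]
    have g1' : ((Real.exp (-(lamH m * Real.log c)) : ℝ) : ℂ) ^ s *
        Complex.Gamma (((lamH m : ℝ) : ℂ) * s + 1 / 4) * FF m c Λ s =
        ((Real.exp (Real.log c * (1 / 4 - 2 * m - 1)) : ℝ) : ℂ) *
        Λ (((lamH m : ℝ) : ℂ) * s + 1 / 4) := by
      rw [← g1]; ring
    have g2' : ((Real.exp (-(lamH m * Real.log c)) : ℝ) : ℂ) ^ (1 - starRingEnd ℂ s) *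
        Complex.Gamma (((lamH m : ℝ) : ℂ) * (1 - starRingEnd ℂ s) + 1 / 4) *
        FF m c Λ (1 - starRingEnd ℂ s) =
        ((Real.exp (Real.log c * (1 / 4 - 2 * m - 1)) : ℝ) : ℂ) *
        Λ (((lamH m : ℝ) : ℂ) * (1 - starRingEnd ℂ s) + 1 / 4) := by
      rw [← g2]; ring
    rw [g1', g2', map_mul, Complex.conj_ofReal, ← hΛc]
    have h3 : starRingEnd ℂ (((lamH m : ℝ) : ℂ) * (1 - starRingEnd ℂ s) + 1 / 4) =
        (((2 * (m : ℝ) + 2 : ℝ)) : ℂ) - (((lamH m : ℝ) : ℂ) * s + 1 / 4) := by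
      rw [map_add, map_mul, map_sub, map_one, Complex.conj_conj, Complex.conj_ofReal, map_div₀,
        map_one]
      have h4 : starRingEnd ℂ (4 : ℂ) = 4 := Complex.conj_ofNat 4
      rw [h4]
      unfold lamH
      push_cast
      ring
    rw [h3, hΛfe]
    have h5 : (ε : ℂ) * ε = 1 := by exact_mod_cast hεε
    linear_combination (-((Real.exp (Real.log c * (1 / 4 - 2 * m - 1)) : ℝ) : ℂ) *
      Λ (((lamH m : ℝ) : ℂ) * s + 1 / 4)) * h5
  · intro n _
    rw [Real.rpow_zero, mul_one]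
    exact norm_bt_le hβ n
  · intro s hs
    exact ⟨LSeriesSummable_of_bounded_of_one_lt_re (m := 1) (fun n _ => norm_bt_le hβ n) hs, exp_bt hβ hs⟩
  · unfold Sel.deg
    simp only [Finset.univ_unique, Finset.sum_const, Finset.card_singleton, one_smul]
    unfold lamH
    push_cast
    ring
  · intro j n s hs h
    have h1 := congrArg Complex.im h
    have h2 : (((lamH m : ℝ) : ℂ) * s + 1 / 4).im = lamH m * s.im := by
      rw [Complex.add_im, Complex.im_ofReal_mul]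
      simp
    have h3 : (-(n : ℂ)).im = 0 := by simp
    rw [h3] at h1
    have h4 : lamH m * s.im = 0 := by rw [← h2]; exact h1
    rcases mul_eq_zero.1 h4 with h5 | h5
    · exact hl.ne' h5
    · exact hs h5
  · show (ε : ℂ) = (-1) ^ (m + 1)
    rw [hε, hσ1]
    push_cast
    ring


open Pool.Agent.Q284.S (Bd GG GG_diff connect)

section

variable {m : ℕ} {c D : ℝ} {v β α g : ℕ → ℝ}

/-- the Dirichlet series in the variable of the boundary function -/
lemma GG_series2 (hO : OutI m c v β α g D) {F : ℂ → ℂ}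
    (hs : ∀ s : ℂ, 1 < s.re → F s = LSeries (ff m β) s) {z : ℂ} (hz : lamH m < z.re) :
    HasSum (fun n : ℕ => if n = 0 then 0 else
      ((α n : ℝ) : ℂ) * ((uu c (lamH m) n : ℝ) : ℂ) ^ (-z)) (GG m c F z) := by
  have hl := lam_pos m
  have hc := hO.hc
  have hlc : (lamH m : ℂ) ≠ 0 := by exact_mod_cast hl.ne'
  obtain ⟨s, hsd⟩ : ∃ s : ℂ, s = (kap m : ℂ) + z / (lamH m : ℂ) := ⟨_, rfl⟩
  have hkap : 0 < kap m := by unfold kap; positivity
  have hre : s.re = kap m + z.re / lamH m := by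
    rw [hsd, Complex.add_re, Complex.ofReal_re, Complex.div_ofReal_re]
  have hs1 : 1 < s.re := by
    rw [hre]
    have : 1 < z.re / lamH m := by rw [lt_div_iff₀ hl]; linarith
    linarith
  have hsum : LSeriesSummable (ff m β) s :=
    LSeriesSummable_of_bounded_of_one_lt_re (m := 1) (fun n _ => by
      unfold ff
      rw [Complex.norm_real, Real.norm_eq_abs]
      exact abs_fr_le hO.hβ n) hs1
  have h1 : HasSum (fun n : ℕ => LSeries.term (ff m β) s n) (LSeries (ff m β) s) := hsum.hasSum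
  have h2 := h1.mul_left ((c : ℂ) ^ (-z))
  unfold GG
  rw [← hsd, hs s hs1]
  refine h2.congr_fun fun n => ?_
  rcases Nat.eq_zero_or_pos n with h0 | h0
  · subst h0
    simp [LSeries.term_zero]
  · rw [if_neg h0.ne', LSeries.term_of_ne_zero h0.ne']
    have hn : (0 : ℝ) < n := by exact_mod_cast h0
    have hnc : ((n : ℕ) : ℂ) ≠ 0 := by exact_mod_cast h0.ne'
    unfold ff
    rw [fr_eq hO.hα h0]
    have hu := uu_pos (lam := lamH m) hc h0
    have e2 : (n : ℝ) ^ kap m = Real.exp (Real.log n * kap m) := Real.rpow_def_of_pos hn _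
    have e3 : ((n : ℕ) : ℂ) ^ s = Complex.exp ((Real.log n : ℂ) * s) := by
      rw [show ((n : ℕ) : ℂ) = ((n : ℝ) : ℂ) by push_cast; rfl]
      exact pow_eq_exp hn s
    have e5 : ∀ a y : ℂ, a / Complex.exp y = a * Complex.exp (-y) := by
      intro a y; rw [Complex.exp_neg, div_eq_mul_inv]
    rw [pow_eq_exp hu, uu_log hc h0, e2, e3, e5, pow_eq_exp hc, hsd]
    push_cast
    have e4 : ∀ a b c' d : ℂ, Complex.exp a * (b * Complex.exp c' * Complex.exp d) =
        b * Complex.exp (a + c' + d) := by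
      intro a b c' d
      rw [Complex.exp_add, Complex.exp_add]
      ring
    rw [e4]
    congr 2
    field_simp
    ring

/-- the factor between the Mellin transform and the Dirichlet series -/
noncomputable def Uf (m : ℕ) (c : ℝ) (s : ℂ) : ℂ :=
  Complex.Gamma (-(m : ℂ) + s) * Complex.cos (Real.pi * (-(m : ℂ) + s) / 2) * (c : ℂ) ^ ((m : ℂ) - s)

lemma Uf_gam {s : ℂ} (hs : s.im ≠ 0) (m : ℕ) (k : ℕ) : -(m : ℂ) + s ≠ -(k : ℂ) := by
  intro h
  have := congrArg Complex.im h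
  simp at this
  exact hs this

/-- the Mellin transform in terms of the Dirichlet series -/
lemma HM_F (hm : 1 ≤ m) (hO : OutI m c v β α g D) {F : ℂ → ℂ} (hF : Differentiable ℂ F)
    (hser : ∀ s : ℂ, 1 < s.re → F s = LSeries (ff m β) s) {s : ℂ} (hs : |s.re| < m) (hi : s.im ≠ 0) :
    HM c (lamH m) m α s = Uf m c s * F (1 / 2 + s / lamH m) := by
  have hc := hO.hc
  have hl := lam_pos m
  have hlc : (lamH m : ℂ) ≠ 0 := by exact_mod_cast hl.ne'
  rw [abs_lt] at hs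
  have hcon := connect (bd_of_outI hm hO) (GG_diff hF hc) (R := lamH m) (fun z hz => GG_series2 hO hser hz)
    (w := -(m : ℂ) + s) (by simp; linarith) (by simp; linarith)
  have hΓ : Complex.Gamma (-(m : ℂ) + s) ≠ 0 := Complex.Gamma_ne_zero (Uf_gam hi m)
  have h1 : HM c (lamH m) m α s = (Complex.Gamma (-(m : ℂ) + s) * Complex.cos (Real.pi * (-(m : ℂ) + s) / 2)) *
      GG m c F (-(m : ℂ) + s) := by
    unfold HM
    rw [mul_assoc, ← hcon]
    field_simp
  rw [h1]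
  unfold GG Uf
  have e1 : (kap m : ℂ) + (-(m : ℂ) + s) / (lamH m : ℂ) = 1 / 2 + s / lamH m := by
    unfold kap
    push_cast
    field_simp
    ring
  have e2 : -(-(m : ℂ) + s) = (m : ℂ) - s := by ring
  rw [e1, e2]
  ring

lemma cos_ne {z : ℂ} (hz : z.im ≠ 0) : Complex.cos z ≠ 0 := by
  rw [Ne, Complex.cos_eq_zero_iff]
  rintro ⟨k, hk⟩
  apply hz
  rw [hk]
  have : ((2 * (k : ℂ) + 1) * Real.pi / 2) = (((2 * (k : ℝ) + 1) * Real.pi / 2 : ℝ) : ℂ) := by push_cast; ring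
  rw [this, Complex.ofReal_im]

lemma Uf_ne (hc : 0 < c) {s : ℂ} (hi : s.im ≠ 0) : Uf m c s ≠ 0 := by
  unfold Uf
  refine mul_ne_zero (mul_ne_zero (Complex.Gamma_ne_zero (Uf_gam hi m)) (cos_ne ?_)) ?_
  · have h1 : ((Real.pi : ℂ) * (-(m : ℂ) + s) / 2).im = Real.pi / 2 * s.im := by
      have e : (Real.pi : ℂ) * (-(m : ℂ) + s) / 2 = ((Real.pi / 2 : ℝ) : ℂ) * (((-(m : ℝ) : ℝ) : ℂ) + s) := by
        push_cast; ring
      rw [e, Complex.im_ofReal_mul, Complex.add_im, Complex.ofReal_im, zero_add]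
    rw [h1]
    have := Real.pi_pos
    exact mul_ne_zero (by positivity) hi
  · rw [Complex.cpow_def_of_ne_zero (by exact_mod_cast hc.ne')]
    exact Complex.exp_ne_zero _

lemma Uf_ana (hc : 0 < c) {s : ℂ} (hi : s.im ≠ 0) : AnalyticAt ℂ (Uf m c) s := by
  have hopen : IsOpen {z : ℂ | z.im ≠ 0} := isOpen_ne_fun (by fun_prop) continuous_const
  have hd : DifferentiableOn ℂ (Uf m c) {z : ℂ | z.im ≠ 0} := by
    intro z hz
    apply DifferentiableAt.differentiableWithinAt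
    have h1 : DifferentiableAt ℂ Complex.Gamma (-(m : ℂ) + z) := Complex.differentiableAt_Gamma _ fun k => Uf_gam hz m k
    have h2 : DifferentiableAt ℂ (fun z : ℂ => Complex.Gamma (-(m : ℂ) + z)) z :=
      DifferentiableAt.comp (g := Complex.Gamma) (f := fun z : ℂ => -(m : ℂ) + z) z h1 (by fun_prop)
    have h3 : DifferentiableAt ℂ (fun z : ℂ => Complex.cos (Real.pi * (-(m : ℂ) + z) / 2)) z := by fun_prop
    have h4 : DifferentiableAt ℂ (fun z : ℂ => (c : ℂ) ^ ((m : ℂ) - z)) z :=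
      DifferentiableAt.const_cpow (by fun_prop) (Or.inl (by exact_mod_cast hc.ne'))
    exact (h2.mul h3).mul h4
  exact hd.analyticAt (hopen.mem_nhds hi)

/-- zeros of the Dirichlet series and zeros of the Mellin transform -/
lemma ord_eq (hm : 1 ≤ m) (hO : OutI m c v β α g D) {F : ℂ → ℂ} (hF : Differentiable ℂ F)
    (hser : ∀ s : ℂ, 1 < s.re → F s = LSeries (ff m β) s) {s : ℂ} (hs : |s.re| < m) (hi : s.im ≠ 0) :
    analyticOrderNatAt (HM c (lamH m) m α) s = analyticOrderNatAt F (1 / 2 + s / lamH m) := by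
  have hc := hO.hc
  have hl := lam_pos m
  have hlc : (lamH m : ℂ) ≠ 0 := by exact_mod_cast hl.ne'
  have ho1 : IsOpen {z : ℂ | |z.re| < m} := isOpen_lt (by fun_prop) continuous_const
  have ho2 : IsOpen {z : ℂ | z.im ≠ 0} := isOpen_ne_fun (by fun_prop) continuous_const
  have hev : HM c (lamH m) m α =ᶠ[nhds s] (Uf m c * (F ∘ fun z => 1 / 2 + z / lamH m)) := by
    filter_upwards [ho1.mem_nhds hs, ho2.mem_nhds hi] with z hz1 hz2
    exact HM_F hm hO hF hser hz1 hz2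
  have hφ : AnalyticAt ℂ (fun z : ℂ => 1 / 2 + z / (lamH m : ℂ)) s := by fun_prop
  have hφ' : deriv (fun z : ℂ => 1 / 2 + z / (lamH m : ℂ)) s ≠ 0 := by
    have : HasDerivAt (fun z : ℂ => 1 / 2 + z / (lamH m : ℂ)) (1 / (lamH m : ℂ)) s :=
      ((hasDerivAt_id s).div_const _).const_add _
    rw [this.deriv]
    exact one_div_ne_zero hlc
  have hFa : AnalyticAt ℂ (F ∘ fun z : ℂ => 1 / 2 + z / (lamH m : ℂ)) s :=
    (hF.analyticAt _).comp hφ
  unfold analyticOrderNatAt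
  rw [analyticOrderAt_congr hev, analyticOrderAt_mul (Uf_ana hc hi) hFa,
    (Uf_ana hc hi).analyticOrderAt_eq_zero.2 (Uf_ne hc hi), zero_add, analyticOrderAt_comp_of_deriv_ne_zero hφ hφ']

end

end Pool.Agent.Q127.EZ
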