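import Mathlib
import Pool.Agent.Q127.EZ.Sel
import Pool.Agent.Q284.S.Zr

/-!
# Many zeros in total
-/

set_option autoImplicit false

open Filter Topology MeasureTheory Set Complex

namespace Pool.Agent.Q127.EZ

open Pool.Agent.H469R10.HO Pool.Agent.H13R3.EM
open Pool.Agent.Q284.S (Bd Mm Mm_le gam_cos gam_cos_low strip order_pos right_bounds ord_shift pow_small)

/-- large values in short intervals force many zeros -/
theorem zeros_window2 {F : ℂ → ℂ} (hF : Differentiable ℂ F) {K D a : ℝ} {N : ℕ} (hK : 0 < K) (ha : a < 1 / 2)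
    (hgr : ∀ s : ℂ, a ≤ s.re → ‖F s‖ ≤ K * ‖s + 1‖ ^ N)
    (hR : ∀ s : ℂ, 3 / 2 ≤ s.re → Real.exp (-D) ≤ ‖F s‖ ∧ ‖F s‖ ≤ Real.exp D)
    {p : ℝ} (hp : 0 < p)
    (hbig : ∀ᶠ T : ℝ in atTop, ∃ t : ℝ, T ≤ t ∧ t ≤ T + 1 ∧ T ^ p < ‖F (1 / 2 + t * I)‖) :
    ∃ ε : ℝ, 0 < ε ∧ ∀ᶠ T : ℝ in atTop, ∃ Z : Finset ℂ,
      (∀ ρ ∈ Z, F ρ = 0 ∧ a < ρ.re ∧ T ≤ ρ.im ∧ ρ.im ≤ T + 11) ∧
      ε * Real.log T ≤ ∑ ρ ∈ Z, (analyticOrderNatAt F ρ : ℝ) := by
  obtain ⟨η0, hη0⟩ : ∃ η0 : ℝ, η0 = min (1 / 4) (1 / 2 - a) := ⟨_, rfl⟩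
  have hη00 : 0 < η0 := by rw [hη0]; exact lt_min (by norm_num) (by linarith)
  have hη04 : η0 ≤ 1 / 4 := by rw [hη0]; exact min_le_left _ _
  have hησ : η0 ≤ 1 / 2 - a := by rw [hη0]; exact min_le_right _ _
  obtain ⟨ε, hε, hsab⟩ := Pool.Agent.W186.LH.sabZ η0 p (N + 1) hη00 hη04 hp (by positivity)
  refine ⟨ε / 2, by linarith, ?_⟩
  have hlogt : Tendsto Real.log atTop atTop := Real.tendsto_log_atTop
  have hall : ∀ᶠ U : ℝ in atTop, ∃ Z : Finset ℂ,
      (∀ ρ ∈ Z, F ρ = 0 ∧ a < ρ.re ∧ U - 5 ≤ ρ.im ∧ ρ.im ≤ U + 6) ∧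
      ε * Real.log U ≤ ∑ ρ ∈ Z, (analyticOrderNatAt F ρ : ℝ) := by
    filter_upwards [hbig, eventually_ge_atTop 20, pow_small K N,
      hlogt.eventually (eventually_ge_atTop 1), hlogt.eventually (eventually_ge_atTop (D / ε))] with
      U hm hU hgrow hl1 hlD
    have hU0 : 0 < U := by linarith
    obtain ⟨L, hL⟩ : ∃ L : ℝ, L = Real.log U := ⟨_, rfl⟩
    rw [← hL] at hl1 hlD ⊢
    have hL0 : 0 < L := by linarith
    have hUL : ∀ r : ℝ, Real.exp (r * L) = U ^ r := by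
      intro r
      rw [Real.rpow_def_of_pos hU0, hL, mul_comm]
    -- a large value
    obtain ⟨t₀, ht1, ht2, ht3⟩ := hm
    obtain ⟨b, hb⟩ : ∃ b : ℂ, b = ((1 / 2 - η0 : ℝ) : ℂ) + t₀ * I := ⟨_, rfl⟩
    have hbre : b.re = 1 / 2 - η0 := by rw [hb]; simp
    have hbim : b.im = t₀ := by rw [hb]; simp
    by_contra hcon
    push Not at hcon
    have hmem : ∀ (z : ℂ) (r : ℝ), z ∈ Metric.closedBall (5 : ℂ) r → 5 - r ≤ z.re ∧ z.re ≤ 5 + r ∧ |z.im| ≤ r := by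
      intro z r hz
      rw [Metric.mem_closedBall, dist_eq_norm] at hz
      have h2 := (Complex.abs_re_le_norm (z - 5)).trans hz
      have h3 := (Complex.abs_im_le_norm (z - 5)).trans hz
      rw [sub_re, abs_le] at h2
      rw [sub_im] at h3
      have e1 : (5 : ℂ).re = 5 := rfl
      have e2 : (5 : ℂ).im = 0 := rfl
      rw [e1] at h2
      rw [e2, sub_zero] at h3
      exact ⟨by linarith [h2.1], by linarith [h2.2], h3⟩
    have key := hsab L (fun z => F (z + b)) hL0 (hF.comp (by fun_prop)) ?_ ?_ ?_ ((η0 : ℝ) : ℂ) ?_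
    · have e1 : ((η0 : ℝ) : ℂ) + b = 1 / 2 + t₀ * I := by rw [hb]; push_cast; ring
      simp only [e1] at key
      rw [hUL] at key
      exact absurd key (not_le.2 ht3)
    · intro z hz
      obtain ⟨z1, z2, z3⟩ := hmem z 5 hz
      have hre : a ≤ (z + b).re := by rw [add_re, hbre]; linarith
      refine (hgr _ hre).trans ?_
      have hn : ‖z + b + 1‖ ≤ 4 * U := by
        refine (Complex.norm_le_abs_re_add_abs_im _).trans ?_
        have e1 : (z + b + 1).re = z.re + (1 / 2 - η0) + 1 := by simp [hbre]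
        have e2 : (z + b + 1).im = z.im + t₀ := by simp [hbim]
        rw [e1, e2]
        have e3 : |z.re + (1 / 2 - η0) + 1| ≤ 12 := by
          rw [abs_le]
          constructor <;> linarith
        have e4 : |z.im + t₀| ≤ 5 + 2 * U := by
          refine (abs_add_le _ _).trans ?_
          rw [abs_of_nonneg (by linarith : 0 ≤ t₀)]
          linarith
        linarith
      have h3 : K * ‖z + b + 1‖ ^ N ≤ K * (4 * U) ^ N :=
        mul_le_mul_of_nonneg_left (pow_le_pow_left₀ (norm_nonneg _) hn N) hK.le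
      rw [hUL]
      have h4 : U ^ ((N : ℝ) + 1) = U ^ (N + 1) := by
        rw [← Real.rpow_natCast]
        push_cast
        rfl
      rw [h4]
      exact h3.trans hgrow
    · intro z hz
      obtain ⟨z1, z2, z3⟩ := hmem z (7 / 2) hz
      have hre : 3 / 2 ≤ (z + b).re := by rw [add_re, hbre]; linarith
      have hDL : D ≤ ε * L := by
        rw [div_le_iff₀ hε] at hlD
        linarith
      obtain ⟨r1, r2⟩ := hR _ hre
      exact ⟨(Real.exp_le_exp.2 (by linarith)).trans r1, r2.trans (Real.exp_le_exp.2 hDL)⟩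
    · intro Z hZ
      have hinj : Set.InjOn (fun z : ℂ => z + b) Z := fun x _ y _ h => add_right_cancel h
      have h2 := hcon (Z.image fun z => z + b) (fun ρ hρ => by
        rw [Finset.mem_image] at hρ
        obtain ⟨z, hz, rfl⟩ := hρ
        obtain ⟨hz0, hzb⟩ := hZ z hz
        obtain ⟨z1, z2, z3⟩ := hmem z (5 - η0 / 4) hzb
        rw [abs_le] at z3
        refine ⟨hz0, ?_, ?_, ?_⟩
        · rw [add_re, hbre]; linarith
        · rw [add_im, hbim]; linarith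
        · rw [add_im, hbim]; linarith)
      rw [Finset.sum_image hinj] at h2
      have h3 : ∑ z ∈ Z, (analyticOrderNatAt (fun z => F (z + b)) z : ℝ) =
          ∑ z ∈ Z, (analyticOrderNatAt F (z + b) : ℝ) := Finset.sum_congr rfl fun z _ => by rw [ord_shift]
      rw [h3]
      exact h2.le
    · rw [Metric.mem_closedBall, dist_eq_norm]
      have : ((η0 : ℝ) : ℂ) - 5 = ((η0 - 5 : ℝ) : ℂ) := by push_cast; rfl
      rw [this, Complex.norm_real, Real.norm_eq_abs, abs_of_neg (by linarith)]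
      linarith
  -- shift
  have hsh : Tendsto (fun T : ℝ => T + 5) atTop atTop := tendsto_atTop_add_const_right _ _ tendsto_id
  filter_upwards [hsh.eventually hall, eventually_ge_atTop 1] with T hT hT1
  obtain ⟨Z, hZ, hsum⟩ := hT
  have hT0 : 0 < T := by linarith
  have hl5 : Real.log T ≤ Real.log (T + 5) := Real.log_le_log hT0 (by linarith)
  have hl0 : 0 ≤ Real.log T := Real.log_nonneg hT1
  refine ⟨Z, fun ρ hρ => ?_, ?_⟩
  · obtain ⟨z1, z2, z3, z4⟩ := hZ ρ hρ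
    exact ⟨z1, z2, by linarith, by linarith⟩
  · refine le_trans ?_ hsum
    nlinarith

/-- counting over disjoint windows -/
theorem zeros_total2 {F : ℂ → ℂ} {a ε : ℝ} (hε : 0 < ε)
    (hwin : ∀ᶠ T : ℝ in atTop, ∃ Z : Finset ℂ,
      (∀ ρ ∈ Z, F ρ = 0 ∧ a < ρ.re ∧ T ≤ ρ.im ∧ ρ.im ≤ T + 11) ∧
      ε * Real.log T ≤ ∑ ρ ∈ Z, (analyticOrderNatAt F ρ : ℝ)) :
    ∃ δ : ℝ, 0 < δ ∧ ∀ᶠ T : ℝ in atTop, ∃ Z : Finset ℂ,
      (∀ ρ ∈ Z, F ρ = 0 ∧ a < ρ.re ∧ 0 < ρ.im ∧ ρ.im ≤ T) ∧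
      δ * (T * Real.log T) ≤ ∑ ρ ∈ Z, (analyticOrderNatAt F ρ : ℝ) := by
  classical
  obtain ⟨T₀, hT₀⟩ := eventually_atTop.1 hwin
  refine ⟨ε / 200, by positivity, ?_⟩
  filter_upwards [eventually_ge_atTop (2 * T₀), eventually_ge_atTop (Real.exp 2),
    eventually_ge_atTop 100] with T hT1 hTe hT4
  have hT0 : 0 < T := by linarith
  have hlT : 2 ≤ Real.log T := by
    have := Real.log_le_log (Real.exp_pos _) hTe
    rwa [Real.log_exp] at this
  obtain ⟨n, hn⟩ : ∃ n : ℕ, n = ⌊T / 24⌋₊ := ⟨_, rfl⟩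
  have hn1 : (n : ℝ) ≤ T / 24 := by rw [hn]; exact Nat.floor_le (by positivity)
  have hn2 : T / 24 < n + 1 := by rw [hn]; exact Nat.lt_floor_add_one _
  obtain ⟨τ, hτ⟩ : ∃ τ : ℕ → ℝ, τ = fun k : ℕ => T / 2 + k * 12 := ⟨_, rfl⟩
  have hτ0 : ∀ k, T / 2 ≤ τ k := fun k => by rw [hτ]; simp only; nlinarith [(Nat.cast_nonneg k : (0 : ℝ) ≤ k)]
  have hτ1 : ∀ k < n, τ k + 12 ≤ T := by
    intro k hk
    rw [hτ]
    simp only
    have h1 : (k : ℝ) + 1 ≤ n := by exact_mod_cast hk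
    linarith
  have hch : ∀ k : ℕ, ∃ Z : Finset ℂ,
      (∀ ρ ∈ Z, F ρ = 0 ∧ a < ρ.re ∧ τ k ≤ ρ.im ∧ ρ.im ≤ τ k + 11) ∧
      ε * Real.log (τ k) ≤ ∑ ρ ∈ Z, (analyticOrderNatAt F ρ : ℝ) := fun k => hT₀ (τ k) (by linarith [hτ0 k])
  choose Z hZ hs using hch
  have hdis : Set.PairwiseDisjoint (Finset.range n : Set ℕ) Z := by
    intro i hi j hj hij
    rw [Function.onFun, Finset.disjoint_left]
    intro ρ hρi hρj
    obtain ⟨-, -, a3, a4⟩ := hZ i ρ hρi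
    obtain ⟨-, -, b3, b4⟩ := hZ j ρ hρj
    rw [hτ] at a3 a4 b3 b4
    simp only at a3 a4 b3 b4
    rcases lt_or_gt_of_ne hij with h | h
    · have : (i : ℝ) + 1 ≤ j := by exact_mod_cast h
      linarith
    · have : (j : ℝ) + 1 ≤ i := by exact_mod_cast h
      linarith
  refine ⟨(Finset.range n).biUnion Z, fun ρ hρ => ?_, ?_⟩
  · rw [Finset.mem_biUnion] at hρ
    obtain ⟨k, hk, hρk⟩ := hρ
    have hk' : k < n := by simpa using hk
    obtain ⟨z1, z2, z3, z4⟩ := hZ k ρ hρk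
    exact ⟨z1, z2, by linarith [hτ0 k], by linarith [hτ1 k hk']⟩
  · rw [Finset.sum_biUnion hdis]
    have h1 : ∀ k ∈ Finset.range n, ε * (Real.log T / 2) ≤ ∑ ρ ∈ Z k, (analyticOrderNatAt F ρ : ℝ) := by
      intro k _
      refine le_trans ?_ (hs k)
      refine mul_le_mul_of_nonneg_left ?_ hε.le
      have h2 : Real.log (T / 2) ≤ Real.log (τ k) := Real.log_le_log (by linarith) (hτ0 k)
      rw [Real.log_div hT0.ne' (by norm_num)] at h2
      have h3 : Real.log 2 ≤ 1 := by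
        have := Real.log_two_lt_d9
        linarith
      linarith
    have h2 := Finset.sum_le_sum h1
    rw [Finset.sum_const, Finset.card_range, nsmul_eq_mul] at h2
    refine le_trans ?_ h2
    have h3 : T / 100 ≤ n := by linarith
    calc ε / 200 * (T * Real.log T) = T / 100 * (ε * (Real.log T / 2)) := by ring
      _ ≤ _ := mul_le_mul_of_nonneg_right h3 (by positivity)

section

variable {m : ℕ} {c D ν : ℝ} {v β α g : ℕ → ℝ}

/-- the Mellin transform on a vertical line -/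
lemma HM_Mm (c : ℝ) (m : ℕ) (α : ℕ → ℝ) (η y : ℝ) : HM c (lamH m) m α ((η : ℂ) + y * I) = Mm c (lamH m) m α η y := by
  unfold HM Mm
  congr 1
  push_cast
  ring

/-- the factor on a vertical line -/
lemma Uf_line (hc : 0 < c) (σ y : ℝ) : ‖Uf m c ((σ : ℂ) + y * I)‖ =
    ‖Gamma (((-(m : ℝ) + σ : ℝ) : ℂ) + y * I) * Complex.cos (Real.pi * (((-(m : ℝ) + σ : ℝ) : ℂ) + y * I) / 2)‖ *
      c ^ ((m : ℝ) - σ) := by
  unfold Uf
  rw [norm_mul, norm_cpow_eq_rpow_re_of_pos hc]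
  have e1 : -(m : ℂ) + ((σ : ℂ) + y * I) = ((-(m : ℝ) + σ : ℝ) : ℂ) + y * I := by push_cast; ring
  rw [e1]
  congr 2
  simp

/-- polynomial growth for `Re s ≥ 1/2 - 1/lamH m` -/
theorem growth2 (hm : 1 ≤ m) (hm2 : 2 ≤ m) (hO : OutI m c v β α g D) (S : Sel) (h0 : S.m0 = 0)
    (hser : ∀ s : ℂ, 1 < s.re → S.G s = LSeries (ff m β) s) : ∃ K : ℝ, 0 < K ∧
      ∀ s : ℂ, 1 / 2 - 1 / lamH m ≤ s.re → ‖S.G s‖ ≤ K * ‖s + 1‖ ^ (m + 2) := by
  have hc := hO.hc
  have hl := lam_pos m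
  have hlc : (lamH m : ℂ) ≠ 0 := by exact_mod_cast hl.ne'
  have hmR : (2 : ℝ) ≤ m := by exact_mod_cast hm2
  have hl1 : 2 ≤ lamH m := by unfold lamH; linarith
  have hal : 1 / lamH m ≤ 1 / 2 := one_div_le_one_div_of_le (by norm_num) hl1
  have hal0 : 0 < 1 / lamH m := by positivity
  obtain ⟨a, ha⟩ : ∃ a : ℝ, a = 1 / 2 - 1 / lamH m := ⟨_, rfl⟩
  have ha0 : 0 ≤ a := by rw [ha]; linarith
  rw [← ha]
  have hn1 : ∀ z : ℂ, 0 ≤ z.re → 1 ≤ ‖z + 1‖ := by
    intro z hz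
    refine le_trans ?_ (Complex.abs_re_le_norm _)
    rw [Complex.add_re, Complex.one_re, abs_of_nonneg (by linarith)]
    linarith
  obtain ⟨D0, hD, hR⟩ := right_bounds S h0
  obtain ⟨B, hB0, hB⟩ := Mm_le (c := c) (lam := lamH m) (m := m) (α := α) (-1)
  obtain ⟨C, hC, hlow⟩ := gam_cos_low (m + 1)
  obtain ⟨K₁, hK₁⟩ := (isCompact_closedBall (0 : ℂ) 2).exists_bound_of_continuousOn S.diff.continuous.continuousOn
  obtain ⟨K₂, hK₂⟩ : ∃ K₂ : ℝ, K₂ = B / (C * c ^ ((m : ℝ) + 1)) * lamH m ^ (m + 2) := ⟨_, rfl⟩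
  have hK₂0 : 0 < K₂ := by rw [hK₂]; positivity
  obtain ⟨K, hK⟩ : ∃ K : ℝ, K = |K₁| + K₂ + Real.exp D0 := ⟨_, rfl⟩
  have hK1 : |K₁| ≤ K := by rw [hK]; linarith [Real.exp_pos D0]
  have hK2 : K₂ ≤ K := by rw [hK]; linarith [Real.exp_pos D0, abs_nonneg K₁]
  have hK3 : Real.exp D0 ≤ K := by rw [hK]; linarith [abs_nonneg K₁]
  have hK0 : 0 < K := lt_of_lt_of_le (Real.exp_pos D0) hK3
  -- the right half-plane
  have hright : ∀ s : ℂ, 3 / 2 ≤ s.re → ‖S.G s‖ ≤ K * ‖s + 1‖ ^ (m + 2) := by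
    intro s hs
    have h1 : 1 ≤ ‖s + 1‖ ^ (m + 2) := one_le_pow₀ (hn1 s (by linarith))
    calc ‖S.G s‖ ≤ Real.exp D0 := (hR s hs).2
      _ ≤ K * 1 := by rw [mul_one]; exact hK3
      _ ≤ _ := mul_le_mul_of_nonneg_left h1 hK0.le
  -- the line
  have hline : ∀ s : ℂ, s.re = a → ‖S.G s‖ ≤ K * ‖s + 1‖ ^ (m + 2) := by
    intro s hs
    have h1 : 1 ≤ ‖s + 1‖ := hn1 s (by linarith)
    have h1' : 1 ≤ ‖s + 1‖ ^ (m + 2) := one_le_pow₀ h1
    obtain ⟨y, hy⟩ : ∃ y : ℝ, y = lamH m * s.im := ⟨_, rfl⟩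
    have hsy : s = 1 / 2 + (((-1 : ℝ) : ℂ) + y * I) / lamH m := by
      have e1 : y / lamH m = s.im := by rw [hy]; field_simp
      have e2 : (1 / 2 + (((-1 : ℝ) : ℂ) + y * I) / lamH m : ℂ) = ((1 / 2 - 1 / lamH m : ℝ) : ℂ) + ((y / lamH m : ℝ) : ℂ) * I := by
        push_cast
        field_simp
        ring
      rw [e2, ← ha, e1, ← hs]
      exact (re_add_im s).symm
    rcases le_total |y| 1 with hy1 | hy1
    · have hs2 : s ∈ Metric.closedBall (0 : ℂ) 2 := by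
        rw [mem_closedBall_zero_iff]
        have h2 := Complex.norm_le_abs_re_add_abs_im s
        have h3 : |s.im| ≤ 1 := by
          rw [hy, abs_mul, abs_of_pos hl] at hy1
          nlinarith [abs_nonneg s.im]
        have h4 : a ≤ 1 / 2 := by rw [ha]; linarith
        rw [hs, abs_of_nonneg ha0] at h2
        linarith
      calc ‖S.G s‖ ≤ K₁ := hK₁ s hs2
        _ ≤ K * 1 := by rw [mul_one]; exact (le_abs_self _).trans hK1
        _ ≤ _ := mul_le_mul_of_nonneg_left h1' hK0.le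
    · have hy0 : 0 < |y| := by linarith
      have hyne : y ≠ 0 := abs_pos.1 hy0
      have hHM := HM_F hm hO S.diff hser (s := ((-1 : ℝ) : ℂ) + y * I) (by simp; linarith) (by simpa using hyne)
      rw [← hsy, HM_Mm] at hHM
      have h5 := hB y
      rw [hHM, norm_mul, Uf_line hc] at h5
      have h4 := hlow y hy1
      have e3 : (-((m + 1 : ℕ) : ℝ)) = -(m : ℝ) + -1 := by push_cast; ring
      rw [e3] at h4
      have e4 : (m : ℝ) - -1 = m + 1 := by ring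
      rw [e4] at h5
      have hcm : 0 < c ^ ((m : ℝ) + 1) := Real.rpow_pos_of_pos hc _
      have h6 : C * |y| ^ (-(m : ℝ) + -1 - 1 / 2) * c ^ ((m : ℝ) + 1) * ‖S.G s‖ ≤ B :=
        (mul_le_mul_of_nonneg_right (mul_le_mul_of_nonneg_right h4 hcm.le) (norm_nonneg _)).trans h5
      have h7 : |y| ^ (-(m : ℝ) + -1 - 1 / 2) = (|y| ^ ((m : ℝ) + 3 / 2))⁻¹ := by
        rw [← Real.rpow_neg hy0.le]
        congr 1
        ring
      have h8 : |y| ^ ((m : ℝ) + 3 / 2) ≤ (lamH m * ‖s + 1‖) ^ (m + 2) := by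
        have e1 : |y| ≤ lamH m * ‖s + 1‖ := by
          rw [hy, abs_mul, abs_of_pos hl]
          refine mul_le_mul_of_nonneg_left ?_ hl.le
          have := Complex.abs_im_le_norm (s + 1)
          rwa [add_im, one_im, add_zero] at this
        calc |y| ^ ((m : ℝ) + 3 / 2) ≤ |y| ^ ((m + 2 : ℕ) : ℝ) :=
              Real.rpow_le_rpow_of_exponent_le hy1 (by push_cast; linarith)
          _ = |y| ^ (m + 2) := Real.rpow_natCast _ _
          _ ≤ _ := pow_le_pow_left₀ hy0.le e1 _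
      have h9 : ‖S.G s‖ ≤ B / (C * c ^ ((m : ℝ) + 1)) * |y| ^ ((m : ℝ) + 3 / 2) := by
        rw [h7] at h6
        have hp : 0 < |y| ^ ((m : ℝ) + 3 / 2) := Real.rpow_pos_of_pos hy0 _
        rw [div_mul_eq_mul_div, le_div_iff₀ (by positivity)]
        have h10 := mul_le_mul_of_nonneg_right h6 hp.le
        calc ‖S.G s‖ * (C * c ^ ((m : ℝ) + 1)) =
            C * (|y| ^ ((m : ℝ) + 3 / 2))⁻¹ * c ^ ((m : ℝ) + 1) * ‖S.G s‖ * |y| ^ ((m : ℝ) + 3 / 2) := by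
              field_simp
          _ ≤ _ := h10
      calc ‖S.G s‖ ≤ B / (C * c ^ ((m : ℝ) + 1)) * |y| ^ ((m : ℝ) + 3 / 2) := h9
        _ ≤ B / (C * c ^ ((m : ℝ) + 1)) * (lamH m * ‖s + 1‖) ^ (m + 2) := mul_le_mul_of_nonneg_left h8 (by positivity)
        _ = K₂ * ‖s + 1‖ ^ (m + 2) := by rw [hK₂, mul_pow]; ring
        _ ≤ _ := mul_le_mul_of_nonneg_right hK2 (by positivity)
  refine ⟨K, hK0, fun s hs => ?_⟩
  rcases le_total (3 / 2) s.re with h | h
  · exact hright s h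
  · obtain ⟨A', C', hA', hgr⟩ := order_pos S
    exact strip S.diff hA' hgr (a := a) (b := 3 / 2) (by rw [ha]; linarith) ha0 (m + 2) hline
      (fun z hz => hright z (by rw [hz])) hs h

/-- large values at the nodes -/
theorem big_values (hm : 100 ≤ m) (hν : 0 < ν) (hc1 : c ≤ 1 / 10) (hvv : ∀ k, |v k| = vv c ν k)
    (hO : OutI m c v β α g D) {F : ℂ → ℂ}
    (hF : Differentiable ℂ F) (hser : ∀ s : ℂ, 1 < s.re → F s = LSeries (ff m β) s) :
    ∀ᶠ T : ℝ in atTop, ∃ t : ℝ, T ≤ t ∧ t ≤ T + 1 ∧ T ^ (1 : ℝ) < ‖F (1 / 2 + t * I)‖ := by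
  have hc := hO.hc
  have hl := lam_pos m
  have hlc : (lamH m : ℂ) ≠ 0 := by exact_mod_cast hl.ne'
  have hmR : (100 : ℝ) ≤ m := by exact_mod_cast hm
  have hl1 : 100 ≤ lamH m := by unfold lamH; linarith
  obtain ⟨C, hC, hup⟩ := gam_cos (-(m : ℝ))
  obtain ⟨κ, hκ⟩ : ∃ κ : ℝ, κ = ν * c ^ 3 / (C * c ^ (m : ℝ)) := ⟨_, rfl⟩
  have hκ0 : 0 < κ := by rw [hκ]; positivity
  obtain ⟨p1, p2⟩ := pi16
  have hp := Real.pi_pos
  filter_upwards [eventually_ge_atTop (1 / κ + 1)] with T hT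
  have hκi : 0 < 1 / κ := by positivity
  have hT1 : 1 ≤ T := by linarith
  have hT0 : 0 < T := by linarith
  obtain ⟨n, hn⟩ : ∃ n : ℕ, n = ⌈lamH m * T / (16 * Real.pi)⌉₊ := ⟨_, rfl⟩
  have hn0 : 0 < n := by
    rw [hn, Nat.ceil_pos]; positivity
  obtain ⟨k, rfl⟩ : ∃ k, n = k + 1 := ⟨n - 1, by omega⟩
  have hk1 : lamH m * T / (16 * Real.pi) ≤ (k : ℝ) + 1 := by
    have := Nat.le_ceil (lamH m * T / (16 * Real.pi))
    rw [← hn] at this
    push_cast at this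
    exact this
  have hk2 : (k : ℝ) + 1 < lamH m * T / (16 * Real.pi) + 1 := by
    have := Nat.ceil_lt_add_one (show 0 ≤ lamH m * T / (16 * Real.pi) by positivity)
    rw [← hn] at this
    push_cast at this
    exact this
  have ht1 : lamH m * T ≤ tau k := by
    unfold tau
    rw [div_le_iff₀ (by positivity)] at hk1
    linarith
  have ht2 : tau k ≤ lamH m * (T + 1) := by
    unfold tau
    have h1 : 16 * Real.pi * ((k : ℝ) + 1) ≤ 16 * Real.pi * (lamH m * T / (16 * Real.pi) + 1) :=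
      mul_le_mul_of_nonneg_left hk2.le (by positivity)
    have h2 : 16 * Real.pi * (lamH m * T / (16 * Real.pi) + 1) = lamH m * T + 16 * Real.pi := by
      field_simp
    linarith
  have hτT : T ≤ tau k := by nlinarith
  have hτ1 : 1 ≤ tau k := by linarith
  have hτ0 : 0 < tau k := by linarith
  refine ⟨tau k / lamH m, by rwa [le_div_iff₀ hl, mul_comm], by rwa [div_le_iff₀ hl, mul_comm], ?_⟩
  rw [Real.rpow_one]
  have hHM := HM_F (by omega) hO hF hser (s := (tau k : ℂ) * I) (by simp; linarith) (by simpa using hτ0.ne')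
  rw [HM_node hO k] at hHM
  have e1 : (1 / 2 + (tau k : ℂ) * I / lamH m : ℂ) = 1 / 2 + ((tau k / lamH m : ℝ) : ℂ) * I := by
    push_cast; ring
  rw [e1] at hHM
  have h1 := congrArg norm hHM
  have hv := vv_pos hc hc1 hν k
  have e2 : (tau k : ℂ) * I = ((0 : ℝ) : ℂ) + (tau k : ℂ) * I := by push_cast; ring
  rw [norm_mul, Complex.norm_real, Real.norm_eq_abs, hvv k, e2, Uf_line hc, add_zero, sub_zero] at h1
  have h2 := hup (tau k) (by rw [abs_of_pos hτ0]; exact hτ1)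
  rw [abs_of_pos hτ0] at h2
  have hcm : 0 < c ^ (m : ℝ) := Real.rpow_pos_of_pos hc _
  obtain ⟨X, hX⟩ : ∃ X : ℝ, X = ‖F (1 / 2 + ((tau k / lamH m : ℝ) : ℂ) * I)‖ := ⟨_, rfl⟩
  rw [← hX] at h1 ⊢
  have hX0 : 0 ≤ X := by rw [hX]; exact norm_nonneg _
  have h3 : vv c ν k ≤ C * tau k ^ (-(m : ℝ) - 1 / 2) * c ^ (m : ℝ) * X := by
    rw [h1]
    exact mul_le_mul_of_nonneg_right (mul_le_mul_of_nonneg_right h2 hcm.le) hX0
  -- lower bound of the prescribed value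
  have hLk := LL_two hc hc1 k
  have hL2 : LL c k ≤ tau k / c := by
    unfold LL
    have h4 : (1 + (k : ℝ)) / c ≤ tau k / c := by
      have := one_add_le_tau k
      gcongr
    have h5 := Real.log_le_sub_one_of_pos (show 0 < (1 + (k : ℝ)) / c by positivity)
    linarith
  have h4 : ν * c ^ 3 / tau k ^ 4 ≤ vv c ν k := by
    unfold vv
    have h5 : (1 + (k : ℝ)) * LL c k ^ 3 ≤ tau k * (tau k / c) ^ 3 := by
      have := one_add_le_tau k
      have h6 : LL c k ^ 3 ≤ (tau k / c) ^ 3 := pow_le_pow_left₀ (by linarith) hL2 3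
      have h7 : 0 ≤ LL c k ^ 3 := by positivity
      exact mul_le_mul this h6 h7 hτ0.le
    calc ν * c ^ 3 / tau k ^ 4 = ν / (tau k * (tau k / c) ^ 3) := by field_simp
      _ ≤ _ := div_le_div_of_nonneg_left hν.le (by positivity) h5
  have h5 : κ * tau k ^ ((m : ℝ) - 7 / 2) ≤ X := by
    have h6 := h4.trans h3
    have h7 : tau k ^ (-(m : ℝ) - 1 / 2) = (tau k ^ ((m : ℝ) + 1 / 2))⁻¹ := by
      rw [← Real.rpow_neg hτ0.le]
      congr 1
      ring
    have h8 : tau k ^ ((m : ℝ) + 1 / 2) = tau k ^ ((m : ℝ) - 7 / 2) * tau k ^ 4 := by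
      rw [← Real.rpow_natCast, ← Real.rpow_add hτ0]
      congr 1
      push_cast; ring
    rw [h7, h8, div_le_iff₀ (by positivity)] at h6
    have h9 : 0 < tau k ^ ((m : ℝ) - 7 / 2) := Real.rpow_pos_of_pos hτ0 _
    rw [hκ, div_mul_eq_mul_div, div_le_iff₀ (by positivity)]
    have h10 := mul_le_mul_of_nonneg_right h6 h9.le
    calc ν * c ^ 3 * tau k ^ ((m : ℝ) - 7 / 2) ≤
        C * (tau k ^ ((m : ℝ) - 7 / 2) * tau k ^ 4)⁻¹ * c ^ (m : ℝ) * X * tau k ^ 4 * tau k ^ ((m : ℝ) - 7 / 2) := h10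
      _ = X * (C * c ^ (m : ℝ)) := by field_simp
  have h6 : T * T ≤ tau k ^ ((m : ℝ) - 7 / 2) := by
    calc T * T ≤ tau k * tau k := mul_le_mul hτT hτT hT0.le hτ0.le
      _ = tau k ^ (2 : ℝ) := by rw [Real.rpow_two]; ring
      _ ≤ _ := Real.rpow_le_rpow_of_exponent_le hτ1 (by linarith)
  have h7 : 1 < κ * T := by
    have h8 : 1 / κ < T := by linarith
    rwa [div_lt_iff₀' hκ0] at h8
  calc T = 1 * T := (one_mul _).symm
    _ < κ * T * T := mul_lt_mul_of_pos_right h7 hT0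
    _ = κ * (T * T) := by ring
    _ ≤ κ * tau k ^ ((m : ℝ) - 7 / 2) := mul_le_mul_of_nonneg_left h6 hκ0.le
    _ ≤ X := h5

end

end Pool.Agent.Q127.EZ
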