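import Mathlib
import Pool.Agent.Q127.EZ.Low
import Pool.Agent.Q284.S.Cls

/-!
# Almost all zeros near the edges of the critical strip
-/

set_option autoImplicit false

open Filter Topology MeasureTheory Set Complex

namespace Pool.Agent.Q127.EZ

open Pool.Agent.H469R10.HO Pool.Agent.H13R3.EM
open Pool.Agent.Q284.S (Bd Mm right_bounds IsSelberg FE isSelberg_of_sel fe_of_sel)

/-- a member of the Selberg class with few zeros in the middle of the strip and with prescribed signs on the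
critical line -/
theorem edge_sg : ∃ m₀ : ℕ, 26100 ≤ m₀ ∧ ∀ m : ℕ, m₀ ≤ m → ∀ sg : ℕ → ℝ, (∀ k, |sg k| = 1) →
    ∃ S : Sel, S.m0 = 0 ∧ S.deg = ((4 * m + 3 : ℕ) : ℝ) ∧
    (∀ n : ℕ, (S.a n).im = 0 ∧ ‖S.a n‖ ≤ 1) ∧
    (∀ (j : Fin S.r) (n : ℕ) (s : ℂ), s.im ≠ 0 → (S.lam j : ℂ) * s + S.μ j ≠ -(n : ℂ)) ∧
    (∃ H : ℝ → ℝ, Continuous H ∧ (∀ t : ℝ, t ≠ 0 → (S.G (1 / 2 + t * I) = 0 ↔ H t = 0)) ∧
      ∀ k : ℕ, 0 < sg k * H (32 * Real.pi * (k + 1) / (4 * m + 3))) ∧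
    ∃ A δ : ℝ, 0 < A ∧ 0 < δ ∧
    (∀ᶠ T : ℝ in atTop, ∀ Z : Finset ℂ, (∀ ρ ∈ Z, |ρ.re - 1 / 2| ≤ 1 / 2 - 12 / (4 * m + 3) ∧ 0 < ρ.im ∧ ρ.im ≤ T) →
      ∑ ρ ∈ Z, (analyticOrderNatAt S.G ρ : ℝ) ≤ A * (T * Real.log (Real.log T))) ∧
    (∀ᶠ T : ℝ in atTop, ∃ Z : Finset ℂ, (∀ ρ ∈ Z, 1 - 12 / (4 * m + 3) < ρ.re ∧ ρ.re ≤ 1 ∧ 0 < ρ.im ∧ ρ.im ≤ T) ∧
      δ * (T * Real.log T) ≤ ∑ ρ ∈ Z, (analyticOrderNatAt S.G ρ : ℝ)) := by
  obtain ⟨m₀, hm₀, hcore⟩ := core_interp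
  refine ⟨max m₀ 26100, le_max_right _ _, fun m hm sg hsg => ?_⟩
  have hmm : m₀ ≤ m := (le_max_left _ _).trans hm
  have hm2 : 26100 ≤ m := (le_max_right _ _).trans hm
  obtain ⟨c, ν, C, D, hc, hc1, hν, hC, hD, hJP, hv⟩ := hcore m hmm
  have hsq : ∀ k, sg k ^ 2 = 1 := fun k => by rw [← sq_abs, hsg k]; norm_num
  have hsg1 : ∀ J : ℕ, ∑ k ∈ Finset.range J, WW c k * (sg k * vv c ν k) ^ 2 ≤ ν ^ 2 := fun J => by
    refine le_trans (le_of_eq ?_) (vv_sum hc hc1 J)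
    refine Finset.sum_congr rfl fun k _ => ?_
    rw [mul_pow, hsq k, one_mul]
  obtain ⟨β, α, g, hO⟩ := hv (fun k => sg k * vv c ν k) hsg1
  have hvv : ∀ k, |(fun k => sg k * vv c ν k) k| = vv c ν k := fun k => by
    simp only
    rw [abs_mul, hsg k, one_mul, abs_of_pos (vv_pos hc hc1 hν k)]
  have hm1 : 1 ≤ m := by omega
  obtain ⟨S, h0, hd, ha, hp, -⟩ := toSel2 hm1 hc hO.hβ hO.hα hO.hsum hO.hrel
  have hser : ∀ s : ℂ, 1 < s.re → S.G s = LSeries (ff m β) s := by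
    intro s hs
    have h3 := S.cont s hs
    rw [h0, pow_zero, one_mul] at h3
    have h4 : S.a = ff m β := funext ha
    rw [h4] at h3
    exact h3
  refine ⟨S, h0, hd, fun n => ?_, hp, ?_, ?_⟩
  · rw [ha n]
    refine ⟨Complex.ofReal_im _, ?_⟩
    rw [Complex.norm_real, Real.norm_eq_abs]
    exact abs_fr_le hO.hβ n
  · have hl := lam_pos m
    have hlc : (lamH m : ℂ) ≠ 0 := by exact_mod_cast hl.ne'
    have hmR : (26100 : ℝ) ≤ m := by exact_mod_cast hm2
    have hre : ∀ y : ℝ, |((y : ℂ) * I).re| < m := fun y => by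
      simp
      linarith
    refine ⟨fun t => (HM c (lamH m) m α ((lamH m * t : ℝ) * I)).re, ?_, fun t ht => ?_, fun k => ?_⟩
    · rw [continuous_iff_continuousAt]
      intro t
      have h1 : ContinuousAt (HM c (lamH m) m α) ((lamH m * t : ℝ) * I) := (HM_diff hm1 hO (hre _)).continuousAt
      have h2 : ContinuousAt (fun t : ℝ => (((lamH m * t : ℝ) : ℂ) * I)) t := by fun_prop
      exact Complex.continuous_re.continuousAt.comp (ContinuousAt.comp (f := fun t : ℝ => (((lamH m * t : ℝ) : ℂ) * I)) h1 h2)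
    · have hi : (((lamH m * t : ℝ) : ℂ) * I).im ≠ 0 := by
        simp only [Complex.mul_im, Complex.ofReal_re, Complex.I_im, Complex.ofReal_im, Complex.I_re, mul_one, mul_zero, add_zero]
        exact mul_ne_zero hl.ne' ht
      have h1 := HM_F hm1 hO S.diff hser (hre (lamH m * t)) hi
      have h2 := Uf_ne (m := m) hc hi
      have e1 : (1 / 2 + (((lamH m * t : ℝ) : ℂ) * I) / lamH m : ℂ) = 1 / 2 + t * I := by
        push_cast
        field_simp
      rw [e1] at h1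
      have h3 : HM c (lamH m) m α ((lamH m * t : ℝ) * I) =
          (((∫ u : ℝ, Pool.Agent.Q284.S.gg c (lamH m) m α u * Real.cos ((lamH m * t) * u)) : ℝ) : ℂ) := by
        rw [← Mm_even (bd_of_outI hm1 hO), ← HM_Mm]
        simp
      constructor
      · intro h4
        rw [h4, mul_zero] at h1
        simp only
        rw [h1, Complex.zero_re]
      · intro h4
        simp only at h4
        rw [h3, Complex.ofReal_re] at h4
        rw [h3, h4, Complex.ofReal_zero] at h1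
        rcases mul_eq_zero.1 h1.symm with h5 | h5
        · exact absurd h5 h2
        · exact h5
    · have e1 : lamH m * (32 * Real.pi * (k + 1) / (4 * m + 3)) = tau k := by
        have : (0:ℝ) < 4 * m + 3 := by positivity
        unfold lamH tau
        field_simp
        ring
      simp only
      rw [e1, HM_node hO k, Complex.ofReal_re, ← mul_assoc, ← sq, hsq k, one_mul]
      exact vv_pos hc hc1 hν k
  have hl := lam_pos m
  have hlc : (lamH m : ℂ) ≠ 0 := by exact_mod_cast hl.ne'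
  have hmR : (26100 : ℝ) ≤ m := by exact_mod_cast hm2
  have hll : lamH m = (4 * m + 3) / 2 := by unfold lamH; ring
  have hdpos : (0:ℝ) < 4 * m + 3 := by positivity
  have hd12 : 12 / (4 * (m:ℝ) + 3) ≤ 1 / 4 := by
    rw [div_le_div_iff₀ hdpos (by norm_num)]; linarith
  have hd12' : 0 < 12 / (4 * (m:ℝ) + 3) := by positivity
  -- the upper bound
  obtain ⟨A, Y₀, hA, hup⟩ := up_count hm2 hc1 hν hvv hJP hC hD hO
  have hU : ∀ᶠ T : ℝ in atTop, ∀ Z : Finset ℂ, (∀ ρ ∈ Z, |ρ.re - 1 / 2| ≤ 1 / 2 - 12 / (4 * m + 3) ∧ 0 < ρ.im ∧ ρ.im ≤ T) →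
      ∑ ρ ∈ Z, (analyticOrderNatAt S.G ρ : ℝ) ≤ (2 * A * lamH m) * (T * Real.log (Real.log T)) := by
    filter_upwards [eventually_ge_atTop Y₀, eventually_ge_atTop (lamH m), eventually_ge_atTop (Real.exp (Real.exp 1)),
      eventually_ge_atTop 1] with T hT1 hT2 hT3 hT4 Z hZ
    have hl1 : 1 ≤ lamH m := by rw [hll]; linarith
    have hinj : Set.InjOn (fun ρ : ℂ => (lamH m : ℂ) * (ρ - 1 / 2)) Z := by
      intro x _ y _ h
      have := mul_left_cancel₀ hlc h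
      linear_combination this
    have h1 := hup (lamH m * T) (by nlinarith) (Z.image fun ρ : ℂ => (lamH m : ℂ) * (ρ - 1 / 2)) (by
      intro s hs
      rw [Finset.mem_image] at hs
      obtain ⟨ρ, hρ, rfl⟩ := hs
      obtain ⟨z1, z2, z3⟩ := hZ ρ hρ
      have e1 : ((lamH m : ℂ) * (ρ - 1 / 2)).re = lamH m * (ρ.re - 1 / 2) := by
        rw [Complex.re_ofReal_mul]; simp
      have e2 : ((lamH m : ℂ) * (ρ - 1 / 2)).im = lamH m * ρ.im := by
        rw [Complex.im_ofReal_mul]; simp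
      rw [e1, e2, abs_mul, abs_of_pos hl]
      refine ⟨?_, by positivity, by gcongr⟩
      have h2 := mul_le_mul_of_nonneg_left z1 hl.le
      refine h2.trans (le_of_eq ?_)
      rw [hll]
      field_simp
      ring)
    rw [Finset.sum_image hinj] at h1
    have h2 : ∑ ρ ∈ Z, (analyticOrderNatAt S.G ρ : ℝ) =
        ∑ ρ ∈ Z, (analyticOrderNatAt (HM c (lamH m) m α) ((lamH m : ℂ) * (ρ - 1 / 2)) : ℝ) := by
      refine Finset.sum_congr rfl fun ρ hρ => ?_
      obtain ⟨z1, z2, z3⟩ := hZ ρ hρ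
      have e1 : ((lamH m : ℂ) * (ρ - 1 / 2)).re = lamH m * (ρ.re - 1 / 2) := by
        rw [Complex.re_ofReal_mul]; simp
      have e2 : ((lamH m : ℂ) * (ρ - 1 / 2)).im = lamH m * ρ.im := by
        rw [Complex.im_ofReal_mul]; simp
      rw [ord_eq hm1 hO S.diff hser]
      · congr 2
        field_simp
        ring
      · rw [e1, abs_mul, abs_of_pos hl]
        have h2 := mul_le_mul_of_nonneg_left z1 hl.le
        have h3 : lamH m * (1 / 2 - 12 / (4 * m + 3)) = m - 21 / 4 := by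
          rw [hll]
          field_simp
          ring
        linarith
      · rw [e2]
        positivity
    rw [h2]
    refine h1.trans ?_
    have hlog : Real.exp 1 ≤ Real.log T := by
      rwa [Real.le_log_iff_exp_le (by linarith)]
    have hlog0 : 0 < Real.log T := lt_of_lt_of_le (Real.exp_pos 1) hlog
    have hll1 : 1 ≤ Real.log (Real.log T) := by
      rw [Real.le_log_iff_exp_le hlog0]
      exact hlog
    have h3 : Real.log (Real.log (lamH m * T)) ≤ 2 * Real.log (Real.log T) := by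
      have h4 : Real.log (lamH m * T) ≤ 2 * Real.log T := by
        rw [Real.log_mul hl.ne' (by linarith)]
        have := Real.log_le_log hl hT2
        linarith
      have h5 : 0 < Real.log (lamH m * T) := by
        apply Real.log_pos
        nlinarith [Real.add_one_le_exp (1:ℝ), Real.add_one_le_exp (Real.exp 1)]
      calc Real.log (Real.log (lamH m * T)) ≤ Real.log (2 * Real.log T) := Real.log_le_log h5 h4
        _ = Real.log 2 + Real.log (Real.log T) := Real.log_mul (by norm_num) hlog0.ne'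
        _ ≤ _ := by linarith [Real.log_two_lt_d9]
    calc A * (lamH m * T * Real.log (Real.log (lamH m * T))) ≤ A * (lamH m * T * (2 * Real.log (Real.log T))) := by
          gcongr
      _ = _ := by ring
  -- the lower bound
  obtain ⟨K, hK, hgr⟩ := growth2 hm1 (by omega) hO S h0 hser
  obtain ⟨D0, hD0, hR⟩ := right_bounds S h0
  have hbig := big_values (by omega) hν hc1 hvv hO S.diff hser
  have hlam : 1 / lamH m ≤ 1 / 4 := one_div_le_one_div_of_le (by norm_num) (by rw [hll]; linarith)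
  have hlam0 : 0 < 1 / lamH m := by positivity
  obtain ⟨ε, hε, hwin⟩ := zeros_window2 S.diff hK (by linarith) hgr hR one_pos hbig
  obtain ⟨δ, hδ, htot⟩ := zeros_total2 hε hwin
  refine ⟨2 * A * lamH m, δ / 2, by positivity, by positivity, hU, ?_⟩
  have hsmall : ∀ᶠ T : ℝ in atTop, (2 * A * lamH m) * Real.log (Real.log T) ≤ δ / 2 * Real.log T := by
    have h1 : Tendsto (fun x : ℝ => Real.log x / x) atTop (𝓝 0) := Real.isLittleO_log_id_atTop.tendsto_div_nhds_zero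
    have h2 := (h1.comp Real.tendsto_log_atTop).const_mul (2 * A * lamH m)
    rw [mul_zero] at h2
    filter_upwards [h2.eventually (gt_mem_nhds (show (0:ℝ) < δ / 2 by positivity)),
      Real.tendsto_log_atTop.eventually (eventually_gt_atTop 0)] with T hT1 hT2
    simp only [Function.comp_apply] at hT1
    rw [← mul_div_assoc, div_lt_iff₀ hT2] at hT1
    exact hT1.le
  filter_upwards [htot, hU, hsmall, eventually_ge_atTop 0] with T h1 h2 h3 hT0
  obtain ⟨Z, hZ, hsum⟩ := h1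
  classical
  refine ⟨Z.filter (fun ρ => 1 - 12 / (4 * (m:ℝ) + 3) < ρ.re), fun ρ hρ => ?_, ?_⟩
  · rw [Finset.mem_filter] at hρ
    obtain ⟨z0, z1, z2, z3⟩ := hZ ρ hρ.1
    refine ⟨hρ.2, ?_, z2, z3⟩
    by_contra hcon
    push Not at hcon
    have h4 := S.cont ρ hcon
    rw [h0, pow_zero, one_mul, (S.euler ρ hcon).2, z0] at h4
    exact Complex.exp_ne_zero _ h4.symm
  · have h4 := h2 (Z.filter (fun ρ => ¬ 1 - 12 / (4 * (m:ℝ) + 3) < ρ.re)) (fun ρ hρ => by
      rw [Finset.mem_filter, not_lt] at hρ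
      obtain ⟨z0, z1, z2, z3⟩ := hZ ρ hρ.1
      refine ⟨?_, z2, z3⟩
      rw [abs_le]
      constructor
      · linarith
      · linarith [hρ.2])
    have h5 := Finset.sum_filter_add_sum_filter_not Z (fun ρ => 1 - 12 / (4 * (m:ℝ) + 3) < ρ.re)
      (fun ρ => (analyticOrderNatAt S.G ρ : ℝ))
    have h6 := mul_le_mul_of_nonneg_left h3 hT0
    have h7 : T * (2 * A * lamH m * Real.log (Real.log T)) = 2 * A * lamH m * (T * Real.log (Real.log T)) := by ring
    have h8 : T * (δ / 2 * Real.log T) = δ / 2 * (T * Real.log T) := by ring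
    rw [h7, h8] at h6
    linarith

/-- a member of the Selberg class with few zeros in the middle of the strip -/
theorem edge : ∃ m₀ : ℕ, 26100 ≤ m₀ ∧ ∀ m : ℕ, m₀ ≤ m → ∃ S : Sel, S.m0 = 0 ∧ S.deg = ((4 * m + 3 : ℕ) : ℝ) ∧
    (∀ n : ℕ, (S.a n).im = 0 ∧ ‖S.a n‖ ≤ 1) ∧
    (∀ (j : Fin S.r) (n : ℕ) (s : ℂ), s.im ≠ 0 → (S.lam j : ℂ) * s + S.μ j ≠ -(n : ℂ)) ∧
    ∃ A δ : ℝ, 0 < A ∧ 0 < δ ∧
    (∀ᶠ T : ℝ in atTop, ∀ Z : Finset ℂ, (∀ ρ ∈ Z, |ρ.re - 1 / 2| ≤ 1 / 2 - 12 / (4 * m + 3) ∧ 0 < ρ.im ∧ ρ.im ≤ T) →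
      ∑ ρ ∈ Z, (analyticOrderNatAt S.G ρ : ℝ) ≤ A * (T * Real.log (Real.log T))) ∧
    (∀ᶠ T : ℝ in atTop, ∃ Z : Finset ℂ, (∀ ρ ∈ Z, 1 - 12 / (4 * m + 3) < ρ.re ∧ ρ.re ≤ 1 ∧ 0 < ρ.im ∧ ρ.im ≤ T) ∧
      δ * (T * Real.log T) ≤ ∑ ρ ∈ Z, (analyticOrderNatAt S.G ρ : ℝ)) := by
  obtain ⟨m₀, h1, h2⟩ := edge_sg
  refine ⟨m₀, h1, fun m hm => ?_⟩
  obtain ⟨S, h3, h4, h5, h6, _, h7⟩ := h2 m hm (fun _ => 1) (fun _ => by norm_num)
  exact ⟨S, h3, h4, h5, h6, h7⟩

end Pool.Agent.Q127.EZ
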