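import Mathlib
import Pool.Agent.Q127.EZ.Low

/-!
# Symmetry of the zeros
-/

set_option autoImplicit false

open Filter Topology Complex

namespace Pool.Agent.Q127.EZ

open Pool.Agent.H13R3.EM (Sel)

/-- reflection in the critical line -/
noncomputable def rfl' (f : ℂ → ℂ) (s : ℂ) : ℂ := starRingEnd ℂ (f (1 - starRingEnd ℂ s))

lemma osc_tendsto (s : ℂ) : Tendsto (fun z : ℂ => 1 - starRingEnd ℂ z) (𝓝 s) (𝓝 (1 - starRingEnd ℂ s)) := by
  have : Continuous (fun z : ℂ => 1 - starRingEnd ℂ z) := continuous_const.sub Complex.continuous_conj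
  exact this.tendsto s

lemma rfl'_ana {f : ℂ → ℂ} {s : ℂ} (h : AnalyticAt ℂ f (1 - starRingEnd ℂ s)) : AnalyticAt ℂ (rfl' f) s := by
  rw [Complex.analyticAt_iff_eventually_differentiableAt] at h ⊢
  filter_upwards [(osc_tendsto s).eventually h] with z hz
  have h1 : DifferentiableAt ℂ (fun w : ℂ => f (1 - w)) (starRingEnd ℂ z) :=
    DifferentiableAt.comp (g := f) (f := fun w : ℂ => 1 - w) (starRingEnd ℂ z) hz (by fun_prop)
  have h2 := h1.conj_conj
  rw [Complex.conj_conj] at h2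
  exact h2

lemma rfl'_ord {f : ℂ → ℂ} {s : ℂ} (h : AnalyticAt ℂ f (1 - starRingEnd ℂ s)) :
    analyticOrderAt (rfl' f) s = analyticOrderAt f (1 - starRingEnd ℂ s) := by
  rcases eq_or_ne (analyticOrderAt f (1 - starRingEnd ℂ s)) ⊤ with h0 | h0
  · rw [h0, analyticOrderAt_eq_top]
    rw [analyticOrderAt_eq_top] at h0
    filter_upwards [(osc_tendsto s).eventually h0] with z hz
    simp [rfl', hz]
  · obtain ⟨n, hn⟩ := ENat.ne_top_iff_exists.mp h0
    rw [← hn]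
    obtain ⟨g, hg, hg0, hfg⟩ := (h.analyticOrderAt_eq_natCast).mp hn.symm
    rw [(rfl'_ana h).analyticOrderAt_eq_natCast]
    refine ⟨fun z => (-1) ^ n * rfl' g z, analyticAt_const.mul (rfl'_ana hg), ?_, ?_⟩
    · simp [rfl', hg0]
    · filter_upwards [(osc_tendsto s).eventually hfg] with z hz
      simp only [rfl', hz, smul_eq_mul, map_mul, map_pow, map_sub, map_one, Complex.conj_conj]
      rw [← mul_assoc, ← mul_pow]
      congr 2
      ring

/-- the gamma factor -/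
noncomputable def PG (S : Sel) (s : ℂ) : ℂ := (S.Q : ℂ) ^ s * ∏ j, Gamma ((S.lam j : ℂ) * s + S.μ j)

variable {S : Sel}

lemma PG_ana (hp : ∀ (j : Fin S.r) (n : ℕ) (s : ℂ), s.im ≠ 0 → (S.lam j : ℂ) * s + S.μ j ≠ -(n : ℂ)) {s : ℂ} (hs : s.im ≠ 0) :
    AnalyticAt ℂ (PG S) s := by
  have hopen : IsOpen {z : ℂ | z.im ≠ 0} := isOpen_ne_fun (by fun_prop) continuous_const
  have hd : DifferentiableOn ℂ (PG S) {z : ℂ | z.im ≠ 0} := by
    intro z hz
    apply DifferentiableAt.differentiableWithinAt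
    have hQ : (S.Q : ℂ) ≠ 0 := by exact_mod_cast S.Qpos.ne'
    have h4 : DifferentiableAt ℂ (fun z : ℂ => (S.Q : ℂ) ^ z) z := DifferentiableAt.const_cpow (by fun_prop) (Or.inl hQ)
    have h5 : DifferentiableAt ℂ (fun z : ℂ => ∏ j, Gamma ((S.lam j : ℂ) * z + S.μ j)) z := by
      apply DifferentiableAt.fun_finsetProd
      intro j _
      have h1 : DifferentiableAt ℂ Gamma ((S.lam j : ℂ) * z + S.μ j) := Complex.differentiableAt_Gamma _ fun n => hp j n z hz
      exact DifferentiableAt.comp (g := Gamma) (f := fun z : ℂ => (S.lam j : ℂ) * z + S.μ j) z h1 (by fun_prop)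
    exact h4.mul h5
  exact hd.analyticAt (hopen.mem_nhds hs)

lemma PG_ne (hp : ∀ (j : Fin S.r) (n : ℕ) (s : ℂ), s.im ≠ 0 → (S.lam j : ℂ) * s + S.μ j ≠ -(n : ℂ)) {s : ℂ} (hs : s.im ≠ 0) :
    PG S s ≠ 0 := by
  unfold PG
  have hQ : (S.Q : ℂ) ≠ 0 := by exact_mod_cast S.Qpos.ne'
  refine mul_ne_zero ?_ (Finset.prod_ne_zero_iff.2 fun j _ => Complex.Gamma_ne_zero fun n => hp j n s hs)
  rw [Complex.cpow_def_of_ne_zero hQ]
  exact Complex.exp_ne_zero _

lemma osc_im (s : ℂ) : (1 - starRingEnd ℂ s).im = s.im := by simp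

lemma osc_re (s : ℂ) : (1 - starRingEnd ℂ s).re = 1 - s.re := by simp

/-- symmetry of the orders -/
theorem ord_sym (h0 : S.m0 = 0)
    (hp : ∀ (j : Fin S.r) (n : ℕ) (s : ℂ), s.im ≠ 0 → (S.lam j : ℂ) * s + S.μ j ≠ -(n : ℂ)) {s : ℂ} (hs : s.im ≠ 0) :
    analyticOrderAt S.G (1 - starRingEnd ℂ s) = analyticOrderAt S.G s := by
  have hω : S.ω ≠ 0 := by
    intro h
    have := S.norm_omega
    rw [h, norm_zero] at this
    exact zero_ne_one this
  have ho2 : IsOpen {z : ℂ | z.im ≠ 0} := isOpen_ne_fun (by fun_prop) continuous_const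
  have hev : (PG S * S.G) =ᶠ[𝓝 s] (((fun _ : ℂ => S.ω) * rfl' (PG S)) * rfl' S.G) := by
    filter_upwards [ho2.mem_nhds hs] with z hz
    have hz0 : z ≠ 0 := by rintro rfl; simp at hz
    have hz1 : z ≠ 1 := by rintro rfl; simp at hz
    have h := S.fe z hz0 hz1 (fun j n => hp j n z hz) (fun j n => hp j n _ (by rw [osc_im]; exact hz))
    rw [h0] at h
    simp only [pow_zero, div_one] at h
    simp only [Pi.mul_apply]
    unfold PG rfl'
    rw [h, map_mul]
    ring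
  have hs' : (1 - starRingEnd ℂ s).im ≠ 0 := by rw [osc_im]; exact hs
  have a1 := PG_ana hp hs
  have a2 := PG_ana hp hs'
  have a3 : AnalyticAt ℂ S.G s := S.diff.analyticAt _
  have a4 : AnalyticAt ℂ S.G (1 - starRingEnd ℂ s) := S.diff.analyticAt _
  have a5 : AnalyticAt ℂ ((fun _ : ℂ => S.ω) * rfl' (PG S)) s := analyticAt_const.mul (rfl'_ana a2)
  have n5 : ((fun _ : ℂ => S.ω) * rfl' (PG S)) s ≠ 0 := by
    simp only [Pi.mul_apply]
    unfold rfl'
    refine mul_ne_zero hω ?_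
    rw [map_ne_zero]
    exact PG_ne hp hs'
  have h1 := analyticOrderAt_congr hev
  rw [analyticOrderAt_mul a1 a3, analyticOrderAt_mul a5 (rfl'_ana a4), a1.analyticOrderAt_eq_zero.2 (PG_ne hp hs),
    a5.analyticOrderAt_eq_zero.2 n5, zero_add, zero_add, rfl'_ord a4] at h1
  exact h1.symm

lemma ne_right (h0 : S.m0 = 0) {s : ℂ} (hs : 1 < s.re) : S.G s ≠ 0 := by
  have h4 := S.cont s hs
  rw [h0, pow_zero, one_mul, (S.euler s hs).2] at h4
  rw [h4]
  exact Complex.exp_ne_zero _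

lemma ord_zero_iff (s : ℂ) : analyticOrderAt S.G s = 0 ↔ S.G s ≠ 0 := (S.diff.analyticAt s).analyticOrderAt_eq_zero

/-- the zeros off the real line lie in the critical strip -/
lemma zero_strip (h0 : S.m0 = 0)
    (hp : ∀ (j : Fin S.r) (n : ℕ) (s : ℂ), s.im ≠ 0 → (S.lam j : ℂ) * s + S.μ j ≠ -(n : ℂ)) {s : ℂ} (hs : s.im ≠ 0)
    (hz : S.G s = 0) : 0 ≤ s.re ∧ s.re ≤ 1 := by
  constructor
  · by_contra hcon
    push Not at hcon
    have h1 : S.G (1 - starRingEnd ℂ s) ≠ 0 := ne_right h0 (by rw [osc_re]; linarith)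
    have h2 := ord_sym h0 hp hs
    rw [(ord_zero_iff _).2 h1] at h2
    exact (ord_zero_iff s).1 h2.symm hz
  · by_contra hcon
    push Not at hcon
    exact ne_right h0 hcon hz

/-- finitely many zeros with bounded positive imaginary part -/
lemma zero_finite (h0 : S.m0 = 0)
    (hp : ∀ (j : Fin S.r) (n : ℕ) (s : ℂ), s.im ≠ 0 → (S.lam j : ℂ) * s + S.μ j ≠ -(n : ℂ)) (T : ℝ) :
    {ρ : ℂ | S.G ρ = 0 ∧ 0 < ρ.im ∧ ρ.im ≤ T}.Finite := by
  have h2 : S.G 2 ≠ 0 := ne_right h0 (by norm_num)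
  have h3 := Pool.Agent.W186.LH.zfin S.diff ⟨2, h2⟩ (isCompact_closedBall (0 : ℂ) (1 + |T|))
  refine h3.subset ?_
  rintro ρ ⟨z0, z1, z2⟩
  refine ⟨?_, z0⟩
  obtain ⟨r1, r2⟩ := zero_strip h0 hp z1.ne' z0
  rw [mem_closedBall_zero_iff]
  refine (Complex.norm_le_abs_re_add_abs_im ρ).trans ?_
  rw [abs_of_nonneg r1, abs_of_pos z1]
  have := le_abs_self T
  linarith

end Pool.Agent.Q127.EZ
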