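import Mathlib
import Pool.Agent.Q127.EZ.Main
import Pool.Agent.Q127.EZ.Sym

/-!
# Counting functions of the zeros: symmetry and the final form of the main theorem
-/

set_option autoImplicit false

open Filter Topology Complex Set

namespace Pool.Agent.Q127.EZ

open Pool.Agent.H13R3.EM (Sel)

/-- `N_F(A, T)`: the number of zeros `ρ` of `F`, with multiplicity, with `Re ρ ∈ A` and `0 < Im ρ ≤ T`. -/
noncomputable def NZ (F : ℂ → ℂ) (A : Set ℝ) (T : ℝ) : ℝ :=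
  ∑ᶠ ρ ∈ {ρ : ℂ | ρ.re ∈ A ∧ 0 < ρ.im ∧ ρ.im ≤ T}, (analyticOrderNatAt F ρ : ℝ)

lemma ordNat_zero {F : ℂ → ℂ} (hF : Differentiable ℂ F) {s : ℂ} (hs : F s ≠ 0) : analyticOrderNatAt F s = 0 := by
  unfold analyticOrderNatAt
  rw [(hF.analyticAt s).analyticOrderAt_eq_zero.2 hs]
  rfl

open Classical in
lemma NZ_eq {F : ℂ → ℂ} (hF : Differentiable ℂ F) {T : ℝ} {W : Finset ℂ}
    (hW : ∀ ρ : ℂ, ρ ∈ W ↔ F ρ = 0 ∧ 0 < ρ.im ∧ ρ.im ≤ T) (A : Set ℝ) :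
    NZ F A T = ∑ ρ ∈ W, if ρ.re ∈ A then (analyticOrderNatAt F ρ : ℝ) else 0 := by
  unfold NZ
  rw [← Finset.sum_filter]
  apply finsum_mem_eq_sum_of_inter_support_eq
  ext ρ
  simp only [Set.mem_inter_iff, Set.mem_setOf_eq, Function.mem_support, Finset.coe_filter, hW]
  constructor
  · rintro ⟨⟨h1, h2, h3⟩, h4⟩
    refine ⟨⟨⟨?_, h2, h3⟩, h1⟩, h4⟩
    by_contra h0
    apply h4
    rw [ordNat_zero hF h0]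
    simp
  · rintro ⟨⟨⟨h0, h2, h3⟩, h1⟩, h4⟩
    exact ⟨⟨h1, h2, h3⟩, h4⟩

variable {S : Sel}

lemma ordNat_sym (h0 : S.m0 = 0)
    (hp : ∀ (j : Fin S.r) (n : ℕ) (s : ℂ), s.im ≠ 0 → (S.lam j : ℂ) * s + S.μ j ≠ -(n : ℂ)) {s : ℂ} (hs : s.im ≠ 0) :
    analyticOrderNatAt S.G (1 - starRingEnd ℂ s) = analyticOrderNatAt S.G s := by
  unfold analyticOrderNatAt
  rw [ord_sym h0 hp hs]

/-- symmetry of the counting function -/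
lemma NZ_sym (h0 : S.m0 = 0)
    (hp : ∀ (j : Fin S.r) (n : ℕ) (s : ℂ), s.im ≠ 0 → (S.lam j : ℂ) * s + S.μ j ≠ -(n : ℂ)) {T : ℝ} {W : Finset ℂ}
    (hW : ∀ ρ : ℂ, ρ ∈ W ↔ S.G ρ = 0 ∧ 0 < ρ.im ∧ ρ.im ≤ T) (σ : ℝ) :
    NZ S.G (Ioi σ) T = NZ S.G (Iio (1 - σ)) T := by
  classical
  rw [NZ_eq S.diff hW, NZ_eq S.diff hW]
  have key : ∀ ρ ∈ W, 1 - starRingEnd ℂ ρ ∈ W := by
    intro ρ hρ
    rw [hW] at hρ ⊢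
    obtain ⟨z0, z1, z2⟩ := hρ
    rw [osc_im]
    refine ⟨?_, z1, z2⟩
    by_contra hcon
    have h1 := ord_sym h0 hp z1.ne'
    rw [(ord_zero_iff _).2 hcon] at h1
    exact (ord_zero_iff _).1 h1.symm z0
  have hinv : ∀ ρ : ℂ, 1 - starRingEnd ℂ (1 - starRingEnd ℂ ρ) = ρ := by
    intro ρ
    simp
  refine Finset.sum_nbij' (fun ρ => 1 - starRingEnd ℂ ρ) (fun ρ => 1 - starRingEnd ℂ ρ) key key
    (fun ρ _ => hinv ρ) (fun ρ _ => hinv ρ) fun ρ hρ => ?_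
  obtain ⟨z0, z1, z2⟩ := (hW ρ).1 hρ
  rw [ordNat_sym h0 hp z1.ne', osc_re]
  refine if_congr ?_ rfl rfl
  simp only [mem_Ioi, mem_Iio]
  constructor <;> intro h <;> linarith

/-- half of the zeros lie to the right of `σ`, up to the zeros in the middle -/
lemma NZ_half (h0 : S.m0 = 0)
    (hp : ∀ (j : Fin S.r) (n : ℕ) (s : ℂ), s.im ≠ 0 → (S.lam j : ℂ) * s + S.μ j ≠ -(n : ℂ)) {T : ℝ} {W : Finset ℂ}
    (hW : ∀ ρ : ℂ, ρ ∈ W ↔ S.G ρ = 0 ∧ 0 < ρ.im ∧ ρ.im ≤ T) {η σ : ℝ} (h1 : η ≤ σ) (h2 : σ ≤ 1 - η) :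
    |NZ S.G (Ioi σ) T - NZ S.G univ T / 2| ≤ NZ S.G (Icc η (1 - η)) T / 2 := by
  classical
  have hs := NZ_sym h0 hp hW σ
  have e1 := NZ_eq S.diff hW (Ioi σ)
  have e2 := NZ_eq S.diff hW (Iio (1 - σ))
  have e3 := NZ_eq S.diff hW univ
  have e4 := NZ_eq S.diff hW (Icc η (1 - η))
  have h3 : |NZ S.G (Ioi σ) T + NZ S.G (Iio (1 - σ)) T - NZ S.G univ T| ≤ NZ S.G (Icc η (1 - η)) T := by
    rw [e1, e2, e3, e4, ← Finset.sum_add_distrib, ← Finset.sum_sub_distrib]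
    refine (Finset.abs_sum_le_sum_abs _ _).trans (Finset.sum_le_sum fun ρ _ => ?_)
    have h5 : (0:ℝ) ≤ (analyticOrderNatAt S.G ρ : ℝ) := Nat.cast_nonneg _
    simp only [mem_Ioi, mem_Iio, mem_univ, mem_Icc, if_true]
    by_cases c1 : σ < ρ.re <;> by_cases c2 : ρ.re < 1 - σ
    · rw [if_pos c1, if_pos c2, if_pos ⟨by linarith, by linarith⟩, abs_of_nonneg (by linarith)]
      linarith
    · rw [if_pos c1, if_neg c2]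
      simp only [add_zero, sub_self, abs_zero]
      split_ifs <;> linarith
    · rw [if_neg c1, if_pos c2]
      simp only [zero_add, sub_self, abs_zero]
      split_ifs <;> linarith
    · rw [if_neg c1, if_neg c2, if_pos ⟨by linarith, by linarith⟩]
      simp only [zero_add, zero_sub, abs_neg]
      rw [abs_of_nonneg h5]
  rw [← hs] at h3
  rw [abs_le] at h3 ⊢
  constructor <;> linarith [h3.1, h3.2]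

lemma NZ_le {F : ℂ → ℂ} (hF : Differentiable ℂ F) {T : ℝ} {W : Finset ℂ}
    (hW : ∀ ρ : ℂ, ρ ∈ W ↔ F ρ = 0 ∧ 0 < ρ.im ∧ ρ.im ≤ T) {A : Set ℝ} {X : ℝ}
    (h : ∀ Z : Finset ℂ, (∀ ρ ∈ Z, ρ.re ∈ A ∧ 0 < ρ.im ∧ ρ.im ≤ T) → ∑ ρ ∈ Z, (analyticOrderNatAt F ρ : ℝ) ≤ X) :
    NZ F A T ≤ X := by
  classical
  rw [NZ_eq hF hW, ← Finset.sum_filter]
  apply h
  intro ρ hρ
  rw [Finset.mem_filter, hW] at hρ
  exact ⟨hρ.2, hρ.1.2⟩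

lemma le_NZ {F : ℂ → ℂ} (hF : Differentiable ℂ F) {T : ℝ} {W : Finset ℂ}
    (hW : ∀ ρ : ℂ, ρ ∈ W ↔ F ρ = 0 ∧ 0 < ρ.im ∧ ρ.im ≤ T) {A : Set ℝ} {Z : Finset ℂ}
    (hZ : ∀ ρ ∈ Z, ρ.re ∈ A ∧ 0 < ρ.im ∧ ρ.im ≤ T) : ∑ ρ ∈ Z, (analyticOrderNatAt F ρ : ℝ) ≤ NZ F A T := by
  classical
  rw [NZ_eq hF hW, ← Finset.sum_filter]
  have h1 : ∑ ρ ∈ Z, (analyticOrderNatAt F ρ : ℝ) = ∑ ρ ∈ Z.filter (fun ρ => F ρ = 0), (analyticOrderNatAt F ρ : ℝ) := by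
    symm
    apply Finset.sum_subset (Finset.filter_subset _ _)
    intro ρ hρ hn
    have : F ρ ≠ 0 := by
      intro h
      exact hn (Finset.mem_filter.2 ⟨hρ, h⟩)
    rw [ordNat_zero hF this]
    simp
  rw [h1]
  apply Finset.sum_le_sum_of_subset_of_nonneg
  · intro ρ hρ
    rw [Finset.mem_filter] at hρ
    obtain ⟨z1, z2⟩ := hZ ρ hρ.1
    rw [Finset.mem_filter, hW]
    exact ⟨⟨hρ.2, z2⟩, z1⟩
  · intros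
    positivity

/-- the main theorem in terms of counting functions, with prescribed signs on the critical line -/
theorem edge2_sg : ∃ m₀ : ℕ, 26100 ≤ m₀ ∧ ∀ m : ℕ, m₀ ≤ m → ∀ sg : ℕ → ℝ, (∀ k, |sg k| = 1) →
    ∃ S : Sel, S.m0 = 0 ∧ S.deg = ((4 * m + 3 : ℕ) : ℝ) ∧
    (∀ n : ℕ, (S.a n).im = 0 ∧ ‖S.a n‖ ≤ 1) ∧
    (∀ T : ℝ, {ρ : ℂ | S.G ρ = 0 ∧ 0 < ρ.im ∧ ρ.im ≤ T}.Finite) ∧
    (∀ ρ : ℂ, S.G ρ = 0 → 0 < ρ.im → 0 ≤ ρ.re ∧ ρ.re ≤ 1) ∧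
    (∃ H : ℝ → ℝ, Continuous H ∧ (∀ t : ℝ, t ≠ 0 → (S.G (1 / 2 + t * I) = 0 ↔ H t = 0)) ∧
      ∀ k : ℕ, 0 < sg k * H (32 * Real.pi * (k + 1) / (4 * m + 3))) ∧
    (∃ A δ T₀ : ℝ, 0 < A ∧ 0 < δ ∧ ∀ T : ℝ, T₀ ≤ T →
      δ * (T * Real.log T) ≤ NZ S.G univ T ∧
      NZ S.G (Icc (12 / (4 * m + 3)) (1 - 12 / (4 * m + 3))) T ≤ A * (T * Real.log (Real.log T)) ∧
      ∀ σ : ℝ, 12 / (4 * m + 3) ≤ σ → σ ≤ 1 - 12 / (4 * m + 3) →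
        |NZ S.G (Ioi σ) T - NZ S.G univ T / 2| ≤ A * (T * Real.log (Real.log T))) := by
  obtain ⟨m₀, hm₀, H⟩ := edge_sg
  refine ⟨m₀, hm₀, fun m hm sg hsg => ?_⟩
  obtain ⟨S, h0, hd, ha, hp, hH, A, δ, hA, hδ, hU, hL⟩ := H m hm sg hsg
  have hfin := zero_finite h0 hp
  refine ⟨S, h0, hd, ha, hfin, fun ρ hρ him => zero_strip h0 hp him.ne' hρ, hH, A, δ, ?_⟩
  obtain ⟨T₀, hT₀⟩ := eventually_atTop.1 (hU.and hL)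
  refine ⟨max T₀ 0, hA, hδ, fun T hT => ?_⟩
  obtain ⟨hU', Z, hZ, hZs⟩ := hT₀ T ((le_max_left _ _).trans hT)
  have hW : ∀ ρ : ℂ, ρ ∈ (hfin T).toFinset ↔ S.G ρ = 0 ∧ 0 < ρ.im ∧ ρ.im ≤ T := by
    intro ρ
    rw [Set.Finite.mem_toFinset]
    rfl
  have hmid : NZ S.G (Icc (12 / (4 * m + 3)) (1 - 12 / (4 * m + 3))) T ≤ A * (T * Real.log (Real.log T)) := by
    apply NZ_le S.diff hW
    intro Z' hZ'
    apply hU'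
    intro ρ hρ
    obtain ⟨⟨z1, z2⟩, z3⟩ := hZ' ρ hρ
    refine ⟨?_, z3⟩
    rw [abs_le]
    constructor <;> linarith
  have hmid0 : 0 ≤ NZ S.G (Icc (12 / (4 * (m : ℝ) + 3)) (1 - 12 / (4 * m + 3))) T := by
    have := le_NZ S.diff hW (A := Icc (12 / (4 * (m : ℝ) + 3)) (1 - 12 / (4 * m + 3))) (Z := ∅) (by simp)
    simpa using this
  refine ⟨?_, hmid, fun σ h1 h2 => ?_⟩
  · exact hZs.trans (le_NZ S.diff hW fun ρ hρ => ⟨mem_univ _, (hZ ρ hρ).2.2⟩)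
  · refine (NZ_half h0 hp hW h1 h2).trans ?_
    linarith

/-- the main theorem in terms of counting functions -/
theorem edge2 : ∃ m₀ : ℕ, 26100 ≤ m₀ ∧ ∀ m : ℕ, m₀ ≤ m → ∃ S : Sel, S.m0 = 0 ∧ S.deg = ((4 * m + 3 : ℕ) : ℝ) ∧
    (∀ n : ℕ, (S.a n).im = 0 ∧ ‖S.a n‖ ≤ 1) ∧
    (∀ T : ℝ, {ρ : ℂ | S.G ρ = 0 ∧ 0 < ρ.im ∧ ρ.im ≤ T}.Finite) ∧
    (∀ ρ : ℂ, S.G ρ = 0 → 0 < ρ.im → 0 ≤ ρ.re ∧ ρ.re ≤ 1) ∧
    (∃ A δ T₀ : ℝ, 0 < A ∧ 0 < δ ∧ ∀ T : ℝ, T₀ ≤ T →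
      δ * (T * Real.log T) ≤ NZ S.G univ T ∧
      NZ S.G (Icc (12 / (4 * m + 3)) (1 - 12 / (4 * m + 3))) T ≤ A * (T * Real.log (Real.log T)) ∧
      ∀ σ : ℝ, 12 / (4 * m + 3) ≤ σ → σ ≤ 1 - 12 / (4 * m + 3) →
        |NZ S.G (Ioi σ) T - NZ S.G univ T / 2| ≤ A * (T * Real.log (Real.log T))) := by
  obtain ⟨m₀, hm₀, H⟩ := edge2_sg
  refine ⟨m₀, hm₀, fun m hm => ?_⟩
  obtain ⟨S, h3, h4, h5, h6, h7, _, h8⟩ := H m hm (fun _ => 1) (fun _ => by norm_num)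
  exact ⟨S, h3, h4, h5, h6, h7, h8⟩

end Pool.Agent.Q127.EZ
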