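import Mathlib
import Pool.Agent.Q127.EZ.Low
import Pool.Agent.Q284.S.Cls

/-!
# Prescribed values on an arithmetic progression of the critical line
-/

set_option autoImplicit false

open Filter Topology MeasureTheory Set Complex

namespace Pool.Agent.Q127.EZ

open Pool.Agent.H469R10.HO Pool.Agent.H13R3.EM
open Pool.Agent.Q284.S (Bd Mm IsSelberg FE isSelberg_of_sel fe_of_sel gam_cos)

/-- the functional equation with a single gamma factor -/
lemma fe_one (S : Sel) (h0 : S.m0 = 0) (hr : S.r = 1) {lam : ℝ} (hl : ∀ j, S.lam j = lam ∧ S.μ j = 1 / 4) :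
    FE S.G S.Q (fun _ : Fin 1 => lam) (fun _ => 1 / 4) S.ω := by
  have hprod : ∀ s : ℂ, ∏ j : Fin S.r, Gamma ((S.lam j : ℂ) * s + S.μ j) =
      ∏ _j : Fin 1, Gamma ((lam : ℂ) * s + 1 / 4) := by
    intro s
    have h1 : ∏ j : Fin S.r, Gamma ((S.lam j : ℂ) * s + S.μ j) = ∏ _j : Fin S.r, Gamma ((lam : ℂ) * s + 1 / 4) :=
      Finset.prod_congr rfl fun j _ => by rw [(hl j).1, (hl j).2]
    rw [h1, Finset.prod_const, Finset.prod_const, Finset.card_univ, Finset.card_univ, Fintype.card_fin, Fintype.card_fin, hr]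
  have hF := fe_of_sel S h0
  refine ⟨hF.1, fun _ => ?_, fun _ => by norm_num, hF.2.2.2.1, fun s h1 h2 h3 h4 => ?_⟩
  · have h1 := S.lampos ⟨0, by omega⟩
    rw [(hl _).1] at h1
    exact h1
  · have h := hF.2.2.2.2 s h1 h2 (fun j n => by rw [(hl j).1, (hl j).2]; exact h3 0 n)
      (fun j n => by rw [(hl j).1, (hl j).2]; exact h4 0 n)
    unfold Pool.Agent.Q284.S.Phi at h ⊢
    rw [hprod, hprod] at h
    exact h

/-- **prescribed values** -/
theorem prescribe : ∃ m₀ : ℕ, 1 ≤ m₀ ∧ ∀ m : ℕ, m₀ ≤ m → ∃ (Q κ : ℝ) (u : ℕ → ℂ), 0 < Q ∧ 0 < κ ∧ (∀ k, ‖u k‖ = 1) ∧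
    ∀ r : ℕ → ℝ, (∀ k, |r k| ≤ κ * ((k : ℝ) + 1) ^ ((m : ℝ) - 1 / 2) / Real.log (k + 2) ^ 3) →
    ∃ S : Sel, S.m0 = 0 ∧ S.deg = ((4 * m + 3 : ℕ) : ℝ) ∧ (∀ n : ℕ, (S.a n).im = 0 ∧ ‖S.a n‖ ≤ 1) ∧
      FE S.G Q (fun _ : Fin 1 => lamH m) (fun _ => 1 / 4) ((-1) ^ (m + 1)) ∧
      ∀ k : ℕ, S.G (1 / 2 + ((32 * Real.pi * (k + 1) / (4 * m + 3) : ℝ) : ℂ) * I) = r k * u k := by
  obtain ⟨m₀, hm₀, hcore⟩ := core_interp
  refine ⟨max m₀ 100, by omega, fun m hm => ?_⟩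
  have hmm : m₀ ≤ m := (le_max_left _ _).trans hm
  have hm2 : 100 ≤ m := (le_max_right _ _).trans hm
  obtain ⟨c, ν, C, D, hc, hc1, hν, hC, hD, hJP, hv⟩ := hcore m hmm
  have hm1 : 1 ≤ m := by omega
  have hl := lam_pos m
  have hlc : (lamH m : ℂ) ≠ 0 := by exact_mod_cast hl.ne'
  have hmR : (100 : ℝ) ≤ m := by exact_mod_cast hm2
  obtain ⟨C₁, hC₁, hup⟩ := gam_cos (-(m : ℝ))
  have hlog2 : 0 < Real.log 2 := Real.log_pos (by norm_num)
  obtain ⟨B, hB⟩ : ∃ B : ℝ, B = 1 + Real.log (1 / c) / Real.log 2 := ⟨_, rfl⟩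
  have hlc1 : 0 < Real.log (1 / c) := Real.log_pos (by rw [lt_div_iff₀ hc]; linarith)
  have hB1 : 1 ≤ B := by rw [hB]; have := div_pos hlc1 hlog2; linarith
  have hcm : 0 < c ^ (m : ℝ) := Real.rpow_pos_of_pos hc _
  have hτ1 : ∀ k, 1 ≤ tau k := fun k => by
    have := one_add_le_tau k
    have : (0:ℝ) ≤ k := Nat.cast_nonneg k
    linarith
  have hne : ∀ k, Uf m c ((tau k : ℂ) * I) ≠ 0 := fun k => Uf_ne hc (by
    have := hτ1 k
    simp only [Complex.mul_im, Complex.ofReal_re, Complex.I_im, Complex.ofReal_im, Complex.I_re, mul_one, mul_zero, add_zero]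
    linarith)
  refine ⟨Real.exp (-(lamH m * Real.log c)), ν / (C₁ * c ^ (m : ℝ) * B ^ 3),
    fun k => (‖Uf m c ((tau k : ℂ) * I)‖ : ℂ) / Uf m c ((tau k : ℂ) * I), Real.exp_pos _, by positivity, fun k => ?_,
    fun r hr => ?_⟩
  · rw [norm_div, Complex.norm_real, norm_norm, div_self (norm_ne_zero_iff.2 (hne k))]
  -- the values of the Mellin transform
  obtain ⟨v, hvd⟩ : ∃ v : ℕ → ℝ, v = fun k => ‖Uf m c ((tau k : ℂ) * I)‖ * r k := ⟨_, rfl⟩
  have hvle : ∀ k, |v k| ≤ vv c ν k := by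
    intro k
    have hk0 : (0:ℝ) ≤ k := Nat.cast_nonneg k
    have hk1 : (0:ℝ) < (k:ℝ) + 1 := by linarith
    have hτ0 : 0 < tau k := by linarith [hτ1 k]
    have hLk := LL_two hc hc1 k
    have hLg : 0 < Real.log ((k:ℝ) + 2) := Real.log_pos (by linarith)
    have e2 : (tau k : ℂ) * I = ((0 : ℝ) : ℂ) + (tau k : ℂ) * I := by push_cast; ring
    have h1 : ‖Uf m c ((tau k : ℂ) * I)‖ ≤ C₁ * tau k ^ (-(m : ℝ) - 1 / 2) * c ^ (m : ℝ) := by
      rw [e2, Uf_line hc, add_zero, sub_zero]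
      have h2 := hup (tau k) (by rw [abs_of_pos hτ0]; exact hτ1 k)
      rw [abs_of_pos hτ0] at h2
      exact mul_le_mul_of_nonneg_right h2 hcm.le
    have h2 : tau k ^ (-(m : ℝ) - 1 / 2) ≤ ((k:ℝ) + 1) ^ (-(m : ℝ) - 1 / 2) := by
      apply Real.rpow_le_rpow_of_nonpos hk1 _ (by linarith)
      have := one_add_le_tau k
      linarith
    have h3 : |v k| ≤ (C₁ * ((k:ℝ) + 1) ^ (-(m : ℝ) - 1 / 2) * c ^ (m : ℝ)) *
        (ν / (C₁ * c ^ (m : ℝ) * B ^ 3) * ((k : ℝ) + 1) ^ ((m : ℝ) - 1 / 2) / Real.log (k + 2) ^ 3) := by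
      rw [hvd]
      simp only
      rw [abs_mul, abs_norm]
      refine mul_le_mul (h1.trans ?_) (hr k) (abs_nonneg _) (by positivity)
      gcongr
    refine h3.trans ?_
    have h4 : ((k:ℝ) + 1) ^ (-(m : ℝ) - 1 / 2) * ((k : ℝ) + 1) ^ ((m : ℝ) - 1 / 2) = ((k:ℝ) + 1)⁻¹ := by
      rw [← Real.rpow_add hk1, ← Real.rpow_neg_one]
      congr 1
      ring
    have h5 : (C₁ * ((k:ℝ) + 1) ^ (-(m : ℝ) - 1 / 2) * c ^ (m : ℝ)) *
        (ν / (C₁ * c ^ (m : ℝ) * B ^ 3) * ((k : ℝ) + 1) ^ ((m : ℝ) - 1 / 2) / Real.log (k + 2) ^ 3) =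
        ν / (((k:ℝ) + 1) * (B * Real.log (k + 2)) ^ 3) := by
      calc (C₁ * ((k:ℝ) + 1) ^ (-(m : ℝ) - 1 / 2) * c ^ (m : ℝ)) *
        (ν / (C₁ * c ^ (m : ℝ) * B ^ 3) * ((k : ℝ) + 1) ^ ((m : ℝ) - 1 / 2) / Real.log (k + 2) ^ 3) =
          (((k:ℝ) + 1) ^ (-(m : ℝ) - 1 / 2) * ((k : ℝ) + 1) ^ ((m : ℝ) - 1 / 2)) *
            (C₁ * c ^ (m : ℝ) * (ν / (C₁ * c ^ (m : ℝ) * B ^ 3)) / Real.log (k + 2) ^ 3) := by ring
        _ = _ := by
          rw [h4]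
          field_simp
    rw [h5]
    unfold vv
    have h6 : LL c k ≤ B * Real.log (k + 2) := by
      unfold LL
      have g1 : Real.log ((1 + (k:ℝ)) / c) = Real.log (1 + k) + Real.log (1 / c) := by
        rw [← Real.log_mul (by positivity) (by positivity)]
        congr 1
        ring
      have g2 : Real.log (1 + (k:ℝ)) ≤ Real.log (k + 2) := Real.log_le_log (by positivity) (by linarith)
      have g3 : Real.log 2 ≤ Real.log ((k:ℝ) + 2) := Real.log_le_log (by norm_num) (by linarith)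
      have g4 : Real.log (1 / c) ≤ Real.log (1 / c) / Real.log 2 * Real.log ((k:ℝ) + 2) := by
        rw [div_mul_eq_mul_div, le_div_iff₀ hlog2]
        exact mul_le_mul_of_nonneg_left g3 hlc1.le
      rw [g1, hB]
      nlinarith
    rw [add_comm (k:ℝ) 1]
    have hLk0 : 0 < LL c k := by linarith
    gcongr
  have hsum : ∀ J : ℕ, ∑ k ∈ Finset.range J, WW c k * v k ^ 2 ≤ ν ^ 2 := fun J => by
    refine le_trans (Finset.sum_le_sum fun k _ => ?_) (vv_sum hc hc1 J)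
    apply mul_le_mul_of_nonneg_left _ (WW_pos hc hc1 k).le
    rw [← sq_abs (v k)]
    exact pow_le_pow_left₀ (abs_nonneg _) (hvle k) 2
  obtain ⟨β, α, g, hO⟩ := hv v hsum
  obtain ⟨S, h0, hd, ha, hp, hr1, hQ, hω, hdat⟩ := toSel2 hm1 hc hO.hβ hO.hα hO.hsum hO.hrel
  have hser : ∀ s : ℂ, 1 < s.re → S.G s = LSeries (ff m β) s := by
    intro s hs
    have h3 := S.cont s hs
    rw [h0, pow_zero, one_mul] at h3
    have h4 : S.a = ff m β := funext ha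
    rw [h4] at h3
    exact h3
  refine ⟨S, h0, hd, fun n => ?_, ?_, fun k => ?_⟩
  · rw [ha n]
    refine ⟨Complex.ofReal_im _, ?_⟩
    rw [Complex.norm_real, Real.norm_eq_abs]
    exact abs_fr_le hO.hβ n
  · have h1 := fe_one S h0 hr1 hdat
    rw [hQ, hω] at h1
    exact h1
  · have hτ0 : 0 < tau k := by linarith [hτ1 k]
    have hHM := HM_F hm1 hO S.diff hser (s := (tau k : ℂ) * I) (by simp; linarith) (by simpa using hτ0.ne')
    rw [HM_node hO k] at hHM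
    have e1 : (1 / 2 + (tau k : ℂ) * I / lamH m : ℂ) = 1 / 2 + ((32 * Real.pi * (k + 1) / (4 * m + 3) : ℝ) : ℂ) * I := by
      have e2 : (32 * Real.pi * (k + 1) / (4 * m + 3) : ℝ) = tau k / lamH m := by
        have : (0:ℝ) < 4 * m + 3 := by positivity
        unfold lamH tau
        field_simp
        ring
      rw [e2]
      push_cast; ring
    rw [e1] at hHM
    have h2 : S.G (1 / 2 + ((32 * Real.pi * (k + 1) / (4 * m + 3) : ℝ) : ℂ) * I) = ((v k : ℝ) : ℂ) / Uf m c ((tau k : ℂ) * I) := by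
      rw [hHM, mul_div_cancel_left₀ _ (hne k)]
    rw [h2, hvd]
    push_cast
    ring

end Pool.Agent.Q127.EZ
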